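import Pool.Agent.Lib.MP_dec75e_mp.S.Df
import Pool.Agent.Lib.MP_dec75e_mp.L.Mix

/-! Sums over the assignments of particles to cells. -/

open MeasureTheory Finset Function
open scoped Real

noncomputable section

namespace Pool.Agent.BoseLHY

open Pool.Agent.BoseTail

variable {ι : Type} [Fintype ι] [DecidableEq ι] {C : Type} [Fintype C] [DecidableEq C] {B : Box}
  {Q : C → Box} {k : C} {A : Set ℕ} {F F' : (ι → ProbabilityMeasure R3) → Finset ι → ℝ}
  {u : Vs ι}

theorem act_fib (a : ι → C) (k : C) : Act (asg (fun _ => B.μ) univ Q a) (Q k) (fib a k) := by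
  exact act_asg a k

omit [DecidableEq ι] [Fintype C] [DecidableEq C] in
theorem wt_nonneg_asg2s (a : ι → C) : 0 ≤ ∏ i, (Q (a i)).vol / B.vol :=
  Finset.prod_nonneg fun i _ => (div_pos (Q (a i)).vol_pos B.vol_pos).le

omit [DecidableEq ι] in
theorem act_univ_asg2s : Act (fun _ : ι => B.μ) B univ := fun _ _ => rfl

theorem asum_add : asum B Q k A (fun μ S => F μ S + F' μ S) = asum B Q k A F + asum B Q k A F' := by
  unfold asum
  rw [← Finset.sum_add_distrib]
  refine Finset.sum_congr rfl fun a _ => ?_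
  by_cases h : (fib a k).card ∈ A <;> simp [h, mul_add]

theorem asum_mul (c : ℝ) : asum B Q k A (fun μ S => c * F μ S) = c * asum B Q k A F := by
  unfold asum
  rw [Finset.mul_sum]
  refine Finset.sum_congr rfl fun a _ => ?_
  by_cases h : (fib a k).card ∈ A
  · simp only [Set.indicator_of_mem h]; ring
  · simp [h]

theorem asum_sum {κ : Type} (T : Finset κ) (G : κ → (ι → ProbabilityMeasure R3) → Finset ι → ℝ) :
    asum B Q k A (fun μ S => ∑ m ∈ T, G m μ S) = ∑ m ∈ T, asum B Q k A (G m) := by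
  unfold asum
  rw [Finset.sum_comm]
  refine Finset.sum_congr rfl fun a _ => ?_
  by_cases h : (fib a k).card ∈ A
  · simp only [Set.indicator_of_mem h, Finset.mul_sum]
  · simp [h]

theorem asum_mono (h : ∀ μ S, Act μ (Q k) S → S.card ∈ A → F μ S ≤ F' μ S) :
    asum B Q k A F ≤ asum B Q k A F' := by
  unfold asum
  refine Finset.sum_le_sum fun a _ => mul_le_mul_of_nonneg_left ?_ (wt_nonneg_asg2s a)
  by_cases h' : (fib a k).card ∈ A
  · simp only [Set.indicator_of_mem h']
    exact h _ _ (act_fib a k) h'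
  · simp [h']

theorem asum_congr (h : ∀ μ S, Act μ (Q k) S → S.card ∈ A → F μ S = F' μ S) :
    asum B Q k A F = asum B Q k A F' := by
  exact le_antisymm (asum_mono fun μ S a b => (h μ S a b).le)
    (asum_mono fun μ S a b => (h μ S a b).ge)

theorem asum_nonneg (h : ∀ μ S, Act μ (Q k) S → S.card ∈ A → 0 ≤ F μ S) : 0 ≤ asum B Q k A F := by
  unfold asum
  refine Finset.sum_nonneg fun a _ => mul_nonneg (wt_nonneg_asg2s a) ?_
  by_cases h' : (fib a k).card ∈ A
  · simp only [Set.indicator_of_mem h']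
    exact h _ _ (act_fib a k) h'
  · simp [h']

theorem asum_split : asum B Q k A F + asum B Q k Aᶜ F = asum B Q k Set.univ F := by
  unfold asum
  rw [← Finset.sum_add_distrib]
  refine Finset.sum_congr rfl fun a _ => ?_
  by_cases h : (fib a k).card ∈ A <;> simp [h]

theorem asum_le_univ (h : ∀ μ S, Act μ (Q k) S → 0 ≤ F μ S) :
    asum B Q k A F ≤ asum B Q k Set.univ F := by
  have h1 : 0 ≤ asum B Q k Aᶜ F := asum_nonneg fun μ S a _ => h μ S a
  have h2 := asum_split (B := B) (Q := Q) (k := k) (A := A) (F := F)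
  linarith

/-- An integral whose integrand is known on each assignment (`integral_asg`, `ae_coord`,
`Box.ae_mem`). -/
theorem integral_asum (hP : Part B Q) {Φ : (ι → R3) → ℝ} (hΦ : BM Φ)
    {G : Finset ι → (ι → R3) → ℝ}
    (h : ∀ (a : ι → C) (X : ι → R3), (∀ i, X i ∈ (Q (a i)).set) →
      Φ X = A.indicator (fun _ => G (fib a k) X) (fib a k).card) :
    ∫ X, Φ X ∂pm (fun _ : ι => B.μ) = asum B Q k A fun μ S => ∫ X, G S X ∂pm μ := by
  rw [integral_asg act_univ_asg2s hP hΦ]
  unfold asum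
  refine Finset.sum_congr rfl fun a _ => ?_
  congr 1
  have h1 : ∀ᵐ X ∂pm (asg (fun _ : ι => B.μ) univ Q a), ∀ i, X i ∈ (Q (a i)).set := by
    refine ae_all_iff.2 fun i => ae_coord i ?_
    have : asg (fun _ : ι => B.μ) univ Q a i = (Q (a i)).μ := if_pos (mem_univ i)
    rw [this]
    exact (Q (a i)).ae_mem
  rw [integral_congr_ae (h1.mono fun X hX => h a X hX)]
  by_cases h' : (fib a k).card ∈ A
  · simp only [Set.indicator_of_mem h']
  · simp [h']

/-- An upper bound which holds on each assignment. -/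
theorem integral_le_asum (hP : Part B Q) {Φ : (ι → R3) → ℝ} (hΦ : BM Φ)
    {G : C → (ι → ProbabilityMeasure R3) → Finset ι → ℝ}
    (h : ∀ a : ι → C, ∫ X, Φ X ∂pm (asg (fun _ => B.μ) univ Q a) ≤
      ∑ k, G k (asg (fun _ => B.μ) univ Q a) (fib a k)) :
    ∫ X, Φ X ∂pm (fun _ : ι => B.μ) ≤ ∑ k, asum B Q k Set.univ (G k) := by
  rw [integral_asg act_univ_asg2s hP hΦ]
  unfold asum
  rw [Finset.sum_comm]
  refine Finset.sum_le_sum fun a _ => ?_
  simp only [Set.indicator_univ]
  rw [← Finset.mul_sum]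
  exact mul_le_mul_of_nonneg_left (h a) (wt_nonneg_asg2s a)

/-- Neumann bracketing, keeping the margins: `nq_asg`, `En_asg`, `En_fiber`,
`Finset.card_eq_sum_card_fiberwise`. -/
theorem asg_bound (hP : Part B Q) {w : BF (R3 × R3)} (hw : ∀ z, 0 ≤ w.1 z) (hu : C1 u)
    {A₀ A₁ : ℝ}
    (G : Set ℕ) {F₁ F₂ : C → (ι → ProbabilityMeasure R3) → Finset ι → ℝ}
    (h1 : ∀ k μ S, Act μ (Q k) S → S.card ∈ G →
      (A₀ * S.card + A₁) * nq (ipB μ) u + F₁ k μ S ≤ En μ S w u)
    (h2 : ∀ k μ S, Act μ (Q k) S → S.card ∉ G →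
      (A₀ * S.card + A₁) * nq (ipB μ) u + F₂ k μ S ≤ En μ S w u) :
    (A₀ * Fintype.card ι + Fintype.card C * A₁) * nq (ipB fun _ => B.μ) u +
      ∑ k, asum B Q k G (F₁ k) + ∑ k, asum B Q k Gᶜ (F₂ k) ≤ En (fun _ => B.μ) univ w u := by
  have k1 : ∀ a : ι → C, (A₀ * Fintype.card ι + Fintype.card C * A₁) *
      nq (ipB (asg (fun _ : ι => B.μ) univ Q a)) u +
      ∑ k, G.indicator (fun _ => F₁ k (asg (fun _ => B.μ) univ Q a) (fib a k)) (fib a k).card +
      ∑ k, Gᶜ.indicator (fun _ => F₂ k (asg (fun _ => B.μ) univ Q a) (fib a k)) (fib a k).card ≤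
      En (asg (fun _ : ι => B.μ) univ Q a) univ w u := by
    intro a
    have h3 : (Fintype.card ι : ℝ) = ∑ k, ((fib a k).card : ℝ) := by
      rw [← Finset.card_univ, Finset.card_eq_sum_card_fiberwise (f := a) (s := univ) (t := univ)
        (fun _ _ => Finset.mem_coe.2 (Finset.mem_univ _))]
      push_cast
      rfl
    have h5 := En_fiber (μ := asg (fun _ : ι => B.μ) univ Q a) hw univ a u
    refine le_trans ?_ h5
    have h4 : (A₀ * Fintype.card ι + Fintype.card C * A₁) = ∑ k, (A₀ * (fib a k).card + A₁) := by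
      rw [Finset.sum_add_distrib, ← Finset.mul_sum, ← h3, Finset.sum_const, Finset.card_univ,
        nsmul_eq_mul]
    rw [h4, Finset.sum_mul, ← Finset.sum_add_distrib, ← Finset.sum_add_distrib]
    refine Finset.sum_le_sum fun k _ => ?_
    by_cases hk : (fib a k).card ∈ G
    · rw [Set.indicator_of_mem hk, Set.indicator_of_notMem (by simpa using hk), add_zero]
      exact h1 k _ _ (act_fib a k) hk
    · rw [Set.indicator_of_notMem hk, Set.indicator_of_mem (by simpa using hk), add_zero]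
      exact h2 k _ _ (act_fib a k) hk
  rw [nq_asg act_univ_asg2s hP, En_asg act_univ_asg2s hP w hu]
  unfold asum
  rw [Finset.sum_comm, Finset.sum_comm (f := fun k a => _ * Gᶜ.indicator _ _), Finset.mul_sum,
    ← Finset.sum_add_distrib, ← Finset.sum_add_distrib]
  refine Finset.sum_le_sum fun a _ => ?_
  have h8 := mul_le_mul_of_nonneg_left (k1 a) (wt_nonneg_asg2s (B := B) (Q := Q) a)
  rw [← Finset.mul_sum, ← Finset.mul_sum]
  linarith

end Pool.Agent.BoseLHY
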