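import Pool.Agent.Lib.MP_dec75e_mp.S.Df
import Pool.Agent.Lib.MP_dec75e_mp.U.CcrA

/-! Bessel inequalities for vector valued coefficients. -/

open MeasureTheory Finset Function
open scoped Real

noncomputable section

namespace Pool.Agent.BoseLHY

open Pool.Agent.BoseTail

variable {V : Type} [AddCommGroup V] [Module ℝ V] {β : V →ₗ[ℝ] V →ₗ[ℝ] ℝ} {J : Module.End ℝ V}

theorem cz_apply (p q : ℝ) (f : V) : cz J p q f = p • f - q • J f := rfl

theorem Cx.self (hβ : PSD β) (h : Cx β J) (f : V) : β f (J f) = 0 := by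
  have h1 := h.adj f f
  rw [hβ.symm] at h1
  linarith

theorem Cx.nq (h : Cx β J) (f : V) : nq β (J f) = nq β f := by
  unfold BoseLHY.nq
  rw [h.adj, h.sq, map_neg, neg_neg]

theorem Cx.cz_adj (h : Cx β J) (p q : ℝ) (f g : V) : β (cz J p q f) g = β f (cz J p (-q) g) := by
  simp only [cz_apply, map_sub, map_smul, LinearMap.sub_apply, LinearMap.smul_apply, smul_eq_mul,
    h.adj]
  ring

theorem cz_comm {A : Module.End ℝ V} (hA : ∀ f, A (J f) = J (A f)) (p q : ℝ) (f : V) :
    A (cz J p q f) = cz J p q (A f) := by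
  simp only [cz_apply, map_sub, map_smul, hA]

theorem cz_mul (c p q : ℝ) (f : V) : cz J (p * c) (q * c) f = cz J p q (c • f) := by
  rw [cz_apply, cz_apply, map_smul, smul_smul, smul_smul]

/-- The Gram matrix of the vectors `v i` is positive semidefinite, hence a sum of squares
(`Matrix.posSemidef_iff_eq_sum_vecMulVec` on the subtype of `I`): `β (v i) (v j) = ∑ x i * x j`. -/
theorem bes_real (hβ : PSD β) {ρ ι : Type} (R : Finset ρ) (I : Finset ι) (r : ρ → ι → ℝ)
    (h : ∀ x : ι → ℝ, ∑ k ∈ R, (∑ i ∈ I, r k i * x i) ^ 2 ≤ ∑ i ∈ I, x i ^ 2) (v : ι → V) :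
    ∑ k ∈ R, nq β (∑ i ∈ I, r k i • v i) ≤ ∑ i ∈ I, nq β (v i) := by
  classical
  have hG : (Matrix.of fun i j : I => β (v i) (v j)).PosSemidef := by
    refine Matrix.PosSemidef.of_dotProduct_mulVec_nonneg ?_ fun x => ?_
    · ext i j
      simp [hβ.symm (v j)]
    · have h1 := hβ.nonneg (∑ i : I, x i • v i)
      simp only [map_sum, map_smul, LinearMap.sum_apply, LinearMap.smul_apply, smul_eq_mul] at h1
      simp only [dotProduct, Matrix.mulVec, Matrix.of_apply, star_trivial]
      refine h1.trans (le_of_eq ?_)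
      refine Finset.sum_congr rfl fun i _ => ?_
      congr 1
      exact Finset.sum_congr rfl fun j _ => by rw [hβ.symm, mul_comm]
  obtain ⟨n, w, hw⟩ := Matrix.posSemidef_iff_eq_sum_vecMulVec.1 hG
  have hβ' : ∀ i j : I, β (v i) (v j) = ∑ a, w a i * w a j := by
    intro i j
    have := congrFun (congrFun hw i) j
    simpa [Matrix.sum_apply, Matrix.vecMulVec_apply] using this
  have h1 : ∀ c : ι → ℝ, nq β (∑ i ∈ I, c i • v i) = ∑ a, (∑ i : I, c i * w a i) ^ 2 := by
    intro c
    rw [← Finset.sum_coe_sort I]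
    unfold nq
    simp only [map_sum, map_smul, LinearMap.sum_apply, LinearMap.smul_apply, smul_eq_mul, hβ', sq,
      Finset.sum_mul, Finset.mul_sum]
    rw [Finset.sum_comm]
    conv_rhs => rw [Finset.sum_comm]
    refine Finset.sum_congr rfl fun i _ => ?_
    rw [Finset.sum_comm]
    exact Finset.sum_congr rfl fun j _ => Finset.sum_congr rfl fun a _ => by ring
  have h2 : ∑ i ∈ I, nq β (v i) = ∑ a, ∑ i : I, w a i ^ 2 := by
    rw [← Finset.sum_coe_sort I, Finset.sum_comm]
    refine Finset.sum_congr rfl fun i _ => ?_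
    unfold nq
    rw [hβ']
    simp only [sq]
  simp only [h1]
  rw [h2, Finset.sum_comm]
  refine Finset.sum_le_sum fun a _ => ?_
  have h3 := h fun i => if hi : i ∈ I then w a ⟨i, hi⟩ else 0
  rw [← Finset.sum_coe_sort I] at h3
  simp only [← Finset.sum_coe_sort I, Finset.coe_mem, dite_true, Subtype.coe_eta] at h3
  exact h3

variable {τ ι : Type} {S : Finset τ} {I : Finset ι} {p q : τ → ι → ℝ}

theorem BesH.neg (h : BesH S I p q) : BesH S I p fun k i => -q k i := by
  intro x y
  have h1 := h y x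
  refine le_trans (le_of_eq ?_) (h1.trans (le_of_eq ?_))
  · refine Finset.sum_congr rfl fun k _ => ?_
    rw [add_comm]
    congr 2 <;> exact Finset.sum_congr rfl fun i _ => by ring
  · exact Finset.sum_congr rfl fun i _ => add_comm _ _

/-- Restriction to one cell: extend the coefficients by zero. -/
theorem BesH.box {C κ : Type} [Fintype C] [DecidableEq C] {L : Finset κ} {p q : τ → C × κ → ℝ}
    (h : BesH S (univ ×ˢ L) p q) (j : C) :
    BesH S L (fun k m => p k (j, m)) fun k m => q k (j, m) := by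
  intro x y
  have h1 := h (fun z => if z.1 = j then x z.2 else 0) (fun z => if z.1 = j then y z.2 else 0)
  have h2 : ∀ F : C × κ → ℝ, (∀ z : C × κ, z.1 ≠ j → F z = 0) →
      ∑ z ∈ univ ×ˢ L, F z = ∑ m ∈ L, F (j, m) := by
    intro F hF
    rw [Finset.sum_product, Finset.sum_eq_single j]
    · exact fun b _ hb => Finset.sum_eq_zero fun m _ => hF (b, m) hb
    · exact fun hj => absurd (mem_univ j) hj
  rw [h2 _ fun z hz => by simp [hz]] at h1
  refine le_trans (le_of_eq ?_) (h1.trans (le_of_eq ?_))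
  · refine Finset.sum_congr rfl fun k _ => ?_
    rw [h2 _ fun z hz => by simp [hz], h2 _ fun z hz => by simp [hz]]
    simp
  · simp

/-- `bes_real` for the vectors `v i` and `-J (v i)` (index set `I ×ˢ univ` in `ι × Bool`) and the
rows `(p, q)`, `(-q, p)`; the second row gives `-J` of the first. -/
theorem BesH.vec (hβ : PSD β) (hJ : Cx β J) (h : BesH S I p q) (v : ι → V) :
    ∑ k ∈ S, nq β (∑ i ∈ I, cz J (p k i) (q k i) (v i)) ≤ ∑ i ∈ I, nq β (v i) := by
  have key := bes_real hβ (S ×ˢ (univ : Finset Bool)) (I ×ˢ (univ : Finset Bool))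
    (fun k i => if k.2 then (if i.2 then p k.1 i.1 else q k.1 i.1)
      else (if i.2 then -q k.1 i.1 else p k.1 i.1))
    (fun x => by
      have h1 := h (fun i => x (i, true)) (fun i => x (i, false))
      simp only [Finset.sum_product, Fintype.sum_bool, if_true, Bool.false_eq_true, if_false]
      refine le_trans (le_of_eq ?_) h1
      refine Finset.sum_congr rfl fun k _ => ?_
      congr 2
      exact Finset.sum_congr rfl fun i _ => by ring)
    (fun i => if i.2 then v i.1 else -J (v i.1))
  simp only [Finset.sum_product, Fintype.sum_bool, if_true, Bool.false_eq_true, if_false] at key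
  have h1 : ∀ k, ∑ i ∈ I, (p k i • v i + q k i • -J (v i)) = ∑ i ∈ I, cz J (p k i) (q k i) (v i) :=
    fun k => Finset.sum_congr rfl fun i _ => by rw [cz_apply, smul_neg, sub_eq_add_neg]
  have h2 : ∀ k, ∑ i ∈ I, (-q k i • v i + p k i • -J (v i)) =
      J (-∑ i ∈ I, cz J (p k i) (q k i) (v i)) := by
    intro k
    rw [map_neg, map_sum, ← Finset.sum_neg_distrib]
    refine Finset.sum_congr rfl fun i _ => ?_
    rw [cz_apply, map_sub, map_smul, map_smul, hJ.sq]
    simp only [smul_neg, neg_smul]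
    abel
  have h3 : ∀ f : V, nq β (-f) = nq β f := fun f => by simp [nq]
  simp only [h1, h2, hJ.nq, h3, Finset.sum_add_distrib] at key
  linarith

/-- The off-diagonal terms of the two sums agree. -/
theorem nq_sum_comm (hβ : PSD β) {C : Type} [Fintype C] [DecidableEq C]
    (A A' : C → Module.End ℝ V) (adj : ∀ j f g, β (A j f) g = β f (A' j g))
    (hc : ∀ j j', j ≠ j' → ∀ f, A' j (A j' f) = A j' (A' j f)) (f : V) :
    ∑ j, (nq β (A j f) - nq β (A' j f)) ≤ nq β (∑ j, A j f) := by
  have h1 := hβ.nq_sum univ fun j => A j f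
  have h2 := hβ.nq_sum univ fun j => A' j f
  have h3 := hβ.nq_nonneg (∑ j, A' j f)
  have h4 : ∑ k, ∑ l ∈ univ.erase k, β (A k f) (A l f) =
      ∑ k, ∑ l ∈ univ.erase k, β (A' k f) (A' l f) := by
    refine Finset.sum_congr rfl fun k _ => Finset.sum_congr rfl fun l hl => ?_
    rw [adj, hc k l (Finset.ne_of_mem_erase hl).symm, hβ.symm, adj]
  rw [Finset.sum_sub_distrib]
  linarith

end Pool.Agent.BoseLHY
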