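import Pool.Agent.Lib.MP_dec75e_mp.S.Df
import Pool.Agent.Lib.MP_dec75e_mp.L.Bog

/-! Scalar inequalities for a mode with a perturbed pairing term. -/

open MeasureTheory Finset Function
open scoped Real

noncomputable section

namespace Pool.Agent.BoseLHY

open Pool.Agent.BoseTail

theorem sg_nonneg (t : ℝ) : 0 ≤ sg t := by
  exact Real.sqrt_nonneg _

theorem sg_sq {t : ℝ} (ht : 0 < t) : sg t ^ 2 = gB √t / 2 := by
  have := (gB_bounds ht).1
  exact Real.sq_sqrt (by positivity)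

theorem gm_sq {t : ℝ} (ht : 0 < t) : gm t ^ 2 = 1 + sg t ^ 2 := by
  have := (gB_bounds ht).1
  rw [sg_sq ht]
  exact Real.sq_sqrt (by positivity)

theorem one_le_gm {t : ℝ} (ht : 0 < t) : 1 ≤ gm t := by
  have := (gB_bounds ht).1
  exact Real.le_sqrt_of_sq_le (by linarith)

/-- `gB_eq_bog`. -/
theorem gm_add {t : ℝ} (ht : 0 < t) : (gm t ^ 2 + sg t ^ 2) * √(t ^ 2 + 2 * t * 1) = t + 1 := by
  have hD : 0 < √(t ^ 2 + 2 * t * 1) := Real.sqrt_pos.2 (by positivity)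
  rw [gm_sq ht, sg_sq ht, gB_eq_bog ht]
  field_simp
  ring

/-- Both sides are nonnegative and have the same square. -/
theorem gm_mul {t : ℝ} (ht : 0 < t) : 2 * gm t * sg t * √(t ^ 2 + 2 * t * 1) = 1 := by
  have hD2 : √(t ^ 2 + 2 * t * 1) ^ 2 = t ^ 2 + 2 * t * 1 := Real.sq_sqrt (by positivity)
  have h1 := gm_add ht
  have h2 := gm_sq ht
  have h3 := one_le_gm ht
  have h4 := sg_nonneg t
  have h5 := Real.sqrt_nonneg (t ^ 2 + 2 * t * 1)
  set D := √(t ^ 2 + 2 * t * 1)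
  have h6 : (2 * gm t * sg t * D) ^ 2 = 1 ^ 2 := by
    have e : (2 * gm t * sg t * D) ^ 2 =
        ((gm t ^ 2 + sg t ^ 2) * D) ^ 2 - (gm t ^ 2 - sg t ^ 2) ^ 2 * D ^ 2 := by ring
    rw [e, h1, hD2, h2]
    ring
  exact (pow_left_inj₀ (by positivity) zero_le_one two_ne_zero).1 h6

theorem bog2_scale {μ : ℝ} (hμ : 0 < μ) (A B : ℝ) : bog2 (μ * A) (μ * B) = μ * bog2 A B := by
  unfold bog2
  have : (μ * A) ^ 2 - (μ * B) ^ 2 = μ ^ 2 * (A ^ 2 - B ^ 2) := by ring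
  rw [this, Real.sqrt_mul (by positivity), Real.sqrt_sq hμ.le]
  ring

/-- As `bog_le`: with `z = x / n`, `A = τ + n l`, `B = n l'`, `u = z + N / 2`, `v = N / 2`:
`|B| √(u² - v²) + √(A² - B²) v ≤ A u`. The case `n = 0` is trivial. -/
theorem bog2_le {n τ l l' x oc N pr : ℝ} (hn : 0 ≤ n) (hτ : 0 ≤ τ) (hx : 0 ≤ x) (ho : 0 ≤ oc)
    (hN : 0 ≤ N) (hxo : x ≤ n * oc) (hp : |pr| ≤ √x * √(x + n * N)) (hB : |n * l'| ≤ τ + n * l) :
    bog2 (τ + n * l) (n * l') * N ≤ τ * oc + l * x + l' * pr := by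
  rcases hn.eq_or_lt with rfl | hn
  · have hx0 : x = 0 := by linarith
    subst hx0
    have hp0 : pr = 0 := by simpa using hp
    subst hp0
    have e : bog2 (τ + 0 * l) (0 * l') = 0 := by
      unfold bog2
      simp [Real.sqrt_sq hτ]
    rw [e]
    nlinarith [mul_nonneg hτ ho]
  · set W := √x * √(x + n * N) with hW
    set b := |n * l'| with hb
    have hb0 : 0 ≤ b := abs_nonneg _
    have hb2 : b ^ 2 = (n * l') ^ 2 := sq_abs _
    have hA0 : 0 ≤ τ + n * l := hb0.trans hB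
    set S := √((τ + n * l) ^ 2 - (n * l') ^ 2) with hS
    have hW2 : W ^ 2 = x * (x + n * N) := by
      rw [hW, mul_pow, Real.sq_sqrt hx, Real.sq_sqrt (by positivity)]
    have hS2 : S ^ 2 = (τ + n * l) ^ 2 - b ^ 2 := by
      rw [hb2]
      refine Real.sq_sqrt ?_
      rw [← hb2]
      nlinarith
    have hcs : b * W + S * (n * N / 2) ≤ (τ + n * l) * (x + n * N / 2) := by
      refine (abs_le_of_sq_le_sq' ?_ (by positivity)).2
      have e1 : ((τ + n * l) * (x + n * N / 2)) ^ 2 =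
          (b ^ 2 + S ^ 2) * (W ^ 2 + (n * N / 2) ^ 2) := by
        rw [hW2, hS2]; ring
      rw [e1]
      nlinarith [sq_nonneg (b * (n * N / 2) - S * W)]
    have h2 : -(b * W) ≤ n * l' * pr := by
      have h3 : |n * l' * pr| ≤ b * W := by
        rw [abs_mul]
        exact mul_le_mul_of_nonneg_left hp hb0
      exact (abs_le.1 h3).1
    refine le_of_mul_le_mul_left ?_ hn
    unfold bog2
    rw [← hS]
    have h1 : τ * x ≤ τ * (n * oc) := mul_le_mul_of_nonneg_left hxo hτ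
    nlinarith

/-- With `D = √(t² + 2 t) ≥ t`: `A₀ = (D - e) (t + 1) / D`, `B₀ = (D - e) / D` (`gm_add`, `gm_mul`),
`A₀² - B₀² = (D - e)²`, `bog2 A₀ B₀ = bog t 1 + e * sg t ^ 2`; then
`√x ≥ √x₀ - |x - x₀| / √x₀` with `|x - x₀| ≤ 2 d (t + 3)` and `√x₀ ≥ t / 2`. -/
theorem bog2_sens {t e A B d : ℝ} (ht : 0 < t) (he0 : 0 ≤ e) (he : e ≤ t / 2) (hd : d ≤ t / 8)
    (hd1 : d ≤ 1) (hA : |A - (t + 1 - e * (gm t ^ 2 + sg t ^ 2))| ≤ d)
    (hB : |B - (1 - 2 * e * gm t * sg t)| ≤ d) :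
    |B| ≤ A ∧ bog t 1 + e * sg t ^ 2 - 9 * (1 + 1 / t) * d ≤ bog2 A B := by
  have hD2 : √(t ^ 2 + 2 * t * 1) ^ 2 = t ^ 2 + 2 * t * 1 := Real.sq_sqrt (by positivity)
  have hDt : t ≤ √(t ^ 2 + 2 * t * 1) := sqrt_lo_bog ht.le zero_le_one
  have h1 := gm_add ht
  have h2 := gm_sq ht
  have h3 := gm_mul ht
  have hd0 : 0 ≤ d := (abs_nonneg _).trans hA
  unfold bog
  set D := √(t ^ 2 + 2 * t * 1)
  have hD : 0 < D := by linarith
  obtain ⟨r, hr⟩ : ∃ r, r = (D - e) / D := ⟨_, rfl⟩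
  have hrD : r * D = D - e := by rw [hr]; field_simp
  have hr1 : r ≤ 1 := by rw [hr, div_le_one hD]; linarith
  have hr2 : 1 / 2 ≤ r := by rw [hr, le_div_iff₀ hD]; linarith
  have eA : t + 1 - e * (gm t ^ 2 + sg t ^ 2) = (t + 1) * r := by
    refine mul_right_cancel₀ hD.ne' ?_
    rw [mul_assoc, hrD, sub_mul, mul_assoc, h1]
    ring
  have eB : 1 - 2 * e * gm t * sg t = r := by
    refine mul_right_cancel₀ hD.ne' ?_
    rw [hrD]
    linear_combination (-e) * h3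
  have eA' : (t + 1) * r = t + 1 - e * (1 + 2 * sg t ^ 2) := by
    rw [← eA, h2]; ring
  rw [eA] at hA
  rw [eB] at hB
  obtain ⟨hA1, hA2⟩ := abs_le.1 hA
  obtain ⟨hB1, hB2⟩ := abs_le.1 hB
  have htr : t / 2 ≤ t * r := by nlinarith
  have hBA : |B| ≤ A := by
    rw [abs_le]
    constructor <;> nlinarith
  refine ⟨hBA, ?_⟩
  obtain ⟨c, hc⟩ : ∃ c, c = 1 / t := ⟨_, rfl⟩
  have hc0 : 0 < c := by rw [hc]; positivity
  have hct : c * t = 1 := by rw [hc]; field_simp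
  rw [← hc]
  have hx : (D - e) ^ 2 - 2 * d * (t + 3) ≤ A ^ 2 - B ^ 2 := by
    have e1 : (D - e) ^ 2 = ((t + 1) * r) ^ 2 - r ^ 2 := by
      rw [← hrD, mul_pow, hD2]; ring
    have a1 : 0 ≤ (t + 1) * r - d := by nlinarith
    have a2 : ((t + 1) * r - d) ^ 2 ≤ A ^ 2 := pow_le_pow_left₀ a1 (by linarith) 2
    have a3 : B ^ 2 ≤ (r + d) ^ 2 := sq_le_sq' (by linarith) (by linarith)
    have a4 : d * ((t + 1) * r) ≤ d * (t + 1) :=
      mul_le_mul_of_nonneg_left (by nlinarith) hd0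
    have a5 : d * r ≤ d * 1 := mul_le_mul_of_nonneg_left hr1 hd0
    rw [e1]
    nlinarith
  have hs : D - e - 12 * (1 + c) * d ≤ √(A ^ 2 - B ^ 2) := by
    rcases le_total (D - e) (12 * (1 + c) * d) with h | h
    · exact le_trans (by linarith) (Real.sqrt_nonneg _)
    · refine Real.le_sqrt_of_sq_le (le_trans ?_ hx)
      have b1 : t / 2 ≤ D - e := by linarith
      have b0 : 0 ≤ 12 * (1 + c) * d := by positivity
      have b2 : 12 * (1 + c) * d * (12 * (1 + c) * d) ≤ 12 * (1 + c) * d * (D - e) :=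
        mul_le_mul_of_nonneg_left h b0
      have b3 : 12 * (1 + c) * d * (t / 2) ≤ 12 * (1 + c) * d * (D - e) :=
        mul_le_mul_of_nonneg_left b1 b0
      have b4 : 12 * (1 + c) * d * (t / 2) = 6 * d * (t + 1) := by
        linear_combination (6 * d) * hct
      nlinarith [mul_nonneg hd0 ht.le]
  unfold bog2
  nlinarith [mul_nonneg hc0.le hd0]

end Pool.Agent.BoseLHY
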