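import Pool.Agent.Lib.MP_dec75e_mp.S.Mop
import Pool.Agent.Lib.MP_dec75e_mp.U.OrthG
import Pool.Agent.Lib.MP_dec75e_mp.L.Prt
import Pool.Agent.Lib.MP_dec75e_mp.L.Par3

/-! The local structure of the Fock space over a partition in cells. -/

open MeasureTheory Finset Function
open scoped Real

noncomputable section

namespace Pool.Agent.BoseLHY

open Pool.Agent.BoseTail

section
variable {C : Type} [Fintype C] [DecidableEq C] {B : Box} {Q : C → Box}

theorem hb_of_mem {k : C} {x : R3} (hx : x ∈ (Q k).set) (m : M3) :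
    (hb Q (k, m)).1 x = (√(Q k).vol)⁻¹ * ((Q k).e m).1 x := by
  exact ext0_of_mem _ _ hx

theorem hb_of_notMem {k : C} {x : R3} (hx : x ∉ (Q k).set) (m : M3) : (hb Q (k, m)).1 x = 0 := by
  exact ext0_of_notMem _ _ hx

/-- `Part.integral_ind`. -/
theorem integral_hb (hP : Part B Q) (k : C) (m : M3) (f : R3 → ℝ) :
    B.vol * ∫ x, (hb Q (k, m)).1 x * f x ∂(B.μ : Measure R3) =
      √(Q k).vol * ∫ x, ((Q k).e m).1 x * f x ∂((Q k).μ : Measure R3) := by
  have hv := (Q k).vol_pos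
  have hB := B.vol_pos
  have h1 : ∀ x, (hb Q (k, m)).1 x * f x =
      (Q k).set.indicator (fun x => (√(Q k).vol)⁻¹ * (((Q k).e m).1 x * f x)) x := by
    intro x
    by_cases hx : x ∈ (Q k).set
    · rw [Set.indicator_of_mem hx, hb_of_mem hx, mul_assoc]
    · rw [Set.indicator_of_notMem hx, hb_of_notMem hx, zero_mul]
  simp only [h1]
  rw [hP.integral_ind, integral_const_mul]
  have h2 : 0 < √(Q k).vol := Real.sqrt_pos.2 hv
  have h3 : (Q k).vol = √(Q k).vol * √(Q k).vol := (Real.mul_self_sqrt hv.le).symm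
  generalize √(Q k).vol = s at h2 h3 ⊢
  rw [h3]
  field_simp

theorem orth_hb (hP : Part B Q) (s : Finset (C × M3)) : Orth B.μ B.vol s (hb Q) := by
  rintro ⟨k, m⟩ - ⟨k', m'⟩ -
  rw [integral_hb hP]
  by_cases hk : k = k'
  · subst hk
    have h2 : 0 < √(Q k).vol := Real.sqrt_pos.2 (Q k).vol_pos
    have h1 : ∫ x, ((Q k).e m).1 x * (hb Q (k, m')).1 x ∂((Q k).μ : Measure R3) =
        ∫ x, (√(Q k).vol)⁻¹ * (((Q k).e m).1 x * ((Q k).e m').1 x) ∂((Q k).μ : Measure R3) := by
      refine integral_congr_ae ((Q k).ae_mem.mono fun x hx => ?_)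
      simp only [hb_of_mem hx]
      ring
    rw [h1, integral_const_mul, (Q k).orth, ← mul_assoc, mul_inv_cancel₀ h2.ne', one_mul]
    simp
  · have h1 : ∫ x, ((Q k).e m).1 x * (hb Q (k', m')).1 x ∂((Q k).μ : Measure R3) =
        ∫ _x, (0 : ℝ) ∂((Q k).μ : Measure R3) := by
      refine integral_congr_ae ((Q k).ae_mem.mono fun x hx => ?_)
      have : x ∉ (Q k').set := fun hx' => hk (hP.disj k k' x hx hx')
      simp only [hb_of_notMem this, mul_zero]
    rw [h1, if_neg fun h => hk (congrArg Prod.fst h)]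
    simp

/-- `fip_cre`, `ann_cre`, `ann_ann`, `cre_cre` and the lemmas on `Mop`. -/
theorem loc_fk (hP : Part B Q) (T : Finset M3) :
    Loc (fip B.μ B.vol B.vol_pos) (fun x => ann (hb Q x)) (fun x => cre (hb Q x))
      (fun k => Mop (Q k).set (Q k).measurableSet_set) T := by
  have hout : ∀ k k' : C, k ≠ k' → ∀ m : M3, ∀ x, x ∈ (Q k').set → (hb Q (k, m)).1 x = 0 :=
    fun k k' hk m x hx => hb_of_notMem (fun hx' => hk (hP.disj k k' x hx' hx)) m
  refine ⟨⟨psd_fip, fun x _ f g => fip_cre _ f g, fun x hx x' hx' f => ?_,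
    fun x _ x' _ f => ann_ann _ _ f, fun x _ x' _ f => cre_cre _ _ f⟩,
    fun k A => Mop_sa, fun k A A' f => Mop_mul f, fun k A f => Mop_compl f,
    fun k m _ A f => ann_Mop_in (fun x hx => hb_of_notMem hx m) f,
    fun k m _ A f => Mop_cre_in (fun x hx => hb_of_notMem hx m) f,
    fun k k' hk m _ A f => ann_Mop_out (hout k k' hk m) f,
    fun k k' hk m _ A f => cre_Mop_out (hout k k' hk m) f,
    fun k k' A A' f => Mop_comm f,
    fun k m hm n f => nq_ann_Mop (fun x hx => hb_of_notMem hx m) ?_ n f⟩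
  · rw [ann_cre, orth_hb hP _ x hx x' hx']
    split_ifs <;> simp
  · rw [orth_hb hP {(k, m)} _ (mem_singleton_self _) _ (mem_singleton_self _), if_pos rfl]

end

variable {V : Type} [AddCommGroup V] [Module ℝ V] {C κ : Type} [Fintype C] [DecidableEq C]
  [DecidableEq κ] {β : V →ₗ[ℝ] V →ₗ[ℝ] ℝ}

theorem pf_apply (f g : V × V) : pf β f g = β f.1 g.1 + β f.2 g.2 := rfl

theorem nq_pf (f : V × V) : nq (pf β) f = nq β f.1 + nq β f.2 := rfl

theorem dup_apply (A : Module.End ℝ V) (f : V × V) : dup A f = (A f.1, A f.2) := rfl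

theorem rotJ_apply (f : V × V) : rotJ f = (-f.2, f.1) := rfl

theorem cz_rot (p q : ℝ) (f : V × V) :
    cz rotJ p q f = (p • f.1 + q • f.2, p • f.2 - q • f.1) := by
  refine Prod.ext ?_ ?_
  · change p • f.1 - q • (-f.2) = p • f.1 + q • f.2
    rw [smul_neg, sub_neg_eq_add]
  · rfl

theorem dup_rot (A : Module.End ℝ V) (f : V × V) : dup A (rotJ f) = rotJ (dup A f) := by
  rw [dup_apply, rotJ_apply, rotJ_apply, dup_apply, map_neg]

theorem cx_rot : Cx (pf β) (rotJ : Module.End ℝ (V × V)) := by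
  refine ⟨fun f g => ?_, fun f => ?_⟩
  · simp only [pf_apply, rotJ_apply, map_neg, LinearMap.neg_apply]
    ring
  · rw [rotJ_apply, rotJ_apply]
    rfl

theorem Loc.dup {a ad : C × κ → Module.End ℝ V} {M : C → Set ℕ → Module.End ℝ V} {T : Finset κ}
    (h : Loc β a ad M T) :
    Loc (pf β) (fun x => dup (a x)) (fun x => dup (ad x)) (fun k A => dup (M k A)) T := by
  have hp := h.ccr.psd
  refine ⟨⟨⟨fun f g => ?_, fun f => add_nonneg (hp.nonneg _) (hp.nonneg _)⟩, fun x hx f g => ?_,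
    fun x hx x' hx' f => ?_,
    fun x hx x' hx' f => Prod.ext (h.ccr.cc x hx x' hx' _) (h.ccr.cc x hx x' hx' _),
    fun x hx x' hx' f => Prod.ext (h.ccr.dd x hx x' hx' _) (h.ccr.dd x hx x' hx' _)⟩,
    fun k A f g => ?_, fun k A A' f => Prod.ext (h.mul k A A' _) (h.mul k A A' _),
    fun k A f => Prod.ext (h.compl k A _) (h.compl k A _),
    fun k m hm A f => Prod.ext (h.low k m hm A _) (h.low k m hm A _),
    fun k m hm A f => Prod.ext (h.up k m hm A _) (h.up k m hm A _),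
    fun k k' hk m hm A f => Prod.ext (h.xa k k' hk m hm A _) (h.xa k k' hk m hm A _),
    fun k k' hk m hm A f => Prod.ext (h.xd k k' hk m hm A _) (h.xd k k' hk m hm A _),
    fun k k' A A' f => Prod.ext (h.xm k k' A A' _) (h.xm k k' A A' _), fun k m hm n f => ?_⟩
  · rw [pf_apply, pf_apply, hp.symm f.1, hp.symm f.2]
  · exact congrArg₂ (· + ·) (h.ccr.adj x hx _ _) (h.ccr.adj x hx _ _)
  · have h1 := h.ccr.ccr x hx x' hx' f.1
    have h2 := h.ccr.ccr x hx x' hx' f.2
    by_cases hx : x = x'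
    · rw [if_pos hx] at h1 h2 ⊢
      exact Prod.ext h1 h2
    · rw [if_neg hx] at h1 h2 ⊢
      exact Prod.ext h1 h2
  · exact congrArg₂ (· + ·) (h.sa k A _ _) (h.sa k A _ _)
  · have h1 := add_le_add (h.num k m hm n f.1) (h.num k m hm n f.2)
    rw [← mul_add] at h1
    exact h1

end Pool.Agent.BoseLHY
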