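import Pool.Agent.Lib.MP_dec75e_mp.S.Emb
import Pool.Agent.Lib.MP_dec75e_mp.S.LocF
import Pool.Agent.Lib.MP_dec75e_mp.S.Asg2
import Pool.Agent.Lib.MP_dec75e_mp.L.GA

/-! Expectation values in the Fock space as sums over assignments. -/

open MeasureTheory Finset Function
open scoped Real

noncomputable section

namespace Pool.Agent.BoseLHY

open Pool.Agent.BoseTail

variable {C : Type} [Fintype C] [DecidableEq C] {B : Box} {Q : C → Box} {N : ℕ}
  {u u' : Vs (Fin N)} {Ψ Φ : FK B.μ B.vol B.vol_pos}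

omit [DecidableEq C] in
theorem mem_iff_brgs (hP : Part B Q) {a : Fin N → C} {X : Fin N → R3}
    (hX : ∀ i, X i ∈ (Q (a i)).set) (k : C) (i : Fin N) : X i ∈ (Q k).set ↔ a i = k :=
  ⟨fun h => hP.disj _ _ _ (hX i) h, fun h => h ▸ hX i⟩

theorem cnt_fib (hP : Part B Q) {a : Fin N → C} {X : Fin N → R3} (hX : ∀ i, X i ∈ (Q (a i)).set)
    (k : C) : cnt (Q k).set (ms X) = (fib a k).card := by
  rw [cnt_ms, fib, Finset.card_filter]
  refine Finset.sum_congr rfl fun i _ => ?_
  by_cases h : a i = k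
  · rw [if_pos h, if_pos ((mem_iff_brgs hP hX k i).2 h)]
  · rw [if_neg h, if_neg fun h' => h ((mem_iff_brgs hP hX k i).1 h')]

theorem mop_ms_brgs (hP : Part B Q) (h : Emb u Ψ.1) (k : C) (A : Set ℕ)
    {a : Fin N → C} {X : Fin N → R3} (hX : ∀ i, X i ∈ (Q (a i)).set) :
    (Mop (Q k).set (Q k).measurableSet_set A Ψ).1 (ms X) =
      A.indicator (fun _ => u.1 X) (fib a k).card := by
  rw [Mop_apply, cnt_fib hP hX k, h.eq X]

omit [Fintype C] [DecidableEq C] in
theorem mop_ne_brgs (h : Emb u Ψ.1) (k : C) (A : Set ℕ) (t : Multiset R3) (ht : t.card ≠ N) :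
    (Mop (Q k).set (Q k).measurableSet_set A Ψ).1 t = 0 := by
  rw [Mop_apply, h.ne t ht]
  by_cases h' : cnt (Q k).set t ∈ A <;> simp [h']

theorem ann_er_brgs (hP : Part B Q) (h : Emb u Ψ.1) (k : C) (A : Set ℕ) (m : M3)
    {a : Fin N → C} {X : Fin N → R3} (hX : ∀ i, X i ∈ (Q (a i)).set) {i : Fin N} (hi : a i = k) :
    (ann (hb Q (k, m)) (Mop (Q k).set (Q k).measurableSet_set A Ψ)).1 (er X i) =
      √(Q k).vol * A.indicator (fun _ => (co (Q k) i m u).1 X) (fib a k).card := by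
  have e1 : (ann (hb Q (k, m)) (Mop (Q k).set (Q k).measurableSet_set A Ψ)).1 (er X i) =
      B.vol * ∫ y, (hb Q (k, m)).1 y *
        (Mop (Q k).set (Q k).measurableSet_set A Ψ).1 (y ::ₘ er X i) ∂(B.μ : Measure R3) := rfl
  rw [e1, integral_hb hP k m]
  congr 1
  have e2 : ∀ y ∈ (Q k).set, (Mop (Q k).set (Q k).measurableSet_set A Ψ).1 (y ::ₘ er X i) =
      A.indicator (fun _ => u.1 (update X i y)) (fib a k).card := by
    intro y hy
    rw [cons_er]
    refine mop_ms_brgs hP h k A fun j => ?_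
    by_cases hj : j = i
    · subst hj
      rw [update_self, hi]
      exact hy
    · rw [update_of_ne hj]
      exact hX j
  by_cases hA : (fib a k).card ∈ A
  · rw [Set.indicator_of_mem hA, co_val_op3]
    refine integral_congr_ae ?_
    filter_upwards [(Q k).ae_mem] with y hy
    rw [e2 y hy, Set.indicator_of_mem hA]
  · rw [Set.indicator_of_notMem hA]
    refine integral_eq_zero_of_ae ?_
    filter_upwards [(Q k).ae_mem] with y hy
    rw [e2 y hy, Set.indicator_of_notMem hA, mul_zero]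
    rfl

theorem dd_val_brgs (D : Box) (S : Finset (Fin N)) (m' m : M3) (X : Fin N → R3) :
    (DD D S m' m u).1 X = ∑ i ∈ S, (D.e m').1 (X i) * (co D i m u).1 X := by
  unfold DD
  rw [LinearMap.sum_apply, AddSubmonoidClass.coe_finsetSum, Finset.sum_apply]
  rfl

/-- `creF_ms`; only the particles of the fibre contribute; `cons_er`, `integral_hb`,
`co_val_op3`; replacing `X i ∈ Q k` by `y ∈ Q k` does not change `cnt`. -/
theorem Emb.cre_ann (hP : Part B Q) (h : Emb u Ψ.1) (k : C) (A : Set ℕ) (m' m : M3)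
    {a : Fin N → C} {X : Fin N → R3} (hX : ∀ i, X i ∈ (Q (a i)).set) :
    (cre (hb Q (k, m')) (ann (hb Q (k, m)) (Mop (Q k).set (Q k).measurableSet_set A Ψ))).1 (ms X) =
      A.indicator (fun _ => (DD (Q k) (fib a k) m' m u).1 X) (fib a k).card := by
  have e1 : (cre (hb Q (k, m')) (ann (hb Q (k, m))
      (Mop (Q k).set (Q k).measurableSet_set A Ψ))).1 (ms X) = ∑ i, (hb Q (k, m')).1 (X i) *
        (ann (hb Q (k, m)) (Mop (Q k).set (Q k).measurableSet_set A Ψ)).1 (er X i) :=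
    creF_ms _ _ X
  have hs : √(Q k).vol ≠ 0 := (Real.sqrt_pos.2 (Q k).vol_pos).ne'
  have e2 : ∑ i, (hb Q (k, m')).1 (X i) *
      (ann (hb Q (k, m)) (Mop (Q k).set (Q k).measurableSet_set A Ψ)).1 (er X i) =
      ∑ i ∈ fib a k, ((Q k).e m').1 (X i) *
        A.indicator (fun _ => (co (Q k) i m u).1 X) (fib a k).card := by
    symm
    refine Finset.sum_subset_zero_on_sdiff (Finset.subset_univ _) (fun i hi => ?_) fun i hi => ?_
    · have hi' : a i ≠ k := by simpa [fib] using hi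
      rw [hb_of_notMem (fun h' => hi' ((mem_iff_brgs hP hX k i).1 h')), zero_mul]
    · have hi' : a i = k := by simpa [fib] using hi
      rw [hb_of_mem ((mem_iff_brgs hP hX k i).2 hi'), ann_er_brgs hP h k A m hX hi']
      field_simp
  rw [e1, e2]
  by_cases hA : (fib a k).card ∈ A
  · simp only [Set.indicator_of_mem hA]
    exact (dd_val_brgs _ _ _ _ X).symm
  · simp only [Set.indicator_of_notMem hA, mul_zero, Finset.sum_const_zero]

theorem ind_mul_brgs (A : Set ℕ) (n : ℕ) (x y : ℝ) :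
    A.indicator (fun _ => x) n * A.indicator (fun _ => y) n = A.indicator (fun _ => x * y) n := by
  by_cases h : n ∈ A <;> simp [h]

/-- Scalar products of two vectors of the sector `N` known on every assignment. -/
theorem fip_asum_brgs (hP : Part B Q) (k : C) (A : Set ℕ) {Ξ Ξ' : FK B.μ B.vol B.vol_pos}
    (h0 : ∀ t : Multiset R3, t.card ≠ N → Ξ.1 t = 0) {f g : Finset (Fin N) → Vs (Fin N)}
    (hf : ∀ (a : Fin N → C) (X : Fin N → R3), (∀ i, X i ∈ (Q (a i)).set) →
      Ξ.1 (ms X) = A.indicator (fun _ => (f (fib a k)).1 X) (fib a k).card)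
    (hg : ∀ (a : Fin N → C) (X : Fin N → R3), (∀ i, X i ∈ (Q (a i)).set) →
      Ξ'.1 (ms X) = A.indicator (fun _ => (g (fib a k)).1 X) (fib a k).card) :
    fip B.μ B.vol B.vol_pos Ξ Ξ' =
      B.vol ^ N / N.factorial * asum B Q k A fun μ S => ipB μ (f S) (g S) := by
  rw [fip_sector h0 Ξ']
  congr 1
  exact integral_asum (G := fun S X => (f S).1 X * (g S).1 X) hP
    (((goodOf Ξ).1 N).mul ((goodOf Ξ').1 N)) fun a X hX => by
      rw [← ind_mul_brgs, ← hf a X hX, ← hg a X hX]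
      rfl

/-- `fip_sector` and `integral_asum`. -/
theorem Emb.brg_nq (hP : Part B Q) (h : Emb u Ψ.1) (k : C) (A : Set ℕ) :
    BoseLHY.nq (fip B.μ B.vol B.vol_pos) (Mop (Q k).set (Q k).measurableSet_set A Ψ) =
      B.vol ^ N / N.factorial * asum B Q k A fun μ _ => BoseLHY.nq (ipB μ) u :=
  fip_asum_brgs hP k A (mop_ne_brgs h k A) (f := fun _ => u) (g := fun _ => u)
    (fun _ _ hX => mop_ms_brgs hP h k A hX) fun _ _ hX => mop_ms_brgs hP h k A hX

theorem dd_occ_brgs {μ : Fin N → ProbabilityMeasure R3} {D : Box} {S : Finset (Fin N)}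
    (hA : Act μ D S) (m : M3) : ipB μ (DD D S m m u) u = occ μ D S m u := by
  unfold DD occ
  rw [LinearMap.sum_apply, map_sum, LinearMap.sum_apply]
  refine Finset.sum_congr rfl fun i hi => ?_
  unfold BoseLHY.nq
  rw [ip_co (hA i hi), Pz_of_ind (ind_co u), (psd_ipB μ).symm u]
  rfl

theorem Emb.brg_occ (hP : Part B Q) (h : Emb u Ψ.1) (k : C) (A : Set ℕ) (m : M3) :
    BoseLHY.nq (fip B.μ B.vol B.vol_pos)
        (ann (hb Q (k, m)) (Mop (Q k).set (Q k).measurableSet_set A Ψ)) =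
      B.vol ^ N / N.factorial * asum B Q k A fun μ S => occ μ (Q k) S m u := by
  unfold BoseLHY.nq
  rw [← fip_cre, fip_asum_brgs hP k A (cre_ann_sector (mop_ne_brgs h k A) _ _)
    (f := fun S => DD (Q k) S m m u) (g := fun _ => u)
    (fun _ _ hX => Emb.cre_ann hP h k A m m hX) fun _ _ hX => mop_ms_brgs hP h k A hX]
  congr 1
  exact asum_congr fun μ S hA _ => dd_occ_brgs hA m

/-- `DD 0 m = Bm m` and `DD m 0 = Bs m` (`Em_zero`, `co_zero`). -/
theorem Emb.brg_pair (hP : Part B Q) (h : Emb u Ψ.1) (k : C) (A : Set ℕ) (m : M3) :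
    fip B.μ B.vol B.vol_pos
        (cre (hb Q (k, 0)) (ann (hb Q (k, m)) (Mop (Q k).set (Q k).measurableSet_set A Ψ)))
        (cre (hb Q (k, m)) (ann (hb Q (k, 0)) (Mop (Q k).set (Q k).measurableSet_set A Ψ))) =
      B.vol ^ N / N.factorial * asum B Q k A fun μ S => pair μ (Q k) S m u := by
  rw [fip_asum_brgs hP k A (cre_ann_sector (mop_ne_brgs h k A) _ _)
    (f := fun S => DD (Q k) S 0 m u) (g := fun S => DD (Q k) S m 0 u)
    (fun _ _ hX => Emb.cre_ann hP h k A 0 m hX) fun _ _ hX => Emb.cre_ann hP h k A m 0 hX]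
  congr 2
  funext μ S
  simp only [DD, pair, Bm, Bs, Em_zero, co_zero, one_mul]

/-- `Emb.ann_ann`. -/
theorem Emb.brg_occZ (h : Emb u Ψ.1) (h' : Emb u' Φ.1) (p q : BF R3) :
    BoseLHY.nq (fip B.μ B.vol B.vol_pos) (ann p Ψ + ann q Φ) +
        BoseLHY.nq (fip B.μ B.vol B.vol_pos) (ann p Φ - ann q Ψ) =
      B.vol ^ N / N.factorial * occZ B p q u u' := by
  rw [psd_fip.nq_add, psd_fip.nq_sub]
  unfold occZ
  simp only [(psd_ipB _).nq_add, (psd_ipB _).nq_sub]
  unfold BoseLHY.nq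
  rw [Emb.ann_ann h h, Emb.ann_ann h h', Emb.ann_ann h' h', Emb.ann_ann h' h', Emb.ann_ann h' h,
    Emb.ann_ann h h]
  simp only [Finset.sum_add_distrib, Finset.sum_sub_distrib, ← Finset.mul_sum]
  ring

end Pool.Agent.BoseLHY
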