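import Pool.Agent.Lib.MP_dec75e_mp.U.Df2
import Pool.Agent.Lib.MP_dec75e_mp.L.Dfm

/-! Definitions for the pointwise lower bound on the momentum distribution. -/

open MeasureTheory Finset Function
open scoped Real

noncomputable section

namespace Pool.Agent.BoseLHY

open Pool.Agent.BoseTail

/-! ### Scalar functions -/

/-- Ground state energy of a mode with diagonal coefficient `A` and pairing coefficient `B`. -/
def bog2 (A B : ℝ) : ℝ := (√(A ^ 2 - B ^ 2) - A) / 2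

/-- The coefficients of the Bogolyubov transformation at rescaled kinetic energy `t`. -/
def sg (t : ℝ) : ℝ := √(gB √t / 2)

def gm (t : ℝ) : ℝ := √(1 + gB √t / 2)

/-- Particle numbers close to the mean. -/
def Near (y l : ℝ) : Set ℕ := {n | |(n : ℝ) - y ^ 800 * l ^ 3| ≤ y ^ 80 * (y ^ 800 * l ^ 3)}

def Dat.tg0 (D : Dat) (y l : ℝ) (R : ℕ) : ℝ := D.tgt y l R fun _ => 0

def Dat.vp (D : Dat) (y l : ℝ) (m : M3) : ℝ := min (D.tm y l m) 1

def Dat.gf (D : Dat) (y l : ℝ) (m : M3) : ℝ := gm (D.tm y l m)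

def Dat.sf (D : Dat) (y l : ℝ) (m : M3) : ℝ := sg (D.tm y l m)

/-- Small nonnegative weights. -/
def Dat.Sml (D : Dat) (y l : ℝ) (R : ℕ) (ε : ℝ) (e : M3 → ℝ) : Prop :=
  (∀ m, 0 ≤ e m) ∧ ∀ m ∈ Lset R, e m * (D.gf y l m ^ 2 + D.sf y l m ^ 2) ≤ ε * D.vp y l m

/-- The symbol of the difference operator with kernel `h`. -/
def sy (h : BF R3) (k : R3) : ℝ := ct h.1 k - ct h.1 0

/-! ### Functionals in one box and sums over assignments -/

section many
variable {ι : Type} [Fintype ι] [DecidableEq ι]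

/-- The number of quasi-particles in the mode `m`. -/
def Gp (μ : ι → ProbabilityMeasure R3) (B : Box) (S : Finset ι) (ν g s : ℝ) (m : M3) (ψ : Vs ι) :
    ℝ :=
  (g ^ 2 + s ^ 2) * occ μ B S m ψ + 2 * g * s * ν * pair μ B S m ψ + s ^ 2 * nq (ipB μ) ψ

/-- Weighted number of excitations. -/
def mo (μ : ι → ProbabilityMeasure R3) (B : Box) (S : Finset ι) (ϖ : M3 → ℝ) (ψ : Vs ι) : ℝ :=
  ∑' m, ϖ m * occ μ B S m ψ

/-- The operator moving one particle from the mode `m` to the mode `m'`. -/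
def DD (B : Box) (S : Finset ι) (m' m : M3) : Module.End ℝ (Vs ι) := ∑ i ∈ S, Em B i m' * co B i m

/-- Integration of particle `i` against the function `h`. -/
def cfo {α : Type} [MeasurableSpace α] (ν : ProbabilityMeasure α) (h : BF α) (i : ι) :
    Module.End ℝ (BF (ι → α)) := avg ν i * mu (at1 i h)

/-- The difference operator with Neumann boundary conditions. -/
def Tb (B : Box) (h : BF R3) (i : ι) (u : Vs ι) : Vs ι :=
  B.vol • kop B.μ i (B.symk h) u - ct h.1 0 • u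

/-- `T` is the translation invariant difference operator applied to `u`. -/
def IsT (h : BF R3) (i : ι) (u T : Vs ι) : Prop :=
  ∀ X, T.1 X = ∫ z, h.1 z * (u.1 (update X i (X i + z)) - u.1 X)

variable {C : Type} [Fintype C] [DecidableEq C]

def fib (a : ι → C) (k : C) : Finset ι := univ.filter fun i => a i = k

/-- The average over all assignments of the particles to the cells, restricted to the assignments
for which the number of particles in the cell `k` lies in `A`. -/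
def asum (B : Box) (Q : C → Box) (k : C) (A : Set ℕ)
    (F : (ι → ProbabilityMeasure R3) → Finset ι → ℝ) : ℝ :=
  ∑ a : ι → C, (∏ i, (Q (a i)).vol / B.vol) *
    A.indicator (fun _ => F (asg (fun _ => B.μ) univ Q a) (fib a k)) (fib a k).card

def aG (B : Box) (Q : C → Box) (A : Set ℕ) (L : Finset M3) (ν : ℝ) (g s w : M3 → ℝ) (u : Vs ι) :
    ℝ := ∑ k, ∑ m ∈ L, w m * asum B Q k A fun μ S => Gp μ (Q k) S ν (g m) (s m) m u

def aN (B : Box) (Q : C → Box) (A : Set ℕ) (u : Vs ι) : ℝ :=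
  ∑ k, asum B Q k A fun μ _ => nq (ipB μ) u

def aM (B : Box) (Q : C → Box) (A : Set ℕ) (ϖ : M3 → ℝ) (u : Vs ι) : ℝ :=
  ∑ k, asum B Q k A fun μ S => mo μ (Q k) S ϖ u

def aP (B : Box) (Q : C → Box) (A : Set ℕ) (u : Vs ι) : ℝ :=
  ∑ k, asum B Q k A fun μ S => nP μ (Q k) S u

/-- The modes of the cells, normalised for Lebesgue measure. -/
def hb (Q : C → Box) (x : C × M3) : BF R3 := ext0 (Q x.1) ((Q x.1).e x.2)

/-- The one-body operator with eigenvalues `φ m` on the modes of the cells. -/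
def Tl (B : Box) (Q : C → Box) (L : Finset M3) (φ : M3 → ℝ) (i : ι) : Module.End ℝ (Vs ι) :=
  ∑ x ∈ (univ : Finset C) ×ˢ L, (φ x.2 * B.vol) • (mu (at1 i (hb Q x)) * cfo B.μ (hb Q x) i)

end many

/-- Real and imaginary part of the normalised plane waves. -/
def cw (L : ℝ) (n : Fin 3 → ℤ) : BF R3 :=
  ⟨fun x => (√(L ^ 3))⁻¹ * Real.cos (∑ c, kvec L n c * x c), (BM.const _).mul
    ⟨by fun_prop, 1, fun _ => Real.abs_cos_le_one _⟩⟩

def sw (L : ℝ) (n : Fin 3 → ℤ) : BF R3 :=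
  ⟨fun x => (√(L ^ 3))⁻¹ * Real.sin (∑ c, kvec L n c * x c), (BM.const _).mul
    ⟨by fun_prop, 1, fun _ => Real.abs_sin_le_one _⟩⟩

/-- Scalar product for Lebesgue measure on the box. -/
def Box.ip (B : Box) (f g : BF R3) : ℝ := B.vol * ∫ x, f.1 x * g.1 x ∂(B.μ : Measure R3)

/-- The operator with eigenvalues `φ m` on the modes of the cells, applied to a function. -/
def lowf {C : Type} [Fintype C] (B : Box) (Q : C → Box) (L : Finset M3) (φ : M3 → ℝ) (c : BF R3) :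
    BF R3 := ∑ x ∈ (univ : Finset C) ×ˢ L, (φ x.2 * B.ip (hb Q x) c) • hb Q x

/-- The occupation of the complex mode `p + i q` in the state `u + i u'`. -/
def occZ {ι : Type} [Fintype ι] [DecidableEq ι] (B : Box) (p q : BF R3) (u u' : Vs ι) : ℝ :=
  B.vol * ∑ i, (nq (ipB fun _ => B.μ) (cfo B.μ p i u + cfo B.μ q i u') +
    nq (ipB fun _ => B.μ) (cfo B.μ p i u' - cfo B.μ q i u))

/-! ### Local structure of the Fock space -/

section loc
variable {V : Type} [AddCommGroup V] [Module ℝ V] {C κ : Type} [Fintype C] [DecidableEq C]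
  [DecidableEq κ]

def sh (A : Set ℕ) : Set ℕ := {n | n + 1 ∈ A}

/-- Creation and annihilation operators in cells, and the projections `M k A` on the states with
a particle number in `A` in the cell `k`. -/
structure Loc (β : V →ₗ[ℝ] V →ₗ[ℝ] ℝ) (a ad : C × κ → Module.End ℝ V)
    (M : C → Set ℕ → Module.End ℝ V) (T : Finset κ) : Prop where
  ccr : CCR β a ad (univ ×ˢ T)
  sa : ∀ k A, SA β (M k A)
  mul : ∀ k A A' f, M k A (M k A' f) = M k (A ∩ A') f
  compl : ∀ k A f, M k A f + M k Aᶜ f = f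
  low : ∀ k, ∀ m ∈ T, ∀ A f, a (k, m) (M k A f) = M k (sh A) (a (k, m) f)
  up : ∀ k, ∀ m ∈ T, ∀ A f, M k A (ad (k, m) f) = ad (k, m) (M k (sh A) f)
  xa : ∀ k k', k ≠ k' → ∀ m ∈ T, ∀ A f, a (k, m) (M k' A f) = M k' A (a (k, m) f)
  xd : ∀ k k', k ≠ k' → ∀ m ∈ T, ∀ A f, ad (k, m) (M k' A f) = M k' A (ad (k, m) f)
  xm : ∀ k k' A A' f, M k A (M k' A' f) = M k' A' (M k A f)
  num : ∀ k, ∀ m ∈ T, ∀ (n : ℕ) f,
    nq β (a (k, m) (M k (Set.Iic n) f)) ≤ n * nq β (M k (Set.Iic n) f)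

/-- A complex structure. -/
structure Cx (β : V →ₗ[ℝ] V →ₗ[ℝ] ℝ) (J : Module.End ℝ V) : Prop where
  adj : ∀ f g, β (J f) g = -β f (J g)
  sq : ∀ f, J (J f) = -f

/-- Multiplication by the complex number `p - i q`. -/
def cz (J : Module.End ℝ V) (p q : ℝ) : Module.End ℝ V := p • 1 - q • J

/-- Bessel's inequality for the complex coefficients `p k x - i q k x`. -/
def BesH {τ ι : Type} (S : Finset τ) (I : Finset ι) (p q : τ → ι → ℝ) : Prop :=
  ∀ x y : ι → ℝ, ∑ k ∈ S, ((∑ i ∈ I, (p k i * x i + q k i * y i)) ^ 2 +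
    (∑ i ∈ I, (p k i * y i - q k i * x i)) ^ 2) ≤ ∑ i ∈ I, (x i ^ 2 + y i ^ 2)

/-- The scalar product on pairs. -/
def pf (β : V →ₗ[ℝ] V →ₗ[ℝ] ℝ) : V × V →ₗ[ℝ] V × V →ₗ[ℝ] ℝ :=
  β.compl₁₂ (LinearMap.fst ℝ V V) (LinearMap.fst ℝ V V) +
    β.compl₁₂ (LinearMap.snd ℝ V V) (LinearMap.snd ℝ V V)

def dup (A : Module.End ℝ V) : Module.End ℝ (V × V) := A.prodMap A

def rotJ : Module.End ℝ (V × V) := (-LinearMap.snd ℝ V V).prod (LinearMap.fst ℝ V V)

end loc

/-- The data of the abstract lower bound. -/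
structure Sys (V C κ : Type) [AddCommGroup V] [Module ℝ V] where
  β : V →ₗ[ℝ] V →ₗ[ℝ] ℝ
  a : C × κ → Module.End ℝ V
  ad : C × κ → Module.End ℝ V
  M : C → Set ℕ → Module.End ℝ V
  J : Module.End ℝ V
  o : κ
  L : Finset κ
  γ : κ → ℝ
  s : κ → ℝ
  G : Set ℕ
  n2 : ℕ
  ν : ℝ
  δ : ℝ

namespace Sys
variable {V : Type} [AddCommGroup V] [Module ℝ V] {C κ : Type} (Y : Sys V C κ)

structure Ok [Fintype C] [DecidableEq C] [DecidableEq κ] : Prop where
  loc : Loc Y.β Y.a Y.ad Y.M (insert Y.o Y.L)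
  cx : Cx Y.β Y.J
  ja : ∀ x f, Y.a x (Y.J f) = Y.J (Y.a x f)
  jd : ∀ x f, Y.ad x (Y.J f) = Y.J (Y.ad x f)
  jm : ∀ k A f, Y.M k A (Y.J f) = Y.J (Y.M k A f)
  ho : Y.o ∉ Y.L
  hyp : ∀ m ∈ Y.L, Y.γ m ^ 2 = 1 + Y.s m ^ 2
  ν0 : 0 < Y.ν
  νδ : Y.ν ≤ Y.δ
  δ1 : Y.δ ≤ 1 / 10
  hn : Y.ν * Y.n2 ≤ 1 + Y.δ
  hG : Y.G ⊆ Set.Iic Y.n2

/-- Removal of two particles from the condensate of the cell `k`. -/
def U (k : C) : Module.End ℝ V := Y.ν • (Y.a (k, Y.o) * Y.a (k, Y.o))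

def Ud (k : C) : Module.End ℝ V := Y.ν • (Y.ad (k, Y.o) * Y.ad (k, Y.o))

/-- Annihilation of a quasi-particle. -/
def b (k : C) (m : κ) : Module.End ℝ V := Y.γ m • Y.a (k, m) + Y.s m • (Y.U k * Y.ad (k, m))

/-- Creation of a quasi-particle. -/
def X (k : C) (m : κ) : Module.End ℝ V := Y.γ m • (Y.U k * Y.ad (k, m)) + Y.s m • Y.a (k, m)

def Xd (k : C) (m : κ) : Module.End ℝ V := Y.γ m • (Y.Ud k * Y.a (k, m)) + Y.s m • Y.ad (k, m)

def W (k : C) (p q : κ → ℝ) : Module.End ℝ V := ∑ m ∈ Y.L, cz Y.J (p m) (q m) * Y.X k m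

def Wd (k : C) (p q : κ → ℝ) : Module.End ℝ V := ∑ m ∈ Y.L, cz Y.J (p m) (-q m) * Y.Xd k m

/-- At most `n` particles in the cell `k`. -/
def Bd (k : C) (n : ℕ) (f : V) : Prop := Y.M k (Set.Iic n) f = f

def gp (k : C) (m : κ) (f : V) : ℝ :=
  (Y.γ m ^ 2 + Y.s m ^ 2) * nq Y.β (Y.a (k, m) f) +
    2 * Y.γ m * Y.s m * Y.ν *
      Y.β (Y.ad (k, Y.o) (Y.a (k, m) f)) (Y.ad (k, m) (Y.a (k, Y.o) f)) + Y.s m ^ 2 * nq Y.β f

end Sys

/-! ### Operators on the Fock space -/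

section fock
variable {α : Type} [MeasurableSpace α]

open Classical in
/-- The number of particles in `A`. -/
def cnt (A : Set α) (t : Multiset α) : ℕ := t.countP fun x => x ∈ A

def mopF (A : Set α) (G : Set ℕ) (Ψ : Multiset α → ℝ) : Multiset α → ℝ :=
  fun t => G.indicator (fun _ => Ψ t) (cnt A t)

omit [MeasurableSpace α] in
open Classical in
theorem cnt_ms (A : Set α) {n : ℕ} (X : Fin n → α) :
    cnt A (ms X) = ∑ i, if X i ∈ A then 1 else 0 := by
  unfold cnt ms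
  rw [Multiset.countP_map, ← Finset.card_filter]
  rfl

theorem measurable_cnt {A : Set α} (hA : MeasurableSet A) (n : ℕ) :
    Measurable fun X : Fin n → α => cnt A (ms X) := by
  classical
  simp only [cnt_ms]
  exact Finset.measurable_sum _ fun i _ =>
    Measurable.ite (measurable_pi_apply i hA) measurable_const measurable_const

omit [MeasurableSpace α] in
theorem mopF_eq (A : Set α) (G : Set ℕ) (Ψ : Multiset α → ℝ) (t : Multiset α) :
    mopF A G Ψ t = G.indicator (fun _ => (1 : ℝ)) (cnt A t) * Ψ t := by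
  unfold mopF
  by_cases h : cnt A t ∈ G <;> simp [h]

theorem bm_mopF {A : Set α} (hA : MeasurableSet A) (G : Set ℕ) {Ψ : Multiset α → ℝ}
    (hΨ : ∀ n, BM (sec Ψ n)) (n : ℕ) : BM (sec (mopF A G Ψ) n) := by
  have h1 : BM fun X : Fin n → α => G.indicator (fun _ => (1 : ℝ)) (cnt A (ms X)) :=
    ⟨(measurable_from_top (f := G.indicator fun _ => (1 : ℝ))).comp (measurable_cnt hA n), 1,
      fun X => by by_cases h : cnt A (ms X) ∈ G <;> simp [h]⟩
  have h2 := h1.mul (hΨ n)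
  refine (congrArg BM (funext fun X => ?_)).mp h2
  exact (mopF_eq A G Ψ (ms X)).symm

theorem Good.mopF {ν : ProbabilityMeasure α} {z : ℝ} (hz : 0 < z) {A : Set α}
    (hA : MeasurableSet A) (G : Set ℕ) {Ψ : Multiset α → ℝ} (h : Good ν z Ψ) :
    Good ν z (mopF A G Ψ) := by
  obtain ⟨h1, C, q, q0, q1, h2⟩ := h
  refine ⟨bm_mopF hA G h1, C, q, q0, q1, fun n => le_trans ?_ (h2 n)⟩
  unfold wt2
  refine mul_le_mul_of_nonneg_left ?_ (by positivity)
  refine integral_mono ((bm_mopF hA G h1 n).mul (bm_mopF hA G h1 n)).integrable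
    ((h1 n).mul (h1 n)).integrable fun X => ?_
  show BoseLHY.mopF A G Ψ (ms X) * BoseLHY.mopF A G Ψ (ms X) ≤ Ψ (ms X) * Ψ (ms X)
  rw [mopF_eq]
  by_cases h : cnt A (ms X) ∈ G
  · simp [h]
  · simp [h, mul_self_nonneg]

/-- Projection on the states whose number of particles in `A` lies in `G`. -/
def Mop {ν : ProbabilityMeasure α} {z : ℝ} {hz : 0 < z} (A : Set α) (hA : MeasurableSet A)
    (G : Set ℕ) : Module.End ℝ (FK ν z hz) where
  toFun Ψ := ⟨mopF A G Ψ.1, (goodOf Ψ).mopF hz hA G⟩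
  map_add' Ψ Φ := Subtype.ext (funext fun t => by
    show mopF A G (Ψ.1 + Φ.1) t = mopF A G Ψ.1 t + mopF A G Φ.1 t
    simp only [mopF_eq, Pi.add_apply, mul_add])
  map_smul' c Ψ := Subtype.ext (funext fun t => by
    show mopF A G (c • Ψ.1) t = c * mopF A G Ψ.1 t
    simp only [mopF_eq, Pi.smul_apply, smul_eq_mul]
    ring)

/-- Invariance under all permutations. -/
def Prm {N : ℕ} (u : BF (Fin N → α)) : Prop :=
  ∀ (σ : Equiv.Perm (Fin N)) (X : Fin N → α), u.1 (X ∘ σ) = u.1 X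

/-- `Ψ` is the Fock space vector with the `N`-particle wave function `u`. -/
structure Emb {N : ℕ} (u : BF (Fin N → α)) (Ψ : Multiset α → ℝ) : Prop where
  eq : ∀ X : Fin N → α, Ψ (ms X) = u.1 X
  ne : ∀ t : Multiset α, t.card ≠ N → Ψ t = 0

end fock

end Pool.Agent.BoseLHY
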