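import Pool.Agent.Lib.MP_dec75e_mp.S.Df
import Pool.Agent.Lib.MP_dec75e_mp.U.FkB
import Pool.Agent.Lib.MP_dec75e_mp.L.Op1b

/-! Symmetric wave functions as vectors of the Fock space. -/

open MeasureTheory Finset Function
open scoped Real

noncomputable section

namespace Pool.Agent.BoseLHY

open Pool.Agent.BoseTail

variable {α : Type} [MeasurableSpace α] {ν : ProbabilityMeasure α} {z : ℝ} {hz : 0 < z}
  {N : ℕ} {u u' : BF (Fin N → α)} {Ψ Φ : FK ν z hz}

omit [MeasurableSpace α] in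
/-- The fibres of `X` and `X'` have the same cardinality: `Equiv.ofFiberEquiv`. -/
theorem exists_perm_of_ms {X X' : Fin N → α} (h : ms X = ms X') :
    ∃ σ : Equiv.Perm (Fin N), X' = X ∘ σ := by
  classical
  have hc : ∀ a, Fintype.card {i // X' i = a} = Fintype.card {i // X i = a} := by
    intro a
    have h1 := congrArg (Multiset.count a) h
    unfold ms at h1
    rw [Multiset.count_map, Multiset.count_map] at h1
    rw [Fintype.card_subtype, Fintype.card_subtype]
    simp only [eq_comm (b := a)]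
    exact h1.symm
  exact ⟨Equiv.ofFiberEquiv fun a => Fintype.equivOfCardEq (hc a),
    funext fun i => (Equiv.ofFiberEquiv_map (fun a => Fintype.equivOfCardEq (hc a)) i).symm⟩

/-- Take `Ψ t = if h : ∃ X : Fin N → α, ms X = t then u (choose h) else 0`. -/
theorem exists_emb (ν : ProbabilityMeasure α) (z : ℝ) (hz : 0 < z) (hu : Prm u) :
    ∃ Ψ : FK ν z hz, Emb u Ψ.1 := by
  classical
  let F : Multiset α → ℝ := fun t =>
    if h : ∃ X : Fin N → α, ms X = t then u.1 (Classical.choose h) else 0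
  have hE : Emb u F := by
    refine ⟨fun X => ?_, fun t ht => ?_⟩
    · have h : ∃ Y : Fin N → α, ms Y = ms X := ⟨X, rfl⟩
      obtain ⟨σ, hσ⟩ := exists_perm_of_ms (Classical.choose_spec h)
      simp only [F]
      rw [dif_pos h]
      conv_rhs => rw [hσ]
      exact (hu σ _).symm
    · simp only [F]
      rw [dif_neg]
      rintro ⟨X, rfl⟩
      exact ht (card_ms X)
  have h0 : ∀ n, n ≠ N → sec F n = fun _ => 0 := fun n hn =>
    funext fun X => hE.ne _ (by rw [card_ms]; exact hn)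
  refine ⟨⟨F, fun n => ?_, wt2 ν z F F N * 2 ^ N, 1 / 2, by norm_num, by norm_num, fun n => ?_⟩,
    hE⟩
  · by_cases hn : n = N
    · subst hn
      rw [show sec F n = u.1 from funext hE.eq]
      exact bmOf u
    · rw [h0 n hn]
      exact BM.const _
  · by_cases hn : n = N
    · subst hn
      rw [mul_assoc, ← mul_pow]
      norm_num
    · have h1 : wt2 ν z F F n = 0 := by
        unfold wt2
        rw [h0 n hn]
        simp
      rw [h1]
      have := wt2_nonneg (ν := ν) (Ψ := F) hz N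
      positivity

/-- Only the sector `N` contributes. -/
theorem fip_sector (h : ∀ t : Multiset α, t.card ≠ N → Ψ.1 t = 0) (Φ : FK ν z hz) :
    fip ν z hz Ψ Φ = z ^ N / N.factorial *
      ∫ X : Fin N → α, Ψ.1 (ms X) * Φ.1 (ms X) ∂pm fun _ => ν := by
  refine (hasSum_fip Ψ Φ).unique (hasSum_single N fun n hn => ?_)
  unfold wt2
  rw [show sec Ψ.1 n = fun _ => 0 from funext fun X => h _ (by rw [card_ms]; exact hn)]
  simp

/-- A number conserving operator keeps the sector. -/
theorem cre_ann_sector (h : ∀ t : Multiset α, t.card ≠ N → Ψ.1 t = 0) (p q : BF α)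
    (t : Multiset α) (ht : t.card ≠ N) : (cre p (ann q Ψ)).1 t = 0 := by
  change creF p.1 (annF ν z q.1 Ψ.1) t = 0
  rw [creF_congr p.1 (Φ := 0) fun w hw => ?_]
  · simp [creF]
  · have h1 : ∀ x, Ψ.1 (x ::ₘ w) = 0 := fun x => h _ (by rw [Multiset.card_cons, hw]; exact ht)
    simp [annF, h1]

theorem cfo_apply {ι : Type} [Fintype ι] [DecidableEq ι] (p : BF α) (i : ι) (f : BF (ι → α))
    (X : ι → α) : (cfo ν p i f).1 X = ∫ y, p.1 y * f.1 (update X i y) ∂(ν : Measure α) := by
  change ∫ y, p.1 (update X i y i) * f.1 (update X i y) ∂(ν : Measure α) = _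
  simp only [update_self]

theorem ind_cfo {ι : Type} [Fintype ι] [DecidableEq ι] (p : BF α) (i : ι) (f : BF (ι → α)) :
    Ind i (cfo ν p i f) := by
  exact ind_avg ν i _

omit [MeasurableSpace α] in
theorem cons_er (X : Fin N → α) (i : Fin N) (y : α) : y ::ₘ er X i = ms (update X i y) := by
  rw [ms_eq_cons (update X i y) i, er_update, update_self]

theorem Emb.ann_er (h : Emb u Ψ.1) (p : BF α) (X : Fin N → α) (i : Fin N) :
    (ann p Ψ).1 (er X i) = z * (cfo ν p i u).1 X := by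
  rw [cfo_apply]
  change z * ∫ y, p.1 y * Ψ.1 (y ::ₘ er X i) ∂(ν : Measure α) = _
  simp only [cons_er, h.eq]

theorem Emb.nq (h : Emb u Ψ.1) :
    nq (fip ν z hz) Ψ = z ^ N / N.factorial * nq (ipB fun _ => ν) u := by
  change fip ν z hz Ψ Ψ = _
  rw [fip_sector h.ne]
  simp only [h.eq]
  rfl

/-- `fip_cre`, `fip_sector`, `creF_ms`, `Emb.ann_er`, `ex_avg`, `avg_mul_ind`. -/
theorem Emb.ann_ann (h : Emb u Ψ.1) (h' : Emb u' Φ.1) (p q : BF α) :
    fip ν z hz (ann p Ψ) (ann q Φ) =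
      z ^ N / N.factorial * (z * ∑ i, ipB (fun _ => ν) (cfo ν p i u) (cfo ν q i u')) := by
  rw [← fip_cre, fip_sector (cre_ann_sector h.ne q p)]
  congr 1
  have e : ∀ i, ipB (fun _ => ν) (cfo ν p i u) (cfo ν q i u') =
      ex (fun _ => ν) (cfo ν p i u * (at1 i q * u')) := fun i => by
    rw [ipB_apply, ← ex_avg (μ := fun _ => ν) i (cfo ν p i u * (at1 i q * u')),
      avg_mul_ind (ind_cfo p i u)]
    rfl
  simp only [e]
  rw [← map_sum, ← smul_eq_mul z, ← map_smul, ex_apply]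
  refine integral_congr_ae (Filter.Eventually.of_forall fun X => ?_)
  change creF q.1 (ann p Ψ).1 (ms X) * Φ.1 (ms X) =
    z * (∑ i, cfo ν p i u * (at1 i q * u') : BF (Fin N → α)).1 X
  rw [creF_ms, h'.eq, AddSubmonoidClass.coe_finsetSum, Finset.sum_apply, Finset.sum_mul,
    Finset.mul_sum]
  refine Finset.sum_congr rfl fun i _ => ?_
  rw [h.ann_er]
  change _ = z * ((cfo ν p i u).1 X * (q.1 (X i) * u'.1 X))
  ring

theorem ann_sum_smul {κ : Type} (s : Finset κ) (c : κ → ℝ) (p : κ → BF α) (Ψ : FK ν z hz) :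
    ann (∑ x ∈ s, c x • p x) Ψ = ∑ x ∈ s, c x • ann (p x) Ψ := by
  refine Subtype.ext (funext fun t => ?_)
  rw [AddSubmonoidClass.coe_finsetSum, Finset.sum_apply]
  change z * ∫ y, (∑ x ∈ s, c x • p x : BF α).1 y * Ψ.1 (y ::ₘ t) ∂(ν : Measure α) =
    ∑ x ∈ s, c x * (z * ∫ y, (p x).1 y * Ψ.1 (y ::ₘ t) ∂(ν : Measure α))
  have e : ∀ y, (∑ x ∈ s, c x • p x : BF α).1 y * Ψ.1 (y ::ₘ t) =
      ∑ x ∈ s, c x * ((p x).1 y * Ψ.1 (y ::ₘ t)) := fun y => by
    rw [AddSubmonoidClass.coe_finsetSum, Finset.sum_apply, Finset.sum_mul]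
    exact Finset.sum_congr rfl fun x _ => mul_assoc (c x) _ _
  simp only [e]
  rw [integral_finsetSum _ fun x _ =>
    ((BM.const (c x)).mul ((bmOf (p x)).mul (bm_cons (goodOf Ψ).1 t))).integrable, Finset.mul_sum]
  refine Finset.sum_congr rfl fun x _ => ?_
  rw [integral_const_mul]
  ring

end Pool.Agent.BoseLHY
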