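import Pool.Agent.Lib.MP_dec75e_mp.S.Df
import Pool.Agent.Lib.MP_dec75e_mp.L.SharpA

/-! States far from the condensed regime: lower bounds with a margin. -/

open MeasureTheory Finset Function
open scoped Real

noncomputable section

namespace Pool.Agent.BoseLHY

open Pool.Agent.BoseTail

variable {ι : Type} [Fintype ι] [DecidableEq ι] {μ : ι → ProbabilityMeasure R3} {B : Box}
  {S : Finset ι} {R M : ℕ} {i j o : ι} {m m' : M3} {f g u ψ : Vs ι}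

theorem Dat.vp_nonneg (D : Dat) {y : ℝ} (hy : 0 < y) (l : ℝ) (m : M3) : 0 ≤ D.vp y l m :=
  le_min (div_nonneg (sq3_nonneg_sharpa _) (by have := D.mu0_pos hy; positivity)) zero_le_one

theorem Dat.vp_le_one (D : Dat) (y l : ℝ) (m : M3) : D.vp y l m ≤ 1 :=
  min_le_right _ _

/-- `Dat.tm_pos`. -/
theorem Dat.vp_ge (D : Dat) {y l : ℝ} (h : Scale y l R) (hy : y ≤ 1) (ha : 4 * π * D.a * y ≤ 1)
    (hm : m ≠ 0) : y ^ 9 ≤ D.vp y l m := by
  obtain ⟨h1, h2⟩ := D.tm_pos h hm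
  have hy0 := h.y0
  refine le_min ?_ (pow_le_one₀ hy0.le hy)
  rw [one_div_mul_eq_div, div_le_iff₀ h1] at h2
  calc y ^ 9 = y * y ^ 8 := by ring
    _ ≤ y * (4 * π * D.a * D.tm y l m) := mul_le_mul_of_nonneg_left h2 hy0.le
    _ = 4 * π * D.a * y * D.tm y l m := by ring
    _ ≤ 1 * D.tm y l m := mul_le_mul_of_nonneg_right ha h1.le
    _ = D.tm y l m := one_mul _

theorem hasSum_mo (hA : Act μ B S) {ϖ : M3 → ℝ} (h0 : ∀ m, 0 ≤ ϖ m) (h1 : ∀ m, ϖ m ≤ 1)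
    (ψ : Vs ι) : HasSum (fun m => ϖ m * occ μ B S m ψ) (mo μ B S ϖ ψ) :=
  (summable_occ hA ψ (K := 1) fun m => by rw [abs_of_nonneg (h0 m)]; exact h1 m).hasSum

theorem mo_nonneg {ϖ : M3 → ℝ} (h0 : ∀ m, 0 ≤ ϖ m) : 0 ≤ mo μ B S ϖ ψ :=
  tsum_nonneg fun m => mul_nonneg (h0 m) occ_nonneg

theorem sum_le_mo (hA : Act μ B S) {ϖ : M3 → ℝ} (h0 : ∀ m, 0 ≤ ϖ m) (h1 : ∀ m, ϖ m ≤ 1)
    (F : Finset M3) (ψ : Vs ι) : ∑ m ∈ F, ϖ m * occ μ B S m ψ ≤ mo μ B S ϖ ψ :=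
  sum_le_hasSum F (fun m _ => mul_nonneg (h0 m) occ_nonneg) (hasSum_mo hA h0 h1 ψ)

/-- `hasSum_nP`. -/
theorem nP_le_mo (hA : Act μ B S) {ϖ : M3 → ℝ} (h0 : ∀ m, 0 ≤ ϖ m) (h1 : ∀ m, ϖ m ≤ 1) {c : ℝ}
    (hc : ∀ m, m ≠ 0 → c ≤ ϖ m) (ψ : Vs ι) : c * nP μ B S ψ ≤ mo μ B S ϖ ψ := by
  refine hasSum_le (fun m => ?_) ((hasSum_nP hA ψ).mul_left c) (hasSum_mo hA h0 h1 ψ)
  split_ifs with hm
  · rw [mul_zero]
    exact mul_nonneg (h0 m) occ_nonneg
  · exact mul_le_mul_of_nonneg_right (hc m hm) occ_nonneg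

theorem pert_far2s (D : Dat) {y l c ε : ℝ} (hy : 0 < y) (hε : 0 ≤ ε)
    (hεc : ε * (1 + 4 * π * D.a) ≤ c) (m : M3) :
    ε * D.mu0 y * D.vp y l m ≤ c * min (sq3 (pk l m)) (y ^ 800) := by
  have h := pert_sharpa D (l := l) (m := m) (t := -(ε * D.vp y l m)) hy hε hεc
    (by rw [abs_neg, abs_of_nonneg (mul_nonneg hε (D.vp_nonneg hy l m))]; exact le_rfl)
  linarith

theorem tg0_far2s (D : Dat) : ∃ C : ℝ, 1 ≤ C ∧ ∀ (y l : ℝ) (R : ℕ), Scale y l R → y ≤ 1 →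
    D.tg0 y l R + y ^ 760 ≤ -(2 * π * D.a * y ^ 1600 * l ^ 3) + C * y ^ 756 := by
  obtain ⟨C, hC, T⟩ := D.tgt_le
  refine ⟨C + 1, by linarith, fun y l R hS h1 => ?_⟩
  have h2 := T y l R (fun _ => 0) hS h1 fun m => by
    have := D.vp_nonneg hS.y0 l m
    rw [abs_zero]
    exact div_nonneg this zero_le_two
  have h3 : y ^ 760 ≤ y ^ 756 := pow_le_pow_of_le_one hS.y0.le h1 (by norm_num)
  unfold Dat.tg0
  linarith

/-- The algebra for a wrong particle number. -/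
theorem far_alg_far2s {y α n W E G N δ μ0 t : ℝ} (hy : 0 < y) (hα : 0 < α) (hN : 0 ≤ N)
    (hδ : δ ^ 2 = (y ^ 80) ^ 2) (hδ3 : δ * (n - W) = y ^ 80 * |n - W|)
    (hfar : y ^ 80 * W ≤ |n - W|) {x : ℝ} (ht : t + x ≤ α * y ^ 880 * |n - W|)
    (h : (μ0 + α * y ^ 800 * (2 * (δ * (n - W)) - δ ^ 2 * W) - x) * N + G ≤ E) :
    (μ0 + t) * N + G ≤ E := by
  have h80 : 0 < y ^ 80 := pow_pos hy _
  rw [hδ, hδ3] at h
  have g1 : y ^ 80 * |n - W| ≤ 2 * (y ^ 80 * |n - W|) - (y ^ 80) ^ 2 * W := by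
    have := mul_le_mul_of_nonneg_left hfar h80.le
    nlinarith
  have g2 := mul_le_mul_of_nonneg_left g1 (by positivity : 0 ≤ α * y ^ 800)
  have g3 : α * y ^ 800 * (y ^ 80 * |n - W|) = α * y ^ 880 * |n - W| := by ring
  have g4 : μ0 + t ≤ μ0 + α * y ^ 800 * (2 * (y ^ 80 * |n - W|) - (y ^ 80) ^ 2 * W) - x := by
    linarith
  have g5 := mul_le_mul_of_nonneg_right g4 hN
  linarith

theorem hasSum_low_far2s (hA : Act μ B S) (R : ℕ) (t : ℝ) (ψ : Vs ι) :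
    HasSum (fun m => (if m ∈ Lset R then t else 0) * occ μ B S m ψ) (t * nL μ B R S ψ) := by
  have s2 : HasSum (fun m => (if m ∈ Lset R then t else 0) * occ μ B S m ψ)
      (∑ m ∈ Lset R, (if m ∈ Lset R then t else 0) * occ μ B S m ψ) :=
    hasSum_sum_of_ne_finset_zero fun m hm => by rw [if_neg hm, zero_mul]
  have e : ∑ m ∈ Lset R, (if m ∈ Lset R then t else 0) * occ μ B S m ψ = t * nL μ B R S ψ := by
    rw [nL_eq hA, mul_sum]
    exact sum_congr rfl fun m hm => by rw [if_pos hm]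
  rwa [e] at s2

/-- `crudeM` with `g = c μ₀ vp` (`pert_sharpa` with `t = -(c vp)`). For the second and the third
part follow `sharp_far` and `sharp_many` with `b = 0` in `tgt_le`, using `far_num_sharpa` and
`many_num_sharpa` with `C' + 1` in place of `C'` (`y ^ 760 ≤ y ^ 756`). -/
theorem crude2 (D : Dat) : ∃ C c y₀ : ℝ, 1 ≤ C ∧ 0 < c ∧ c ≤ 1 ∧ 0 < y₀ ∧ y₀ ≤ 1 ∧
    ∀ (y l : ℝ) (R : ℕ), Scale y l R → y ≤ y₀ →
    ∀ {ι : Type} [Fintype ι] [DecidableEq ι] (μ : ι → ProbabilityMeasure R3) (B : Box)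
      (S : Finset ι) (ψ : Vs ι) (χ : BF R3), D.Gd χ B y l →
      B.Cube l → Act μ B S → Sym S ψ → C1 ψ →
      ((D.mu0 y * S.card - 2 * π * D.a * y ^ 1600 * l ^ 3 - C * y ^ 1199 * S.card) *
          nq (ipB μ) ψ + c * D.mu0 y * mo μ B S (D.vp y l) ψ ≤ En μ S (D.W χ) ψ) ∧
      (S.card ∉ Near y l → (D.mu0 y * S.card + D.tg0 y l R + y ^ 760) * nq (ipB μ) ψ +
          c * D.mu0 y * mo μ B S (D.vp y l) ψ ≤ En μ S (D.W χ) ψ) ∧
      (S.card ∈ Near y l → S.card * y ^ 120 / 4 * nq (ipB μ) ψ ≤ nL μ B R S ψ →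
        (D.mu0 y * S.card + D.tg0 y l R + y ^ 760) * nq (ipB μ) ψ +
          c * D.mu0 y * mo μ B S (D.vp y l) ψ ≤ En μ S (D.W χ) ψ) := by
  obtain ⟨C, c, y₁, hC, hc, hc1, hy₁, hy₁1, H⟩ := crudeM D
  obtain ⟨C', hC', T⟩ := tg0_far2s D
  have ha := D.ha
  have hp := Real.pi_pos
  have hA : 0 < 1 + 4 * π * D.a := by positivity
  have hα : 0 < 2 * π * D.a := by positivity
  obtain ⟨ε, hε0, hε1, hεc⟩ : ∃ ε : ℝ, 0 < ε ∧ ε ≤ 1 ∧ ε * (1 + 4 * π * D.a) ≤ c / 2 :=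
    ⟨min 1 (c / 2 / (1 + 4 * π * D.a)), by positivity, min_le_left _ _,
      small_sharpa hA (min_le_right _ _)⟩
  obtain ⟨y₀, hy₀, k1, k2, k3, k4, k5, k6⟩ : ∃ y₀ : ℝ, 0 < y₀ ∧ y₀ ≤ y₁ ∧ y₀ ≤ 1 / 2 ∧
      y₀ ≤ 2 * π * D.a / (4 * C) ∧ y₀ ≤ 2 * π * D.a / (2 * C') ∧ y₀ ≤ c / (16 * C) ∧
      y₀ ≤ c / (32 * C') :=
    ⟨min (min y₁ (1 / 2)) (min (min (2 * π * D.a / (4 * C)) (2 * π * D.a / (2 * C')))
      (min (c / (16 * C)) (c / (32 * C')))), by positivity,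
      (min_le_left _ _).trans (min_le_left _ _), (min_le_left _ _).trans (min_le_right _ _),
      (min_le_right _ _).trans ((min_le_left _ _).trans (min_le_left _ _)),
      (min_le_right _ _).trans ((min_le_left _ _).trans (min_le_right _ _)),
      (min_le_right _ _).trans ((min_le_right _ _).trans (min_le_left _ _)),
      (min_le_right _ _).trans ((min_le_right _ _).trans (min_le_right _ _))⟩
  refine ⟨C, ε, y₀, hC, hε0, hε1, hy₀, k1.trans hy₁1, ?_⟩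
  intro y l R hS hy ι _ _ μ B S ψ χ hχ hB hAct hSym hC1
  have hy0 := hS.y0
  have hy1 : y ≤ y₁ := hy.trans k1
  have hy2 : y ≤ 1 / 2 := hy.trans k2
  have h1 : y ≤ 1 := hy1.trans hy₁1
  have hT := T y l R hS h1
  have h80 : 0 < y ^ 80 := pow_pos hy0 _
  have h80' : y ^ 80 ≤ 1 := pow_le_one₀ hy0.le h1
  have h800 : 0 < y ^ 800 := pow_pos hy0 _
  have h808 : 0 < y ^ 808 := pow_pos hy0 _
  have hmin : ∀ m, 0 ≤ min (sq3 (pk l m)) (y ^ 800) := fun m =>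
    le_min (sq3_nonneg_sharpa _) h800.le
  have hg0 : ∀ m, ε * D.mu0 y * D.vp y l m ≤ c / 2 * min (sq3 (pk l m)) (y ^ 800) :=
    pert_far2s D hy0 hε0.le hεc
  have hg : ∀ m, ε * D.mu0 y * D.vp y l m ≤ c * min (sq3 (pk l m)) (y ^ 800) := fun m =>
    (hg0 m).trans (mul_le_mul_of_nonneg_right (by linarith) (hmin m))
  have hΓ : HasSum (fun m => ε * D.mu0 y * D.vp y l m * occ μ B S m ψ)
      (ε * D.mu0 y * mo μ B S (D.vp y l) ψ) := by
    simpa only [mul_assoc] using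
      (hasSum_mo hAct (D.vp_nonneg hy0 l) (D.vp_le_one y l) ψ).mul_left (ε * D.mu0 y)
  have hN : 0 ≤ nq (ipB μ) ψ := (psd_ipB μ).nq_nonneg ψ
  have H1 := fun r => H y l hy0 hy1 (l400_sharpa hS h1) μ B S ψ χ hχ r hB hAct hSym hC1
  have e0 : 2 * π * D.a * (2 * y ^ 800 * S.card - (y ^ 800) ^ 2 * l ^ 3) =
      D.mu0 y * S.card - 2 * π * D.a * y ^ 1600 * l ^ 3 := by
    unfold Dat.mu0; ring
  refine ⟨?_, fun hn => ?_, fun hn hmany => ?_⟩
  · have h := H1 (y ^ 800) h800.le (by linarith) _ _ hg hΓ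
    rwa [e0] at h
  · have hfar : y ^ 80 * (y ^ 800 * l ^ 3) ≤ |(S.card : ℝ) - y ^ 800 * l ^ 3| :=
      (not_le.1 hn).le
    have hnum := far_num_sharpa (n := S.card) hy0 h1 hα (by linarith : 0 ≤ C)
      (by linarith : 0 ≤ C') (small_sharpa (by positivity) (hy.trans k3))
      (small_sharpa (by positivity) (hy.trans k4)) (vol_sharpa hS) hfar
      (by have := le_abs_self ((S.card : ℝ) - y ^ 800 * l ^ 3); linarith)
    have key : ∀ δ : ℝ, δ ^ 2 = (y ^ 80) ^ 2 → -1 ≤ δ → δ ≤ 1 →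
        δ * ((S.card : ℝ) - y ^ 800 * l ^ 3) = y ^ 80 * |(S.card : ℝ) - y ^ 800 * l ^ 3| →
        (D.mu0 y * S.card + D.tg0 y l R + y ^ 760) * nq (ipB μ) ψ +
          ε * D.mu0 y * mo μ B S (D.vp y l) ψ ≤ En μ S (D.W χ) ψ := by
      intro δ hδ hδ1 hδ2 hδ3
      have h := H1 (y ^ 800 * (1 + δ)) (mul_nonneg h800.le (by linarith)) (by nlinarith) _ _ hg hΓ
      have e : 2 * π * D.a * (2 * (y ^ 800 * (1 + δ)) * S.card - (y ^ 800 * (1 + δ)) ^ 2 * l ^ 3) =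
          D.mu0 y * S.card - 2 * π * D.a * y ^ 1600 * l ^ 3 + 2 * π * D.a * y ^ 800 *
            (2 * (δ * ((S.card : ℝ) - y ^ 800 * l ^ 3)) - δ ^ 2 * (y ^ 800 * l ^ 3)) := by
        unfold Dat.mu0; ring
      rw [e] at h
      have h' := far_alg_far2s (t := C' * y ^ 756) hy0 hα hN hδ hδ3 hfar (by linarith) h
      have g4 : D.mu0 y * S.card + D.tg0 y l R + y ^ 760 ≤
          D.mu0 y * S.card - 2 * π * D.a * y ^ 1600 * l ^ 3 + C' * y ^ 756 := by linarith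
      have g5 := mul_le_mul_of_nonneg_right g4 hN
      linarith
    rcases le_total 0 ((S.card : ℝ) - y ^ 800 * l ^ 3) with hs | hs
    · exact key (y ^ 80) rfl (by linarith) h80' (by rw [abs_of_nonneg hs])
    · exact key (-y ^ 80) (by ring) (by linarith) (by linarith) (by rw [abs_of_nonpos hs]; ring)
  · have hnear : |(S.card : ℝ) - y ^ 800 * l ^ 3| ≤ y ^ 80 * (y ^ 800 * l ^ 3) := hn
    have hg2 : ∀ m, ε * D.mu0 y * D.vp y l m + (if m ∈ Lset R then c / 2 * y ^ 808 else 0) ≤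
        c * min (sq3 (pk l m)) (y ^ 800) := fun m => by
      have g1 := hg0 m
      have g2 : (if m ∈ Lset R then c / 2 * y ^ 808 else 0) ≤
          c / 2 * min (sq3 (pk l m)) (y ^ 800) := by
        split_ifs with hm
        · refine mul_le_mul_of_nonneg_left (le_min ?_ ?_) (by positivity)
          · have := (hS.mom m).1 (mem_Lset.1 hm).1
            linarith
          · exact pow_le_pow_of_le_one hy0.le h1 (by norm_num)
        · exact mul_nonneg (by positivity) (hmin m)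
      linarith
    have hΓ2 : HasSum (fun m => (ε * D.mu0 y * D.vp y l m +
        (if m ∈ Lset R then c / 2 * y ^ 808 else 0)) * occ μ B S m ψ)
        (ε * D.mu0 y * mo μ B S (D.vp y l) ψ + c / 2 * y ^ 808 * nL μ B R S ψ) := by
      simpa only [add_mul] using hΓ.add (hasSum_low_far2s hAct R (c / 2 * y ^ 808) ψ)
    have hnum := many_num_sharpa (n := S.card) hy0 hy2 hc (by linarith : 0 ≤ C)
      (by linarith : 0 ≤ C') (small_sharpa (by positivity) (hy.trans k5))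
      (small_sharpa (by positivity) (hy.trans k6)) (vol_sharpa hS)
      (by have := neg_abs_le ((S.card : ℝ) - y ^ 800 * l ^ 3); linarith)
    have h := H1 (y ^ 800) h800.le (by linarith) _ _ hg2 hΓ2
    rw [e0] at h
    have g1 := mul_le_mul_of_nonneg_left hmany (by positivity : 0 ≤ c / 2 * y ^ 808)
    have g4 : D.mu0 y * S.card + D.tg0 y l R + y ^ 760 ≤
        D.mu0 y * S.card - 2 * π * D.a * y ^ 1600 * l ^ 3 - C * y ^ 1199 * S.card +
          c / 2 * y ^ 808 * (S.card * y ^ 120 / 4) := by linarith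
    have g5 := mul_le_mul_of_nonneg_right g4 hN
    linarith

end Pool.Agent.BoseLHY
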