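import Pool.Agent.Lib.MP_dec75e_mp.S.TorC
import Pool.Agent.Lib.MP_dec75e_mp.U.Fin4

/-! The momentum distribution of ground states in the mean. -/

open MeasureTheory Finset Function
open scoped Real

noncomputable section

namespace Pool.Agent.BoseLHY

open Pool.Agent.BoseTail

/-- `exists_dat`, `exists_y`, `unit_eq`, `lower_y` (compare the proof of `bogolyubov`). -/
theorem lower_law {v f : E3 → ℝ} {a α β η : ℝ} (hs : Scat v f a) {V : BF R3} (hV : Maj v V)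
    {P : ℝ} (hP : 0 ≤ P) (hα : 0 < α) (hαβ : α < β) (hη : 0 < η) :
    ∃ ρ₀ η' : ℝ, 0 < ρ₀ ∧ 0 < η' ∧ ∀ (N : ℕ) (L : ℝ) [Fact (0 < L)] (ψ : Cf N L → ℂ),
      N / L ^ 3 ≤ ρ₀ → L ^ 3 ≤ (N : ℝ) ^ 2 → Adm ψ → PB V P ψ →
      energy v ψ ≤ 2 * π * a * (N / L ^ 3) * N * (1 + (cL + η') * √(N / L ^ 3 * a ^ 3)) →
      ∀ S : Finset (Fin 3 → ℤ), (∀ n ∈ S, α ≤ ‖(√(8 * π * (N / L ^ 3) * a))⁻¹ • kvec L n‖ ∧
        ‖(√(8 * π * (N / L ^ 3) * a))⁻¹ • kvec L n‖ ≤ β) →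
      ∑ n ∈ S, gB ‖(√(8 * π * (N / L ^ 3) * a))⁻¹ • kvec L n‖ -
          η * (L * √(8 * π * (N / L ^ 3) * a)) ^ 3 ≤ ∑ n ∈ S, 2 * (N / L ^ 3) * Mom ψ n := by
  obtain ⟨D, rfl, rfl, hw⟩ := exists_dat hs hV
  have ha := D.ha
  have hp := Real.pi_pos
  obtain ⟨y₀, η₁, hy0, hy1, h10, H⟩ := lower_y hs.cont hs.nonneg hs.cpt D hw hα hαβ (half_pos hη) hP
  obtain ⟨K, hK⟩ : ∃ K : ℝ, K = 32 * √2 / (π * √π) := ⟨_, rfl⟩
  have hK0 : 0 < K := by rw [hK]; positivity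
  refine ⟨y₀ ^ 800, K * η₁, by positivity, by positivity,
    fun N L hL ψ h1 h2 hψ hPB hE S hS => ?_⟩
  have hL0 : 0 < L := hL.out
  obtain ⟨y, hy, hyy, hN, hρ, hLy⟩ := exists_y hL0 hy0 hy1 h1 h2
  obtain ⟨u1, -, u3⟩ := unit_eq D hy hL0 hN
  rw [← hK] at u1 u3
  have hκ : 8 * π * y ^ 800 * D.a = 2 * D.mu0 y := by rw [Dat.mu0]; ring
  have hM : ∀ x : ℝ, 2 * y ^ 800 * x = 2 * (N * x / L ^ 3) := fun x => by rw [← hρ]; ring
  rw [hρ] at hE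
  rw [hρ, hκ] at hS ⊢
  have h3 := H y N L ψ hy hyy hN hLy hψ hPB (by
    rw [u1]
    refine hE.trans (le_of_eq ?_)
    rw [← u3]
    ring) S hS
  simp only [hM]
  rw [← Finset.mul_sum]
  rw [← Finset.sum_div] at h3
  linarith

/-- From a one-sided bound on all subsets and a bound on the weighted mean to a bound in `ℓ¹`. -/
theorem l1_fin5 {τ : Type} [DecidableEq τ] {T S : Finset τ} (hS : S ⊆ T) {x g φ : τ → ℝ} {E₁ E₂ : ℝ}
    (hφ : ∀ n ∈ T, 0 ≤ φ n ∧ φ n ≤ 1) (h1 : ∀ n ∈ S, φ n = 1)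
    (hA : ∀ S' ⊆ T, ∑ n ∈ S', g n - E₁ ≤ ∑ n ∈ S', x n)
    (hB : ∑ n ∈ T, φ n * x n ≤ ∑ n ∈ T, φ n * g n + E₂) :
    ∑ n ∈ S, |x n - g n| ≤ 2 * E₁ + E₂ := by
  classical
  have h2 := hA (T.filter fun n => x n < g n) (Finset.filter_subset _ _)
  have h3 : ∑ n ∈ S, |x n - g n| ≤ ∑ n ∈ T, φ n * |x n - g n| := by
    rw [← Finset.sum_congr rfl fun n hn => show φ n * |x n - g n| = |x n - g n| by
      rw [h1 n hn, one_mul]]
    exact Finset.sum_le_sum_of_subset_of_nonneg hS fun n hn _ =>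
      mul_nonneg (hφ n hn).1 (abs_nonneg _)
  have h4 : ∑ n ∈ T, φ n * |x n - g n| ≤
      ∑ n ∈ T, (φ n * x n - φ n * g n + 2 * if x n < g n then g n - x n else 0) := by
    refine Finset.sum_le_sum fun n hn => ?_
    obtain ⟨a0, a1⟩ := hφ n hn
    split_ifs with h
    · rw [abs_of_neg (by linarith)]
      nlinarith
    · rw [abs_of_nonneg (by linarith)]
      linarith
  rw [Finset.sum_add_distrib, Finset.sum_sub_distrib, ← Finset.mul_sum, ← Finset.sum_filter,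
    Finset.sum_sub_distrib] at h4
  linarith

theorem scale_fin5s {N L a ρ₀ δ₀ : ℝ} (hL : 0 < L) (ha : 0 < a) (hδ : 0 < δ₀) (hL1 : 1 ≤ L)
    (h1 : N / L ^ 3 ≤ ρ₀) (h2 : L ^ 5 ≤ N ^ 2) (hN : 0 ≤ N) (h3 : ρ₀ ≤ 2 * a * δ₀ ^ 2 / π) :
    0 < √(8 * π * (N / L ^ 3) * a) ∧ 2 * π / (L * √(8 * π * (N / L ^ 3) * a)) ≤ δ₀ := by
  have hp := Real.pi_pos
  have hN0 : 0 < N := by
    rcases hN.eq_or_lt with h | h
    · rw [← h] at h2
      have := pow_pos hL 5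
      norm_num at h2
      linarith
    · exact h
  obtain ⟨ρ, hρ⟩ : ∃ ρ, ρ = N / L ^ 3 := ⟨_, rfl⟩
  have hρ0 : 0 < ρ := by rw [hρ]; positivity
  have hNρ : N = ρ * L ^ 3 := by rw [hρ]; field_simp
  rw [← hρ] at h1 ⊢
  have h4 : 1 ≤ ρ ^ 2 * L := by
    have h5 : L ^ 5 * 1 ≤ L ^ 5 * (ρ ^ 2 * L) := by
      calc L ^ 5 * 1 = L ^ 5 := mul_one _
        _ ≤ N ^ 2 := h2
        _ = _ := by rw [hNρ]; ring
    exact le_of_mul_le_mul_left h5 (by positivity)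
  have hκ : 0 < √(8 * π * ρ * a) := Real.sqrt_pos.2 (by positivity)
  refine ⟨hκ, ?_⟩
  rw [div_le_iff₀ (by positivity)]
  refine le_of_pow_le_pow_left₀ (n := 2) (by norm_num) (by positivity) ?_
  rw [mul_pow δ₀, mul_pow L, Real.sq_sqrt (by positivity)]
  have h6 : ρ * π ≤ 2 * a * δ₀ ^ 2 := by
    have := h1.trans h3
    rwa [le_div_iff₀ hp] at this
  have h7 : 1 ≤ ρ ^ 2 * L * L := by nlinarith
  have h8 := mul_le_mul_of_nonneg_left h6 (by positivity : 0 ≤ 4 * π * ρ * L ^ 2)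
  have h9 := mul_le_mul_of_nonneg_left h7 (by positivity : 0 ≤ 4 * π ^ 2)
  nlinarith

theorem mean_fin5s {A G I W η : ℝ} (hW : 0 < W) (hη : 0 < η)
    (h1 : |A / W - I / (2 * π) ^ 3| ≤ η / 4) (h2 : |(2 * π) ^ 3 / W * G - I| ≤ η / 4) :
    A ≤ G + η / 2 * W := by
  have hp : 1 ≤ (2 * π) ^ 3 := one_le_pow₀ (by linarith [Real.pi_gt_three])
  have hp0 : 0 < (2 * π) ^ 3 := by linarith
  generalize (2 * π) ^ 3 = P at *
  have h3 : I / P ≤ G / W + η / 4 := by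
    rw [div_le_iff₀ hp0]
    have h4 := (abs_le.1 h2).1
    have h5 : (G / W + η / 4) * P = P / W * G + η / 4 * P := by ring
    nlinarith
  have h6 : A / W ≤ G / W + η / 2 := by linarith [(abs_le.1 h1).2]
  rw [div_le_iff₀ hW] at h6
  have h7 : (G / W + η / 2) * W = G + η / 2 * W := by field_simp
  linarith

/-- `exists_bump`, `weak_law`, `lower_law` on the shell `[α / 2, 2 β]` (the energy bound comes from
`upper_lhy` as in `weak_law`), `exists_shell`, `riem_int` with `δ = 2 π / (L κ)` and `phi_g`,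
`l1_fin5`. `L κ` is large: `(L κ) ^ 2 = 8 π a N / L` and `L ^ 5 ≤ N²`, `N ≤ ρ₀ L ^ 3`. -/
theorem strong_law {v f : E3 → ℝ} {a α β η : ℝ} (hs : Scat v f a) {V : BF R3} (hV : Maj v V)
    {P : ℝ} (hP : 0 ≤ P) (hα : 0 < α) (hαβ : α < β) (hη : 0 < η) :
    ∃ ρ₀ η' : ℝ, 0 < ρ₀ ∧ 0 < η' ∧ ∀ (N : ℕ) (L : ℝ) [Fact (0 < L)] (ψ : Cf N L → ℂ),
      N / L ^ 3 ≤ ρ₀ → L ^ 5 ≤ (N : ℝ) ^ 2 → Adm ψ → PB V P ψ →
      (∀ χ : Cf N L → ℂ, Adm χ → energy v ψ ≤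
        energy v χ + η' * (2 * π * a * (N / L ^ 3) * N * √(N / L ^ 3 * a ^ 3))) →
      ∀ S : Finset (Fin 3 → ℤ), (∀ n ∈ S, α ≤ ‖(√(8 * π * (N / L ^ 3) * a))⁻¹ • kvec L n‖ ∧
        ‖(√(8 * π * (N / L ^ 3) * a))⁻¹ • kvec L n‖ ≤ β) →
      ∑ n ∈ S, |2 * (N / L ^ 3) * Mom ψ n - gB ‖(√(8 * π * (N / L ^ 3) * a))⁻¹ • kvec L n‖| ≤
        η * (L * √(8 * π * (N / L ^ 3) * a)) ^ 3 := by
  classical
  have ha := hs.pos
  have hp := Real.pi_pos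
  obtain ⟨φ, hφ, hφc, hφ0, hφe, hφ1, hφ2, hφ3⟩ := exists_bump hα hαβ
  obtain ⟨ρ₁, η₁, h1, h2, H₁⟩ := weak_lawP hs hV hP hφ hφc hφ0 hφe (by positivity : 0 < η / 4)
  obtain ⟨ρ₂, η₂, h3, h4, H₂⟩ := lower_law hs hV hP (half_pos hα) (by linarith : α / 2 < 2 * β)
    (by positivity : 0 < η / 4)
  obtain ⟨ρ₃, h5, h6, H₃⟩ := upper_lhy hs (half_pos h4)
  obtain ⟨g1, g2, -, g4⟩ := phi_g hφ.continuous hφc hφ0 hφe
  obtain ⟨δ₀, hδ₀, H₄⟩ := riem_int g1 g2 (by positivity : 0 < η / 4)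
  refine ⟨min (min ρ₁ ρ₂) (min ρ₃ (2 * a * δ₀ ^ 2 / π)), min η₁ (η₂ / 2), by positivity,
    by positivity, fun N L _ ψ a1 a2 a3 aP a4 S hS => ?_⟩
  have b1 : N / L ^ 3 ≤ ρ₁ := a1.trans ((min_le_left _ _).trans (min_le_left _ _))
  have b2 : N / L ^ 3 ≤ ρ₂ := a1.trans ((min_le_left _ _).trans (min_le_right _ _))
  have b3 : N / L ^ 3 ≤ ρ₃ := a1.trans ((min_le_right _ _).trans (min_le_left _ _))
  have b4 : N / L ^ 3 ≤ 2 * a * δ₀ ^ 2 / π :=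
    a1.trans ((min_le_right _ _).trans (min_le_right _ _))
  have hL : 0 < L := Fact.out
  have hL3 : 0 < L ^ 3 := by positivity
  have hN : (N : ℝ) ≤ L ^ 3 := by
    have := b3.trans h6
    rwa [div_le_one hL3] at this
  have hL1 : 1 ≤ L := by
    have h6 : L ^ 5 * 1 ≤ L ^ 5 * L := by
      calc L ^ 5 * 1 = L ^ 5 := mul_one _
        _ ≤ (N : ℝ) ^ 2 := a2
        _ ≤ (L ^ 3) ^ 2 := pow_le_pow_left₀ (Nat.cast_nonneg N) hN 2
        _ = L ^ 5 * L := by ring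
    exact le_of_mul_le_mul_left h6 (by positivity)
  have a5 : L ^ 3 ≤ (N : ℝ) ^ 2 := (pow_le_pow_right₀ hL1 (by norm_num)).trans a2
  obtain ⟨hκ, hδ⟩ := scale_fin5s hL ha hδ₀ hL1 b4 a2 (Nat.cast_nonneg N) le_rfl
  have hB : 0 ≤ 2 * π * a * (N / L ^ 3) * N * √(N / L ^ 3 * a ^ 3) := by positivity
  obtain ⟨A, hA, hA'⟩ := H₁ N L ψ b1 a2 a3 aP fun χ hχ => (a4 χ hχ).trans
    (add_le_add le_rfl (mul_le_mul_of_nonneg_right (min_le_left _ _) hB))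
  have h7 := H₃ N L (energy v ψ -
    η₂ / 2 * (2 * π * a * (N / L ^ 3) * N * √(N / L ^ 3 * a ^ 3))) b3 a2 fun χ hχ => by
      have := mul_le_mul_of_nonneg_right (min_le_right η₁ (η₂ / 2)) hB
      linarith [a4 χ hχ]
  replace H₂ := H₂ N L ψ b2 a5 a3 aP (by linarith)
  generalize √(8 * π * (N / L ^ 3) * a) = κ at *
  obtain ⟨T, hT⟩ := exists_shell hL hκ (α / 2) (2 * β)
  have hT0 : ∀ n, n ∉ T → φ (κ⁻¹ • kvec L n) = 0 := fun n hn => by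
    by_contra h
    exact hn ((hT n).2 (hφ3 _ h))
  have hA2 : A = ∑ n ∈ T, φ (κ⁻¹ • kvec L n) * (2 * (N / L ^ 3) * Mom ψ n) :=
    hA.unique (hasSum_sum_of_ne_finset_zero fun n hn => by rw [hT0 n hn, zero_mul])
  have hk : ∀ n : Fin 3 → ℤ, (WithLp.toLp 2 fun c => 2 * π / (L * κ) * (n c : ℝ) : E3) =
      κ⁻¹ • kvec L n := by
    intro n
    ext c
    change 2 * π / (L * κ) * (n c : ℝ) = κ⁻¹ * (2 * π * (n c : ℝ) / L)
    field_simp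
  have h8 := H₄ (2 * π / (L * κ)) (by positivity) hδ T fun n hn => by
    rw [hk, hT0 n hn, zero_mul]
  simp only [← norm_toLp_phig, hk] at h8
  simp only [← norm_toLp_phig] at g4
  rw [g4, div_pow] at h8
  have hW : 0 < (L * κ) ^ 3 := by positivity
  have h9 := mean_fin5s hW hη hA' h8
  have h10 := l1_fin5 (T := T) (S := S) (x := fun n => 2 * (N / L ^ 3) * Mom ψ n)
    (g := fun n => gB ‖κ⁻¹ • kvec L n‖) (φ := fun n => φ (κ⁻¹ • kvec L n))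
    (E₁ := η / 4 * (L * κ) ^ 3) (E₂ := η / 2 * (L * κ) ^ 3)
    (fun n hn => (hT n).2 ⟨by linarith [(hS n hn).1], by linarith [(hS n hn).2]⟩)
    (fun n _ => hφ1 _) (fun n hn => hφ2 _ (hS n hn).1 (hS n hn).2)
    (fun S' hS' => H₂ S' fun n hn => (hT n).1 (hS' hn)) (by rw [← hA2]; exact h9)
  linarith

end Pool.Agent.BoseLHY
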