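import Pool.Agent.Lib.MP_dec75e_mp.S.Fin5

/-! The mean over a shell of momenta. -/

open MeasureTheory Finset Function
open scoped Real

noncomputable section

namespace Pool.Agent.BoseLHY

open Pool.Agent.BoseTail

/-- The number of lattice points in a shell. -/
theorem card_ge {α β : ℝ} (hα : 0 < α) (hαβ : α < β) : ∃ c δ₀ : ℝ, 0 < c ∧ 0 < δ₀ ∧
    ∀ (L κ : ℝ), 0 < L → 0 < κ → 2 * π / (L * κ) ≤ δ₀ → ∀ T : Finset (Fin 3 → ℤ),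
      (∀ n, n ∈ T ↔ α ≤ ‖κ⁻¹ • kvec L n‖ ∧ ‖κ⁻¹ • kvec L n‖ ≤ β) → c * (L * κ) ^ 3 ≤ T.card := by
  have hp := Real.pi_pos
  have hβ : 0 < β := by linarith
  obtain ⟨Φ, hΦ⟩ : ∃ Φ : R3 → ℝ, Φ = fun z =>
      max 0 (min (‖(WithLp.toLp 2 z : E3)‖ - α) (β - ‖(WithLp.toLp 2 z : E3)‖)) := ⟨_, rfl⟩
  have hn : Continuous fun z : R3 => ‖(WithLp.toLp 2 z : E3)‖ :=
    (PiLp.continuous_toLp 2 fun _ : Fin 3 => ℝ).norm
  have hc : Continuous Φ := by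
    rw [hΦ]
    exact continuous_const.max ((hn.sub continuous_const).min (continuous_const.sub hn))
  have h0 : ∀ z : R3, ¬(α ≤ ‖(WithLp.toLp 2 z : E3)‖ ∧ ‖(WithLp.toLp 2 z : E3)‖ ≤ β) → Φ z = 0 := by
    intro z hz
    rw [hΦ]
    refine max_eq_left ?_
    rcases not_and_or.1 hz with h | h
    · exact (min_le_left _ _).trans (by linarith [not_le.1 h])
    · exact (min_le_right _ _).trans (by linarith [not_le.1 h])
  have hs : HasCompactSupport Φ := by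
    refine HasCompactSupport.intro (isCompact_closedBall (0 : R3) β) fun z hz => h0 z fun h => hz ?_
    rw [Metric.mem_closedBall, dist_zero_right]
    refine (pi_norm_le_iff_of_nonneg hβ.le).2 fun c => ?_
    exact (PiLp.norm_apply_le (WithLp.toLp 2 z : E3) c).trans h.2
  have h1 : ∀ z, 0 ≤ Φ z ∧ Φ z ≤ β := by
    intro z
    rw [hΦ]
    have := norm_nonneg (WithLp.toLp 2 z : E3)
    exact ⟨le_max_left _ _, max_le hβ.le ((min_le_right _ _).trans (by linarith))⟩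
  have hI : 0 < ∫ z, Φ z := by
    refine hc.integral_pos_of_hasCompactSupport_nonneg_nonzero
      (x := Pi.single 0 ((α + β) / 2)) hs (fun z => (h1 z).1) ?_
    have h2 : ‖(WithLp.toLp 2 (Pi.single 0 ((α + β) / 2) : R3) : E3)‖ = (α + β) / 2 := by
      rw [PiLp.toLp_single, PiLp.norm_single, Real.norm_eq_abs, abs_of_pos (by linarith)]
    rw [hΦ]
    simp only [h2]
    exact (lt_max_of_lt_right (lt_min (by linarith) (by linarith))).ne'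
  obtain ⟨δ₀, hδ₀, H⟩ := riem_int hc hs (half_pos hI)
  refine ⟨(∫ z, Φ z) / 2 / β / (2 * π) ^ 3, δ₀, by positivity, hδ₀, fun L κ hL hκ hδ T hT => ?_⟩
  have hk : ∀ n : Fin 3 → ℤ, (WithLp.toLp 2 fun c => 2 * π / (L * κ) * (n c : ℝ) : E3) =
      κ⁻¹ • kvec L n := by
    intro n
    ext c
    change 2 * π / (L * κ) * (n c : ℝ) = κ⁻¹ * (2 * π * (n c : ℝ) / L)
    field_simp
  have h3 := H (2 * π / (L * κ)) (by positivity) hδ T fun n hn => h0 _ (by rw [hk, ← hT]; exact hn)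
  have h4 : ∑ n ∈ T, Φ (fun c => 2 * π / (L * κ) * (n c : ℝ)) ≤ T.card * β := by
    have := Finset.sum_le_card_nsmul T _ β fun n _ => (h1 fun c => 2 * π / (L * κ) * (n c : ℝ)).2
    rwa [nsmul_eq_mul] at this
  have h5 := mul_le_mul_of_nonneg_left h4 (by positivity : 0 ≤ (2 * π / (L * κ)) ^ 3)
  have h6 : (∫ z, Φ z) / 2 ≤ (2 * π / (L * κ)) ^ 3 * (T.card * β) := by
    linarith [(abs_le.1 h3).1]
  have h7 : (2 * π / (L * κ)) ^ 3 * (T.card * β) / β / (2 * π) ^ 3 * (L * κ) ^ 3 = T.card := by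
    field_simp
  rw [← h7]
  gcongr

theorem strong_law_meanP {v f : E3 → ℝ} {a α β η : ℝ} (hs : Scat v f a) {V : BF R3}
    (hV : Maj v V) {P : ℝ} (hP : 0 ≤ P) (hα : 0 < α) (hαβ : α < β) (hη : 0 < η) :
    ∃ ρ₀ η' : ℝ, 0 < ρ₀ ∧ 0 < η' ∧ ∀ (N : ℕ) (L : ℝ) [Fact (0 < L)] (ψ : Cf N L → ℂ),
      N / L ^ 3 ≤ ρ₀ → L ^ 5 ≤ (N : ℝ) ^ 2 → Adm ψ → PB V P ψ →
      (∀ χ : Cf N L → ℂ, Adm χ → energy v ψ ≤
        energy v χ + η' * (2 * π * a * (N / L ^ 3) * N * √(N / L ^ 3 * a ^ 3))) →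
      ∃ S : Finset (Fin 3 → ℤ), (∀ n, n ∈ S ↔ α ≤ ‖(√(8 * π * (N / L ^ 3) * a))⁻¹ • kvec L n‖ ∧
        ‖(√(8 * π * (N / L ^ 3) * a))⁻¹ • kvec L n‖ ≤ β) ∧ S.Nonempty ∧
      ∑ n ∈ S, |2 * (N / L ^ 3) * Mom ψ n - gB ‖(√(8 * π * (N / L ^ 3) * a))⁻¹ • kvec L n‖| ≤
        η * S.card := by
  have ha := hs.pos
  have hp := Real.pi_pos
  obtain ⟨c, δ₀, hc, hδ₀, H₁⟩ := card_ge hα hαβ
  obtain ⟨ρ₁, η', h1, h2, H₂⟩ := strong_law hs hV hP hα hαβ (mul_pos hη hc)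
  refine ⟨min ρ₁ (min 1 (2 * a * δ₀ ^ 2 / π)), η', by positivity, h2,
    fun N L _ ψ a1 a2 a3 aP a4 => ?_⟩
  have hL : 0 < L := Fact.out
  have hL3 : 0 < L ^ 3 := by positivity
  have hN : (N : ℝ) ≤ L ^ 3 := by
    have := a1.trans ((min_le_right _ _).trans (min_le_left _ _))
    rwa [div_le_one hL3] at this
  have hL1 : 1 ≤ L := by
    have h6 : L ^ 5 * 1 ≤ L ^ 5 * L := by
      calc L ^ 5 * 1 = L ^ 5 := mul_one _
        _ ≤ (N : ℝ) ^ 2 := a2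
        _ ≤ (L ^ 3) ^ 2 := pow_le_pow_left₀ (Nat.cast_nonneg N) hN 2
        _ = L ^ 5 * L := by ring
    exact le_of_mul_le_mul_left h6 (by positivity)
  obtain ⟨hκ, hδ⟩ := scale_fin5s hL ha hδ₀ hL1
    (a1.trans ((min_le_right _ _).trans (min_le_right _ _))) a2 (Nat.cast_nonneg N) le_rfl
  obtain ⟨T, hT⟩ := exists_shell hL hκ α β
  have h3 := H₁ L _ hL hκ hδ T hT
  have h4 := H₂ N L ψ (a1.trans (min_le_left _ _)) a2 a3 aP a4 T fun n hn => (hT n).1 hn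
  refine ⟨T, hT, ?_, h4.trans ?_⟩
  · have h5 : (0 : ℝ) < T.card := lt_of_lt_of_le (by positivity) h3
    exact Finset.card_pos.1 (by exact_mod_cast h5)
  · rw [mul_assoc]
    exact mul_le_mul_of_nonneg_left h3 hη.le

theorem strong_law_mean {v f : E3 → ℝ} {a α β η : ℝ} (hs : Scat v f a)
    (hm : ∀ x y, ‖x‖ ≤ ‖y‖ → v y ≤ v x) (hα : 0 < α) (hαβ : α < β) (hη : 0 < η) :
    ∃ ρ₀ η' : ℝ, 0 < ρ₀ ∧ 0 < η' ∧ ∀ (N : ℕ) (L : ℝ) [Fact (0 < L)] (ψ : Cf N L → ℂ),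
      N / L ^ 3 ≤ ρ₀ → L ^ 5 ≤ (N : ℝ) ^ 2 → Adm ψ →
      (∀ χ : Cf N L → ℂ, Adm χ → energy v ψ ≤
        energy v χ + η' * (2 * π * a * (N / L ^ 3) * N * √(N / L ^ 3 * a ^ 3))) →
      ∃ S : Finset (Fin 3 → ℤ), (∀ n, n ∈ S ↔ α ≤ ‖(√(8 * π * (N / L ^ 3) * a))⁻¹ • kvec L n‖ ∧
        ‖(√(8 * π * (N / L ^ 3) * a))⁻¹ • kvec L n‖ ≤ β) ∧ S.Nonempty ∧
      ∑ n ∈ S, |2 * (N / L ^ 3) * Mom ψ n - gB ‖(√(8 * π * (N / L ^ 3) * a))⁻¹ • kvec L n‖| ≤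
        η * S.card := by
  have ha := hs.pos
  have hp := Real.pi_pos
  obtain ⟨V, P, ρ₁, hV, hP, h1, H₁⟩ := pb_mono hs hm
  obtain ⟨ρ₂, η', h2, h3, H₂⟩ := strong_law_meanP hs hV hP hα hαβ hη
  refine ⟨min ρ₁ ρ₂, min η' 1, lt_min h1 h2, lt_min h3 one_pos, fun N L _ ψ a1 a2 a3 a4 => ?_⟩
  have hL : 0 < L := Fact.out
  refine H₂ N L ψ (a1.trans (min_le_right _ _)) a2 a3
    (H₁ N L ψ _ (min_le_right _ _) (a1.trans (min_le_left _ _)) a2 a3 a4) fun χ hχ =>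
      (a4 χ hχ).trans (add_le_add le_rfl
        (mul_le_mul_of_nonneg_right (min_le_left _ _) (by positivity)))

end Pool.Agent.BoseLHY
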