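import Pool.Agent.Lib.MP_dec75e_mp.S.Fin6
import Pool.Agent.Lib.MP_dec75e_mp.Dens

/-! Ground states of radial potentials which need not be monotone. -/

open MeasureTheory Finset Function
open scoped Real

noncomputable section

namespace Pool.Agent.BoseLHY

open Pool.Agent.BoseTail

theorem norm_proj_le {L : ℝ} (x y : R3) : ‖proj L x - proj L y‖ ≤ ‖x - y‖ := by
  refine (pi_norm_le_iff_of_nonneg (norm_nonneg _)).2 fun c => ?_
  refine le_trans ?_ (norm_le_pi_norm (x - y) c)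
  change ‖(x c : AddCircle L) - (y c : AddCircle L)‖ ≤ ‖x c - y c‖
  rw [← AddCircle.coe_sub]
  exact QuotientAddGroup.norm_mk_le_norm

/-- In a ground state the pair density at short distances is bounded (`dens`). -/
theorem pb_ground {v f : E3 → ℝ} {a : ℝ} (hs : Scat v f a) :
    ∃ (V : BF R3) (P ρ₀ : ℝ), Maj v V ∧ 0 ≤ P ∧ 0 < ρ₀ ∧
      ∀ (N : ℕ) (L : ℝ) [Fact (0 < L)] (ψ : Cf N L → ℂ),
      N / L ^ 3 ≤ ρ₀ → L ^ 5 ≤ (N : ℝ) ^ 2 → IsGround v ψ → PB V P ψ := by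
  obtain ⟨M, hM, hV⟩ := exists_maj hs.cont hs.cpt
  obtain ⟨Q, -, hQ⟩ := hs.exists_setup
  obtain ⟨C, ρ₁, hC, h1, h2, H⟩ := dens Q
  have hR := Q.hR0
  refine ⟨M • ball3 M, M * (C * M ^ 3), min ρ₁ (min (1 / (4 * Q.R0)) (1 / (2 * M) ^ 2)), hV,
    by positivity, by positivity, fun N L _ ψ a1 a2 a3 => ?_⟩
  have hL : 0 < L := Fact.out
  obtain ⟨b2, b3⟩ := big_box (R := 4 * Q.R0) hL (Nat.cast_nonneg N) a1 a2
    ((min_le_left _ _).trans h2) (by linarith) (by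
      rw [← le_div_iff₀ (by linarith)]
      exact (min_le_right _ _).trans (min_le_left _ _))
  have hD := (H N L _ ψ (hQ N L ψ b2 b3 a3) (a1.trans (min_le_left _ _))).two
  have b4 : (2 * M) ^ 2 * rho N L ≤ 1 := by
    have := a1.trans ((min_le_right _ _).trans (min_le_right _ _))
    rwa [le_div_iff₀ (by positivity), mul_comm] at this
  refine ⟨fun z => M * nb M z, (BM.const M).mul (BM_nb M),
    fun z => mul_nonneg hM.le (nb_nonneg_dens M z), fun x y => ?_, ?_⟩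
  · change M * (ball3 M).1 (x - y) ≤ _
    refine mul_le_mul_of_nonneg_left ?_ hM.le
    rw [ball3_apply]
    split_ifs with h
    · exact (nb_one_dens ((norm_proj_le x y).trans h)).ge
    · exact nb_nonneg_dens M _
  · have k1 : ∀ i, ∑ j ∈ univ.erase i, ∫ X : Cf N L, M * nb M (X i - X j) * ‖ψ X‖ ^ 2 ≤
        M * (C * M ^ 3) * (N / L ^ 3) := fun i => by
      have k2 := mul_le_mul_of_nonneg_left (hD i M hM b4) hM.le
      simp only [mul_assoc M, integral_const_mul, ← Finset.mul_sum]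
      unfold D2 rho at k2
      linarith
    have k3 := Finset.sum_le_card_nsmul univ _ _ fun i _ => k1 i
    rw [Finset.card_univ, Fintype.card_fin, nsmul_eq_mul] at k3
    linarith

theorem radial_law_mean {v f : E3 → ℝ} {a α β η : ℝ} (hs : Scat v f a)
    (hα : 0 < α) (hαβ : α < β) (hη : 0 < η) :
    ∃ ρ₀ : ℝ, 0 < ρ₀ ∧ ∀ (N : ℕ) (L : ℝ) [Fact (0 < L)] (ψ : Cf N L → ℂ),
      N / L ^ 3 ≤ ρ₀ → L ^ 5 ≤ (N : ℝ) ^ 2 → IsGround v ψ →
      ∃ S : Finset (Fin 3 → ℤ), (∀ n, n ∈ S ↔ α ≤ ‖(√(8 * π * (N / L ^ 3) * a))⁻¹ • kvec L n‖ ∧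
        ‖(√(8 * π * (N / L ^ 3) * a))⁻¹ • kvec L n‖ ≤ β) ∧ S.Nonempty ∧
      ∑ n ∈ S, |2 * (N / L ^ 3) * Mom ψ n - gB ‖(√(8 * π * (N / L ^ 3) * a))⁻¹ • kvec L n‖| ≤
        η * S.card := by
  have ha := hs.pos
  have hp := Real.pi_pos
  obtain ⟨V, P, ρ₁, hV, hP, h1, H₁⟩ := pb_ground hs
  obtain ⟨ρ₂, η', h2, h3, H₂⟩ := strong_law_meanP hs hV hP hα hαβ hη
  refine ⟨min ρ₁ ρ₂, lt_min h1 h2, fun N L _ ψ a1 a2 a3 => ?_⟩
  have hL : 0 < L := Fact.out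
  exact H₂ N L ψ (a1.trans (min_le_right _ _)) a2 a3.1
    (H₁ N L ψ (a1.trans (min_le_left _ _)) a2 a3) fun χ hχ =>
      (a3.2 χ hχ).trans (le_add_of_nonneg_right (by positivity))

end Pool.Agent.BoseLHY
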