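import Pool.Agent.Lib.MP_dec75e_mp.S.LocC

/-! The abstract lower bound on the occupation numbers. -/

open MeasureTheory Finset Function
open scoped Real

noncomputable section

namespace Pool.Agent.BoseLHY

open Pool.Agent.BoseTail

variable {V : Type} [AddCommGroup V] [Module ℝ V] {C κ : Type} [Fintype C] [DecidableEq C]
  [DecidableEq κ] {Y : Sys V C κ} {k : C} {m : κ} {n : ℕ} {f g : V} {A : Set ℕ}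

namespace Sys
variable {τ : Type} {S : Finset τ} {p q : τ → C × κ → ℝ} {φ ϖ : κ → ℝ} {Γ : ℝ}

theorem Ok.sc_locds (h : Y.Ok) (hφ : ∀ m ∈ Y.L, φ m ^ 2 * Y.γ m ^ 4 ≤ Γ * ϖ m)
    (hϖ : ∀ m ∈ Y.L, ϖ m ≤ 1) (hΓ : 0 ≤ Γ) (hm : m ∈ Y.L) :
    φ m ^ 2 ≤ Γ * ϖ m ∧ (φ m * Y.s m) ^ 2 * Y.γ m ^ 2 ≤ Γ * ϖ m ∧ (φ m * Y.s m) ^ 2 ≤ Γ * ϖ m ∧
      Γ * ϖ m ≤ Γ := by
  have h1 := h.hyp m hm
  have h2 := hφ m hm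
  have h3 := hϖ m hm
  have h4 : Y.γ m ^ 4 = (1 + Y.s m ^ 2) ^ 2 := by rw [← h1]; ring
  have h5 := sq_nonneg (φ m)
  have h6 := sq_nonneg (Y.s m)
  have h7 := mul_nonneg h5 h6
  have h8 := mul_nonneg h7 h6
  rw [h4] at h2
  rw [h1]
  refine ⟨by nlinarith, by nlinarith, by nlinarith, by nlinarith⟩

theorem Ok.dl_locds (h : Y.Ok) : 0 ≤ Y.δ := h.ν0.le.trans h.νδ

omit [Fintype C] [DecidableEq C] [DecidableEq κ] in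
theorem W_apply_locds (j : C) (p q c : κ → ℝ) (f : V) :
    Y.W j (fun m => p m * c m) (fun m => q m * c m) f =
      ∑ m ∈ Y.L, cz Y.J (p m) (q m) (c m • Y.X j m f) := by
  unfold W
  rw [LinearMap.sum_apply]
  exact sum_congr rfl fun m _ => by rw [Module.End.mul_apply, cz_mul]

omit [Fintype C] [DecidableEq C] [DecidableEq κ] in
theorem Wd_apply_locds (j : C) (p q c : κ → ℝ) (f : V) :
    Y.Wd j (fun m => p m * c m) (fun m => q m * c m) f =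
      ∑ m ∈ Y.L, cz Y.J (p m) (-q m) (c m • Y.Xd j m f) := by
  unfold Wd
  rw [LinearMap.sum_apply]
  exact sum_congr rfl fun m _ => by rw [Module.End.mul_apply, ← neg_mul, cz_mul]

/-- `BesH.vec` in the cell `j` (`BesH.box`, `BesH.neg`, `cz_mul`), `nq_Xd_le`; with
`E = sh G \ G ⊆ Iic n2`, `M E Ψ = M E (M Gᶜ Ψ)` and `a (M E f) = M (sh E) (a f)`. -/
theorem Ok.edge (h : Y.Ok) (hB : BesH S (univ ×ˢ Y.L) p q)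
    (hφ : ∀ m ∈ Y.L, φ m ^ 2 * Y.γ m ^ 4 ≤ Γ * ϖ m) (hϖ : ∀ m ∈ Y.L, ϖ m ≤ 1) (hΓ : 0 ≤ Γ)
    (j : C) (Ψ : V) :
    ∑ k ∈ S, nq Y.β (Y.Wd j (fun m => p k (j, m) * (φ m * Y.s m))
        (fun m => q k (j, m) * (φ m * Y.s m)) (Y.M j (sh Y.G \ Y.G) Ψ)) ≤
      6 * Γ * (∑ m ∈ Y.L, ϖ m * nq Y.β (Y.a (j, m) (Y.M j Y.Gᶜ Ψ)) +
        Y.L.card * nq Y.β (Y.M j Y.Gᶜ Ψ)) := by
  have hE : sh Y.G \ Y.G ⊆ Set.Iic Y.n2 := by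
    intro i hi
    have h1 : i + 1 ≤ Y.n2 := h.hG hi.1
    exact Set.mem_Iic.2 (by omega)
  have hf : Y.M j (sh Y.G \ Y.G) Ψ = Y.M j (sh Y.G \ Y.G) (Y.M j Y.Gᶜ Ψ) := by
    rw [h.loc.mul]
    congr 2
    ext i
    simp only [Set.mem_sdiff, Set.mem_inter_iff, Set.mem_compl_iff]
    tauto
  have hb : Y.Bd j Y.n2 (Y.M j (sh Y.G \ Y.G) Ψ) := h.bd_M hE Ψ
  have hn : nq Y.β (Y.M j (sh Y.G \ Y.G) Ψ) ≤ nq Y.β (Y.M j Y.Gᶜ Ψ) := by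
    rw [hf]
    exact h.nq_M_le _ _ _
  have ha : ∀ m ∈ Y.L, nq Y.β (Y.a (j, m) (Y.M j (sh Y.G \ Y.G) Ψ)) ≤
      nq Y.β (Y.a (j, m) (Y.M j Y.Gᶜ Ψ)) := by
    intro m hm
    rw [hf, h.loc.low j m (mem_insert_of_mem hm)]
    exact h.nq_M_le _ _ _
  have h1 := BesH.vec h.psd h.cx (hB.box j).neg
    fun m => (φ m * Y.s m) • Y.Xd j m (Y.M j (sh Y.G \ Y.G) Ψ)
  simp only [Wd_apply_locds]
  refine h1.trans ?_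
  have h2 : (Y.L.card : ℝ) * nq Y.β (Y.M j Y.Gᶜ Ψ) = ∑ _m ∈ Y.L, nq Y.β (Y.M j Y.Gᶜ Ψ) := by
    rw [sum_const, nsmul_eq_mul]
  rw [h2, ← sum_add_distrib, mul_sum]
  refine sum_le_sum fun m hm => ?_
  obtain ⟨-, h3, -, h4⟩ := h.sc_locds hφ hϖ hΓ hm
  have h5 := h.nq_Xd_le hm hb
  have h6 := ha m hm
  have h7 := h.psd.nq_nonneg (Y.a (j, m) (Y.M j Y.Gᶜ Ψ))
  have h8 := h.psd.nq_nonneg (Y.M j Y.Gᶜ Ψ)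
  have h9 : 0 ≤ (φ m * Y.s m) ^ 2 * Y.γ m ^ 2 := by positivity
  rw [nq_smul]
  have e1 := mul_le_mul_of_nonneg_left h5 (sq_nonneg (φ m * Y.s m))
  have e2 := mul_le_mul_of_nonneg_left (add_le_add h6 hn) h9
  have e3 := mul_le_mul_of_nonneg_right h3 h7
  have e4 := mul_le_mul_of_nonneg_right (h3.trans h4) h8
  linarith

/-- `Loc.compl` and `a_eq`. -/
theorem Ok.dec (h : Y.Ok) (p q : C × κ → ℝ) (φ : κ → ℝ) (Ψ : V) :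
    ∑ j, Y.W j (fun m => p (j, m) * (φ m * Y.s m)) (fun m => q (j, m) * (φ m * Y.s m))
        (Y.M j Y.G Ψ) =
      -(∑ x ∈ univ ×ˢ Y.L, cz Y.J (p x) (q x) (φ x.2 • Y.a x Ψ)) +
        ∑ x ∈ univ ×ˢ Y.L, cz Y.J (p x) (q x) (φ x.2 • Y.a x (Y.M x.1 Y.Gᶜ Ψ) +
          (φ x.2 * Y.γ x.2) • Y.b x.1 x.2 (Y.M x.1 Y.G Ψ)) := by
  simp only [W_apply_locds]
  rw [← sum_product' univ Y.L fun j m => cz Y.J (p (j, m)) (q (j, m))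
    ((φ m * Y.s m) • Y.X j m (Y.M j Y.G Ψ)), ← sum_neg_distrib, ← sum_add_distrib]
  refine sum_congr rfl fun x hx => ?_
  obtain ⟨j, m⟩ := x
  have hm : m ∈ Y.L := (mem_product.1 hx).2
  rw [← map_neg, ← map_add]
  congr 1
  have h1 : Y.a (j, m) Ψ = Y.a (j, m) (Y.M j Y.G Ψ) + Y.a (j, m) (Y.M j Y.Gᶜ Ψ) := by
    rw [← map_add, h.loc.compl]
  have h2 := h.a_eq (k := j) hm (Y.M j Y.G Ψ)
  simp only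
  rw [h1, h2]
  module

/-- `BesH.vec`, `nq_add_le_two`, `nq_b_le`. -/
theorem Ok.err (h : Y.Ok) (hB : BesH S (univ ×ˢ Y.L) p q)
    (hφ : ∀ m ∈ Y.L, φ m ^ 2 * Y.γ m ^ 4 ≤ Γ * ϖ m) (hϖ : ∀ m ∈ Y.L, ϖ m ≤ 1) (hΓ : 0 ≤ Γ)
    (Ψ : V) {P : C → ℝ} (hP' : ∀ j, ∑ m ∈ Y.L, nq Y.β (Y.a (j, m) (Y.M j Y.G Ψ)) ≤ P j) :
    ∑ k ∈ S, nq Y.β (∑ x ∈ univ ×ˢ Y.L, cz Y.J (p k x) (q k x)
        (φ x.2 • Y.a x (Y.M x.1 Y.Gᶜ Ψ) + (φ x.2 * Y.γ x.2) • Y.b x.1 x.2 (Y.M x.1 Y.G Ψ))) ≤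
      2 * (Γ * ∑ j, ∑ m ∈ Y.L, ϖ m * nq Y.β (Y.a (j, m) (Y.M j Y.Gᶜ Ψ)) +
        ∑ j, ∑ m ∈ Y.L, φ m ^ 2 * Y.γ m ^ 2 * Y.gp j m (Y.M j Y.G Ψ) +
        3 * Y.δ * Γ * (Y.L.card * Fintype.card C * nq Y.β Ψ + ∑ j, P j)) := by
  refine (BesH.vec h.psd h.cx hB _).trans ?_
  have hδ := h.dl_locds
  have h1 : ∀ j, ∀ m ∈ Y.L,
      nq Y.β (φ m • Y.a (j, m) (Y.M j Y.Gᶜ Ψ) + (φ m * Y.γ m) • Y.b j m (Y.M j Y.G Ψ)) ≤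
        2 * (Γ * (ϖ m * nq Y.β (Y.a (j, m) (Y.M j Y.Gᶜ Ψ))) +
          φ m ^ 2 * Y.γ m ^ 2 * Y.gp j m (Y.M j Y.G Ψ) +
          3 * Y.δ * Γ * (nq Y.β Ψ + nq Y.β (Y.a (j, m) (Y.M j Y.G Ψ)))) := by
    intro j m hm
    obtain ⟨h2, h3, -, h4⟩ := h.sc_locds hφ hϖ hΓ hm
    refine (h.psd.nq_add_le_two _ _).trans ?_
    rw [nq_smul, nq_smul]
    have h5 := h.nq_b_le hm (h.bd_M (k := j) h.hG Ψ)
    have h6 := h.nq_M_le j Y.G Ψ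
    have h7 := h.psd.nq_nonneg (Y.a (j, m) (Y.M j Y.Gᶜ Ψ))
    have h8 := h.psd.nq_nonneg (Y.a (j, m) (Y.M j Y.G Ψ))
    have h9 := h.psd.nq_nonneg (Y.M j Y.G Ψ)
    have e1 := mul_le_mul_of_nonneg_left h5 (sq_nonneg (φ m * Y.γ m))
    have e2 := mul_le_mul_of_nonneg_right h2 h7
    have e3 := mul_le_mul_of_nonneg_left
      (mul_le_mul_of_nonneg_right (h3.trans h4) (add_nonneg h9 h8)) hδ
    have e4 := mul_le_mul_of_nonneg_left h6 (mul_nonneg hδ hΓ)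
    linarith
  rw [sum_product]
  refine (sum_le_sum fun j _ => sum_le_sum fun m hm => h1 j m hm).trans ?_
  have h2 : ∑ j, ∑ m ∈ Y.L, nq Y.β (Y.a (j, m) (Y.M j Y.G Ψ)) ≤ ∑ j, P j :=
    sum_le_sum fun j _ => hP' j
  have h3 := mul_le_mul_of_nonneg_left h2 (mul_nonneg hδ hΓ)
  simp only [← mul_sum, sum_add_distrib, sum_const, nsmul_eq_mul, card_univ]
  linarith

/-- For one `k`: `cross`, `comm_ge` and `‖M G Ψ‖² = ‖Ψ‖² - ‖M Gᶜ Ψ‖²`. -/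
theorem Ok.one (h : Y.Ok) (p q : C × κ → ℝ) {ω n1 : ℝ}
    (hrow : ∀ j, ∑ m ∈ Y.L, (p (j, m) ^ 2 + q (j, m) ^ 2) ≤ ω)
    (hφ : ∀ m ∈ Y.L, φ m ^ 2 * Y.γ m ^ 4 ≤ Γ * ϖ m) (hϖ : ∀ m ∈ Y.L, ϖ m ≤ 1) (hΓ : 0 ≤ Γ)
    (hn1 : 1 - Y.δ ≤ Y.ν * n1) (Ψ : V) {P : C → ℝ}
    (hP : ∀ j, n1 * nq Y.β (Y.M j Y.G Ψ) ≤ nq Y.β (Y.a (j, Y.o) (Y.M j Y.G Ψ)) + P j)
    (hP' : ∀ j, ∑ m ∈ Y.L, nq Y.β (Y.a (j, m) (Y.M j Y.G Ψ)) ≤ P j) :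
    (∑ x ∈ univ ×ˢ Y.L, (p x ^ 2 + q x ^ 2) * (φ x.2 * Y.s x.2) ^ 2) * nq Y.β Ψ -
        ω * Γ * (∑ j, nq Y.β (Y.M j Y.Gᶜ Ψ) + 3 * Y.δ * Fintype.card C * nq Y.β Ψ +
          12 * Y.ν * ∑ j, P j) -
        ∑ j, nq Y.β (Y.Wd j (fun m => p (j, m) * (φ m * Y.s m))
          (fun m => q (j, m) * (φ m * Y.s m)) (Y.M j (sh Y.G \ Y.G) Ψ)) ≤
      nq Y.β (∑ j, Y.W j (fun m => p (j, m) * (φ m * Y.s m)) (fun m => q (j, m) * (φ m * Y.s m))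
        (Y.M j Y.G Ψ)) := by
  refine le_trans ?_ (h.cross (fun j m => p (j, m) * (φ m * Y.s m))
    (fun j m => q (j, m) * (φ m * Y.s m)) Ψ)
  have hδ := h.dl_locds
  have hν := h.ν0.le
  have h1 : ∀ j, (∑ m ∈ Y.L, (p (j, m) ^ 2 + q (j, m) ^ 2) * (φ m * Y.s m) ^ 2) * nq Y.β Ψ -
      ω * Γ * (nq Y.β (Y.M j Y.Gᶜ Ψ) + 3 * Y.δ * nq Y.β Ψ + 12 * Y.ν * P j) ≤
      nq Y.β (Y.W j (fun m => p (j, m) * (φ m * Y.s m)) (fun m => q (j, m) * (φ m * Y.s m))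
        (Y.M j Y.G Ψ)) - nq Y.β (Y.Wd j (fun m => p (j, m) * (φ m * Y.s m))
          (fun m => q (j, m) * (φ m * Y.s m)) (Y.M j Y.G Ψ)) := by
    intro j
    refine le_trans ?_ (h.comm_ge _ _ (h.bd_M (k := j) h.hG Ψ) hn1 (hP j) (hP' j))
    have h0 : ∀ m, (p (j, m) * (φ m * Y.s m)) ^ 2 + (q (j, m) * (φ m * Y.s m)) ^ 2 =
        (p (j, m) ^ 2 + q (j, m) ^ 2) * (φ m * Y.s m) ^ 2 := fun m => by ring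
    simp only [h0]
    have hr := mul_le_mul_of_nonneg_right (hrow j) hΓ
    have hA : ∑ m ∈ Y.L, (p (j, m) ^ 2 + q (j, m) ^ 2) * (φ m * Y.s m) ^ 2 ≤ ω * Γ := by
      refine le_trans ?_ hr
      rw [sum_mul]
      refine sum_le_sum fun m hm => ?_
      obtain ⟨-, -, h3, h4⟩ := h.sc_locds hφ hϖ hΓ hm
      exact mul_le_mul_of_nonneg_left (h3.trans h4) (by positivity)
    have hB : ∑ m ∈ Y.L, (p (j, m) ^ 2 + q (j, m) ^ 2) * (φ m * Y.s m) ^ 2 * Y.γ m ^ 2 ≤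
        ω * Γ := by
      refine le_trans ?_ hr
      rw [sum_mul]
      refine sum_le_sum fun m hm => ?_
      obtain ⟨-, h3, -, h4⟩ := h.sc_locds hφ hϖ hΓ hm
      rw [mul_assoc]
      exact mul_le_mul_of_nonneg_left (h3.trans h4) (by positivity)
    have hB0 : 0 ≤ ∑ m ∈ Y.L, (p (j, m) ^ 2 + q (j, m) ^ 2) * (φ m * Y.s m) ^ 2 * Y.γ m ^ 2 :=
      sum_nonneg fun m _ => by positivity
    have hP0 : 0 ≤ P j := (sum_nonneg fun m _ => h.psd.nq_nonneg _).trans (hP' j)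
    have h2 := h.nq_M_split j Y.G Ψ
    have h3 := h.psd.nq_nonneg (Y.M j Y.G Ψ)
    have h4 := h.psd.nq_nonneg (Y.M j Y.Gᶜ Ψ)
    have e1 := mul_le_mul_of_nonneg_right hA h4
    have e2 := mul_le_mul_of_nonneg_right hB
      (show 0 ≤ 3 * Y.δ * nq Y.β (Y.M j Y.G Ψ) + 12 * Y.ν * P j by positivity)
    have e3 := mul_nonneg (mul_nonneg (hB0.trans hB) hδ) h4
    rw [h2]
    linarith
  have h2 := sum_le_sum fun j (_ : j ∈ univ) => h1 j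
  rw [sum_product]
  simp only [sum_sub_distrib, ← mul_sum, ← sum_mul, sum_add_distrib, sum_const, nsmul_eq_mul,
    card_univ] at h2 ⊢
  linarith

/-- Sum `one` over `k ∈ S`; `dec`, `PSD.nq_add_le`, `err`, `edge`. -/
theorem Ok.main (h : Y.Ok) (hB : BesH S (univ ×ˢ Y.L) p q) {ω n1 θ e₁ e₂ e₃ e₄ : ℝ} (hω : 0 ≤ ω)
    (hrow : ∀ k ∈ S, ∀ j, ∑ m ∈ Y.L, (p k (j, m) ^ 2 + q k (j, m) ^ 2) ≤ ω)
    (hφ : ∀ m ∈ Y.L, φ m ^ 2 * Y.γ m ^ 4 ≤ Γ * ϖ m) (hϖ : ∀ m ∈ Y.L, ϖ m ≤ 1) (hΓ : 0 ≤ Γ)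
    (hθ : 0 < θ) (hn1 : 1 - Y.δ ≤ Y.ν * n1) (Ψ : V) {P : C → ℝ}
    (hP : ∀ j, n1 * nq Y.β (Y.M j Y.G Ψ) ≤ nq Y.β (Y.a (j, Y.o) (Y.M j Y.G Ψ)) + P j)
    (hP' : ∀ j, ∑ m ∈ Y.L, nq Y.β (Y.a (j, m) (Y.M j Y.G Ψ)) ≤ P j)
    (h1 : ∑ j, ∑ m ∈ Y.L, φ m ^ 2 * Y.γ m ^ 2 * Y.gp j m (Y.M j Y.G Ψ) ≤ e₁)
    (h2 : ∑ j, nq Y.β (Y.M j Y.Gᶜ Ψ) ≤ e₂)
    (h3 : ∑ j, ∑ m ∈ Y.L, ϖ m * nq Y.β (Y.a (j, m) (Y.M j Y.Gᶜ Ψ)) ≤ e₃) (h4 : ∑ j, P j ≤ e₄) :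
    (∑ k ∈ S, ∑ x ∈ univ ×ˢ Y.L, (p k x ^ 2 + q k x ^ 2) * (φ x.2 * Y.s x.2) ^ 2) * nq Y.β Ψ ≤
      (1 + θ) * ∑ k ∈ S, nq Y.β (∑ x ∈ univ ×ˢ Y.L, cz Y.J (p k x) (q k x) (φ x.2 • Y.a x Ψ)) +
        2 * (1 + 1 / θ) * (Γ * e₃ + e₁ + 3 * Y.δ * Γ * (Y.L.card * Fintype.card C * nq Y.β Ψ + e₄)) +
        S.card * ω * Γ * (e₂ + 3 * Y.δ * Fintype.card C * nq Y.β Ψ + 12 * Y.ν * e₄) +
        6 * Γ * (e₃ + Y.L.card * e₂) := by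
  have hδ := h.dl_locds
  have hν := h.ν0.le
  have a1 := sum_le_sum fun k (hk : k ∈ S) =>
    h.one (p k) (q k) (hrow k hk) hφ hϖ hΓ hn1 Ψ hP hP'
  have a2 : ∀ k ∈ S, nq Y.β (∑ j, Y.W j (fun m => p k (j, m) * (φ m * Y.s m))
      (fun m => q k (j, m) * (φ m * Y.s m)) (Y.M j Y.G Ψ)) ≤
      (1 + θ) * nq Y.β (∑ x ∈ univ ×ˢ Y.L, cz Y.J (p k x) (q k x) (φ x.2 • Y.a x Ψ)) +
        (1 + 1 / θ) * nq Y.β (∑ x ∈ univ ×ˢ Y.L, cz Y.J (p k x) (q k x)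
          (φ x.2 • Y.a x (Y.M x.1 Y.Gᶜ Ψ) + (φ x.2 * Y.γ x.2) • Y.b x.1 x.2 (Y.M x.1 Y.G Ψ))) := by
    intro k _
    rw [h.dec]
    refine (h.psd.nq_add_le _ _ hθ).trans (le_of_eq ?_)
    rw [← neg_one_smul ℝ, nq_smul]
    ring
  have a3 := sum_le_sum a2
  have a4 := h.err hB hφ hϖ hΓ Ψ hP'
  have a5 := sum_le_sum fun j (_ : j ∈ univ) => h.edge hB hφ hϖ hΓ j Ψ
  rw [sum_comm] at a5
  simp only [sum_sub_distrib, ← mul_sum, ← sum_mul, sum_add_distrib, sum_const, nsmul_eq_mul]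
    at a1 a3 a5
  have hθ' : 0 ≤ 1 + 1 / θ := by positivity
  have b1 := mul_le_mul_of_nonneg_left h3 hΓ
  have b2 := mul_le_mul_of_nonneg_left h4 (mul_nonneg hδ hΓ)
  have b3 := mul_le_mul_of_nonneg_left h2 (mul_nonneg hΓ (Nat.cast_nonneg (α := ℝ) Y.L.card))
  have b4 := mul_le_mul_of_nonneg_left (add_le_add h2 (mul_le_mul_of_nonneg_left h4
    (show 0 ≤ 12 * Y.ν by positivity)))
    (mul_nonneg (Nat.cast_nonneg (α := ℝ) S.card) (mul_nonneg hω hΓ))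
  have b5 := mul_le_mul_of_nonneg_left (a4.trans
    (show _ ≤ 2 * (Γ * e₃ + e₁ + 3 * Y.δ * Γ * (Y.L.card * Fintype.card C * nq Y.β Ψ + e₄)) by
      linarith)) hθ'
  linarith

end Sys

end Pool.Agent.BoseLHY
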