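import Pool.Agent.Lib.MP_dec75e_mp.S.Brg
import Pool.Agent.Lib.MP_dec75e_mp.S.LocD
import Pool.Agent.Lib.MP_dec75e_mp.S.Far2

/-! The lower bound on the occupation numbers in terms of wave functions. -/

open MeasureTheory Finset Function
open scoped Real

noncomputable section

namespace Pool.Agent.BoseLHY

open Pool.Agent.BoseTail

variable {C : Type} [Fintype C] [DecidableEq C] {B : Box} {Q : C → Box} {N : ℕ}
  {u u' : Vs (Fin N)}

/-- The system on the doubled Fock space. -/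
def sys_fkms (B : Box) (Q : C → Box) (R : ℕ) (γ s : M3 → ℝ) (G : Set ℕ) (n2 : ℕ) (ν δ : ℝ) :
    Sys (FK B.μ B.vol B.vol_pos × FK B.μ B.vol B.vol_pos) C M3 where
  β := pf (fip B.μ B.vol B.vol_pos)
  a := fun x => dup (ann (hb Q x))
  ad := fun x => dup (cre (hb Q x))
  M := fun k A => dup (Mop (Q k).set (Q k).measurableSet_set A)
  J := rotJ
  o := 0
  L := Lset R
  γ := γ
  s := s
  G := G
  n2 := n2
  ν := ν
  δ := δ

theorem ok_fkms (hP : Part B Q) (R : ℕ) {γ s : M3 → ℝ} {G : Set ℕ} {n2 : ℕ} {ν δ : ℝ}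
    (hyp : ∀ m ∈ Lset R, γ m ^ 2 = 1 + s m ^ 2) (ν0 : 0 < ν) (νδ : ν ≤ δ) (δ1 : δ ≤ 1 / 10)
    (hn : ν * n2 ≤ 1 + δ) (hG : G ⊆ Set.Iic n2) : (sys_fkms B Q R γ s G n2 ν δ).Ok where
  loc := (loc_fk hP _).dup
  cx := cx_rot
  ja := fun _ f => dup_rot _ f
  jd := fun _ f => dup_rot _ f
  jm := fun _ _ f => dup_rot _ f
  ho := zero_notMem_Lset R
  hyp := hyp
  ν0 := ν0
  νδ := νδ
  δ1 := δ1
  hn := hn
  hG := hG

theorem occ_zero_fkms {ι : Type} [Fintype ι] [DecidableEq ι] {μ : ι → ProbabilityMeasure R3}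
    {B : Box} {S : Finset ι} (hA : Act μ B S) (ψ : Vs ι) :
    occ μ B S 0 ψ + nP μ B S ψ = S.card * nq (ipB μ) ψ := by
  have h := (hasSum_ite_eq (0 : M3) (occ μ B S 0 ψ)).add (hasSum_nP hA ψ)
  refine h.unique ?_
  have e : (fun m : M3 => (if m = 0 then occ μ B S 0 ψ else 0) +
      if m = 0 then 0 else occ μ B S m ψ) = fun m => occ μ B S m ψ := by
    funext m
    split_ifs with hm
    · rw [hm, add_zero]
    · rw [zero_add]
  rw [e]
  exact hasSum_occ hA ψ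

theorem cpos_fkms (B : Box) (N : ℕ) : 0 < B.vol ^ N / N.factorial :=
  div_pos (pow_pos B.vol_pos N) (by exact_mod_cast N.factorial_pos)

section
variable {Ψ Φ : FK B.μ B.vol B.vol_pos}

theorem cond_fkms (hP : Part B Q) (h : Emb u Ψ.1) {G : Set ℕ} {n1 : ℝ} (hG1 : ∀ n ∈ G, n1 ≤ n)
    (j : C) :
    n1 * nq (fip B.μ B.vol B.vol_pos) (Mop (Q j).set (Q j).measurableSet_set G Ψ) ≤
      nq (fip B.μ B.vol B.vol_pos)
          (ann (hb Q (j, 0)) (Mop (Q j).set (Q j).measurableSet_set G Ψ)) +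
        B.vol ^ N / N.factorial * asum B Q j G fun μ S => nP μ (Q j) S u := by
  rw [h.brg_nq hP, h.brg_occ hP, ← mul_add, ← asum_add, mul_left_comm, ← asum_mul]
  refine mul_le_mul_of_nonneg_left (asum_mono fun μ S hA hS => ?_) (cpos_fkms B N).le
  rw [occ_zero_fkms hA]
  exact mul_le_mul_of_nonneg_right (hG1 _ hS) ((psd_ipB μ).nq_nonneg _)

theorem low_fkms (hP : Part B Q) (h : Emb u Ψ.1) (G : Set ℕ) (R : ℕ) (j : C) :
    ∑ m ∈ Lset R, nq (fip B.μ B.vol B.vol_pos)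
        (ann (hb Q (j, m)) (Mop (Q j).set (Q j).measurableSet_set G Ψ)) ≤
      B.vol ^ N / N.factorial * asum B Q j G fun μ S => nP μ (Q j) S u := by
  simp only [h.brg_occ hP]
  rw [← mul_sum, ← asum_sum]
  refine mul_le_mul_of_nonneg_left (asum_mono fun μ S hA _ => ?_) (cpos_fkms B N).le
  rw [← nL_eq hA, nP_eq (R := R) hA]
  exact le_add_of_nonneg_right nH_nonneg

theorem gp_fkms (hP : Part B Q) (h : Emb u Ψ.1) (G : Set ℕ) (ν g s : ℝ) (j : C) (m : M3) :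
    (g ^ 2 + s ^ 2) * nq (fip B.μ B.vol B.vol_pos)
        (ann (hb Q (j, m)) (Mop (Q j).set (Q j).measurableSet_set G Ψ)) +
      2 * g * s * ν * fip B.μ B.vol B.vol_pos
        (cre (hb Q (j, 0)) (ann (hb Q (j, m)) (Mop (Q j).set (Q j).measurableSet_set G Ψ)))
        (cre (hb Q (j, m)) (ann (hb Q (j, 0)) (Mop (Q j).set (Q j).measurableSet_set G Ψ))) +
      s ^ 2 * nq (fip B.μ B.vol B.vol_pos) (Mop (Q j).set (Q j).measurableSet_set G Ψ) =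
      B.vol ^ N / N.factorial * asum B Q j G fun μ S => Gp μ (Q j) S ν g s m u := by
  rw [h.brg_nq hP, h.brg_occ hP, h.brg_pair hP]
  unfold Gp
  rw [asum_add, asum_add, asum_mul, asum_mul, asum_mul]
  ring

theorem mo_fkms (hP : Part B Q) (h : Emb u Ψ.1) (G : Set ℕ) (R : ℕ) {ϖ : M3 → ℝ}
    (hϖ0 : ∀ m, 0 ≤ ϖ m) (hϖ : ∀ m, ϖ m ≤ 1) :
    ∑ j, ∑ m ∈ Lset R, ϖ m * nq (fip B.μ B.vol B.vol_pos)
        (ann (hb Q (j, m)) (Mop (Q j).set (Q j).measurableSet_set G Ψ)) ≤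
      B.vol ^ N / N.factorial * aM B Q G ϖ u := by
  unfold aM
  rw [mul_sum]
  refine sum_le_sum fun j _ => ?_
  have e : ∀ m, ϖ m * nq (fip B.μ B.vol B.vol_pos)
        (ann (hb Q (j, m)) (Mop (Q j).set (Q j).measurableSet_set G Ψ)) =
      B.vol ^ N / N.factorial * asum B Q j G fun μ S => ϖ m * occ μ (Q j) S m u := by
    intro m
    rw [h.brg_occ hP, asum_mul]
    ring
  simp only [e]
  rw [← mul_sum, ← asum_sum]
  exact mul_le_mul_of_nonneg_left (asum_mono fun μ S hA _ => sum_le_mo hA hϖ0 hϖ _ _)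
    (cpos_fkms B N).le

omit [DecidableEq C] in
theorem amp_fkms (Q : C → Box) (L : Finset M3) (φ : M3 → ℝ) (c c' : BF R3)
    (Ψ Φ : FK B.μ B.vol B.vol_pos) :
    ∑ x ∈ (univ : Finset C) ×ˢ L, cz rotJ (B.ip (hb Q x) c) (B.ip (hb Q x) c')
        (φ x.2 • dup (ann (hb Q x)) (Ψ, Φ)) =
      (ann (lowf B Q L φ c) Ψ + ann (lowf B Q L φ c') Φ,
        ann (lowf B Q L φ c) Φ - ann (lowf B Q L φ c') Ψ) := by
  unfold lowf
  simp only [ann_sum_smul, cz_rot, dup_apply, Prod.smul_mk]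
  rw [← sum_add_distrib, ← sum_sub_distrib]
  refine Prod.ext ?_ ?_
  · rw [Prod.fst_sum]
    refine sum_congr rfl fun x _ => ?_
    simp only [smul_smul, mul_comm]
  · rw [Prod.snd_sum]
    refine sum_congr rfl fun x _ => ?_
    simp only [smul_smul, mul_comm]

end

/-- `Sys.Ok.main` for the system on `FK × FK` given by `(loc_fk hP _).dup`, `rotJ`, `o = 0`,
`L = Lset R`, and the vector `(Ψ, Ψ')` from `exists_emb`. With `c = vol ^ N / N!` all quantities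
are `c` times the sums over assignments (`Emb.brg_nq`, `brg_occ`, `brg_pair`, `brg_occZ`,
`ann_sum_smul`, `cz_rot`). Take `P j = c (asum j G (nP u) + asum j G (nP u'))`: by `hasSum_occ`,
`hasSum_nP` one has `occ 0 + nP = card * nq`, and `∑ occ = nL ≤ nP`; `sum_le_mo` for `e₃`. -/
theorem fock_main (hP : Part B Q) (hu : Prm u) (hu' : Prm u') (R : ℕ) {γ s φ ϖ : M3 → ℝ}
    {G : Set ℕ} {n2 : ℕ} {ν δ n1 Γ ω θ e₁ e₂ e₃ e₄ : ℝ} {τ : Type} (S : Finset τ)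
    (c c' : τ → BF R3)
    (hyp : ∀ m ∈ Lset R, γ m ^ 2 = 1 + s m ^ 2) (ν0 : 0 < ν) (νδ : ν ≤ δ) (δ1 : δ ≤ 1 / 10)
    (hn : ν * n2 ≤ 1 + δ) (hG : G ⊆ Set.Iic n2) (hn1 : 1 - δ ≤ ν * n1) (hG1 : ∀ n ∈ G, n1 ≤ n)
    (hB : BesH S (univ ×ˢ Lset R) (fun k x => B.ip (hb Q x) (c k)) fun k x => B.ip (hb Q x) (c' k))
    (hω : 0 ≤ ω) (hrow : ∀ k ∈ S, ∀ j,
      ∑ m ∈ Lset R, (B.ip (hb Q (j, m)) (c k) ^ 2 + B.ip (hb Q (j, m)) (c' k) ^ 2) ≤ ω)
    (hφ : ∀ m ∈ Lset R, φ m ^ 2 * γ m ^ 4 ≤ Γ * ϖ m) (hϖ0 : ∀ m, 0 ≤ ϖ m) (hϖ : ∀ m, ϖ m ≤ 1)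
    (hΓ : 0 ≤ Γ) (hθ : 0 < θ)
    (h1 : aG B Q G (Lset R) ν γ s (fun m => φ m ^ 2 * γ m ^ 2) u +
      aG B Q G (Lset R) ν γ s (fun m => φ m ^ 2 * γ m ^ 2) u' ≤ e₁)
    (h2 : aN B Q Gᶜ u + aN B Q Gᶜ u' ≤ e₂) (h3 : aM B Q Gᶜ ϖ u + aM B Q Gᶜ ϖ u' ≤ e₃)
    (h4 : aP B Q G u + aP B Q G u' ≤ e₄) {N₀ : ℝ}
    (hN : nq (ipB fun _ => B.μ) u + nq (ipB fun _ => B.μ) u' = N₀) :
    (∑ k ∈ S, ∑ x ∈ univ ×ˢ Lset R,
        (B.ip (hb Q x) (c k) ^ 2 + B.ip (hb Q x) (c' k) ^ 2) * (φ x.2 * s x.2) ^ 2) * N₀ ≤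
      (1 + θ) * ∑ k ∈ S, occZ B (lowf B Q (Lset R) φ (c k)) (lowf B Q (Lset R) φ (c' k)) u u' +
        2 * (1 + 1 / θ) * (Γ * e₃ + e₁ + 3 * δ * Γ * ((Lset R).card * Fintype.card C * N₀ + e₄)) +
        S.card * ω * Γ * (e₂ + 3 * δ * Fintype.card C * N₀ + 12 * ν * e₄) +
        6 * Γ * (e₃ + (Lset R).card * e₂) := by
  obtain ⟨Ψ, hΨ⟩ := exists_emb B.μ B.vol B.vol_pos hu
  obtain ⟨Φ, hΦ⟩ := exists_emb B.μ B.vol B.vol_pos hu'
  have hc := cpos_fkms B N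
  have hY := ok_fkms hP R hyp ν0 νδ δ1 hn hG
  have hN' : nq (sys_fkms B Q R γ s G n2 ν δ).β (Ψ, Φ) = B.vol ^ N / N.factorial * N₀ := by
    show nq (fip B.μ B.vol B.vol_pos) Ψ + nq (fip B.μ B.vol B.vol_pos) Φ = _
    rw [hΨ.nq, hΦ.nq, ← hN, mul_add]
  have key := hY.main (φ := φ) (ϖ := ϖ) (Γ := Γ) hB (n1 := n1) (θ := θ)
    (e₁ := B.vol ^ N / N.factorial * e₁) (e₂ := B.vol ^ N / N.factorial * e₂)
    (e₃ := B.vol ^ N / N.factorial * e₃) (e₄ := B.vol ^ N / N.factorial * e₄) hω hrow hφ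
    (fun m _ => hϖ m) hΓ hθ hn1 (Ψ, Φ)
    (P := fun j => (B.vol ^ N / N.factorial * asum B Q j G fun μ S => nP μ (Q j) S u) +
      B.vol ^ N / N.factorial * asum B Q j G fun μ S => nP μ (Q j) S u')
    (fun j => by
      have a1 := cond_fkms hP hΨ hG1 j
      have a2 := cond_fkms hP hΦ hG1 j
      simp only [sys_fkms, nq_pf, dup_apply]
      linarith)
    (fun j => by
      have a1 := low_fkms hP hΨ G R j
      have a2 := low_fkms hP hΦ G R j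
      simp only [sys_fkms, nq_pf, dup_apply, sum_add_distrib]
      linarith)
    (by
      have e : ∀ j m, (sys_fkms B Q R γ s G n2 ν δ).gp j m
          ((sys_fkms B Q R γ s G n2 ν δ).M j G (Ψ, Φ)) =
          (B.vol ^ N / N.factorial * asum B Q j G fun μ S => Gp μ (Q j) S ν (γ m) (s m) m u) +
          B.vol ^ N / N.factorial * asum B Q j G fun μ S => Gp μ (Q j) S ν (γ m) (s m) m u' := by
        intro j m
        rw [← gp_fkms hP hΨ, ← gp_fkms hP hΦ]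
        simp only [Sys.gp, sys_fkms, nq_pf, pf_apply, dup_apply]
        ring
      refine le_trans (le_of_eq ?_) (mul_le_mul_of_nonneg_left h1 hc.le)
      unfold aG
      rw [← sum_add_distrib, mul_sum]
      refine sum_congr rfl fun j _ => ?_
      rw [← sum_add_distrib, mul_sum]
      refine sum_congr rfl fun m _ => ?_
      refine (congrArg _ (e j m)).trans ?_
      show φ m ^ 2 * γ m ^ 2 * _ = _
      ring)
    (by
      refine le_trans (le_of_eq ?_) (mul_le_mul_of_nonneg_left h2 hc.le)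
      unfold aN
      rw [← sum_add_distrib, mul_sum]
      refine sum_congr rfl fun j _ => ?_
      rw [mul_add, ← hΨ.brg_nq hP, ← hΦ.brg_nq hP]
      rfl)
    (by
      have a1 := mo_fkms hP hΨ Gᶜ R hϖ0 hϖ
      have a2 := mo_fkms hP hΦ Gᶜ R hϖ0 hϖ
      have a3 := mul_le_mul_of_nonneg_left h3 hc.le
      simp only [sys_fkms, nq_pf, dup_apply, mul_add, sum_add_distrib] at a3 ⊢
      linarith)
    (by
      refine le_trans (le_of_eq ?_) (mul_le_mul_of_nonneg_left h4 hc.le)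
      unfold aP
      rw [sum_add_distrib, mul_add, mul_sum, mul_sum])
  have hA : ∀ k, nq (sys_fkms B Q R γ s G n2 ν δ).β
      (∑ x ∈ univ ×ˢ (sys_fkms B Q R γ s G n2 ν δ).L,
        cz (sys_fkms B Q R γ s G n2 ν δ).J (B.ip (hb Q x) (c k)) (B.ip (hb Q x) (c' k))
          (φ x.2 • (sys_fkms B Q R γ s G n2 ν δ).a x (Ψ, Φ))) =
      B.vol ^ N / N.factorial *
        occZ B (lowf B Q (Lset R) φ (c k)) (lowf B Q (Lset R) φ (c' k)) u u' := by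
    intro k
    rw [← hΨ.brg_occZ hΦ]
    exact congrArg (nq (pf (fip B.μ B.vol B.vol_pos))) (amp_fkms Q (Lset R) φ (c k) (c' k) Ψ Φ)
  simp only [hA, hN'] at key
  rw [← mul_sum] at key
  refine le_of_mul_le_mul_left ?_ hc
  refine le_trans (le_of_eq ?_) (key.trans (le_of_eq ?_))
  · show _ = (∑ k ∈ S, ∑ x ∈ univ ×ˢ Lset R,
        (B.ip (hb Q x) (c k) ^ 2 + B.ip (hb Q x) (c' k) ^ 2) * (φ x.2 * s x.2) ^ 2) * _
    ring
  · simp only [sys_fkms]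
    ring

end Pool.Agent.BoseLHY
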