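import Pool.Agent.Lib.MP_dec75e_mp.S.Bog2
import Pool.Agent.Lib.MP_dec75e_mp.L.Gen

/-! The general lower bound with a perturbation of the low modes. -/

open MeasureTheory Finset Function
open scoped Real

noncomputable section

namespace Pool.Agent.BoseLHY

open Pool.Agent.BoseTail

variable {ι : Type} [Fintype ι] [DecidableEq ι] {μ : ι → ProbabilityMeasure R3} {B : Box}
  {S : Finset ι} {R M : ℕ} {i j o : ι} {m m' : M3} {f g u ψ : Vs ι}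

/-- `PSD.cs` and `nq_Bs_le`. -/
theorem abs_pair_le (hA : Act μ B S) (m : M3) (ψ : Vs ι) :
    |pair μ B S m ψ| ≤ √(nq (ipB μ) (Bm B S m ψ)) *
      √(nq (ipB μ) (Bm B S m ψ) + S.card * nq (ipB μ) ψ) := by
  exact ((psd_ipB μ).cs _ _).trans
    (mul_le_mul_of_nonneg_left (Real.sqrt_le_sqrt (nq_Bs_le hA m ψ)) (Real.sqrt_nonneg _))

/-- `abs_pair_le`, `nq_Bm_le` and `√x √(x + c) ≤ x + c / 2`. -/
theorem abs_pair_le' (hA : Act μ B S) (m : M3) (ψ : Vs ι) :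
    |pair μ B S m ψ| ≤ S.card * (occ μ B S m ψ + nq (ipB μ) ψ / 2) := by
  have h1 := abs_pair_le hA m ψ
  have h2 : nq (ipB μ) (Bm B S m ψ) ≤ S.card * occ μ B S m ψ := nq_Bm_le m ψ
  have h3 := (psd_ipB μ).nq_nonneg (Bm B S m ψ)
  have h4 : 0 ≤ S.card * nq (ipB μ) ψ := mul_nonneg (Nat.cast_nonneg _) ((psd_ipB μ).nq_nonneg ψ)
  have h5 := Real.sq_sqrt h3
  have h6 := Real.sq_sqrt (add_nonneg h3 h4)
  nlinarith [sq_nonneg (√(nq (ipB μ) (Bm B S m ψ)) -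
    √(nq (ipB μ) (Bm B S m ψ) + S.card * nq (ipB μ) ψ))]

theorem bog_mode2 (hA : Act μ B S) (m : M3) {τ l l' : ℝ} (hτ : 0 ≤ τ)
    (hB : |S.card * l'| ≤ τ + S.card * l) (ψ : Vs ι) :
    bog2 (τ + S.card * l) (S.card * l') * nq (ipB μ) ψ - l * occ μ B S m ψ ≤
      τ * occ μ B S m ψ + l * exch μ B S m ψ + l' * pair μ B S m ψ := by
  have h := bog2_le (Nat.cast_nonneg S.card) hτ ((psd_ipB μ).nq_nonneg _) occ_nonneg
    ((psd_ipB μ).nq_nonneg ψ) (nq_Bm_le m ψ) (abs_pair_le hA m ψ) hB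
  unfold exch
  linarith

theorem low_gen2s (hA : Act μ B S) (hL : LowA (Lp B R) S M ψ) {l κ τ β P : M3 → ℝ} {lb γL : ℝ}
    (hκL : ∀ m ∈ Lset R, τ m + γL ≤ κ m) (hl : ∀ m, |l m| ≤ lb)
    (hmode : ∀ m ∈ Lset R, β m * nq (ipB μ) ψ - lb * occ μ B S m ψ ≤
      τ m * occ μ B S m ψ + l m * exch μ B S m ψ + l m * pair μ B S m ψ + P m) :
    γL * nL μ B R S ψ + (∑ m ∈ Lset R, β m) * nq (ipB μ) ψ -
        lb * nL μ B R S ψ - 2 * lb * (√(8 * (Lset R).card * M * S.card) * nP μ B S ψ) +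
        ∑ m ∈ Lset R, l m * exch μ B S m ψ ≤
      ∑ m ∈ Lset R, (κ m * occ μ B S m ψ + l m * Yt μ B R S m ψ) + ∑ m ∈ Lset R, P m := by
  have hlb : 0 ≤ lb := (abs_nonneg _).trans (hl 0)
  have h1 : ∑ m ∈ Lset R, (γL * occ μ B S m ψ + β m * nq (ipB μ) ψ -
      lb * occ μ B S m ψ - 2 * lb * |cub μ B R S m ψ| + l m * exch μ B S m ψ) ≤
      ∑ m ∈ Lset R, (κ m * occ μ B S m ψ + l m * Yt μ B R S m ψ + P m) := by
    refine Finset.sum_le_sum fun m hm => ?_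
    have hb := hmode m hm
    have ho : 0 ≤ occ μ B S m ψ := occ_nonneg
    have k1 := mul_le_mul_of_nonneg_right (hκL m hm) ho
    have k3 : -(lb * |cub μ B R S m ψ|) ≤ l m * cub μ B R S m ψ := by
      have h := neg_abs_le (l m * cub μ B R S m ψ)
      rw [abs_mul] at h
      have h' := mul_le_mul_of_nonneg_right (hl m) (abs_nonneg (cub μ B R S m ψ))
      linarith
    rw [Yt_low hA hm]
    linarith
  simp only [Finset.sum_add_distrib, Finset.sum_sub_distrib, ← Finset.mul_sum,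
    ← Finset.sum_mul] at h1
  rw [← nL_eq hA] at h1
  have h2 := mul_le_mul_of_nonneg_left (cub_le hA hL) (mul_nonneg (by norm_num : (0 : ℝ) ≤ 2) hlb)
  rw [Finset.sum_add_distrib]
  linarith

/-- Copy the proofs of `low_gen` and `gen` (file L/Gen): `bog_mode` is replaced by the hypothesis
`hmode`; in `final_gen` take `T + ∑ P` for `T`, `aL + ∑ P` for `aL` and `∑ β` for `sb`. -/
theorem gen2 (hA : Act μ B S) (hS : Sym S ψ) (hL : LowA (Lp B R) S M ψ)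
    {W G G' b : BF (R3 × R3)} {l l' κ τ r β P : M3 → ℝ} {lb b₀ e₁ e₂ e₃ e₄ e₅ θ γL γH Γ T : ℝ}
    (hG : B.Eig G l) (hG' : B.Eig G' l')
    (hpt : ∀ x ∈ B.set, ∀ y ∈ B.set, ∀ α β : ℝ, 2 * G.1 (x, y) * α * β -
      (G.1 (x, y) - G'.1 (x, y) + b.1 (x, y)) * β ^ 2 ≤ W.1 (x, y) * α ^ 2)
    (hb : ∀ z, 0 ≤ b.1 z)
    (hb0 : ∫ x, ∫ y, b.1 (x, y) ∂(B.μ : Measure R3) ∂(B.μ : Measure R3) ≤ b₀)
    (hT : HasSum (fun m => κ m * occ μ B S m ψ) T) (hκ0 : 0 ≤ κ 0)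
    (hκL : ∀ m ∈ Lset R, τ m + γL ≤ κ m) (hκH : ∀ m, High R m → τ m + γH ≤ κ m)
    (hτ : ∀ m, High R m → 0 < τ m)
    (hl : ∀ m, |l m| ≤ lb) (hl0 : 0 ≤ l 0)
    (hmode : ∀ m ∈ Lset R, β m * nq (ipB μ) ψ - lb * occ μ B S m ψ ≤
      τ m * occ μ B S m ψ + l m * exch μ B S m ψ + l m * pair μ B S m ψ + P m)
    (hr : ∀ m ∈ Lset R, 0 ≤ r m) (he₅ : ∑ m ∈ Lset R, r m ≤ e₅)
    (he₁ : ∀ F : Finset M3, (∀ m ∈ F, High R m) →
      ∑ m ∈ F, l m ^ 2 / (4 * τ m) + ∑ m ∈ Lset R, r m ≤ l' 0 / 2 + e₁) (he₁0 : 0 ≤ e₁)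
    (he₂ : ∀ F : Finset M3, (∀ m ∈ F, High R m ∧ ¬Bulk R m) →
      ∑ m ∈ F, l m ^ 2 / (4 * τ m) ≤ e₂)
    (he₃ : ∀ m, High R m → l m ^ 2 / (4 * τ m) ≤ e₃) (he₃0 : 0 ≤ e₃)
    (he₄ : ∀ m ∈ Lset R, l' 0 - l' m ≤ e₄) (he₄0 : 0 ≤ e₄) (hθ : 0 < θ)
    (hΓ : 2 * lb * √(8 * (Lset R).card * M * S.card) +
      64 * e₃ * (M + 1) * (Lset R).card * S.card + 2 * S.card * e₅ ≤ Γ)
    (hγL : lb * (M + 1) +
      S.card * (e₄ + 4 * e₁ + 32 * b₀ * (Lset R).card + 32 * e₂ * (1 + 1 / θ)) + Γ ≤ γL)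
    (hγH : 2 * e₃ * (S.card : ℝ) ^ 2 + lb * S.card + Γ ≤ γH) :
    (l 0 * (S.card * ((S.card : ℝ) - 1) / 2) +
        ∑ m ∈ Lset R, (β m + (S.card : ℝ) ^ 2 * r m) - S.card * e₅ -
        (e₁ + b₀ + θ * e₂) * (S.card : ℝ) ^ 2) * nq (ipB μ) ψ ≤
      T + ∑ m ∈ Lset R, P m + pot μ S W ψ := by
  have hsum := (hT.add (hasSum_Yt (R := R) hA hG ψ)).sub
    ((hasSum_nH (R := R) hA ψ).mul_left (γH - 2 * e₃ * (S.card : ℝ) ^ 2))
  have hPP : 0 ≤ sPP μ B S ψ := sPP_nonneg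
  have hPL : 0 ≤ sPL μ B R S ψ := sPL_nonneg
  have he₂0 : 0 ≤ e₂ := by simpa using he₂ ∅ (by simp)
  have hb₀ : 0 ≤ b₀ :=
    (integral_nonneg fun x => integral_nonneg fun y => hb (x, y)).trans hb0
  have hsplit := hasSum_split (R := R)
    (K := -((l' 0 / 2 + e₁ - ∑ m ∈ Lset R, r m) * (sPP μ B S ψ + 4 * sPL μ B R S ψ)) -
      e₂ * (θ * sPP μ B S ψ + 32 * (1 + 1 / θ) * sPL μ B R S ψ) -
      64 * e₃ * (M + 1) * (Lset R).card * S.card * (nL μ B R S ψ + nH μ B R S ψ)) hsum (by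
    intro F hF
    have hh := high_total (l := l) (τ := τ) (e₂ := e₂) (e₃ := e₃) hA hL F hF
      (fun m hm => hτ m (hF m hm)) hθ
      (fun F' hF' hb' => he₂ F' fun m hm => ⟨hF m (hF' hm), hb' m hm⟩)
      (fun m hm => he₃ m (hF m hm)) he₃0
    have k1 : ∑ m ∈ F, (τ m * occ μ B S m ψ + 2 * e₃ * (S.card : ℝ) ^ 2 * occ μ B S m ψ +
        l m * Yt μ B R S m ψ) ≤
        ∑ m ∈ F, (κ m * occ μ B S m ψ + l m * Yt μ B R S m ψ -
          (γH - 2 * e₃ * (S.card : ℝ) ^ 2) * if High R m then occ μ B S m ψ else 0) := by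
      refine Finset.sum_le_sum fun m hm => ?_
      rw [if_pos (hF m hm)]
      have := mul_le_mul_of_nonneg_right (hκH m (hF m hm)) (occ_nonneg (μ := μ) (B := B) (S := S)
        (m := m) (ψ := ψ))
      linarith
    have k2 := mul_le_mul_of_nonneg_right (he₁ F hF)
      (add_nonneg hPP (mul_nonneg (by norm_num : (0 : ℝ) ≤ 4) hPL))
    rw [nP_eq (R := R) hA] at hh
    refine le_trans ?_ k1
    rw [Finset.sum_add_distrib, Finset.sum_add_distrib, ← Finset.mul_sum]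
    linarith)
  have hlow := low_gen2s hA hL hκL hl hmode
  have hLs : ∑ m ∈ Lset R, (κ m * occ μ B S m ψ + l m * Yt μ B R S m ψ) =
      ∑ m ∈ Lset R, (κ m * occ μ B S m ψ + l m * Yt μ B R S m ψ -
        (γH - 2 * e₃ * (S.card : ℝ) ^ 2) * if High R m then occ μ B S m ψ else 0) :=
    Finset.sum_congr rfl fun m hm => by rw [if_neg (not_high_low_gen hm)]; ring
  rw [hLs, nP_eq (R := R) hA] at hlow
  have ha0 : l 0 * (sPP μ B S ψ + 2 * sPL μ B R S ψ) ≤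
      κ 0 * occ μ B S 0 ψ + l 0 * Yt μ B R S 0 ψ -
        (γH - 2 * e₃ * (S.card : ℝ) ^ 2) * if High R 0 then occ μ B S 0 ψ else 0 := by
    rw [if_neg not_high_zero_gen, Yt_zero hA]
    have := mul_nonneg hκ0 (occ_nonneg (μ := μ) (B := B) (S := S) (m := 0) (ψ := ψ))
    linarith
  have hl' : l' 0 * sPL μ B R S ψ - e₄ * sPL μ B R S ψ ≤
      ∑ m ∈ Lset R, l' m * exch μ B S m ψ := by
    rw [sPL_sym hA hS, Finset.mul_sum, Finset.mul_sum, ← Finset.sum_sub_distrib]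
    refine Finset.sum_le_sum fun m hm => ?_
    have := mul_le_mul_of_nonneg_right (he₄ m hm) (exch_nonneg hA hS m)
    linarith
  have hPP2 := sPP_ge hA ψ
  rw [nP_eq (R := R) hA] at hPP2
  rw [Finset.sum_add_distrib, ← Finset.mul_sum]
  have hsplit' := add_le_add_left hsplit (∑ m ∈ Lset R, P m)
  exact final_gen (T := T + ∑ m ∈ Lset R, P m) ((psd_ipB μ).nq_nonneg ψ) hPL nL_nonneg nH_nonneg
    (Nat.cast_nonneg _) (Nat.cast_nonneg _) (Nat.cast_nonneg _) hl0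
    ((le_abs_self _).trans (hl 0)) hb₀ he₁0 he₂0 he₄0
    hθ.le (by positivity) (Finset.sum_nonneg hr) he₅ (by linarith) rfl (pot_ge hA hG.symm hpt ψ)
    (pq_eig hA hG ψ) (pq_eig hA hG' ψ) (pq_le hA hb hb0 ψ) ha0 hlow hl' (sPP_le hA ψ)
    (sPL_le hA ψ) hPP2 (sPP_sPL_ge hA hL) hΓ hγL hγH

end Pool.Agent.BoseLHY
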