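import Pool.Agent.Lib.MP_dec75e_mp.S.Near2
import Pool.Agent.Lib.MP_dec75e_mp.S.Asg2
import Pool.Agent.Lib.MP_dec75e_mp.L.Cell

/-! The gap estimate in a large cube. -/

open MeasureTheory Finset Function
open scoped Real

noncomputable section

namespace Pool.Agent.BoseLHY

open Pool.Agent.BoseTail

section
variable {ι : Type} [Fintype ι] [DecidableEq ι] {C : Type} [Fintype C] [DecidableEq C] {B : Box}
  {Q : C → Box} {k : C} {A : Set ℕ} {F F' : (ι → ProbabilityMeasure R3) → Finset ι → ℝ}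
  {u : Vs ι}

theorem aN_nonneg : 0 ≤ aN B Q A u := by
  exact Finset.sum_nonneg fun k _ => asum_nonneg fun μ _ _ _ => (psd_ipB μ).nq_nonneg u

theorem aP_nonneg : 0 ≤ aP B Q A u := by
  exact Finset.sum_nonneg fun k _ => asum_nonneg fun μ _ _ _ =>
    Finset.sum_nonneg fun i _ => (psd_ipB μ).nq_nonneg _

theorem aM_nonneg {ϖ : M3 → ℝ} (h0 : ∀ m, 0 ≤ ϖ m) : 0 ≤ aM B Q A ϖ u := by
  exact Finset.sum_nonneg fun k _ => asum_nonneg fun μ _ _ _ => mo_nonneg h0

theorem aG_mul (L : Finset M3) (ν c : ℝ) (g s w : M3 → ℝ) :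
    aG B Q A L ν g s (fun m => c * w m) u = c * aG B Q A L ν g s w u := by
  unfold aG
  simp only [Finset.mul_sum, mul_assoc]

/-- `nP_le_mo`, `asum_mono`, `asum_le_univ`. -/
theorem aP_le_aM {ϖ : M3 → ℝ} (h0 : ∀ m, 0 ≤ ϖ m) (h1 : ∀ m, ϖ m ≤ 1) {c : ℝ}
    (hc : ∀ m, m ≠ 0 → c ≤ ϖ m) : c * aP B Q A u ≤ aM B Q Set.univ ϖ u := by
  unfold aP aM
  rw [Finset.mul_sum]
  refine Finset.sum_le_sum fun k _ => ?_
  rw [← asum_mul]
  exact (asum_mono fun μ S hA _ => nP_le_mo hA h0 h1 hc u).trans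
    (asum_le_univ fun μ S _ => mo_nonneg h0)

end

/-- `asg_bound` for the partition `cell B.o K l _ 0` (`part_cell`, `cell_cube`), with `near2` and
the second part of `crude2`; then with `G = univ` and the first part of `crude2`. -/
theorem grid2 (D : Dat) : ∃ C c ε₀ y₀ : ℝ, 1 ≤ C ∧ 0 < c ∧ c ≤ 1 ∧ 0 < ε₀ ∧ 0 < y₀ ∧ y₀ ≤ 1 ∧
    ∀ (y l : ℝ) (hl : 0 < l) (R K : ℕ) (e : M3 → ℝ), Scale y l R → y ≤ y₀ → D.Sml y l R ε₀ e →
    ∀ {ι : Type} [Fintype ι] [DecidableEq ι] (B : Box) (u : Vs ι) (χ : BF R3), Wgt χ →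
      (∀ k, D.Gd χ (cell B.o K l hl 0 k) y l) → B.Cube (K * l) →
      Sym univ u → C1 u →
      ((D.mu0 y * Fintype.card ι + (K : ℝ) ^ 3 * (D.tg0 y l R - C * y ^ 789)) *
          nq (ipB fun _ => B.μ) u +
        D.mu0 y * aG B (cell B.o K l hl 0) (Near y l) (Lset R) (y ^ 800 * l ^ 3)⁻¹ (D.gf y l)
          (D.sf y l) e u + y ^ 760 * aN B (cell B.o K l hl 0) (Near y l)ᶜ u +
        c * D.mu0 y * aM B (cell B.o K l hl 0) (Near y l)ᶜ (D.vp y l) u ≤
        En (fun _ => B.μ) univ (D.W χ) u) ∧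
      (D.mu0 y * Fintype.card ι - 2 * π * D.a * y ^ 1600 * (K * l) ^ 3 -
          C * y ^ 1199 * Fintype.card ι) * nq (ipB fun _ => B.μ) u +
        c * D.mu0 y * aM B (cell B.o K l hl 0) Set.univ (D.vp y l) u ≤
        En (fun _ => B.μ) univ (D.W χ) u := by
  obtain ⟨C₁, ε₀, y₁, hC₁, hε, -, hy₁, hy₁1, H₁⟩ := near2 D
  obtain ⟨C₂, c, y₂, hC₂, hc, hc1, hy₂, -, H₂⟩ := crude2 D
  refine ⟨C₁ + C₂, c, ε₀, min y₁ y₂, by linarith, hc, hc1, hε, lt_min hy₁ hy₂,
    (min_le_left _ _).trans hy₁1, ?_⟩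
  intro y l hl R K e hS hy he ι _ _ B u χ hχ hG hB hSym hu
  have hy0 := hS.y0
  have hP := part_cell hl hB 0
  have hcard : (Fintype.card (Fin 3 → Fin K) : ℝ) = (K : ℝ) ^ 3 := by
    rw [Fintype.card_fun, Fintype.card_fin, Fintype.card_fin]
    push_cast
    rfl
  have hN := (psd_ipB fun _ : ι => B.μ).nq_nonneg u
  constructor
  · have key := asg_bound (A₀ := D.mu0 y) (A₁ := D.tg0 y l R - (C₁ + C₂) * y ^ 789) hP (D.W0 hχ) hu
      (Near y l)
      (F₁ := fun k μ S => D.mu0 y * ∑ m ∈ Lset R, e m *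
        Gp μ (cell B.o K l hl 0 k) S (y ^ 800 * l ^ 3)⁻¹ (D.gf y l m) (D.sf y l m) m u)
      (F₂ := fun k μ S => y ^ 760 * nq (ipB μ) u +
        c * D.mu0 y * mo μ (cell B.o K l hl 0 k) S (D.vp y l) u)
      (fun k μ S hA hn => by
        have h1 := H₁ y l R e hS (hy.trans (min_le_left _ _)) he μ _ S u χ (hG k)
          (cell_cube B.o hl k) hA
          (hSym.subset (subset_univ S)) hu hn
        have h2 := mul_nonneg (mul_nonneg (by linarith : 0 ≤ C₂) (pow_pos hy0 789).le)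
          ((psd_ipB μ).nq_nonneg u)
        linarith)
      (fun k μ S hA hn => by
        have h1 := (H₂ y l R hS (hy.trans (min_le_right _ _)) μ _ S u χ (hG k)
          (cell_cube B.o hl k) hA
          (hSym.subset (subset_univ S)) hu).2.1 hn
        have h2 := mul_nonneg (mul_nonneg (by linarith : 0 ≤ C₁ + C₂) (pow_pos hy0 789).le)
          ((psd_ipB μ).nq_nonneg u)
        linarith)
    simp only [asum_add, asum_mul, asum_sum, Finset.sum_add_distrib, ← Finset.mul_sum] at key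
    rw [hcard] at key
    unfold aG aN aM
    linarith
  · have key := asg_bound (A₀ := D.mu0 y - (C₁ + C₂) * y ^ 1199)
      (A₁ := -(2 * π * D.a * y ^ 1600 * l ^ 3)) hP (D.W0 hχ) hu Set.univ
      (F₁ := fun k μ S => c * D.mu0 y * mo μ (cell B.o K l hl 0 k) S (D.vp y l) u)
      (F₂ := fun _ _ _ => 0)
      (fun k μ S hA _ => by
        have h1 := (H₂ y l R hS (hy.trans (min_le_right _ _)) μ _ S u χ (hG k)
          (cell_cube B.o hl k) hA
          (hSym.subset (subset_univ S)) hu).1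
        have h2 := mul_nonneg (mul_nonneg (mul_nonneg (by linarith : 0 ≤ C₁) (pow_pos hy0 1199).le)
          (Nat.cast_nonneg S.card)) ((psd_ipB μ).nq_nonneg u)
        linarith)
      (fun k μ S hA hn => absurd (Set.mem_univ _) hn)
    have h0 : 0 ≤ ∑ k, asum (ι := ι) B (cell B.o K l hl 0) k Set.univᶜ fun _ _ => 0 :=
      Finset.sum_nonneg fun k _ => asum_nonneg fun _ _ _ _ => le_rfl
    simp only [asum_mul, ← Finset.mul_sum] at key
    rw [hcard] at key
    unfold aM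
    linarith

end Pool.Agent.BoseLHY
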