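import Pool.Agent.Lib.MP_dec75e_mp.S.Df
import Pool.Agent.Lib.MP_dec75e_mp.L.ImsC
import Pool.Agent.Lib.MP_dec75e_mp.L.GC

/-! Localisation of the pairing term. -/

open MeasureTheory Finset Function
open scoped Real

noncomputable section

namespace Pool.Agent.BoseLHY

open Pool.Agent.BoseTail

variable {ι : Type} [Fintype ι] [DecidableEq ι] {μ : ι → ProbabilityMeasure R3} {B : Box}
  {S : Finset ι} {R M : ℕ} {i j o : ι} {m m' : M3} {f g u ψ : Vs ι}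

theorem off_abs_ims2s {V : Type} [AddCommGroup V] [Module ℝ V] {β : V →ₗ[ℝ] V →ₗ[ℝ] ℝ}
    {T : Module.End ℝ V} {n : ℕ} (hβ : PSD β) (hT : SA β T) (h : Ann T n)
    {a b : ℕ → ℝ} {d : ℝ} (hab : ∀ k, |a k - b k| ≤ 2 * d) (f g : V) :
    |β (fc T n (fun k => Real.cos (a k)) f) (fc T n (fun k => Real.cos (b k)) g) +
      β (fc T n (fun k => Real.sin (a k)) f) (fc T n (fun k => Real.sin (b k)) g) - β f g| ≤
      d ^ 2 * (nq β f + nq β g) := by
  have h1 := off_imsb hβ hT h hab f g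
  have h2 := off_imsb hβ hT h hab (-f) g
  have e : nq β (-f) = nq β f := by
    unfold nq
    simp only [map_neg, LinearMap.neg_apply, neg_neg]
  rw [e] at h2
  simp only [map_neg, LinearMap.neg_apply] at h2
  rw [abs_le]
  constructor <;> linarith

theorem pair_eq_ims2s (hA : Act μ B S) (hm : m ≠ 0) (ψ : Vs ι) : pair μ B S m ψ =
    ∑ o ∈ S, ∑ j ∈ S.erase o,
      ipB μ ((co B j m * co B o m) ψ) ((Pz B j * Pz B o) ψ) := by
  rw [pair_eq hA hm]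
  refine sum_congr rfl fun o _ => sum_congr rfl fun j hj => ?_
  have hj' : μ j = B.μ := hA j (mem_of_mem_erase hj)
  rw [Module.End.mul_apply, Module.End.mul_apply, ip_co hj', Pz_of_ind (ind_Pz _)]

theorem nq_co_le_ims2s (hi : μ i = B.μ) (m : M3) (f : Vs ι) :
    nq (ipB μ) (co B i m f) ≤ nq (ipB μ) f := by
  have h := bessel_co hi {m} f
  rwa [sum_singleton] at h

theorem comm_ims2s (R : ℕ) {X Y : Module.End ℝ (Vs ι)} (hX : X ∈ LocS B j) (hY : Y ∈ LocS B o)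
    (f : Vs ι) : (X * Y) ((∑ k ∈ (S.erase o).erase j, Lp B R k) f) =
      (∑ k ∈ (S.erase o).erase j, Lp B R k) ((X * Y) f) := by
  rw [LinearMap.sum_apply, LinearMap.sum_apply, map_sum]
  refine sum_congr rfl fun k hk => ?_
  have hk1 := mem_erase.1 hk
  have hk2 := mem_erase.1 hk1.2
  rw [Module.End.mul_apply, Module.End.mul_apply, loc_comm hk2.1.symm hY loc_Lp,
    loc_comm hk1.1.symm hX loc_Lp]

theorem term_ims2s (hA : Act μ B S) (hM : 1 ≤ M) (hm : m ∈ Lset R) (ho : o ∈ S)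
    (hj : j ∈ S.erase o) (ψ : Vs ι) {ψ₀ ψ₁ : Vs ι}
    (e0 : ψ₀ = cut (Lp B R) S (fun k => Real.cos (ang_imsc M k)) ψ)
    (e1 : ψ₁ = cut (Lp B R) S (fun k => Real.sin (ang_imsc M k)) ψ) :
    |ipB μ ((co B j m * co B o m) ψ₀) ((Pz B j * Pz B o) ψ₀) +
      ipB μ ((co B j m * co B o m) ψ₁) ((Pz B j * Pz B o) ψ₁) -
      ipB μ ((co B j m * co B o m) ψ) ((Pz B j * Pz B o) ψ)| ≤
      20 / (M : ℝ) ^ 2 * nq (ipB μ) ψ := by
  have hβ := psd_ipB μ
  have hF := fam_Lp (R := R) hA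
  have hoj : o ≠ j := (ne_of_mem_erase hj).symm
  have hj' := mem_of_mem_erase hj
  have hM' : (0 : ℝ) < M := by exact_mod_cast hM
  have p2 : ∀ χ : ℕ → ℝ, (co B j m * co B o m) (cut (Lp B R) S χ ψ) =
      cut (Lp B R) ((S.erase o).erase j) (fun k => χ (k + 2)) ((co B j m * co B o m) ψ) :=
    fun χ => piece_imsb hF ho hj' hoj χ (c := 2) le_rfl (comm_ims2s R loc_co loc_co)
      (fun f => by
        rw [Module.End.mul_apply, Module.End.mul_apply, Module.End.mul_apply, co_Lp, if_pos hm,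
          loc_comm hoj loc_co loc_Lp, co_Lp, if_pos hm, Nat.cast_ofNat, two_smul]) ψ
  have p0 : ∀ χ : ℕ → ℝ, (Pz B j * Pz B o) (cut (Lp B R) S χ ψ) =
      cut (Lp B R) ((S.erase o).erase j) (fun k => χ (k + 0)) ((Pz B j * Pz B o) ψ) :=
    fun χ => piece_imsb hF ho hj' hoj χ (c := 0) (by omega) (comm_ims2s R loc_Pz loc_Pz)
      (fun f => by
        rw [Module.End.mul_apply, Module.End.mul_apply, Pz_Lp, map_zero,
          loc_comm hoj loc_Pz loc_Lp, Pz_Lp, Nat.cast_zero, zero_smul, add_zero]) ψ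
  have hT : SA (ipB μ) (∑ k ∈ (S.erase o).erase j, Lp B R k) :=
    SA.sum fun k hk => (hF.proj k (mem_of_mem_erase (mem_of_mem_erase hk))).sa
  have hab : ∀ k, |ang_imsc M (k + 2) - ang_imsc M (k + 0)| ≤ 2 * (π / M) := fun k => by
    have h1 := abs_le.1 (ang_lip_imsc hM k)
    have h2 := abs_le.1 (ang_lip_imsc hM (k + 1))
    rw [add_zero, abs_le]
    constructor <;> linarith [h1.1, h1.2, h2.1, h2.2]
  have h := off_abs_ims2s hβ hT (ann_erase_imsb hF o j) (a := fun k => ang_imsc M (k + 2))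
    (b := fun k => ang_imsc M (k + 0)) hab ((co B j m * co B o m) ψ) ((Pz B j * Pz B o) ψ)
  rw [e0, e1, p2, p2, p0, p0]
  refine le_trans h ?_
  have b1 : nq (ipB μ) ((co B j m * co B o m) ψ) ≤ nq (ipB μ) ψ :=
    (nq_co_le_ims2s (hA j hj') m _).trans (nq_co_le_ims2s (hA o ho) m ψ)
  have b2 : nq (ipB μ) ((Pz B j * Pz B o) ψ) ≤ nq (ipB μ) ψ :=
    ((proj_Pz (hA j hj')).nq_le hβ _).trans ((proj_Pz (hA o ho)).nq_le hβ ψ)
  have h8 : (π / M) ^ 2 ≤ 10 / (M : ℝ) ^ 2 := by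
    rw [div_pow]
    refine div_le_div_of_nonneg_right ?_ (by positivity)
    nlinarith [Real.pi_lt_d2, Real.pi_pos]
  have hn := hβ.nq_nonneg ψ
  calc (π / M) ^ 2 * (nq (ipB μ) ((co B j m * co B o m) ψ) + nq (ipB μ) ((Pz B j * Pz B o) ψ))
      ≤ (π / M) ^ 2 * (2 * nq (ipB μ) ψ) :=
        mul_le_mul_of_nonneg_left (by linarith) (sq_nonneg _)
    _ ≤ 10 / (M : ℝ) ^ 2 * (2 * nq (ipB μ) ψ) :=
        mul_le_mul_of_nonneg_right h8 (by linarith)
    _ = 20 / (M : ℝ) ^ 2 * nq (ipB μ) ψ := by ring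

/-- By `pair_eq`, `ip_co`, `ip_ind`: `pair ψ = ∑ ∑ ⟨co j (co o ψ), Pz j (Pz o ψ)⟩`. Use
`piece_imsb` with `D = co j * co o`, `c = 2` and with `D = Pz j * Pz o`, `c = 0`, then `off_imsb`
(for `f` and for `-f`) with `d = π / M`. -/
theorem pair_cut (hA : Act μ B S) (hM : 1 ≤ M) (hm : m ∈ Lset R) (ψ : Vs ι) :
    |pair μ B S m (cut (Lp B R) S (fun k => Real.cos (ang_imsc M k)) ψ) +
        pair μ B S m (cut (Lp B R) S (fun k => Real.sin (ang_imsc M k)) ψ) - pair μ B S m ψ| ≤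
      20 * (S.card : ℝ) ^ 2 / (M : ℝ) ^ 2 * nq (ipB μ) ψ := by
  have hm0 : m ≠ 0 := ne_of_mem_erase hm
  have hn := (psd_ipB μ).nq_nonneg ψ
  rw [pair_eq_ims2s hA hm0, pair_eq_ims2s hA hm0, pair_eq_ims2s hA hm0, ← sum_add_distrib,
    ← sum_sub_distrib]
  set K : ℝ := 20 / (M : ℝ) ^ 2 * nq (ipB μ) ψ with hK
  have hK0 : 0 ≤ K := by positivity
  refine (abs_sum_le_sum_abs _ _).trans
    ((sum_le_sum (g := fun _ => S.card * K) fun o ho => ?_).trans (le_of_eq ?_))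
  · rw [← sum_add_distrib, ← sum_sub_distrib]
    refine (abs_sum_le_sum_abs _ _).trans
      ((sum_le_sum (g := fun _ => K) fun j hj => term_ims2s hA hM hm ho hj ψ rfl rfl).trans ?_)
    rw [sum_const, nsmul_eq_mul]
    exact mul_le_mul_of_nonneg_right (by exact_mod_cast card_erase_le) hK0
  · rw [sum_const, nsmul_eq_mul, hK]
    ring

/-- Copy the proof of `ims_box` and add `pair_cut`. -/
theorem ims_box2 (hA : Act μ B S) (hS : Sym S ψ) (hψ : C1 ψ) (hM : 1 ≤ M) {W : BF (R3 × R3)}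
    (hW : ∀ z, 0 ≤ W.1 z) {b : ℝ} (h1 : ∀ y, ∫ x, W.1 (x, y) ∂(B.μ : Measure R3) ≤ b)
    (h2 : ∀ x, ∫ y, W.1 (x, y) ∂(B.μ : Measure R3) ≤ b) :
    ∃ ψ₀ ψ₁ : Vs ι, C1 ψ₀ ∧ C1 ψ₁ ∧ Sym S ψ₀ ∧ Sym S ψ₁ ∧ LowA (Lp B R) S M ψ₀ ∧
      M / 2 * nq (ipB μ) ψ₁ ≤ nL μ B R S ψ₁ ∧
      (∀ m, occ μ B S m ψ₀ + occ μ B S m ψ₁ = occ μ B S m ψ) ∧
      nq (ipB μ) ψ₀ + nq (ipB μ) ψ₁ = nq (ipB μ) ψ ∧
      (pot μ S W ψ₀ + pot μ S W ψ₁ ≤ pot μ S W ψ + 700 / (M : ℝ) ^ 2 *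
        (pot μ S W ψ + 12 * (Lset R).card * b * (S.card : ℝ) ^ 2 * nq (ipB μ) ψ)) ∧
      ∀ m ∈ Lset R, |pair μ B S m ψ₀ + pair μ B S m ψ₁ - pair μ B S m ψ| ≤
        20 * (S.card : ℝ) ^ 2 / (M : ℝ) ^ 2 * nq (ipB μ) ψ := by
  have hβ := psd_ipB μ
  have hF := fam_Lp (R := R) hA
  have hχ : ∀ k, Real.cos (ang_imsc M k) ^ 2 + Real.sin (ang_imsc M k) ^ 2 = 1 := fun k =>
    Real.cos_sq_add_sin_sq _
  refine ⟨cut (Lp B R) S (fun k => Real.cos (ang_imsc M k)) ψ,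
    cut (Lp B R) S (fun k => Real.sin (ang_imsc M k)) ψ, c1_cut hψ _, c1_cut hψ _, sym_cut hS _,
    sym_cut hS _, cut_low hF (ang_high_imsc hM) ψ, cut_high hβ hF (ang_low_imsc hM) ψ,
    fun m => ?_, cut_pyth hβ hF hχ ψ, ?_, fun m hm => pair_cut hA hM hm ψ⟩
  · rw [occ, occ, occ, ← Finset.sum_add_distrib]
    refine Finset.sum_congr rfl fun i hi => cut_intw hβ hF hi (D := co B i m)
      (c := if m ∈ Lset R then 1 else 0) (by split_ifs <;> norm_num)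
      (fun j hj f => loc_comm (Finset.ne_of_mem_erase hj).symm loc_co loc_Lp f) (fun f => ?_) hχ ψ
    rw [co_Lp]
    split_ifs <;> simp
  · have hb : 0 ≤ b := (integral_nonneg fun x => hW _).trans (h1 0)
    have hn := hβ.nq_nonneg ψ
    set K : ℝ := 700 / (M : ℝ) ^ 2 * (24 * (Lset R).card * b * nq (ipB μ) ψ) with hK
    have hK0 : 0 ≤ K := by positivity
    have h3 := Finset.sum_le_sum fun i (hi : i ∈ S) => Finset.sum_le_sum fun j hj =>
      pair_imsc (R := R) (ψ := ψ) hA hM hW h1 h2 hi hj rfl rfl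
    simp only [Finset.sum_add_distrib, ← Finset.mul_sum, ← hK] at h3
    have h4 : ∑ i ∈ S, ∑ _j ∈ S.erase i, K ≤ (S.card : ℝ) ^ 2 * K := by
      refine (Finset.sum_le_sum (g := fun _ => S.card * K) fun i _ => ?_).trans (le_of_eq ?_)
      · rw [Finset.sum_const, nsmul_eq_mul]
        exact mul_le_mul_of_nonneg_right (by exact_mod_cast Finset.card_erase_le) hK0
      · rw [Finset.sum_const, nsmul_eq_mul]
        ring
    unfold pot
    have h5 : 700 / (M : ℝ) ^ 2 * (12 * (Lset R).card * b * (S.card : ℝ) ^ 2 * nq (ipB μ) ψ) =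
        (S.card : ℝ) ^ 2 * K / 2 := by rw [hK]; ring
    rw [mul_add, h5]
    linarith

end Pool.Agent.BoseLHY
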