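import Pool.Agent.Lib.MP_dec75e_mp.S.Smo
import Pool.Agent.Lib.MP_dec75e_mp.S.Far2
import Pool.Agent.Lib.MP_dec75e_mp.L.HH
import Pool.Agent.Lib.MP_dec75e_mp.L.Phi
import Pool.Agent.Lib.MP_dec75e_mp.L.Main1

/-! The kernels of the one-body operators. -/

open MeasureTheory Finset Function
open scoped Real

noncomputable section

namespace Pool.Agent.BoseLHY

open Pool.Agent.BoseTail

theorem Dat.tm_norm (D : Dat) {y : ℝ} (hy : 0 < y) (l : ℝ) (m : M3) :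
    ‖(WithLp.toLp 2 ((√(2 * D.mu0 y))⁻¹ • pk l m) : E3)‖ ^ 2 = D.tm y l m := by
  have hμ : 0 < 2 * D.mu0 y := by have := D.mu0_pos hy; positivity
  rw [norm_toLp_phig, Real.sq_sqrt (sq3_nonneg _)]
  unfold Dat.tm sq3
  rw [Finset.sum_div]
  refine Finset.sum_congr rfl fun c _ => ?_
  rw [Pi.smul_apply, smul_eq_mul, mul_pow, inv_pow, Real.sq_sqrt hμ.le, inv_mul_eq_div]

theorem env_kern2 {y c t : ℝ} (hy : 0 < y) (hc : 0 < c) (ht : 0 ≤ t) :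
    (1 + y ^ 400 * t) ^ 2 ≤ (1 + 1 / c) ^ 2 * (1 + c * y ^ 400 * t) ^ 2 := by
  rw [← mul_pow]
  refine pow_le_pow_left₀ (by positivity) ?_ 2
  have h1 : (1 + 1 / c) * (1 + c * y ^ 400 * t) =
      1 + y ^ 400 * t + (1 / c + c * y ^ 400 * t) := by field_simp; ring
  have h2 : 0 ≤ 1 / c + c * y ^ 400 * t := by positivity
  linarith

theorem rad_kern2 {y c A : ℝ} (hy : 0 < y) (hc : 0 < c) :
    |(1 : ℝ)| * A / (c * y ^ 400 * (1 / y ^ 402)) = A / c * y ^ 2 := by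
  rw [abs_one, show y ^ 402 = y ^ 400 * y ^ 2 by rw [← pow_add]]
  field_simp

theorem rho_kern2 {y l : ℝ} (hy : 0 < y) (hl : 0 < l) (h1 : 1 ≤ l * y ^ 404) :
    1 / y ^ 402 / l ≤ y ^ 2 := by
  rw [div_div, div_le_iff₀ (by positivity)]
  calc (1 : ℝ) ≤ l * y ^ 404 := h1
    _ = y ^ 2 * (y ^ 402 * l) := by ring

theorem high_kern2 {y c b s : ℝ} (hy : 0 < y) (hy1 : y ≤ 1) (hc : 0 < c)
    (hb : y * (b * c ^ 2) ≤ 1) (hb0 : 0 < b) (hs : 2 * y ^ 784 ≤ s) :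
    b < s / (c * y ^ 400) ^ 2 := by
  rw [lt_div_iff₀ (by positivity)]
  have h1 : y ^ 16 ≤ y := pow_le_of_le_one hy.le hy1 (by norm_num)
  have h2 : b * (c * y ^ 400) ^ 2 = y ^ 16 * (b * c ^ 2) * y ^ 784 := by ring
  have h3 : y ^ 16 * (b * c ^ 2) ≤ 1 :=
    (mul_le_mul_of_nonneg_right h1 (by positivity)).trans hb
  have h4 : 0 < y ^ 784 := by positivity
  have h5 := mul_le_mul_of_nonneg_right h3 h4.le
  rw [h2]
  linarith

theorem sq_kern2 {u a b : ℝ} (ha : |u| ≤ a) (hb : |u| ≤ b) : u ^ 2 ≤ a * b := by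
  rw [← sq_abs, sq]
  exact mul_le_mul ha hb (abs_nonneg _) ((abs_nonneg _).trans ha)

theorem up_kern2 {s a w : ℝ} (ha : 0 ≤ a) (hw0 : 0 ≤ w) (hw : w ≤ 1) (h : |s - 1| ≤ a * w) :
    s ^ 2 ≤ 1 + (2 * a + a ^ 2) * w := by
  have h1 := sq_kern2 h h
  have h2 := (abs_le.1 h).2
  have h3 : a * w * (a * w) ≤ a ^ 2 * w := by
    have : a ^ 2 * w * w ≤ a ^ 2 * w := mul_le_of_le_one_right (by positivity) hw
    nlinarith
  nlinarith

theorem lo_kern2 {s σ a w ρ M : ℝ} (ha : 0 ≤ a) (hw0 : 0 ≤ w) (hw : w ≤ 1) (hρ : ρ ≤ w)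
    (hσ : 0 ≤ σ) (hM : σ ≤ M) (h : |s - σ| ≤ a * w) :
    σ ^ 2 - (2 * M * a + 6 * (M + a) ^ 2) * w ≤ s ^ 2 * (1 - 6 * ρ) := by
  obtain ⟨h1, h2⟩ := abs_le.1 h
  have h3 : a * w ≤ a := mul_le_of_le_one_right ha hw
  have h4 : s ^ 2 ≤ (M + a) ^ 2 := sq_le_sq' (by linarith) (by linarith)
  have h5 : s ^ 2 * ρ ≤ (M + a) ^ 2 * w :=
    (mul_le_mul_of_nonneg_left hρ (sq_nonneg _)).trans (mul_le_mul_of_nonneg_right h4 hw0)
  have h6 : σ * (a * w) ≤ M * (a * w) := mul_le_mul_of_nonneg_right hM (by positivity)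
  have h7 : σ * -(a * w) ≤ σ * (s - σ) := mul_le_mul_of_nonneg_left h1 hσ
  nlinarith [sq_nonneg (s - σ)]

/-- Take the cut-off `φ₀` of `exists_bump`, `φ m = φ₀ (κ⁻¹ pk l m)` with `κ = √(2 μ₀) = c y ^ 400`
(`kappa_main1`); `exists_nu` and `exists_trunc` (with `r = 1 / y ^ 402`, `ε = 1`, so that
`1 / (κ r) = y² / c`) for `φ₀` and for `φ₀ * sg (‖κ‖²)` (`contDiff_sg`). For small `y` the cut-off
vanishes on the high modes (`Scale.mom`, `high_iff`) and at `m = 0`. `exists_Gam`, `env_main3`-like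
comparison of the envelopes, `gB_le`, `sg_sq`, and `r / l ≤ y²`. -/
theorem kernels (D : Dat) {α β : ℝ} (hα : 0 < α) (hαβ : α < β) :
    ∃ C Γ y₀ : ℝ, 1 ≤ C ∧ 1 ≤ Γ ∧ 0 < y₀ ∧ y₀ ≤ 1 ∧ ∀ (y l : ℝ) (R : ℕ), Scale y l R → y ≤ y₀ →
    ∃ (h h' : BF R3) (H : R3 → ℝ) (φ : M3 → ℝ), Ev h.1 ∧ Supp h.1 (1 / y ^ 402) ∧ Ev h'.1 ∧
      Supp h'.1 (1 / y ^ 402) ∧ Mono H ∧ Integrable H ∧ (∀ z, |h.1 z| ≤ H z) ∧ (∫ z, H z) ≤ C ∧
      (∀ m ∈ Lset R, φ m ^ 2 * D.gf y l m ^ 4 ≤ Γ * D.vp y l m) ∧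
      (∀ m, ((if m ∈ Lset R then φ m else 0) - sy h (pk l m)) ^ 2 ≤ C * y ^ 2 * D.vp y l m) ∧
      (∀ m, |(if m ∈ Lset R then φ m * D.sf y l m else 0) - sy h' (pk l m)| ≤ C * y ^ 2) ∧
      (∀ k : E3, α ≤ ‖(√(2 * D.mu0 y))⁻¹ • k‖ → ‖(√(2 * D.mu0 y))⁻¹ • k‖ ≤ β →
        sy h (fun c => k c) ^ 2 ≤ 1 + C * y ^ 2 ∧
        gB ‖(√(2 * D.mu0 y))⁻¹ • k‖ / 2 - C * y ^ 2 ≤
          sy h' (fun c => k c) ^ 2 * (1 - 6 * (1 / y ^ 402 / l))) ∧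
      ∀ (d : R3 → ℝ) (G : ℝ), BM d → (∀ z, 0 ≤ d z) → (∀ z, d z ≤ G * (1 + y ^ 400 * ‖z‖) ^ 2) →
        ∫ z, H z * d z ≤ C * G := by
  obtain ⟨φ₀, p1, p2, p3, p4, p5, p6, p7⟩ := exists_bump hα hαβ
  have hβ : 0 < β := hα.trans hαβ
  have hφz : φ₀ 0 = 0 := image_eq_zero_of_notMem_tsupport p3
  obtain ⟨ν, A, hνc, hνe, hνA, hνφ⟩ := exists_nu p1 p2 p4
  obtain ⟨ν', A', hνc', hνe', hνA', hνφ'⟩ := exists_nu (contDiff_sg p1 p3)
    (p2.mul_right (f' := fun κ : E3 => sg (‖κ‖ ^ 2))) (fun κ κ' h => by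
      have h1 : ‖κ‖ = ‖κ'‖ := by
        rw [EuclideanSpace.norm_eq, EuclideanSpace.norm_eq]
        simp only [Real.norm_eq_abs, h]
      rw [p4 κ κ' h, h1])
  obtain ⟨Ct, hCt, hT⟩ := exists_trunc hνc hνe hνA
  obtain ⟨Cs, hCs, hS⟩ := exists_trunc hνc' hνe' hνA'
  obtain ⟨Γ, hΓ, hG⟩ := exists_Gam (half_pos hα)
  have ha := D.ha
  obtain ⟨c, hcd⟩ : ∃ c : ℝ, c = √(8 * π * D.a) := ⟨_, rfl⟩
  have hc : 0 < c := hcd ▸ Real.sqrt_pos.2 (by positivity)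
  have hCt0 : 0 < Ct := by linarith
  have hCs0 : 0 < Cs := by linarith
  have hΓ0 : 0 < Γ := by linarith
  obtain ⟨C, c1, c2, c3, c4, c5, c6⟩ : ∃ C : ℝ, Ct ≤ C ∧ Ct / c * (Γ + Ct) ≤ C ∧ Cs / c ≤ C ∧
      2 * (Ct / c) + (Ct / c) ^ 2 ≤ C ∧
      2 * (1 / α) * (Cs / c) + 6 * (1 / α + Cs / c) ^ 2 ≤ C ∧ Ct * (1 + 1 / c) ^ 2 ≤ C := by
    have b2 : 0 ≤ Ct / c * (Γ + Ct) := by positivity
    have b3 : 0 ≤ Cs / c := by positivity
    have b4 : 0 ≤ 2 * (Ct / c) + (Ct / c) ^ 2 := by positivity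
    have b5 : 0 ≤ 2 * (1 / α) * (Cs / c) + 6 * (1 / α + Cs / c) ^ 2 := by positivity
    have b6 : 0 ≤ Ct * (1 + 1 / c) ^ 2 := by positivity
    exact ⟨Ct + Ct / c * (Γ + Ct) + Cs / c + (2 * (Ct / c) + (Ct / c) ^ 2) +
      (2 * (1 / α) * (Cs / c) + 6 * (1 / α + Cs / c) ^ 2) + Ct * (1 + 1 / c) ^ 2,
      by linarith, by linarith, by linarith, by linarith, by linarith, by linarith⟩
  refine ⟨C, Γ, min 1 (1 / ((2 * β) ^ 2 * c ^ 2)), hCt.trans c1, hΓ, by positivity,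
    min_le_left _ _, fun y l R hSc hy => ?_⟩
  obtain ⟨hy1, hy2⟩ := le_min_iff.1 hy
  have hy0 := hSc.y0
  have hl := hSc.l_pos
  have hμ : 0 < 2 * D.mu0 y := by have := D.mu0_pos hy0; positivity
  have hκc : √(2 * D.mu0 y) = c * y ^ 400 := by rw [hcd]; exact kappa_main1 D hy0
  have hκ : 0 < √(2 * D.mu0 y) := Real.sqrt_pos.2 hμ
  have hr : 0 < 1 / y ^ 402 := by positivity
  have hw0 : 0 ≤ y ^ 2 := sq_nonneg y
  have hw1 : y ^ 2 ≤ 1 := pow_le_one₀ hy0.le hy1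
  obtain ⟨h, H, t1, t2, t3, t4, -, t6, -, t8, t9, t10⟩ := hT _ _ 1 hκ hr
  obtain ⟨h', H', s1, s2, -, -, -, -, -, -, s9, -⟩ := hS _ _ 1 hκ hr
  have e9 : ∀ k : R3, |sy h k - φ₀ (WithLp.toLp 2 ((√(2 * D.mu0 y))⁻¹ • k))| ≤
      Ct / c * y ^ 2 := by
    intro k
    have h1 := t9 k
    rw [hνφ, hνφ, WithLp.toLp_zero, hφz, sub_zero, one_mul] at h1
    refine h1.trans (le_of_eq ?_)
    rw [hκc]
    exact rad_kern2 hy0 hc
  have e9' : ∀ k : R3, |sy h' k - φ₀ (WithLp.toLp 2 ((√(2 * D.mu0 y))⁻¹ • k)) *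
      sg (‖(WithLp.toLp 2 ((√(2 * D.mu0 y))⁻¹ • k) : E3)‖ ^ 2)| ≤ Cs / c * y ^ 2 := by
    intro k
    have h1 := s9 k
    rw [hνφ', hνφ', WithLp.toLp_zero, hφz, zero_mul, sub_zero, one_mul] at h1
    refine h1.trans (le_of_eq ?_)
    rw [hκc]
    exact rad_kern2 hy0 hc
  obtain ⟨φ, hφ⟩ : ∃ φ : M3 → ℝ,
      ∀ m, φ m = φ₀ (WithLp.toLp 2 ((√(2 * D.mu0 y))⁻¹ • pk l m)) := ⟨_, fun _ => rfl⟩
  have htm0 : ∀ m, 0 ≤ D.tm y l m := fun m => by rw [← D.tm_norm hy0]; exact sq_nonneg _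
  have hz : ∀ m, m ∉ Lset R → φ m = 0 := by
    intro m hm
    by_cases h0 : m = 0
    · have h1 : pk l m = 0 := by
        funext c
        simp [pk, h0]
      rw [hφ, h1, smul_zero, WithLp.toLp_zero, hφz]
    · by_contra h1
      rw [hφ] at h1
      have h2 := pow_le_pow_left₀ (norm_nonneg _) (p7 _ h1).2 2
      rw [D.tm_norm hy0] at h2
      have h3 := (hSc.mom m).2.1 (high_iff.2 ⟨h0, hm⟩)
      rw [le_div_iff₀ (by positivity)] at hy2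
      have h4 := high_kern2 hy0 hy1 hc hy2 (by positivity) h3
      rw [← hκc, Real.sq_sqrt hμ.le] at h4
      exact absurd h2 (not_le.2 h4)
  have hGm : ∀ m, φ m ^ 2 * D.gf y l m ^ 4 ≤ Γ * D.vp y l m ∧ |φ m| ≤ Γ * D.vp y l m := by
    intro m
    refine hG (φ m) (D.tm y l m) (htm0 m) ?_ fun h1 => ?_
    · rw [hφ, abs_of_nonneg (p5 _).1]
      exact (p5 _).2
    · rw [hφ] at h1
      have h2 := pow_le_pow_left₀ (by positivity) (p7 _ h1).1 2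
      rwa [D.tm_norm hy0] at h2
  refine ⟨h, h', H, φ, t1, t2, s1, s2, t3, t4, t6, ?_, fun m _ => (hGm m).1, fun m => ?_,
    fun m => ?_, fun k k1 k2 => ?_, fun d G hd hd0 hdG => ?_⟩
  · have h1 := (t10 (fun _ => 1) 1 (BM.const 1) (fun _ => zero_le_one) fun z => by
      rw [one_mul]
      exact one_le_pow₀ (le_add_of_nonneg_right (by positivity))).1
    simp only [mul_one, abs_one, one_mul] at h1
    exact h1.trans c1
  · have h1 : (if m ∈ Lset R then φ m else 0) = φ m := by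
      split_ifs with hm
      · rfl
      · exact (hz m hm).symm
    have h2 : |φ m - sy h (pk l m)| ≤ Ct / c * y ^ 2 := by
      rw [abs_sub_comm, hφ]
      exact e9 _
    have h3 : |sy h (pk l m)| ≤ Ct * D.vp y l m := by
      have h4 := t8 (pk l m)
      rw [abs_one, one_mul, Real.sq_sqrt hμ.le] at h4
      exact h4
    have h5 : |φ m - sy h (pk l m)| ≤ (Γ + Ct) * D.vp y l m := by
      have h6 := abs_sub (φ m) (sy h (pk l m))
      have h7 := (hGm m).2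
      linarith
    have h8 := D.vp_nonneg hy0 l m
    rw [h1]
    calc _ ≤ Ct / c * y ^ 2 * ((Γ + Ct) * D.vp y l m) := sq_kern2 h2 h5
      _ = Ct / c * (Γ + Ct) * (y ^ 2 * D.vp y l m) := by ring
      _ ≤ C * (y ^ 2 * D.vp y l m) := mul_le_mul_of_nonneg_right c2 (mul_nonneg hw0 h8)
      _ = _ := by ring
  · have h1 : (if m ∈ Lset R then φ m * D.sf y l m else 0) = φ m * D.sf y l m := by
      split_ifs with hm
      · rfl
      · rw [hz m hm, zero_mul]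
    have h2 := e9' (pk l m)
    rw [D.tm_norm hy0, ← hφ] at h2
    rw [h1, abs_sub_comm]
    exact h2.trans (mul_le_mul_of_nonneg_right c3 hw0)
  · have h0 : (WithLp.toLp 2 ((√(2 * D.mu0 y))⁻¹ • fun c => k c) : E3) =
        (√(2 * D.mu0 y))⁻¹ • k := rfl
    have h1 := e9 fun c => k c
    have h2 := e9' fun c => k c
    rw [h0, p6 _ k1 k2] at h1 h2
    rw [one_mul] at h2
    generalize ‖(√(2 * D.mu0 y))⁻¹ • k‖ = u at k1 k2 h2 ⊢
    have hu : 0 < u := hα.trans_le k1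
    have h3 : sg (u ^ 2) ^ 2 = gB u / 2 := by
      rw [sg_sq (by positivity), Real.sqrt_sq hu.le]
    have h4 : sg (u ^ 2) ≤ 1 / α := by
      refine (pow_le_pow_iff_left₀ (sg_nonneg _) (by positivity) two_ne_zero).1 ?_
      have h5 := gB_le hα k1
      have h6 : (1 / α) ^ 2 = 2 / α ^ 2 / 2 := by ring
      rw [h3, h6]
      linarith
    constructor
    · have h5 := up_kern2 (by positivity) hw0 hw1 h1
      have h6 := mul_le_mul_of_nonneg_right c4 hw0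
      linarith
    · have h5 := lo_kern2 (by positivity) hw0 hw1 (rho_kern2 hy0 hl hSc.l1) (sg_nonneg _) h4 h2
      have h6 := mul_le_mul_of_nonneg_right c5 hw0
      rw [h3] at h5
      linarith
  · have hG0 : 0 ≤ G := by simpa using (hd0 0).trans (hdG 0)
    have h1 := (t10 d (G * (1 + 1 / c) ^ 2) hd hd0 fun z => by
      rw [hκc, mul_assoc]
      exact (hdG z).trans
        (mul_le_mul_of_nonneg_left (env_kern2 hy0 hc (norm_nonneg z)) hG0)).1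
    rw [abs_one, one_mul] at h1
    calc _ ≤ Ct * (G * (1 + 1 / c) ^ 2) := h1
      _ = Ct * (1 + 1 / c) ^ 2 * G := by ring
      _ ≤ C * G := mul_le_mul_of_nonneg_right c6 hG0

end Pool.Agent.BoseLHY
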