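import Pool.Agent.Lib.MP_dec75e_mp.S.BesA

/-! Elementary bounds for the quasi-particle operators of one cell. -/

open MeasureTheory Finset Function
open scoped Real

noncomputable section

namespace Pool.Agent.BoseLHY

open Pool.Agent.BoseTail

variable {V : Type} [AddCommGroup V] [Module ℝ V] {C κ : Type} [Fintype C] [DecidableEq C]
  [DecidableEq κ] {Y : Sys V C κ} {k : C} {m : κ} {n : ℕ} {f g : V} {A : Set ℕ}

namespace Sys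

theorem Ok.psd (h : Y.Ok) : PSD Y.β := h.loc.ccr.psd

omit [DecidableEq C] in
theorem mem_o_loca (Y : Sys V C κ) (k : C) :
    (k, Y.o) ∈ (univ : Finset C) ×ˢ insert Y.o Y.L :=
  mem_product.2 ⟨mem_univ _, mem_insert_self _ _⟩

omit [DecidableEq C] in
theorem mem_m_loca (Y : Sys V C κ) (k : C) (hm : m ∈ Y.L) :
    (k, m) ∈ (univ : Finset C) ×ˢ insert Y.o Y.L :=
  mem_product.2 ⟨mem_univ _, mem_insert_of_mem hm⟩

section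
omit [Fintype C] [DecidableEq C] [DecidableEq κ]

theorem U_ap_loca (k : C) (f : V) : Y.U k f = Y.ν • Y.a (k, Y.o) (Y.a (k, Y.o) f) := rfl

theorem Ud_ap_loca (k : C) (f : V) : Y.Ud k f = Y.ν • Y.ad (k, Y.o) (Y.ad (k, Y.o) f) := rfl

theorem b_ap_loca (k : C) (m : κ) (f : V) :
    Y.b k m f = Y.γ m • Y.a (k, m) f + Y.s m • Y.U k (Y.ad (k, m) f) := rfl

theorem X_ap_loca (k : C) (m : κ) (f : V) :
    Y.X k m f = Y.γ m • Y.U k (Y.ad (k, m) f) + Y.s m • Y.a (k, m) f := rfl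

theorem Xd_ap_loca (k : C) (m : κ) (f : V) :
    Y.Xd k m f = Y.γ m • Y.Ud k (Y.a (k, m) f) + Y.s m • Y.ad (k, m) f := rfl

end

theorem Ok.adj_loca (h : Y.Ok) {x : C × κ} (hx : x ∈ (univ : Finset C) ×ˢ insert Y.o Y.L)
    (f g : V) : Y.β (Y.a x f) g = Y.β f (Y.ad x g) := by
  rw [h.psd.symm, ← h.loc.ccr.adj x hx, h.psd.symm]

theorem Ok.z_ad_loca (h : Y.Ok) (hm : m ∈ Y.L) (f : V) :
    Y.a (k, Y.o) (Y.ad (k, m) f) = Y.ad (k, m) (Y.a (k, Y.o) f) := by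
  rw [h.loc.ccr.ccr _ (mem_o_loca Y k) _ (mem_m_loca Y k hm), if_neg, add_zero]
  intro e
  exact h.ho ((Prod.mk.inj e).2 ▸ hm)

theorem Ok.a_zd_loca (h : Y.Ok) (hm : m ∈ Y.L) (f : V) :
    Y.a (k, m) (Y.ad (k, Y.o) f) = Y.ad (k, Y.o) (Y.a (k, m) f) := by
  rw [h.loc.ccr.ccr _ (mem_m_loca Y k hm) _ (mem_o_loca Y k), if_neg, add_zero]
  intro e
  exact h.ho ((Prod.mk.inj e).2 ▸ hm)

theorem Ok.nq_M_split (h : Y.Ok) (k : C) (A : Set ℕ) (f : V) :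
    nq Y.β f = nq Y.β (Y.M k A f) + nq Y.β (Y.M k Aᶜ f) := by
  have h0 : Y.M k A (Y.M k Aᶜ f) = 0 := by
    have h1 := congrArg (Y.M k A) (h.loc.compl k A f)
    rw [map_add, h.loc.mul k A A, Set.inter_self] at h1
    exact add_eq_left.1 h1
  have h2 := h.psd.nq_add (Y.M k A f) (Y.M k Aᶜ f)
  rw [h.loc.compl, h.loc.sa k A, h0, map_zero] at h2
  linarith

theorem Ok.nq_M_le (h : Y.Ok) (k : C) (A : Set ℕ) (f : V) : nq Y.β (Y.M k A f) ≤ nq Y.β f := by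
  have h1 := h.nq_M_split k A f
  have h2 := h.psd.nq_nonneg (Y.M k Aᶜ f)
  linarith

theorem Ok.bd_M (h : Y.Ok) (hA : A ⊆ Set.Iic n) (f : V) : Y.Bd k n (Y.M k A f) := by
  unfold Bd
  rw [h.loc.mul, Set.inter_eq_right.2 hA]

theorem Ok.bd_a (h : Y.Ok) (hm : m ∈ insert Y.o Y.L) (hf : Y.Bd k n f) :
    Y.Bd k n (Y.a (k, m) f) := by
  have h1 := h.loc.low k m hm (Set.Iic n) f
  rw [show Y.M k (Set.Iic n) f = f from hf] at h1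
  rw [h1]
  exact h.bd_M (fun i hi => Nat.le_of_succ_le hi) _

theorem Ok.bd_cz (h : Y.Ok) (hf : Y.Bd k n f) (p q : ℝ) : Y.Bd k n (cz Y.J p q f) := by
  unfold Bd
  rw [cz_comm (h.jm k _), show Y.M k (Set.Iic n) f = f from hf]

theorem Bd.smul (hf : Y.Bd k n f) (c : ℝ) : Y.Bd k n (c • f) := by
  unfold Bd
  rw [map_smul, show Y.M k (Set.Iic n) f = f from hf]

theorem Bd.sum {ι : Type} {s : Finset ι} {F : ι → V} (hF : ∀ i ∈ s, Y.Bd k n (F i)) :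
    Y.Bd k n (∑ i ∈ s, F i) := by
  unfold Bd
  rw [map_sum]
  exact sum_congr rfl hF

theorem Ok.nq_a_le (h : Y.Ok) (hm : m ∈ insert Y.o Y.L) (hf : Y.Bd k n f) :
    nq Y.β (Y.a (k, m) f) ≤ n * nq Y.β f := by
  have h1 := h.loc.num k m hm n f
  rwa [show Y.M k (Set.Iic n) f = f from hf] at h1

theorem Ok.U_adj (h : Y.Ok) (k : C) (f g : V) : Y.β (Y.U k f) g = Y.β f (Y.Ud k g) := by
  have ho := mem_o_loca Y k
  rw [U_ap_loca, Ud_ap_loca, map_smul, map_smul, LinearMap.smul_apply, h.adj_loca ho,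
    h.adj_loca ho]

theorem Ok.U_a (h : Y.Ok) (hm : m ∈ Y.L) (f : V) :
    Y.U k (Y.a (k, m) f) = Y.a (k, m) (Y.U k f) := by
  have ho := mem_o_loca Y k
  have hm' := mem_m_loca Y k hm
  rw [U_ap_loca, U_ap_loca, map_smul, h.loc.ccr.cc _ ho _ hm', h.loc.ccr.cc _ ho _ hm']

theorem Ok.U_ad (h : Y.Ok) (hm : m ∈ Y.L) (f : V) :
    Y.U k (Y.ad (k, m) f) = Y.ad (k, m) (Y.U k f) := by
  rw [U_ap_loca, U_ap_loca, map_smul, h.z_ad_loca hm, h.z_ad_loca hm]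

theorem Ok.Ud_a (h : Y.Ok) (hm : m ∈ Y.L) (f : V) :
    Y.Ud k (Y.a (k, m) f) = Y.a (k, m) (Y.Ud k f) := by
  rw [Ud_ap_loca, Ud_ap_loca, map_smul, h.a_zd_loca hm, h.a_zd_loca hm]

theorem Ok.X_adj (h : Y.Ok) (hm : m ∈ Y.L) (f g : V) :
    Y.β (Y.X k m f) g = Y.β f (Y.Xd k m g) := by
  have hm' := mem_m_loca Y k hm
  rw [X_ap_loca, Xd_ap_loca]
  simp only [map_add, map_smul, LinearMap.add_apply, LinearMap.smul_apply]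
  rw [h.U_adj, h.loc.ccr.adj _ hm', h.Ud_a hm, h.adj_loca hm']

theorem Ok.a_eq (h : Y.Ok) (hm : m ∈ Y.L) (f : V) :
    Y.a (k, m) f = Y.γ m • Y.b k m f - Y.s m • Y.X k m f := by
  rw [b_ap_loca, X_ap_loca]
  have h1 : Y.a (k, m) f = (Y.γ m ^ 2 - Y.s m ^ 2) • Y.a (k, m) f := by
    rw [h.hyp m hm, add_sub_cancel_right, one_smul]
  rw [smul_add, smul_add, smul_smul, smul_smul, smul_smul, smul_smul, mul_comm (Y.s m) (Y.γ m),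
    ← sq, ← sq]
  rw [sub_smul] at h1
  exact h1.trans (by abel)

/-- `CCR.nq_cd` three times: with `z = a (k, o)`, `‖z† z† g‖² = ‖z† g‖² + ‖g + z† z g‖²` and
`‖z† z g‖² = ‖z g‖² + ‖z z g‖²`. -/
theorem Ok.nq_Ud (h : Y.Ok) (k : C) (g : V) : nq Y.β (Y.Ud k g) = nq Y.β (Y.U k g) +
    Y.ν ^ 2 * (4 * nq Y.β (Y.a (k, Y.o) g) + 2 * nq Y.β g) := by
  have ho := mem_o_loca Y k
  have h1 := h.loc.ccr.nq_cd ho (Y.ad (k, Y.o) g)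
  have h2 := h.loc.ccr.nq_cd ho g
  have h3 := h.loc.ccr.nq_cd ho (Y.a (k, Y.o) g)
  rw [h.loc.ccr.ccr _ ho _ ho, if_pos rfl, h.psd.nq_add, h.loc.ccr.adj _ ho] at h1
  have h4 : Y.β (Y.a (k, Y.o) g) (Y.a (k, Y.o) g) = nq Y.β (Y.a (k, Y.o) g) := rfl
  rw [Ud_ap_loca, U_ap_loca, nq_smul, nq_smul, h1, h2, h3, h4]
  ring

theorem Ok.nq_U_le (h : Y.Ok) (hf : Y.Bd k Y.n2 f) :
    nq Y.β (Y.U k f) ≤ (1 + 3 * Y.δ) * nq Y.β f := by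
  have ho := mem_insert_self Y.o Y.L
  have h1 := h.nq_a_le ho hf
  have h2 := h.nq_a_le ho (h.bd_a ho hf)
  have h3 := h.psd.nq_nonneg f
  have h4 : (0 : ℝ) ≤ Y.n2 := Nat.cast_nonneg _
  have h5 := h2.trans (mul_le_mul_of_nonneg_left h1 h4)
  have h6 : (Y.ν * Y.n2) ^ 2 ≤ 1 + 3 * Y.δ := by
    have h7 := pow_le_pow_left₀ (mul_nonneg h.ν0.le h4) h.hn 2
    have h8 := h.ν0.le.trans h.νδ
    nlinarith [h.δ1]
  rw [U_ap_loca, nq_smul]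
  calc _ ≤ Y.ν ^ 2 * (Y.n2 * (Y.n2 * nq Y.β f)) := mul_le_mul_of_nonneg_left h5 (sq_nonneg _)
    _ = (Y.ν * Y.n2) ^ 2 * nq Y.β f := by ring
    _ ≤ _ := mul_le_mul_of_nonneg_right h6 h3

theorem Ok.nq_Ud_le (h : Y.Ok) (hf : Y.Bd k Y.n2 f) : nq Y.β (Y.Ud k f) ≤ 2 * nq Y.β f := by
  have h1 := h.nq_a_le (mem_insert_self Y.o Y.L) hf
  have h2 := h.nq_U_le hf
  have h3 := h.psd.nq_nonneg f
  have h4 : Y.ν ^ 2 * (4 * Y.n2 + 2) ≤ 1 / 2 := by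
    have h5 := mul_le_mul_of_nonneg_left h.hn h.ν0.le
    have h6 := h.νδ.trans h.δ1
    nlinarith [h.δ1, h.ν0, h.νδ]
  have h7 : Y.ν ^ 2 * (4 * nq Y.β (Y.a (k, Y.o) f) + 2 * nq Y.β f) ≤ 1 / 2 * nq Y.β f :=
    calc _ ≤ Y.ν ^ 2 * (4 * (Y.n2 * nq Y.β f) + 2 * nq Y.β f) :=
          mul_le_mul_of_nonneg_left (by linarith) (sq_nonneg _)
      _ = Y.ν ^ 2 * (4 * Y.n2 + 2) * nq Y.β f := by ring
      _ ≤ _ := mul_le_mul_of_nonneg_right h4 h3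
  have h8 := mul_le_mul_of_nonneg_right h.δ1 h3
  rw [h.nq_Ud]
  linarith

/-- `‖U a† f‖² = ‖U f‖² + ‖U a f‖²`. -/
theorem Ok.nq_b_le (h : Y.Ok) (hm : m ∈ Y.L) (hf : Y.Bd k Y.n2 f) :
    nq Y.β (Y.b k m f) ≤
      Y.gp k m f + 3 * Y.δ * Y.s m ^ 2 * (nq Y.β f + nq Y.β (Y.a (k, m) f)) := by
  have ho := mem_o_loca Y k
  have hm' := mem_m_loca Y k hm
  have h1 := h.nq_U_le hf
  have h2 := h.nq_U_le (h.bd_a (mem_insert_of_mem hm) hf)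
  have h3 : nq Y.β (Y.U k (Y.ad (k, m) f)) = nq Y.β (Y.U k f) + nq Y.β (Y.U k (Y.a (k, m) f)) := by
    rw [h.U_ad hm, h.loc.ccr.nq_cd hm', h.U_a hm]
  have h4 : Y.β (Y.a (k, m) f) (Y.U k (Y.ad (k, m) f)) =
      Y.ν * Y.β (Y.ad (k, Y.o) (Y.a (k, m) f)) (Y.ad (k, m) (Y.a (k, Y.o) f)) := by
    rw [U_ap_loca, map_smul, smul_eq_mul, h.loc.ccr.adj _ ho, h.z_ad_loca hm f]
  have h5 := mul_le_mul_of_nonneg_left (add_le_add h1 h2) (sq_nonneg (Y.s m))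
  rw [b_ap_loca, h.psd.nq_add, nq_smul, nq_smul, h3]
  simp only [map_smul, LinearMap.smul_apply, smul_eq_mul]
  rw [h4, gp]
  linarith

theorem Ok.nq_Xd_le (h : Y.Ok) (hm : m ∈ Y.L) (hf : Y.Bd k Y.n2 f) :
    nq Y.β (Y.Xd k m f) ≤ 6 * Y.γ m ^ 2 * (nq Y.β (Y.a (k, m) f) + nq Y.β f) := by
  have h1 := h.nq_Ud_le (h.bd_a (mem_insert_of_mem hm) hf)
  have h2 := h.loc.ccr.nq_cd (mem_m_loca Y k hm) f
  have h3 := h.psd.nq_nonneg f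
  have h4 := h.psd.nq_nonneg (Y.a (k, m) f)
  have h5 := h.psd.nq_add_le_two (Y.γ m • Y.Ud k (Y.a (k, m) f)) (Y.s m • Y.ad (k, m) f)
  have h6 : Y.s m ^ 2 ≤ Y.γ m ^ 2 := by linarith [h.hyp m hm]
  have h7 := mul_le_mul_of_nonneg_left h1 (sq_nonneg (Y.γ m))
  have h8 := mul_le_mul_of_nonneg_right h6 (add_nonneg h3 h4)
  have h9 := mul_nonneg (sq_nonneg (Y.γ m)) h3
  rw [nq_smul, nq_smul, h2] at h5
  rw [Xd_ap_loca]
  linarith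

/-- `‖z z f‖² = ‖z† z f‖² - ‖z f‖²` and `0 ≤ ‖ν z† z f - f‖²` give
`‖U f‖² ≥ (2 - ν) ν ‖z f‖² - ‖f‖²`. -/
theorem Ok.nq_U_ge (h : Y.Ok) {n1 P : ℝ} (h1 : 1 - Y.δ ≤ Y.ν * n1) (hP0 : 0 ≤ P)
    (hP : n1 * nq Y.β f ≤ nq Y.β (Y.a (k, Y.o) f) + P) :
    (1 - 3 * Y.δ) * nq Y.β f - 2 * Y.ν * P ≤ nq Y.β (Y.U k f) := by
  have ho := mem_o_loca Y k
  have h2 := h.loc.ccr.nq_cd ho (Y.a (k, Y.o) f)
  have h3 := h.psd.nq_nonneg (Y.ν • Y.ad (k, Y.o) (Y.a (k, Y.o) f) - f)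
  have h4 : Y.β (Y.a (k, Y.o) f) (Y.a (k, Y.o) f) = nq Y.β (Y.a (k, Y.o) f) := rfl
  rw [h.psd.nq_sub, nq_smul, map_smul, LinearMap.smul_apply, smul_eq_mul, h.loc.ccr.adj _ ho, h4,
    h2] at h3
  have h5 := h.psd.nq_nonneg f
  have h6 := mul_le_mul_of_nonneg_left hP h.ν0.le
  have h7 := mul_le_mul_of_nonneg_right h1 h5
  have h8 : (1 - Y.δ) * nq Y.β f - Y.ν * P ≤ Y.ν * nq Y.β (Y.a (k, Y.o) f) := by linarith
  have h9 := mul_le_mul_of_nonneg_left h8 (show 0 ≤ 2 - Y.ν by linarith [h.νδ, h.δ1])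
  have h10 : 2 - 3 * Y.δ ≤ (2 - Y.ν) * (1 - Y.δ) := by nlinarith [h.νδ, h.δ1, h.ν0]
  have h11 := mul_le_mul_of_nonneg_right h10 h5
  have h12 := mul_nonneg (sq_nonneg Y.ν) hP0
  rw [U_ap_loca, nq_smul]
  linarith

end Sys

end Pool.Agent.BoseLHY
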