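import Pool.Agent.Lib.MP_dec75e_mp.S.LocA

/-! The commutator of the quasi-particle operators in one cell. -/

open MeasureTheory Finset Function
open scoped Real

noncomputable section

namespace Pool.Agent.BoseLHY

open Pool.Agent.BoseTail

variable {V : Type} [AddCommGroup V] [Module ℝ V] {C κ : Type} [Fintype C] [DecidableEq C]
  [DecidableEq κ] {Y : Sys V C κ} {k : C} {m : κ} {n : ℕ} {f g : V} {A : Set ℕ}

namespace Sys

/-- A complex combination of operators of the cell. -/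
def cmb_locbs (Y : Sys V C κ) (d : C × κ → Module.End ℝ V) (k : C) (p q : κ → ℝ) :
    Module.End ℝ V := ∑ m ∈ Y.L, cz Y.J (p m) (q m) * d (k, m)

omit [Fintype C] [DecidableEq C] [DecidableEq κ] in
theorem cmb_apply_locbs (d : C × κ → Module.End ℝ V) (k : C) (p q : κ → ℝ) (f : V) :
    cmb_locbs Y d k p q f = ∑ m ∈ Y.L, cz Y.J (p m) (q m) (d (k, m) f) := by
  simp only [cmb_locbs, LinearMap.sum_apply, Module.End.mul_apply]

omit [Fintype C] [DecidableEq C] [DecidableEq κ] in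
theorem cmb_comm_locbs {d : C × κ → Module.End ℝ V} {T : Module.End ℝ V}
    (hJ : ∀ f, T (Y.J f) = Y.J (T f)) (hd : ∀ m ∈ Y.L, ∀ f, T (d (k, m) f) = d (k, m) (T f))
    (p q : κ → ℝ) (f : V) : T (cmb_locbs Y d k p q f) = cmb_locbs Y d k p q (T f) := by
  rw [cmb_apply_locbs, cmb_apply_locbs, map_sum]
  exact sum_congr rfl fun m hm => by rw [cz_comm hJ, hd m hm]

omit [DecidableEq C] in
theorem mem_locbs (k : C) (hm : m ∈ Y.L) : (k, m) ∈ (univ : Finset C) ×ˢ insert Y.o Y.L :=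
  mem_product.2 ⟨mem_univ _, mem_insert_of_mem hm⟩

omit [Fintype C] [DecidableEq C] [DecidableEq κ] in
theorem cz_J_locbs (p q : ℝ) (f : V) : cz Y.J p q (Y.J f) = Y.J (cz Y.J p q f) := by
  simp only [cz_apply, map_sub, map_smul]

theorem Ok.cz_cz_locbs (h : Y.Ok) (p q : ℝ) (f : V) :
    cz Y.J p (-q) (cz Y.J p q f) = (p ^ 2 + q ^ 2) • f := by
  simp only [cz_apply, map_sub, map_smul, h.cx.sq]
  module

theorem Ok.adj_locbs (h : Y.Ok) (k : C) (p q : κ → ℝ) (f g : V) :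
    Y.β (cmb_locbs Y Y.ad k p q f) g = Y.β f (cmb_locbs Y Y.a k p (fun m => -q m) g) := by
  rw [cmb_apply_locbs, cmb_apply_locbs, map_sum, LinearMap.sum_apply, map_sum]
  refine sum_congr rfl fun m hm => ?_
  rw [h.cx.cz_adj, h.loc.ccr.adj _ (mem_locbs k hm), cz_comm (h.ja _)]

theorem Ok.aa_locbs (h : Y.Ok) (k : C) (p q p' q' : κ → ℝ) (f : V) :
    cmb_locbs Y Y.a k p q (cmb_locbs Y Y.a k p' q' f) =
      cmb_locbs Y Y.a k p' q' (cmb_locbs Y Y.a k p q f) := by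
  refine cmb_comm_locbs (fun f => ?_) (fun m hm f => ?_) p' q' f
  · exact (cmb_comm_locbs (T := Y.J) (fun _ => rfl) (fun m _ f => (h.ja _ f).symm) p q f).symm
  · exact (cmb_comm_locbs (h.ja _)
      (fun l hl f => h.loc.ccr.cc _ (mem_locbs k hm) _ (mem_locbs k hl) f) p q f).symm

theorem Ok.ccr_locbs (h : Y.Ok) (k : C) (p q : κ → ℝ) (f : V) :
    cmb_locbs Y Y.a k p (fun m => -q m) (cmb_locbs Y Y.ad k p q f) =
      cmb_locbs Y Y.ad k p q (cmb_locbs Y Y.a k p (fun m => -q m) f) +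
        (∑ m ∈ Y.L, (p m ^ 2 + q m ^ 2)) • f := by
  have e1 : ∀ m ∈ Y.L, Y.a (k, m) (cmb_locbs Y Y.ad k p q f) =
      cmb_locbs Y Y.ad k p q (Y.a (k, m) f) + cz Y.J (p m) (q m) f := by
    intro m hm
    have e2 : ∀ l ∈ Y.L, Y.a (k, m) (cz Y.J (p l) (q l) (Y.ad (k, l) f)) =
        cz Y.J (p l) (q l) (Y.ad (k, l) (Y.a (k, m) f)) +
          if m = l then cz Y.J (p l) (q l) f else 0 := by
      intro l hl
      rw [cz_comm (h.ja _), h.loc.ccr.ccr _ (mem_locbs k hm) _ (mem_locbs k hl), map_add]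
      by_cases hml : m = l
      · simp [hml]
      · simp [hml]
    rw [cmb_apply_locbs, cmb_apply_locbs, map_sum, sum_congr rfl e2, sum_add_distrib,
      sum_ite_eq, if_pos hm]
  have hJ : ∀ f, cmb_locbs Y Y.ad k p q (Y.J f) = Y.J (cmb_locbs Y Y.ad k p q f) := fun f =>
    (cmb_comm_locbs (T := Y.J) (fun _ => rfl) (fun m _ f => (h.jd _ f).symm) p q f).symm
  rw [cmb_apply_locbs Y.a, cmb_apply_locbs Y.a, map_sum, sum_smul, ← sum_add_distrib]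
  refine sum_congr rfl fun m hm => ?_
  rw [e1 m hm, map_add, h.cz_cz_locbs, cz_comm hJ]

theorem Ok.nq_ad_locbs (h : Y.Ok) (k : C) (p q : κ → ℝ) (f : V) :
    nq Y.β (cmb_locbs Y Y.ad k p q f) = (∑ m ∈ Y.L, (p m ^ 2 + q m ^ 2)) * nq Y.β f +
      nq Y.β (cmb_locbs Y Y.a k p (fun m => -q m) f) := by
  unfold nq
  rw [h.adj_locbs, h.ccr_locbs, map_add, map_smul, smul_eq_mul, h.psd.symm f (cmb_locbs _ _ _ _ _ _),
    h.adj_locbs, add_comm]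

theorem Ok.U_J_locbs (h : Y.Ok) (k : C) (f : V) : Y.U k (Y.J f) = Y.J (Y.U k f) := by
  simp only [U, LinearMap.smul_apply, Module.End.mul_apply, h.ja, map_smul]

theorem Ok.Ud_J_locbs (h : Y.Ok) (k : C) (f : V) : Y.Ud k (Y.J f) = Y.J (Y.Ud k f) := by
  simp only [Ud, LinearMap.smul_apply, Module.End.mul_apply, h.jd, map_smul]

theorem Ok.W_eq_locbs (h : Y.Ok) (k : C) (p q : κ → ℝ) (f : V) :
    Y.W k p q f = Y.U k (cmb_locbs Y Y.ad k (fun m => p m * Y.γ m) (fun m => q m * Y.γ m) f) +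
      cmb_locbs Y Y.a k (fun m => p m * Y.s m) (fun m => q m * Y.s m) f := by
  rw [cmb_apply_locbs, cmb_apply_locbs, map_sum, ← sum_add_distrib, W, LinearMap.sum_apply]
  refine sum_congr rfl fun m _ => ?_
  rw [cz_comm (h.U_J_locbs k), cz_mul, cz_mul, ← map_add]
  rfl

theorem Ok.Wd_eq_locbs (h : Y.Ok) (k : C) (p q : κ → ℝ) (f : V) :
    Y.Wd k p q f =
      Y.Ud k (cmb_locbs Y Y.a k (fun m => p m * Y.γ m) (fun m => -(q m * Y.γ m)) f) +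
      cmb_locbs Y Y.ad k (fun m => p m * Y.s m) (fun m => -(q m * Y.s m)) f := by
  rw [cmb_apply_locbs, cmb_apply_locbs, map_sum, ← sum_add_distrib, Wd, LinearMap.sum_apply]
  refine sum_congr rfl fun m _ => ?_
  rw [cz_comm (h.Ud_J_locbs k), ← neg_mul, ← neg_mul, cz_mul, cz_mul, ← map_add]
  rfl

omit [Fintype C] [DecidableEq C] [DecidableEq κ] in
theorem nq_lin_locbs {β : V →ₗ[ℝ] V →ₗ[ℝ] ℝ} (h : PSD β) (s : Finset κ) (u : κ → ℝ) (v : κ → V) :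
    nq β (∑ m ∈ s, u m • v m) ≤ (∑ m ∈ s, u m ^ 2) * ∑ m ∈ s, nq β (v m) := by
  have h1 : nq β (∑ m ∈ s, u m • v m) = ∑ m ∈ s, ∑ l ∈ s, u m * u l * β (v m) (v l) := by
    simp only [nq, map_sum, LinearMap.sum_apply, map_smul, LinearMap.smul_apply, smul_eq_mul,
      mul_sum]
    exact sum_congr rfl fun m _ => sum_congr rfl fun l _ => by rw [h.symm (v l) (v m)]; ring
  have h2 : ∀ m l, u m * u l * β (v m) (v l) ≤
      (u m ^ 2 * nq β (v l) + u l ^ 2 * nq β (v m)) / 2 := by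
    intro m l
    have := h.nq_nonneg (u l • v m - u m • v l)
    rw [h.nq_sub, nq_smul, nq_smul] at this
    simp only [map_smul, LinearMap.smul_apply, smul_eq_mul] at this
    linarith
  have h3 : ∑ m ∈ s, ∑ l ∈ s, u l ^ 2 * nq β (v m) = ∑ m ∈ s, ∑ l ∈ s, u m ^ 2 * nq β (v l) :=
    sum_comm
  rw [h1, sum_mul_sum]
  refine (sum_le_sum fun m _ => sum_le_sum fun l _ => h2 m l).trans (le_of_eq ?_)
  simp only [← sum_div, sum_add_distrib]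
  rw [h3]
  ring

theorem Ok.W_adj (h : Y.Ok) (k : C) (p q : κ → ℝ) (f g : V) :
    Y.β (Y.W k p q f) g = Y.β f (Y.Wd k p q g) := by
  simp only [W, Wd, LinearMap.sum_apply, map_sum, Module.End.mul_apply]
  refine sum_congr rfl fun m hm => ?_
  have hJ : ∀ f, Y.Xd k m (Y.J f) = Y.J (Y.Xd k m f) := fun f => by
    simp only [Xd, LinearMap.add_apply, LinearMap.smul_apply, Module.End.mul_apply, h.ja, h.jd,
      h.Ud_J_locbs, map_add, map_smul]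
  rw [h.cx.cz_adj, h.X_adj hm, cz_comm hJ]

/-- The commutation relation for complex combinations of modes: write the sums as
`P† f - J Q† f` and `P f + J Q f` with `P = ∑ p m • a (k, m)`, `Q = ∑ q m • a (k, m)`. -/
theorem Ok.nq_cz_ad (h : Y.Ok) (k : C) (p q : κ → ℝ) (f : V) :
    nq Y.β (∑ m ∈ Y.L, cz Y.J (p m) (q m) (Y.ad (k, m) f)) =
      (∑ m ∈ Y.L, (p m ^ 2 + q m ^ 2)) * nq Y.β f +
        nq Y.β (∑ m ∈ Y.L, cz Y.J (p m) (-q m) (Y.a (k, m) f)) := by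
  have := h.nq_ad_locbs k p q f
  rwa [cmb_apply_locbs, cmb_apply_locbs] at this

theorem Ok.nq_cz_le (h : Y.Ok) (p q : κ → ℝ) (v : κ → V) :
    nq Y.β (∑ m ∈ Y.L, cz Y.J (p m) (q m) (v m)) ≤
      2 * (∑ m ∈ Y.L, (p m ^ 2 + q m ^ 2)) * ∑ m ∈ Y.L, nq Y.β (v m) := by
  have e : ∑ m ∈ Y.L, cz Y.J (p m) (q m) (v m) =
      ∑ m ∈ Y.L, p m • v m + Y.J (∑ m ∈ Y.L, (-q m) • v m) := by
    rw [map_sum, ← sum_add_distrib]
    exact sum_congr rfl fun m _ => by rw [cz_apply, map_smul, neg_smul, sub_eq_add_neg]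
  have h1 := h.psd.nq_add_le_two (∑ m ∈ Y.L, p m • v m) (Y.J (∑ m ∈ Y.L, (-q m) • v m))
  rw [h.cx.nq] at h1
  have h2 := nq_lin_locbs h.psd Y.L p v
  have h3 := nq_lin_locbs h.psd Y.L (fun m => -q m) v
  simp only [neg_sq] at h3
  rw [e, sum_add_distrib]
  linarith

/-- `W = U A† + B`, `Wd = Ud A + B†` with `A = ∑ cz (p γ) (-q γ) a`, `B = ∑ cz (p s) (q s) a`. The
cross terms of `‖W f‖²` and `‖Wd f‖²` agree since `A`, `B`, `Ud` commute. -/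
theorem Ok.comm_eq (h : Y.Ok) (k : C) (p q : κ → ℝ) (f : V) :
    nq Y.β (Y.W k p q f) - nq Y.β (Y.Wd k p q f) =
      (∑ m ∈ Y.L, (p m ^ 2 + q m ^ 2) * Y.γ m ^ 2) * nq Y.β (Y.U k f) -
        (∑ m ∈ Y.L, (p m ^ 2 + q m ^ 2) * Y.s m ^ 2) * nq Y.β f -
        Y.ν ^ 2 * (4 * nq Y.β (Y.a (k, Y.o)
            (∑ m ∈ Y.L, cz Y.J (p m * Y.γ m) (-(q m * Y.γ m)) (Y.a (k, m) f))) +
          2 * nq Y.β (∑ m ∈ Y.L, cz Y.J (p m * Y.γ m) (-(q m * Y.γ m)) (Y.a (k, m) f))) := by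
  rw [h.W_eq_locbs, h.Wd_eq_locbs, ← cmb_apply_locbs Y.a k (fun m => p m * Y.γ m)
    (fun m => -(q m * Y.γ m)) f, h.psd.nq_add, h.psd.nq_add]
  have hUa : ∀ p q g, Y.U k (cmb_locbs Y Y.a k p q g) = cmb_locbs Y Y.a k p q (Y.U k g) :=
    cmb_comm_locbs (h.U_J_locbs k) fun m hm f => h.U_a hm f
  have hUd : ∀ p q g, Y.U k (cmb_locbs Y Y.ad k p q g) = cmb_locbs Y Y.ad k p q (Y.U k g) :=
    cmb_comm_locbs (h.U_J_locbs k) fun m hm f => h.U_ad hm f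
  have hDa : ∀ p q g, Y.Ud k (cmb_locbs Y Y.a k p q g) = cmb_locbs Y Y.a k p q (Y.Ud k g) :=
    cmb_comm_locbs (h.Ud_J_locbs k) fun m hm f => h.Ud_a hm f
  have e1 := h.nq_ad_locbs k (fun m => p m * Y.γ m) (fun m => q m * Y.γ m) (Y.U k f)
  rw [← hUd, ← hUa] at e1
  have e2 := h.nq_ad_locbs k (fun m => p m * Y.s m) (fun m => -(q m * Y.s m)) f
  simp only [neg_neg, neg_sq] at e2
  have e3 := h.nq_Ud k (cmb_locbs Y Y.a k (fun m => p m * Y.γ m) (fun m => -(q m * Y.γ m)) f)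
  have e4 : Y.β (Y.U k (cmb_locbs Y Y.ad k (fun m => p m * Y.γ m) (fun m => q m * Y.γ m) f))
      (cmb_locbs Y Y.a k (fun m => p m * Y.s m) (fun m => q m * Y.s m) f) =
      Y.β (Y.Ud k (cmb_locbs Y Y.a k (fun m => p m * Y.γ m) (fun m => -(q m * Y.γ m)) f))
        (cmb_locbs Y Y.ad k (fun m => p m * Y.s m) (fun m => -(q m * Y.s m)) f) := by
    rw [h.U_adj, h.adj_locbs, h.psd.symm (Y.Ud k _), h.adj_locbs]
    simp only [neg_neg]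
    rw [← hDa, ← hDa, h.aa_locbs]
  have e5 : ∑ m ∈ Y.L, ((p m * Y.γ m) ^ 2 + (q m * Y.γ m) ^ 2) =
      ∑ m ∈ Y.L, (p m ^ 2 + q m ^ 2) * Y.γ m ^ 2 := sum_congr rfl fun m _ => by ring
  have e6 : ∑ m ∈ Y.L, ((p m * Y.s m) ^ 2 + (q m * Y.s m) ^ 2) =
      ∑ m ∈ Y.L, (p m ^ 2 + q m ^ 2) * Y.s m ^ 2 := sum_congr rfl fun m _ => by ring
  rw [e5] at e1
  rw [e6] at e2
  rw [e1, e2, e3, e4]
  ring

/-- `comm_eq`, `nq_U_ge`, `nq_a_le`, `nq_cz_le`; `ν (4 n2 + 2) ≤ 5`. -/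
theorem Ok.comm_ge (h : Y.Ok) (p q : κ → ℝ) (hf : Y.Bd k Y.n2 f) {n1 P : ℝ}
    (h1 : 1 - Y.δ ≤ Y.ν * n1) (hP : n1 * nq Y.β f ≤ nq Y.β (Y.a (k, Y.o) f) + P)
    (hP' : ∑ m ∈ Y.L, nq Y.β (Y.a (k, m) f) ≤ P) :
    (∑ m ∈ Y.L, (p m ^ 2 + q m ^ 2)) * nq Y.β f -
        (∑ m ∈ Y.L, (p m ^ 2 + q m ^ 2) * Y.γ m ^ 2) * (3 * Y.δ * nq Y.β f + 12 * Y.ν * P) ≤
      nq Y.β (Y.W k p q f) - nq Y.β (Y.Wd k p q f) := by
  have hP0 : 0 ≤ P := (sum_nonneg fun m _ => h.psd.nq_nonneg _).trans hP'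
  have e0 := h.nq_U_ge h1 hP0 hP
  have e1 := h.nq_cz_le (fun m => p m * Y.γ m) (fun m => -(q m * Y.γ m)) fun m => Y.a (k, m) f
  have e2 : Y.Bd k Y.n2 (∑ m ∈ Y.L, cz Y.J (p m * Y.γ m) (-(q m * Y.γ m)) (Y.a (k, m) f)) :=
    Bd.sum fun m hm => h.bd_cz (h.bd_a (mem_insert_of_mem hm) hf) _ _
  have e3 := h.nq_a_le (mem_insert_self _ _) e2
  have e4 : ∑ m ∈ Y.L, ((p m * Y.γ m) ^ 2 + (-(q m * Y.γ m)) ^ 2) =
      ∑ m ∈ Y.L, (p m ^ 2 + q m ^ 2) * Y.γ m ^ 2 := sum_congr rfl fun m _ => by ring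
  have e5 : ∑ m ∈ Y.L, (p m ^ 2 + q m ^ 2) * Y.γ m ^ 2 = ∑ m ∈ Y.L, (p m ^ 2 + q m ^ 2) +
      ∑ m ∈ Y.L, (p m ^ 2 + q m ^ 2) * Y.s m ^ 2 := by
    rw [← sum_add_distrib]
    exact sum_congr rfl fun m hm => by rw [h.hyp m hm]; ring
  have e6 : 0 ≤ ∑ m ∈ Y.L, (p m ^ 2 + q m ^ 2) * Y.γ m ^ 2 :=
    sum_nonneg fun m _ => by positivity
  rw [e4] at e1
  rw [h.comm_eq]
  have g0 := h.psd.nq_nonneg
    (∑ m ∈ Y.L, cz Y.J (p m * Y.γ m) (-(q m * Y.γ m)) (Y.a (k, m) f))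
  generalize nq Y.β (∑ m ∈ Y.L, cz Y.J (p m * Y.γ m) (-(q m * Y.γ m)) (Y.a (k, m) f)) = G
    at e1 e3 g0
  generalize nq Y.β (Y.a (k, Y.o)
    (∑ m ∈ Y.L, cz Y.J (p m * Y.γ m) (-(q m * Y.γ m)) (Y.a (k, m) f))) = Z at e3
  generalize ∑ m ∈ Y.L, (p m ^ 2 + q m ^ 2) * Y.γ m ^ 2 = cg at e1 e5 e6
  have ν0 := h.ν0
  have νδ := h.νδ
  have δ1 := h.δ1
  have hn := h.hn
  have a1 : G ≤ 2 * cg * P := e1.trans (mul_le_mul_of_nonneg_left hP' (by positivity))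
  have a2 : Y.ν * Z ≤ (1 + Y.δ) * G :=
    (mul_le_mul_of_nonneg_left e3 ν0.le).trans
      (by rw [← mul_assoc]; exact mul_le_mul_of_nonneg_right hn g0)
  have a3 : Y.ν * G ≤ Y.δ * G := mul_le_mul_of_nonneg_right νδ g0
  have a4 : Y.δ * G ≤ 1 / 10 * G := mul_le_mul_of_nonneg_right δ1 g0
  have a5 : Y.ν * (4 * Z + 2 * G) ≤ 10 * cg * P := by linarith
  have a6 := mul_le_mul_of_nonneg_left a5 ν0.le
  have a7 := mul_le_mul_of_nonneg_left e0 e6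
  have a8 : (∑ m ∈ Y.L, (p m ^ 2 + q m ^ 2)) =
      cg - ∑ m ∈ Y.L, (p m ^ 2 + q m ^ 2) * Y.s m ^ 2 := by linarith
  rw [a8]
  nlinarith

end Sys

end Pool.Agent.BoseLHY
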