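import Pool.Agent.Lib.MP_dec75e_mp.S.LocB

/-! Different cells contribute additively. -/

open MeasureTheory Finset Function
open scoped Real

noncomputable section

namespace Pool.Agent.BoseLHY

open Pool.Agent.BoseTail

variable {V : Type} [AddCommGroup V] [Module ℝ V] {C κ : Type} [Fintype C] [DecidableEq C]
  [DecidableEq κ] {Y : Sys V C κ} {k : C} {m : κ} {n : ℕ} {f g : V} {A : Set ℕ}

namespace Sys

section
omit [Fintype C] [DecidableEq C]

theorem W_comm_locc {T : Module.End ℝ V} (hJ : Commute T Y.J)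
    (ha : ∀ m ∈ insert Y.o Y.L, Commute T (Y.a (k, m)))
    (hd : ∀ m ∈ insert Y.o Y.L, Commute T (Y.ad (k, m))) (p q : κ → ℝ) :
    Commute T (Y.W k p q) := by
  have ho := mem_insert_self Y.o Y.L
  refine Commute.sum_right _ _ _ fun m hm => ?_
  have hm' : m ∈ insert Y.o Y.L := mem_insert_of_mem hm
  exact (((Commute.one_right T).smul_right _).sub_right (hJ.smul_right _)).mul_right
    ((((((ha _ ho).mul_right (ha _ ho)).smul_right _).mul_right (hd _ hm')).smul_right _).add_right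
      ((ha _ hm').smul_right _))

theorem Wd_comm_locc {T : Module.End ℝ V} (hJ : Commute T Y.J)
    (ha : ∀ m ∈ insert Y.o Y.L, Commute T (Y.a (k, m)))
    (hd : ∀ m ∈ insert Y.o Y.L, Commute T (Y.ad (k, m))) (p q : κ → ℝ) :
    Commute T (Y.Wd k p q) := by
  have ho := mem_insert_self Y.o Y.L
  refine Commute.sum_right _ _ _ fun m hm => ?_
  have hm' : m ∈ insert Y.o Y.L := mem_insert_of_mem hm
  exact (((Commute.one_right T).smul_right _).sub_right (hJ.smul_right _)).mul_right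
    ((((((hd _ ho).mul_right (hd _ ho)).smul_right _).mul_right (ha _ hm')).smul_right _).add_right
      ((hd _ hm').smul_right _))

end

/-- `Xd` raises the particle number by one. -/
theorem Ok.M_Wd (h : Y.Ok) (k : C) (A : Set ℕ) (p q : κ → ℝ) (f : V) :
    Y.M k A (Y.Wd k p q f) = Y.Wd k p q (Y.M k (sh A) f) := by
  simp only [Wd, LinearMap.sum_apply, map_sum, Module.End.mul_apply]
  refine sum_congr rfl fun m hm => ?_
  have ho := mem_insert_self Y.o Y.L
  have hm' : m ∈ insert Y.o Y.L := mem_insert_of_mem hm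
  rw [cz_comm (h.jm k A), Xd_ap_loca, Xd_ap_loca, Ud_ap_loca, Ud_ap_loca, map_add, map_smul,
    map_smul, map_smul, h.loc.up k _ ho, h.loc.up k _ ho, h.loc.up k _ hm', h.loc.low k m hm']

/-- Operators of different cells commute. -/
theorem Ok.comm_WW (h : Y.Ok) {j j' : C} (hj : j ≠ j') (A A' : Set ℕ) (p q p' q' : κ → ℝ) (f : V) :
    Y.M j A (Y.Wd j p q (Y.W j' p' q' (Y.M j' A' f))) =
      Y.W j' p' q' (Y.M j' A' (Y.M j A (Y.Wd j p q f))) := by
  have hJ : Commute (Y.W j' p' q') Y.J := (W_comm_locc (Commute.refl Y.J)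
    (fun m _ => LinearMap.ext fun f => (h.ja _ f).symm)
    (fun m _ => LinearMap.ext fun f => (h.jd _ f).symm) p' q').symm
  have hmem : ∀ (i : C), ∀ m ∈ insert Y.o Y.L, (i, m) ∈ (univ : Finset C) ×ˢ insert Y.o Y.L :=
    fun i m hm => mem_product.2 ⟨mem_univ _, hm⟩
  have had : ∀ i i' : C, i ≠ i' → ∀ m ∈ insert Y.o Y.L, ∀ m' ∈ insert Y.o Y.L,
      Commute (Y.a (i, m)) (Y.ad (i', m')) := fun i i' hi m hm m' hm' => LinearMap.ext fun f => by
    have h1 := h.loc.ccr.ccr _ (hmem i m hm) _ (hmem i' m' hm') f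
    rw [if_neg fun e => hi (Prod.mk.inj e).1, add_zero] at h1
    exact h1
  have h1 : Commute (Y.W j' p' q') (Y.Wd j p q) := Wd_comm_locc hJ
    (fun m hm => (W_comm_locc (LinearMap.ext (h.ja _))
      (fun m' hm' => LinearMap.ext (h.loc.ccr.cc _ (hmem j m hm) _ (hmem j' m' hm')))
      (fun m' hm' => had j j' hj m hm m' hm') p' q').symm)
    (fun m hm => (W_comm_locc (LinearMap.ext (h.jd _))
      (fun m' hm' => (had j' j hj.symm m' hm' m hm).symm)
      (fun m' hm' => LinearMap.ext (h.loc.ccr.dd _ (hmem j m hm) _ (hmem j' m' hm'))) p' q').symm)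
    p q
  have h2 : Commute (Y.M j A) (Y.W j' p' q') := W_comm_locc (LinearMap.ext (h.jm _ _))
    (fun m hm => LinearMap.ext fun f => (h.loc.xa j' j hj.symm m hm A f).symm)
    (fun m hm => LinearMap.ext fun f => (h.loc.xd j' j hj.symm m hm A f).symm) p' q'
  have h3 : Commute (Y.M j' A') (Y.Wd j p q) := Wd_comm_locc (LinearMap.ext (h.jm _ _))
    (fun m hm => LinearMap.ext fun f => (h.loc.xa j j' hj m hm A' f).symm)
    (fun m hm => LinearMap.ext fun f => (h.loc.xd j j' hj m hm A' f).symm) p q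
  have h4 : Commute (Y.M j A) (Y.M j' A') := LinearMap.ext (h.loc.xm j j' A A')
  have h5 : Commute (Y.M j A * Y.Wd j p q) (Y.W j' p' q' * Y.M j' A') :=
    (h2.mul_right h4).mul_left (h1.symm.mul_right h3.symm)
  exact LinearMap.congr_fun h5.eq f

/-- With `G₁ = {n | ∃ i ∈ G, n = i + 1}`: `sh G₁ = G`, `sh (G₁ᶜ ∩ G) = sh G \ G`; split
`M G g` by `nq_M_split` with `G₁`. -/
theorem Ok.nq_M_Wd (h : Y.Ok) (k : C) (G : Set ℕ) (p q : κ → ℝ) (f : V) :
    nq Y.β (Y.M k G (Y.Wd k p q f)) ≤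
      nq Y.β (Y.Wd k p q (Y.M k G f)) + nq Y.β (Y.Wd k p q (Y.M k (sh G \ G) f)) := by
  have e1 : sh {n | ∃ i ∈ G, n = i + 1} = G := by
    ext n
    simp [sh]
  have e2 : sh ({n | ∃ i ∈ G, n = i + 1}ᶜ ∩ G) = sh G \ G := by
    ext n
    simp [sh, and_comm]
  have h1 := h.nq_M_split k {n | ∃ i ∈ G, n = i + 1} (Y.M k G (Y.Wd k p q f))
  have h2 := h.nq_M_le k G (Y.M k {n | ∃ i ∈ G, n = i + 1} (Y.Wd k p q f))
  rw [h.loc.xm k k _ G, h.loc.mul k _ᶜ G, h.M_Wd k (_ ∩ G), e2] at h1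
  rw [h.M_Wd k {n | ∃ i ∈ G, n = i + 1}, e1] at h1 h2
  linarith

/-- `nq_sum_comm` with `A j = W j * M j G`, `A' j = M j G * Wd j`. -/
theorem Ok.cross (h : Y.Ok) (p q : C → κ → ℝ) (Ψ : V) :
    ∑ j, (nq Y.β (Y.W j (p j) (q j) (Y.M j Y.G Ψ)) - nq Y.β (Y.Wd j (p j) (q j) (Y.M j Y.G Ψ)) -
        nq Y.β (Y.Wd j (p j) (q j) (Y.M j (sh Y.G \ Y.G) Ψ))) ≤
      nq Y.β (∑ j, Y.W j (p j) (q j) (Y.M j Y.G Ψ)) := by
  have h1 := nq_sum_comm h.psd (fun j => Y.W j (p j) (q j) * Y.M j Y.G)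
    (fun j => Y.M j Y.G * Y.Wd j (p j) (q j))
    (fun j f g => by rw [Module.End.mul_apply, Module.End.mul_apply, h.W_adj, h.loc.sa j])
    (fun j j' hj f => h.comm_WW hj Y.G Y.G (p j) (q j) (p j') (q j') f) Ψ
  refine le_trans (sum_le_sum fun j _ => ?_) h1
  have h2 := h.nq_M_Wd j Y.G (p j) (q j) Ψ
  simp only [Module.End.mul_apply]
  linarith

end Sys

end Pool.Agent.BoseLHY
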