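import Pool.Agent.Lib.MP_dec75e_mp.S.Bog2
import Pool.Agent.Lib.MP_dec75e_mp.L.LowSum

/-! The main terms of the perturbed lower bound. -/

open MeasureTheory Finset Function
open scoped Real

noncomputable section

namespace Pool.Agent.BoseLHY

open Pool.Agent.BoseTail

/-- One mode, in the units of the problem: `t = P / (2 μ)`, `x = n lam`, `x' = n lam'`.
`bog2_scale`, `bog2_sens` with `d = E / μ`, and `x² / (2 P) ≥ μ / (4 t) - E / t`. -/
theorem mode_lowsum2 {μ P e e₀ x x' E : ℝ} (hμ : 0 < μ) (hP : 0 < P) (he0 : 0 ≤ e)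
    (he : e * (gm (P / (2 * μ)) ^ 2 + sg (P / (2 * μ)) ^ 2) ≤ P / (2 * μ) / 4)
    (hE : E ≤ P / 16) (hE1 : E ≤ μ) (h0 : 0 ≤ e₀) (hx : e₀ + |x - μ| ≤ E)
    (hx' : |x' - μ * (1 - 2 * e * gm (P / (2 * μ)) * sg (P / (2 * μ)))| ≤ E) :
    0 ≤ P / 2 - e₀ - μ * e * (gm (P / (2 * μ)) ^ 2 + sg (P / (2 * μ)) ^ 2) ∧
    |x'| ≤ P / 2 - e₀ - μ * e * (gm (P / (2 * μ)) ^ 2 + sg (P / (2 * μ)) ^ 2) + x ∧
    μ * FF (P / (2 * μ)) (P / (2 * μ)) - 10 * (1 + 1 / (P / (2 * μ))) * E ≤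
      bog2 (P / 2 - e₀ - μ * e * (gm (P / (2 * μ)) ^ 2 + sg (P / (2 * μ)) ^ 2) + x) x' -
        μ * e * sg (P / (2 * μ)) ^ 2 + x ^ 2 / (2 * P) := by
  set t := P / (2 * μ) with ht
  have ht0 : 0 < t := by positivity
  have hPt : P = 2 * μ * t := by rw [ht]; field_simp
  have hE0 : 0 ≤ E := le_trans (add_nonneg h0 (abs_nonneg _)) hx
  have hg1 : 1 ≤ gm t ^ 2 + sg t ^ 2 := by
    rw [gm_sq ht0]; nlinarith [sq_nonneg (sg t)]
  have he2 : e ≤ t / 2 := by nlinarith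
  have hd : E / μ ≤ t / 8 := by
    rw [div_le_iff₀ hμ]; nlinarith
  have hd1 : E / μ ≤ 1 := (div_le_one hμ).2 hE1
  have hA : |(P / 2 - e₀ - μ * e * (gm t ^ 2 + sg t ^ 2) + x) / μ -
      (t + 1 - e * (gm t ^ 2 + sg t ^ 2))| ≤ E / μ := by
    have e1 : (P / 2 - e₀ - μ * e * (gm t ^ 2 + sg t ^ 2) + x) / μ -
        (t + 1 - e * (gm t ^ 2 + sg t ^ 2)) = (x - μ - e₀) / μ := by
      rw [hPt]; field_simp; ring
    rw [e1, abs_div, abs_of_pos hμ]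
    refine div_le_div_of_nonneg_right ?_ hμ.le
    have := abs_sub (x - μ) e₀
    rw [abs_of_nonneg h0] at this
    linarith
  have hB : |x' / μ - (1 - 2 * e * gm t * sg t)| ≤ E / μ := by
    have e1 : x' / μ - (1 - 2 * e * gm t * sg t) = (x' - μ * (1 - 2 * e * gm t * sg t)) / μ := by
      field_simp
    rw [e1, abs_div, abs_of_pos hμ]
    exact div_le_div_of_nonneg_right hx' hμ.le
  obtain ⟨h1, h2⟩ := bog2_sens ht0 he0 he2 hd hd1 hA hB
  have h3 : μ * (e * (gm t ^ 2 + sg t ^ 2)) ≤ μ * (t / 4) := mul_le_mul_of_nonneg_left he hμ.le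
  refine ⟨by nlinarith [abs_nonneg (x - μ)], ?_, ?_⟩
  · rw [abs_div, abs_of_pos hμ] at h1
    exact (div_le_div_iff_of_pos_right hμ).1 h1
  · have e1 : bog2 (P / 2 - e₀ - μ * e * (gm t ^ 2 + sg t ^ 2) + x) x' =
        μ * bog2 ((P / 2 - e₀ - μ * e * (gm t ^ 2 + sg t ^ 2) + x) / μ) (x' / μ) := by
      rw [← bog2_scale hμ]
      congr 1 <;> field_simp
    have h4 := mul_le_mul_of_nonneg_left h2 hμ.le
    have e2 : μ * (bog t 1 + e * sg t ^ 2 - 9 * (1 + 1 / t) * (E / μ)) =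
        μ * bog t 1 + μ * e * sg t ^ 2 - 9 * (1 + 1 / t) * E := by
      field_simp
    have h5 : μ * (1 / (4 * t)) - 1 / t * E ≤ x ^ 2 / (2 * P) := by
      rw [le_div_iff₀ (by positivity)]
      have e3 : (μ * (1 / (4 * t)) - 1 / t * E) * (2 * P) = μ ^ 2 - 4 * μ * E := by
        rw [hPt]; field_simp; ring
      have h6 : -E ≤ x - μ := by
        have := neg_abs_le (x - μ)
        linarith
      rw [e3]
      nlinarith [sq_nonneg (x - μ), mul_nonneg hμ.le hE0]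
    rw [e1]
    rw [e2] at h4
    unfold FF
    nlinarith

theorem pow_lowsum2s {y A : ℝ} (h0 : 0 < y) (h1 : y ≤ 1) (hA : 0 < A) (h2 : 8 * (1 + 3 * A) * y ≤ 1)
    (h3 : (1 + 3 * A) * y ≤ A) :
    y ^ 836 + 3 * y ^ 80 * (A * y ^ 800) ≤ 2 * y ^ 808 / 16 ∧
      y ^ 836 + 3 * y ^ 80 * (A * y ^ 800) ≤ A * y ^ 800 ∧
      y ^ 836 + 3 * y ^ 80 * (A * y ^ 800) ≤ (1 + 3 * A) * (y ^ 8 * y ^ 36 * y ^ 789) := by
  have hp : ∀ a b : ℕ, a ≤ b → y ^ b ≤ y ^ a := fun a b h => pow_le_pow_of_le_one h0.le h1 h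
  have e1 : y ^ 836 + 3 * y ^ 80 * (A * y ^ 800) ≤ (1 + 3 * A) * y ^ 836 := by
    have h4 : y ^ 80 * y ^ 800 ≤ y ^ 836 := by
      rw [← pow_add]; exact hp _ _ (by norm_num)
    have h5 := mul_le_mul_of_nonneg_left h4 (by positivity : 0 ≤ 3 * A)
    linarith
  have hA3 : 0 ≤ 1 + 3 * A := by positivity
  refine ⟨e1.trans ?_, e1.trans ?_, e1.trans ?_⟩
  · have h4 : y ^ 836 ≤ y * y ^ 808 := by
      rw [← pow_succ']; exact hp _ _ (by norm_num)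
    have h5 := mul_le_mul_of_nonneg_left h4 hA3
    have h6 := mul_le_mul_of_nonneg_right h2 (pow_pos h0 808).le
    linarith
  · have h4 : y ^ 836 ≤ y * y ^ 800 := by
      rw [← pow_succ']; exact hp _ _ (by norm_num)
    have h5 := mul_le_mul_of_nonneg_left h4 hA3
    have h6 := mul_le_mul_of_nonneg_right h3 (pow_pos h0 800).le
    linarith
  · refine mul_le_mul_of_nonneg_left ?_ hA3
    rw [← pow_add, ← pow_add]
    exact hp _ _ (by norm_num)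

theorem pair_lowsum2s {μ W n x e g s ε E : ℝ} (hμ : 0 < μ) (hW : 0 < W) (he0 : 0 ≤ e) (hg : 0 ≤ g)
    (hs : 0 ≤ s) (he : e * (g ^ 2 + s ^ 2) ≤ 1) (hn : |n - W| ≤ ε * W) (hx : |x - μ| ≤ 2 * ε * μ)
    (hE : 3 * ε * μ ≤ E) :
    |x - n * (μ * e * (2 * g * s * W⁻¹)) - μ * (1 - 2 * e * g * s)| ≤ E := by
  have e1 : x - n * (μ * e * (2 * g * s * W⁻¹)) - μ * (1 - 2 * e * g * s) =
      (x - μ) - μ * (2 * e * g * s) * ((n - W) / W) := by
    field_simp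
    ring
  have h1 : |(n - W) / W| ≤ ε := by
    rw [abs_div, abs_of_pos hW, div_le_iff₀ hW]
    exact hn
  have h2 : 2 * e * g * s ≤ 1 := by nlinarith [mul_nonneg he0 (sq_nonneg (g - s))]
  have h3 : |μ * (2 * e * g * s) * ((n - W) / W)| ≤ μ * 1 * ε := by
    rw [abs_mul, abs_of_nonneg (by positivity)]
    exact mul_le_mul (mul_le_mul_of_nonneg_left h2 hμ.le) h1 (abs_nonneg _) (by positivity)
  rw [e1]
  refine (abs_sub _ _).trans ?_
  linarith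

theorem err_lowsum2s {A u E s₁ s₂ s₃ : ℝ} (hA : 0 < A) (hu0 : 0 ≤ u) (hs₁' : s₁ ≤ 1) (hs₂ : 0 < s₂)
    (hs₃ : 0 < s₃) (hu : u * s₁ ≤ A) (hE : E ≤ (1 + 3 * A) * (s₁ * s₂ * s₃)) :
    10 * (1 + u) * E ≤ 10 * (1 + A) * (1 + 3 * A) * s₃ * s₂ := by
  have h1 : (1 + u) * s₁ ≤ 1 + A := by nlinarith
  have h2 : 10 * (1 + u) * E ≤ 10 * (1 + u) * ((1 + 3 * A) * (s₁ * s₂ * s₃)) :=
    mul_le_mul_of_nonneg_left hE (by positivity)
  have h3 : (1 + u) * s₁ * (10 * (1 + 3 * A) * s₃ * s₂) ≤ (1 + A) * (10 * (1 + 3 * A) * s₃ * s₂) :=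
    mul_le_mul_of_nonneg_right h1 (by positivity)
  nlinarith

/-- Follow the proof of `low_sum`, with `mode_lowsum2` for `e₀ = y ^ 836`,
`E = y ^ 836 + 3 y ^ 80 μ₀` (note `2 e gm sg ≤ e (gm² + sg²) ≤ 1 / 4` and
`|n / (y ^ 800 l ^ 3) - 1| ≤ y ^ 80`). -/
theorem low_sum2 (D : Dat) {C : ℝ} (hC : 1 ≤ C) : ∃ C' y₀ : ℝ, 1 ≤ C' ∧ 0 < y₀ ∧ y₀ ≤ 1 ∧
    ∀ (y l : ℝ) (R : ℕ) (e lam τ lam' : M3 → ℝ) (n : ℝ), Scale y l R → y ≤ y₀ →
      D.Sml y l R (1 / 4) e → |n - y ^ 800 * l ^ 3| ≤ y ^ 80 * (y ^ 800 * l ^ 3) →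
      lam 0 = 4 * π * D.a / l ^ 3 → (∀ m, |lam m - lam 0| ≤ C * sq3 (pk l m) / l ^ 3) →
      (∀ m, τ m = sq3 (pk l m) / 2 - y ^ 836 -
        D.mu0 y * e m * (D.gf y l m ^ 2 + D.sf y l m ^ 2)) →
      (∀ m, lam' m = lam m -
        D.mu0 y * e m * (2 * D.gf y l m * D.sf y l m * (y ^ 800 * l ^ 3)⁻¹)) →
      (∀ m ∈ Lset R, 0 ≤ τ m ∧ |n * lam' m| ≤ τ m + n * lam m) ∧
      D.mu0 y * n + D.tg0 y l R - C' * y ^ 789 ≤ lam 0 * (n * (n - 1) / 2) +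
        ∑ m ∈ Lset R, (bog2 (τ m + n * lam m) (n * lam' m) - D.mu0 y * e m * D.sf y l m ^ 2 +
          n ^ 2 * (lam m ^ 2 / (2 * sq3 (pk l m)))) := by
  obtain ⟨A, hAd⟩ : ∃ A : ℝ, A = 4 * π * D.a := ⟨_, rfl⟩
  have hA : 0 < A := by
    have := D.ha
    rw [hAd]
    positivity
  have hC0 : 0 < C := by linarith
  refine ⟨1 + A + 270 * (1 + A) * (1 + 3 * A),
    min (min (1 / 2) (A / (240 * C))) (min (1 / (8 * (1 + 3 * A))) (A / (1 + 3 * A))),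
    ?_, ?_, ?_, ?_⟩
  · have : 0 ≤ A + 270 * (1 + A) * (1 + 3 * A) := by positivity
    linarith
  · exact lt_min (lt_min (by norm_num) (by positivity)) (lt_min (by positivity) (by positivity))
  · exact ((min_le_left _ _).trans (min_le_left _ _)).trans (by norm_num)
  intro y l R e lam τ lam' n hS hy he hn hl0 hl hτ hlam'
  have hy0 := hS.y0
  have hy2 : y ≤ 1 / 2 := hy.trans ((min_le_left _ _).trans (min_le_left _ _))
  have hyA : 240 * C * y ≤ A := by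
    have := hy.trans ((min_le_left _ _).trans (min_le_right _ _))
    rw [le_div_iff₀ (by positivity)] at this
    linarith
  have hyB : 8 * (1 + 3 * A) * y ≤ 1 := by
    have := hy.trans ((min_le_right _ _).trans (min_le_left _ _))
    rw [le_div_iff₀ (by positivity)] at this
    linarith
  have hyC : (1 + 3 * A) * y ≤ A := by
    have := hy.trans ((min_le_right _ _).trans (min_le_right _ _))
    rw [le_div_iff₀ (by positivity)] at this
    linarith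
  have hy1 : y ≤ 1 := by linarith
  obtain ⟨-, p2, p3, p4, -, -⟩ := pow_lowsum hy0 hy2
  obtain ⟨q1, q2, q3⟩ := pow_lowsum2s hy0 hy1 hA hyB hyC
  have hl' := hS.l_pos
  have hV : 0 < l ^ 3 := pow_pos hl' 3
  have hρ : 0 < y ^ 800 := pow_pos hy0 _
  have hε : 0 < y ^ 80 := pow_pos hy0 _
  have hμ : D.mu0 y = A * y ^ 800 := by rw [hAd]; rfl
  have hμ0 : 0 < D.mu0 y := D.mu0_pos hy0
  have hl0' : lam 0 = A / l ^ 3 := by rw [hAd]; exact hl0
  rw [← hμ] at q1 q2 q3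
  have hlam : ∀ m ∈ Lset R, |n * lam m - D.mu0 y| ≤ 2 * y ^ 80 * D.mu0 y := by
    intro m hm
    rw [hμ]
    refine (beta_lowsum hA hρ hV hε.le (by linarith) hn ?_).2
    rw [← hl0']
    refine (hl m).trans ?_
    rw [hl0', ← mul_div_assoc]
    refine div_le_div_of_nonneg_right ?_ hV.le
    have h1 : sq3 (pk l m) ≤ 120 * (y * y ^ 80) := ((hS.mom m).2.2 hm).trans (by linarith)
    have h2 : C * sq3 (pk l m) ≤ C * (120 * (y * y ^ 80)) := mul_le_mul_of_nonneg_left h1 hC0.le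
    have h3 : 240 * C * y * (y ^ 80 / 2) ≤ A * (y ^ 80 / 2) :=
      mul_le_mul_of_nonneg_right hyA (by positivity)
    linarith
  have hmode : ∀ m ∈ Lset R, 0 ≤ τ m ∧ |n * lam' m| ≤ τ m + n * lam m ∧
      D.mu0 y * FF (D.tm y l m) (D.tm y l m) -
        10 * (1 + 1 / D.tm y l m) * (y ^ 836 + 3 * y ^ 80 * D.mu0 y) ≤
      bog2 (τ m + n * lam m) (n * lam' m) - D.mu0 y * e m * D.sf y l m ^ 2 +
        (n * lam m) ^ 2 / (2 * sq3 (pk l m)) := by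
    intro m hm
    have h1 := (hS.mom m).1 (mem_Lset.1 hm).1
    have h2 : 0 < y ^ 808 := pow_pos hy0 _
    have hP : 0 < sq3 (pk l m) := by linarith
    have ht := (D.tm_pos hS (mem_Lset.1 hm).1).1
    have h3 := he.2 m hm
    have h4 : D.vp y l m ≤ D.tm y l m := min_le_left _ _
    have h5 : D.vp y l m ≤ 1 := min_le_right _ _
    have h6 := pair_lowsum2s (x := n * lam m) (E := y ^ 836 + 3 * y ^ 80 * D.mu0 y) hμ0
      (mul_pos hρ hV) (he.1 m) (le_trans zero_le_one (one_le_gm ht)) (sg_nonneg (D.tm y l m))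
      (by change e m * (D.gf y l m ^ 2 + D.sf y l m ^ 2) ≤ 1; linarith) hn (hlam m hm)
      (by have := pow_pos hy0 836; linarith)
    have h7 := mode_lowsum2 (P := sq3 (pk l m)) (e := e m) (e₀ := y ^ 836) (x := n * lam m)
      (x' := n * lam' m) (E := y ^ 836 + 3 * y ^ 80 * D.mu0 y) hμ0 hP (he.1 m)
      (by change e m * (D.gf y l m ^ 2 + D.sf y l m ^ 2) ≤ D.tm y l m / 4; linarith)
      (by linarith) q2 (pow_pos hy0 836).le
      (by have := hlam m hm; have := mul_pos hε hμ0; linarith)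
      (by rw [hlam' m, mul_sub]; exact h6)
    rw [hτ m]
    exact h7
  refine ⟨fun m hm => ⟨(hmode m hm).1, (hmode m hm).2.1⟩, ?_⟩
  have hterm : ∀ m ∈ Lset R, D.mu0 y * FF (D.tm y l m + 0) (D.tm y l m) -
      10 * (1 + A) * (1 + 3 * A) * y ^ 789 * y ^ 36 ≤
      bog2 (τ m + n * lam m) (n * lam' m) - D.mu0 y * e m * D.sf y l m ^ 2 +
        n ^ 2 * (lam m ^ 2 / (2 * sq3 (pk l m))) := by
    intro m hm
    have h3 := (hmode m hm).2.2
    obtain ⟨h4, h5⟩ := D.tm_pos hS (mem_Lset.1 hm).1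
    rw [← hAd] at h5
    have h9 := err_lowsum2s hA (one_div_pos.2 h4).le
      (pow_le_one₀ hy0.le hy1) (pow_pos hy0 36) (pow_pos hy0 789) h5 q3
    have e1 : n ^ 2 * (lam m ^ 2 / (2 * sq3 (pk l m))) = (n * lam m) ^ 2 / (2 * sq3 (pk l m)) := by
      rw [mul_pow, mul_div_assoc]
    rw [e1, add_zero]
    linarith
  have hsum := Finset.sum_le_sum hterm
  rw [Finset.sum_sub_distrib, ← Finset.mul_sum, Finset.sum_const, nsmul_eq_mul] at hsum
  have hcard := hS.card_le hy1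
  have h1 : ((Lset R).card : ℝ) * y ^ 36 * (10 * (1 + A) * (1 + 3 * A) * y ^ 789) ≤
      27 * (10 * (1 + A) * (1 + 3 * A) * y ^ 789) :=
    mul_le_mul_of_nonneg_right hcard (by positivity)
  have hn2 : n ≤ 2 * (y ^ 800 * l ^ 3) := by
    have h2 := (abs_le.1 hn).2
    have h3 : y ^ 80 * (y ^ 800 * l ^ 3) ≤ 1 * (y ^ 800 * l ^ 3) :=
      mul_le_mul_of_nonneg_right (by linarith) (by positivity)
    linarith
  have h2 := mean_lowsum hA hV hn2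
  have h3 : A * y ^ 800 ≤ A * y ^ 789 := mul_le_mul_of_nonneg_left p4 hA.le
  have h4 : 0 < y ^ 789 := pow_pos hy0 _
  have e1 : D.tg0 y l R = -(A / 2 * (y ^ 800) ^ 2 * l ^ 3) +
      D.mu0 y * ∑ m ∈ Lset R, FF (D.tm y l m + 0) (D.tm y l m) := by
    unfold Dat.tg0 Dat.tgt
    rw [hAd, ← pow_mul]
    ring
  rw [e1, hl0']
  nth_rewrite 1 [hμ]
  linarith

end Pool.Agent.BoseLHY
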