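import Pool.Agent.Lib.MP_dec75e_mp.S.Gen2
import Pool.Agent.Lib.MP_dec75e_mp.S.LowSum2
import Pool.Agent.Lib.MP_dec75e_mp.L.LowBox

/-! The gap estimate in one box for states with few low excitations. -/

open MeasureTheory Finset Function
open scoped Real

noncomputable section

namespace Pool.Agent.BoseLHY

open Pool.Agent.BoseTail

/-- Follow the proof of `low_box`: `gen2` with `κ m = p² / 2`,
`τ m = if High R m then p² / 2 - 2 y ^ 796 else p² / 2 - y ^ 836`, `P m = -(μ₀ e m Gp m)` and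
`β m = bog2 … - μ₀ e m sf m ^ 2`; the hypothesis `hmode` is `bog_mode2` with the `τ` and `lam'` of
`low_sum2`. -/
theorem low_box2 (D : Dat) : ∃ C y₀ : ℝ, 1 ≤ C ∧ 0 < y₀ ∧ y₀ ≤ 1 ∧
    ∀ (y l : ℝ) (R : ℕ) (e : M3 → ℝ), Scale y l R → y ≤ y₀ → D.Sml y l R (1 / 4) e →
    ∀ {ι : Type} [Fintype ι] [DecidableEq ι] (μ : ι → ProbabilityMeasure R3) (B : Box)
      (S : Finset ι) (ψ : Vs ι) (M : ℕ) (T : ℝ) (χ : BF R3), Wgt χ → D.Cov χ B 1 →
      B.Cube l → Act μ B S → Sym S ψ →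
      S.card ∈ Near y l → (M : ℝ) ≤ S.card * y ^ 120 → LowA (Lp B R) S M ψ →
      HasSum (fun m => sq3 (pk l m) / 2 * occ μ B S m ψ) T →
      (D.mu0 y * S.card + D.tg0 y l R - C * y ^ 789) * nq (ipB μ) ψ +
        D.mu0 y * ∑ m ∈ Lset R,
          e m * Gp μ B S (y ^ 800 * l ^ 3)⁻¹ (D.gf y l m) (D.sf y l m) m ψ ≤
        T + pot μ S (D.W χ) ψ := by
  obtain ⟨C₁, y₁, hC₁, hy₁, hy₁1, hbox⟩ := box_consts D
  obtain ⟨C₂, y₂, hC₂, hy₂, -, hnum⟩ := low_num hC₁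
  obtain ⟨C₃, y₃, hC₃, hy₃, -, hsum⟩ := low_sum2 D hC₁
  refine ⟨C₂ + C₃, min y₁ (min y₂ y₃), by linarith, lt_min hy₁ (lt_min hy₂ hy₃),
    (min_le_left _ _).trans hy₁1, ?_⟩
  intro y l R e hsc hy he ι _ _ μ B S ψ M T χ hχ hcov hcube hA hS hn hM hL hT
  have hy1 : y ≤ y₁ := hy.trans (min_le_left _ _)
  have hy2 : y ≤ y₂ := hy.trans ((min_le_right _ _).trans (min_le_left _ _))
  have hy3 : y ≤ y₃ := hy.trans ((min_le_right _ _).trans (min_le_right _ _))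
  have hyle : y ≤ 1 := hy1.trans hy₁1
  have hy0 : 0 < y := hsc.y0
  have hl : 0 < l := hsc.l_pos
  have hmu : 0 < D.mu0 y := D.mu0_pos hy0
  obtain ⟨hBs, hmu0, hlb, hlip, he4, hb0, -, -, he5, he3, he2, he1⟩ := hbox y l R B hsc hy1 hcube
  have hlam0 : D.lam B 0 = 4 * π * D.a / l ^ 3 := by rw [D.lam_zero, hcube.vol]
  obtain ⟨hlow, hmain⟩ := hsum y l R e (D.lam B) _ _ S.card hsc hy3 he hn hlam0 hlip
    (fun _ => rfl) (fun _ => rfl)
  have hn16 : (S.card : ℝ) * y ^ 412 ≤ 16 := card_le_lowbox hsc hyle hn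
  obtain ⟨hΓ, hγL, hγH, hrest⟩ := hnum y S.card M (Lset R).card hy0 hy2 (Nat.cast_nonneg _) hn16
    (Nat.cast_nonneg _) hM (Nat.cast_nonneg _) (hsc.card_le hyle)
  have hC0 : 0 ≤ C₁ := by linarith
  have hnH : ∀ m ∈ Lset R, ¬High R m := fun m hm hH => (high_iff.1 hH).2 hm
  set τ : M3 → ℝ := fun m => if High R m then sq3 (pk l m) / 2 - 2 * y ^ 796
    else sq3 (pk l m) / 2 - y ^ 836 with hτ
  have hτH : ∀ m, High R m → τ m = sq3 (pk l m) / 2 - 2 * y ^ 796 := fun m hm => if_pos hm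
  have hτL : ∀ m ∈ Lset R, τ m = sq3 (pk l m) / 2 - y ^ 836 :=
    fun m hm => if_neg (hnH m hm)
  have key := gen2 (μ := μ) (B := B) (S := S) (R := R) (M := M) (ψ := ψ) hA hS hL
    (W := D.W χ) (G := B.symk D.g) (G' := B.symk D.g') (b := D.bk B 1)
    (l := D.lam B) (l' := D.lam' B) (κ := fun m => sq3 (pk l m) / 2) (τ := τ)
    (r := fun m => D.lam B m ^ 2 / (2 * sq3 (pk l m)))
    (β := fun m => bog2 (sq3 (pk l m) / 2 - y ^ 836 -
        D.mu0 y * e m * (D.gf y l m ^ 2 + D.sf y l m ^ 2) + S.card * D.lam B m)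
        (S.card * (D.lam B m -
          D.mu0 y * e m * (2 * D.gf y l m * D.sf y l m * (y ^ 800 * l ^ 3)⁻¹))) -
      D.mu0 y * e m * D.sf y l m ^ 2)
    (P := fun m => -(D.mu0 y * (e m * Gp μ B S (y ^ 800 * l ^ 3)⁻¹ (D.gf y l m) (D.sf y l m) m ψ)))
    (lb := C₁ * y ^ 1212) (b₀ := C₁ * y ^ 1616) (e₁ := C₁ * y ^ 1615) (e₂ := C₁ * y ^ 1603)
    (e₃ := C₁ * y ^ 1640) (e₄ := C₁ * y ^ 1996) (e₅ := C₁ * y ^ 1604) (θ := y ^ 12)
    (γL := y ^ 836) (γH := y ^ 796) (Γ := y ^ 838) (T := T)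
    (D.eig_g hBs) (D.eig_g' hBs) 
    (fun x hx z hz α β => D.pw B hχ one_pos (mul_one _).ge hcov hx hz α β)
    (D.bk_nonneg B zero_le_one) hb0 hT
    (div_nonneg (sq3_nonneg _) zero_le_two)
    (fun m hm => by rw [hτL m hm]; exact (sub_add_cancel _ _).le)
    (fun m hm => by
      rw [hτH m hm]
      have := pow_pos hy0 796
      linarith)
    (fun m hH => by rw [hτH m hH]; exact (he3 m hH).1)
    hlb (by rw [hlam0]; have := D.ha; positivity)
    (fun m hm => by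
      have h1 := bog_mode2 hA m (hlow m hm).1 (hlow m hm).2 ψ
      have h2 := mul_le_mul_of_nonneg_right ((le_abs_self _).trans (hlb m))
        (occ_nonneg (μ := μ) (B := B) (S := S) (m := m) (ψ := ψ))
      rw [hτL m hm]
      unfold Gp
      linarith)
    (fun m _ => div_nonneg (sq_nonneg _) (mul_nonneg zero_le_two (sq3_nonneg _))) he5
    (fun F hF => by
      rw [Finset.sum_congr rfl fun m hm => by rw [hτH m (hF m hm)]]
      exact he1 F hF)
    (mul_nonneg hC0 (pow_nonneg hy0.le _))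
    (fun F hF => by
      rw [Finset.sum_congr rfl fun m hm => by rw [hτH m (hF m hm).1]]
      exact he2 F hF)
    (fun m hm => by rw [hτH m hm]; exact (he3 m hm).2)
    (mul_nonneg hC0 (pow_nonneg hy0.le _)) he4 (mul_nonneg hC0 (pow_nonneg hy0.le _))
    (pow_pos hy0 _) hΓ hγL hγH
  rw [Finset.sum_neg_distrib, ← Finset.mul_sum] at key
  refine le_of_sub_nonneg ?_
  have k3 := le_trans (mul_le_mul_of_nonneg_right
    (b := D.mu0 y * S.card + D.tg0 y l R - (C₂ + C₃) * y ^ 789) (by rw [add_mul]; linarith)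
    ((psd_ipB μ).nq_nonneg ψ)) key
  linarith

end Pool.Agent.BoseLHY
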