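import Pool.Agent.Lib.MP_dec75e_mp.S.Tsh
import Pool.Agent.Lib.MP_dec75e_mp.L.Cmp
import Pool.Agent.Lib.MP_dec75e_mp.L.Eigen
import Pool.Agent.Lib.MP_dec75e_mp.L.Cell

/-! The main term. -/

open MeasureTheory Finset Function
open scoped Real

noncomputable section

namespace Pool.Agent.BoseLHY

open Pool.Agent.BoseTail

theorem coef_maints (B : Box) {r : ℝ} {h : BF R3} (he : Ev h.1) (hs : Supp h.1 r)
    (hr : ∀ c, r ≤ B.s c) {f : R3 → ℝ} (hf : BM f) :
    ∃ g : R3 → ℝ, HasSum (fun m => sy h (B.p m) ^ 2 *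
        (∫ x, (B.e m).1 x * f x ∂(B.μ : Measure R3)) ^ 2) (∫ x, g x ^ 2 ∂(B.μ : Measure R3)) ∧
      BM g ∧ ∀ x ∈ B.set, x ∉ B.lay r → g x = ∫ z, h.1 z * (f (x + z) - f x) := by
  have hV := B.vol_pos
  have hE := B.eig_symk he hs hr
  have hh : Integrable h.1 := hs.integrable (bmOf h)
  have b1 : BM (uncurry fun x y : R3 => (B.symk h).1 (x, y) * f y) :=
    (bmOf (B.symk h)).mul (hf.comp measurable_snd)
  have b2 : BM fun x => ∫ y, (B.symk h).1 (x, y) * f y ∂(B.μ : Measure R3) := b1.integral_right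
  have bg : BM fun x => B.vol * (∫ y, (B.symk h).1 (x, y) * f y ∂(B.μ : Measure R3)) -
      ct h.1 0 * f x := ((BM.const _).mul b2).sub ((BM.const _).mul hf)
  refine ⟨_, ?_, bg, fun x hx hx' => ?_⟩
  · refine hs_foud (B.pars.2 _ bg) (fun m => ?_) rfl
    have be := bmOf (B.e m)
    have h1 : ∫ x, (B.e m).1 x * (∫ y, (B.symk h).1 (x, y) * f y ∂(B.μ : Measure R3))
        ∂(B.μ : Measure R3) =
        ct h.1 (B.p m) / B.vol * ∫ x, (B.e m).1 x * f x ∂(B.μ : Measure R3) := by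
      have b3 : BM (uncurry fun x y : R3 => (B.e m).1 x * ((B.symk h).1 (x, y) * f y)) :=
        (be.comp measurable_fst).mul b1
      simp only [← integral_const_mul]
      rw [b3.swap]
      refine integral_congr_ae (Filter.Eventually.of_forall fun y => ?_)
      have h2 := hE.eig m y
      have h3 : ∀ x, (B.e m).1 x * ((B.symk h).1 (x, y) * f y) =
          (B.symk h).1 (y, x) * (B.e m).1 x * f y := by
        intro x
        rw [hE.symm x y]
        ring
      simp only [h3]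
      rw [integral_mul_const, h2, mul_assoc]
    have h4 : ∀ x, (B.e m).1 x *
        (B.vol * (∫ y, (B.symk h).1 (x, y) * f y ∂(B.μ : Measure R3)) - ct h.1 0 * f x) =
        B.vol * ((B.e m).1 x * ∫ y, (B.symk h).1 (x, y) * f y ∂(B.μ : Measure R3)) -
          ct h.1 0 * ((B.e m).1 x * f x) := fun x => by ring
    rw [← mul_pow]
    congr 1
    simp only [h4]
    rw [integral_sub ((be.mul b2).integrable.const_mul _) ((be.mul hf).integrable.const_mul _),
      integral_const_mul, integral_const_mul, h1, sy]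
    field_simp
  · have h2 : ∫ y in B.set, (B.symk h).1 (x, y) * f y = ∫ z, h.1 z * f (x + z) := by
      rw [← inner_cmp B he hs f hx']
      refine setIntegral_congr_fun B.measurableSet_set fun y hy => ?_
      simp only [B.symk_of_not_lay hs hx hy (Or.inl hx')]
    obtain ⟨hm, C, hC⟩ := hf
    have hi : Integrable fun z => h.1 z * f (x + z) :=
      hh.mul_bdd (hm.comp (measurable_const.add measurable_id)).aestronglyMeasurable
        (Filter.Eventually.of_forall fun z => hC _)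
    simp only [mul_sub]
    rw [integral_sub hi (hh.mul_const _), integral_mul_const, B.integral_mu, h2, ct_zero,
      mul_inv_cancel_left₀ hV.ne']

theorem sq_maints {a b d θ : ℝ} (hθ : 0 < θ) (h : |a - b| ≤ d) :
    b ^ 2 ≤ (1 + θ) * a ^ 2 + (1 + 1 / θ) * d ^ 2 := by
  have h1 : (a - b) ^ 2 ≤ d ^ 2 := sq_le_sq' (abs_le.1 h).1 (abs_le.1 h).2
  have h2 : (1 + θ) * a ^ 2 + (1 + 1 / θ) * (a - b) ^ 2 - b ^ 2 = (θ * a + (a - b)) ^ 2 / θ := by
    field_simp
    ring
  have h3 : 0 ≤ (θ * a + (a - b)) ^ 2 / θ := by positivity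
  have h4 : (1 + 1 / θ) * (a - b) ^ 2 ≤ (1 + 1 / θ) * d ^ 2 :=
    mul_le_mul_of_nonneg_left h1 (by positivity)
  linarith

/-- For `f = cos (k ⬝ x)` and `f = sin (k ⬝ x)` let `g x = vol ∫ symk (x, y) (f y - f x)`. Its
coefficients are `sy h (pk l m)` times those of `f` (`Box.eig_symk`, Fubini), so by `Box.pars`
`∫ g² = ∑ sy² c²`, and `sy² ≤ (1 + θ) ζ² + (1 + 1 / θ) d²`, `∑ (c² + s²) = 1`. Outside the layer
`g x = sy h k * f x` (`symk_of_not_lay`, `inner_cmp`, `sy_trig`); `Box.lay_le`. -/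
theorem main_box {B : Box} {l r : ℝ} (hB : B.Cube l) {h : BF R3} (he : Ev h.1) (hs : Supp h.1 r)
    (hr0 : 0 ≤ r) (hr : r ≤ l) (T : Finset M3) {ζ : M3 → ℝ} {d θ : ℝ} (hθ : 0 < θ)
    (hd : ∀ m, |(if m ∈ T then ζ m else 0) - sy h (pk l m)| ≤ d) (k : R3) :
    sy h k ^ 2 * (1 - 6 * (r / l)) ≤
      (1 + θ) * ∑ m ∈ T,
        ((∫ x, (B.e m).1 x * Real.cos (∑ c, k c * x c) ∂(B.μ : Measure R3)) ^ 2 +
          (∫ x, (B.e m).1 x * Real.sin (∑ c, k c * x c) ∂(B.μ : Measure R3)) ^ 2) * ζ m ^ 2 +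
        (1 + 1 / θ) * d ^ 2 := by
  have hl := hB.pos
  have hr' : ∀ c, r ≤ B.s c := fun c => by rw [hB c]; exact hr
  have hp : ∀ m, B.p m = pk l m := fun m => funext fun c => by simp only [Box.p, pk, hB c]
  have bc : BM fun x : R3 => Real.cos (∑ c, k c * x c) :=
    ⟨by fun_prop, 1, fun _ => Real.abs_cos_le_one _⟩
  have bs : BM fun x : R3 => Real.sin (∑ c, k c * x c) :=
    ⟨by fun_prop, 1, fun _ => Real.abs_sin_le_one _⟩
  obtain ⟨g1, s1, b1, e1⟩ := coef_maints B he hs hr' bc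
  obtain ⟨g2, s2, b2, e2⟩ := coef_maints B he hs hr' bs
  have hP := (B.pars.2 _ bc).add (B.pars.2 _ bs)
  rw [← integral_add (bc.pow 2).integrable (bs.pow 2).integrable] at hP
  simp only [Real.cos_sq_add_sin_sq, integral_const, probReal_univ, smul_eq_mul, mul_one] at hP
  set u : M3 → ℝ := fun m =>
    (∫ x, (B.e m).1 x * Real.cos (∑ c, k c * x c) ∂(B.μ : Measure R3)) ^ 2 +
      (∫ x, (B.e m).1 x * Real.sin (∑ c, k c * x c) ∂(B.μ : Measure R3)) ^ 2 with hu
  have hu0 : ∀ m, 0 ≤ u m := fun m => by positivity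
  have hT : HasSum (fun m => u m * (if m ∈ T then ζ m else 0) ^ 2) (∑ m ∈ T, u m * ζ m ^ 2) := by
    have h1 : HasSum (fun m => u m * (if m ∈ T then ζ m else 0) ^ 2)
        (∑ m ∈ T, u m * (if m ∈ T then ζ m else 0) ^ 2) :=
      hasSum_sum_of_ne_finset_zero fun m hm => by simp [hm]
    refine hs_foud h1 (fun _ => rfl) (sum_congr rfl fun m hm => by rw [if_pos hm])
  have hle := hasSum_le (fun m => ?_) (s1.add s2)
    ((hT.mul_left (1 + θ)).add (hP.mul_left ((1 + 1 / θ) * d ^ 2)))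
  swap
  · have h1 := mul_le_mul_of_nonneg_left (sq_maints hθ (hd m)) (hu0 m)
    rw [hp, ← mul_add]
    change sy h (pk l m) ^ 2 * u m ≤ (1 + θ) * (u m * _) + (1 + 1 / θ) * d ^ 2 * u m
    linarith
  rw [mul_one, ← integral_add (b1.pow 2).integrable (b2.pow 2).integrable] at hle
  refine le_trans ?_ hle
  have hlay : (B.μ : Measure R3).real (B.lay r) ≤ 6 * (r / l) := by
    refine (B.lay_le hr0).trans (le_of_eq ?_)
    simp only [hB _, sum_const, card_univ, Fintype.card_fin, nsmul_eq_mul]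
    push_cast
    ring
  have bi : BM ((B.lay r).indicator fun _ : R3 => (1 : ℝ)) :=
    bmOf (ind (B.lay r) (B.measurableSet_lay r))
  have h2 : ∫ x, sy h k ^ 2 * (1 - (B.lay r).indicator (fun _ : R3 => (1 : ℝ)) x)
      ∂(B.μ : Measure R3) = sy h k ^ 2 * (1 - (B.μ : Measure R3).real (B.lay r)) := by
    rw [integral_const_mul, integral_sub (integrable_const _) bi.integrable,
      integral_indicator (B.measurableSet_lay r)]
    simp
  calc sy h k ^ 2 * (1 - 6 * (r / l)) ≤ sy h k ^ 2 * (1 - (B.μ : Measure R3).real (B.lay r)) :=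
        mul_le_mul_of_nonneg_left (by linarith) (sq_nonneg _)
    _ = _ := h2.symm
    _ ≤ _ := by
        refine integral_mono_ae (((integrable_const _).sub bi.integrable).const_mul _)
          ((b1.pow 2).integrable.add (b2.pow 2).integrable) (B.ae_mem.mono fun x hx => ?_)
        by_cases hx' : x ∈ B.lay r
        · simp only [Set.indicator_of_mem hx', sub_self, mul_zero]
          positivity
        · have e : ∀ z : R3, ∑ c, k c * (x + z) c = ∑ c, k c * x c + ∑ c, k c * z c := by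
            intro z
            simp only [Pi.add_apply, mul_add, sum_add_distrib]
          have h3 := sy_trig he hs k (∑ c, k c * x c)
          simp only [Set.indicator_of_notMem hx', e1 x hx hx', e2 x hx hx', e, h3.1, h3.2]
          refine le_of_eq ?_
          linear_combination (-sy h k ^ 2) * Real.cos_sq_add_sin_sq (∑ c, k c * x c)

/-- Average `main_box` over the cells (`ip_hb_pw`, `Part.sum_vol`). -/
theorem main_term {L : ℝ} [Fact (0 < L)] {C : Type} [Fintype C] [DecidableEq C] {Q : C → Box}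
    (hP : Part (big L) Q) {l r : ℝ} (hQ : ∀ k, (Q k).Cube l) {h : BF R3} (he : Ev h.1)
    (hs : Supp h.1 r) (hr0 : 0 ≤ r) (hr : r ≤ l) (T : Finset M3) {ζ : M3 → ℝ} {d θ : ℝ}
    (hθ : 0 < θ) (hd : ∀ m, |(if m ∈ T then ζ m else 0) - sy h (pk l m)| ≤ d) (n : Fin 3 → ℤ) :
    sy h (fun c => kvec L n c) ^ 2 * (1 - 6 * (r / l)) ≤
      (1 + θ) * ∑ x ∈ univ ×ˢ T,
        ((big L).ip (hb Q x) (cw L n) ^ 2 + (big L).ip (hb Q x) (sw L n) ^ 2) * ζ x.2 ^ 2 +
        (1 + 1 / θ) * d ^ 2 := by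
  have hL : (0 : ℝ) < L ^ 3 := pow_pos Fact.out 3
  have hw : ∑ k, (Q k).vol / L ^ 3 = 1 := by
    rw [← sum_div, hP.sum_vol, big_cube.vol, div_self hL.ne']
  have h1 := sum_le_sum fun k (_ : k ∈ (univ : Finset C)) => mul_le_mul_of_nonneg_left
    (main_box (hQ k) he hs hr0 hr T hθ hd fun c => kvec L n c)
    (div_pos (Q k).vol_pos hL).le
  rw [← sum_mul, hw, one_mul] at h1
  refine h1.trans (le_of_eq ?_)
  simp only [mul_add]
  rw [sum_add_distrib, ← sum_mul, hw, one_mul, sum_product, mul_sum]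
  congr 1
  refine sum_congr rfl fun k _ => ?_
  simp only [ip_hb_pw hP]
  rw [mul_left_comm, mul_sum]
  simp only [mul_assoc]

end Pool.Agent.BoseLHY
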