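import Pool.Agent.Lib.MP_dec75e_mp.S.Df
import Pool.Agent.Lib.MP_dec75e_mp.U.FkB

/-! Projections on particle numbers in a set. -/

open MeasureTheory Finset Function
open scoped Real

noncomputable section

namespace Pool.Agent.BoseLHY

open Pool.Agent.BoseTail

variable {α : Type} [MeasurableSpace α] {ν : ProbabilityMeasure α} {z : ℝ} {hz : 0 < z}
  {A A' : Set α} {hA : MeasurableSet A} {hA' : MeasurableSet A'} {G G' : Set ℕ} {h : BF α}

theorem Mop_apply (Ψ : FK ν z hz) (t : Multiset α) :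
    (Mop A hA G Ψ).1 t = G.indicator (fun _ => Ψ.1 t) (cnt A t) := rfl

omit [MeasurableSpace α] in
theorem cnt_cons_mem {x : α} (hx : x ∈ A) (t : Multiset α) : cnt A (x ::ₘ t) = cnt A t + 1 := by
  classical
  unfold cnt
  convert Multiset.countP_cons_of_pos (p := fun x => x ∈ A) t hx

omit [MeasurableSpace α] in
theorem cnt_cons_notMem {x : α} (hx : x ∉ A) (t : Multiset α) : cnt A (x ::ₘ t) = cnt A t := by
  classical
  unfold cnt
  convert Multiset.countP_cons_of_neg (p := fun x => x ∈ A) t hx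

theorem Mop_sa : SA (fip ν z hz) (Mop A hA G) := by
  intro Ψ Φ
  refine (hasSum_fip (Mop A hA G Ψ) Φ).unique ?_
  have e : wt2 ν z (Mop A hA G Ψ).1 Φ.1 = wt2 ν z Ψ.1 (Mop A hA G Φ).1 := by
    funext n
    unfold wt2
    congr 1
    refine integral_congr_ae (Filter.Eventually.of_forall fun X => ?_)
    change mopF A G Ψ.1 (ms X) * Φ.1 (ms X) = Ψ.1 (ms X) * mopF A G Φ.1 (ms X)
    rw [mopF_eq, mopF_eq]
    ring
  rw [e]
  exact hasSum_fip Ψ (Mop A hA G Φ)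

theorem Mop_mul (Ψ : FK ν z hz) : Mop A hA G (Mop A hA G' Ψ) = Mop A hA (G ∩ G') Ψ := by
  refine Subtype.ext (funext fun t => ?_)
  rw [Mop_apply, Mop_apply, Mop_apply]
  by_cases h1 : cnt A t ∈ G <;> by_cases h2 : cnt A t ∈ G' <;> simp [h1, h2]

theorem Mop_compl (Ψ : FK ν z hz) : Mop A hA G Ψ + Mop A hA Gᶜ Ψ = Ψ := by
  refine Subtype.ext (funext fun t => ?_)
  change (Mop A hA G Ψ).1 t + (Mop A hA Gᶜ Ψ).1 t = Ψ.1 t
  rw [Mop_apply, Mop_apply]
  by_cases h1 : cnt A t ∈ G <;> simp [h1]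

theorem Mop_comm (Ψ : FK ν z hz) : Mop A hA G (Mop A' hA' G' Ψ) = Mop A' hA' G' (Mop A hA G Ψ) := by
  refine Subtype.ext (funext fun t => ?_)
  change mopF A G (mopF A' G' Ψ.1) t = mopF A' G' (mopF A G Ψ.1) t
  simp only [mopF_eq]
  ring

theorem ind_sh_mops (G : Set ℕ) (k : ℕ) :
    G.indicator (fun _ => (1 : ℝ)) (k + 1) = (sh G).indicator (fun _ => (1 : ℝ)) k := by
  by_cases h : k + 1 ∈ G
  · rw [Set.indicator_of_mem h, Set.indicator_of_mem (show k ∈ sh G from h)]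
  · rw [Set.indicator_of_notMem h, Set.indicator_of_notMem (show k ∉ sh G from h)]

theorem ann_Mop_in (hh : ∀ x, x ∉ A → h.1 x = 0) (Ψ : FK ν z hz) :
    ann h (Mop A hA G Ψ) = Mop A hA (sh G) (ann h Ψ) := by
  refine Subtype.ext (funext fun t => ?_)
  change z * ∫ x, h.1 x * mopF A G Ψ.1 (x ::ₘ t) ∂(ν : Measure α) =
    mopF A (sh G) (annF ν z h.1 Ψ.1) t
  rw [mopF_eq, annF, mul_left_comm]
  congr 1
  rw [← integral_const_mul]
  refine integral_congr_ae (Filter.Eventually.of_forall fun x => ?_)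
  simp only
  by_cases hx : x ∈ A
  · rw [mopF_eq, cnt_cons_mem hx, ind_sh_mops]
    ring
  · rw [hh x hx]
    simp

theorem ann_Mop_out (hh : ∀ x, x ∈ A → h.1 x = 0) (Ψ : FK ν z hz) :
    ann h (Mop A hA G Ψ) = Mop A hA G (ann h Ψ) := by
  refine Subtype.ext (funext fun t => ?_)
  change z * ∫ x, h.1 x * mopF A G Ψ.1 (x ::ₘ t) ∂(ν : Measure α) =
    mopF A G (annF ν z h.1 Ψ.1) t
  rw [mopF_eq, annF, mul_left_comm]
  congr 1
  rw [← integral_const_mul]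
  refine integral_congr_ae (Filter.Eventually.of_forall fun x => ?_)
  simp only
  by_cases hx : x ∈ A
  · rw [hh x hx]
    simp
  · rw [mopF_eq, cnt_cons_notMem hx]
    ring

/-- For `x ∈ t` write `t = x ::ₘ t.erase x`. -/
theorem Mop_cre_in (hh : ∀ x, x ∉ A → h.1 x = 0) (Ψ : FK ν z hz) :
    Mop A hA G (cre h Ψ) = cre h (Mop A hA (sh G) Ψ) := by
  refine Subtype.ext (funext fun t => ?_)
  obtain ⟨X, hX⟩ := exists_ms t
  change mopF A G (creF h.1 Ψ.1) t = creF h.1 (mopF A (sh G) Ψ.1) t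
  rw [← hX, mopF_eq, creF_ms, creF_ms, Finset.mul_sum]
  refine Finset.sum_congr rfl fun i _ => ?_
  by_cases hx : X i ∈ A
  · rw [mopF_eq, ms_eq_cons X i, cnt_cons_mem hx, ind_sh_mops]
    ring
  · rw [hh _ hx]
    simp

theorem cre_Mop_out (hh : ∀ x, x ∈ A → h.1 x = 0) (Ψ : FK ν z hz) :
    cre h (Mop A hA G Ψ) = Mop A hA G (cre h Ψ) := by
  refine Subtype.ext (funext fun t => ?_)
  obtain ⟨X, hX⟩ := exists_ms t
  change creF h.1 (mopF A G Ψ.1) t = mopF A G (creF h.1 Ψ.1) t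
  rw [← hX, mopF_eq, creF_ms, creF_ms, Finset.mul_sum]
  refine Finset.sum_congr rfl fun i _ => ?_
  by_cases hx : X i ∈ A
  · rw [hh _ hx]
    simp
  · rw [mopF_eq, ms_eq_cons X i, cnt_cons_notMem hx]
    ring

theorem sect_mops (hz : 0 < z) (hA : MeasurableSet A) (hh : ∀ x, x ∉ A → h.1 x = 0)
    (h1 : z * ∫ x, h.1 x * h.1 x ∂(ν : Measure α) ≤ 1) {n : ℕ} {Φ : Multiset α → ℝ}
    (hΦ : ∀ j, BM (sec Φ j)) (hs : ∀ t, n < cnt A t → Φ t = 0) (j : ℕ) :
    wt2 ν z (annF ν z h.1 Φ) (annF ν z h.1 Φ) j ≤ n * wt2 ν z Φ Φ (j + 1) := by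
  classical
  have b1 : ∀ j, BM (sec (fun _ : Multiset α => (1 : ℝ)) j) := fun _ => BM.const 1
  have b2 : ∀ j, BM (sec (fun t => Φ t * Φ t) j) := fun j => (hΦ j).mul (hΦ j)
  have bi := bmOf (ind A hA)
  have k1 : wt2 ν z (annF ν z h.1 Φ) (annF ν z h.1 Φ) j ≤
      wt2 ν z (fun _ => 1) (annF ν z (ind A hA).1 fun t => Φ t * Φ t) j := by
    unfold wt2
    refine mul_le_mul_of_nonneg_left (integral_mono
      ((bm_annF hΦ (bmOf h) _).mul (bm_annF hΦ (bmOf h) _)).integrable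
      ((b1 j).mul (bm_annF b2 bi j)).integrable fun Y => ?_) (by positivity)
    have c := cs_fkau (ν := ν) (bmOf h) (bi.mul (bm_cons hΦ (ms Y)))
    have e1 : ∀ x, h.1 x * ((ind A hA).1 x * Φ (x ::ₘ ms Y)) = h.1 x * Φ (x ::ₘ ms Y) := by
      intro x
      by_cases hx : x ∈ A
      · simp [ind, hx]
      · simp [hh x hx]
    have e2 : ∀ x, (ind A hA).1 x * Φ (x ::ₘ ms Y) * ((ind A hA).1 x * Φ (x ::ₘ ms Y)) =
        (ind A hA).1 x * (Φ (x ::ₘ ms Y) * Φ (x ::ₘ ms Y)) := by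
      intro x
      by_cases hx : x ∈ A <;> simp [ind, hx]
    simp only [e1, e2, sq (h.1 _)] at c
    have c0 : 0 ≤ ∫ x, (ind A hA).1 x * (Φ (x ::ₘ ms Y) * Φ (x ::ₘ ms Y)) ∂(ν : Measure α) :=
      integral_nonneg fun x => by
        rw [← e2]
        exact mul_self_nonneg _
    have c1 := mul_le_mul_of_nonneg_left c (sq_nonneg z)
    have c2 := mul_le_mul_of_nonneg_right h1 (mul_nonneg hz.le c0)
    simp only [sec, annF]
    nlinarith
  refine k1.trans ?_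
  rw [← wt2_creF b1 b2 bi j]
  unfold wt2
  rw [mul_left_comm, ← integral_const_mul (n : ℝ)]
  refine mul_le_mul_of_nonneg_left (integral_mono
    ((bm_creF b1 bi _).mul (b2 _)).integrable
    ((BM.const _).mul (b2 _)).integrable fun X => ?_) (by positivity)
  have e : creF (ind A hA).1 (fun _ => 1) (ms X) = cnt A (ms X) := by
    rw [creF_ms, cnt_ms]
    push_cast
    refine Finset.sum_congr rfl fun i _ => ?_
    by_cases hx : X i ∈ A <;> simp [ind, hx]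
  simp only [sec, e]
  by_cases hc : n < cnt A (ms X)
  · simp [hs _ hc]
  · exact mul_le_mul_of_nonneg_right (Nat.cast_le.2 (not_lt.1 hc)) (mul_self_nonneg _)

/-- Sector by sector, as `wt2_annF_le`: Cauchy-Schwarz gives
`(z ∫ h x Φ (x ::ₘ t))² ≤ z ∫ 1_A x Φ (x ::ₘ t)²`, and
`z ^ j / j! * z ∫ ∫ 1_A x Φ (x ::ₘ ms X)² = z ^ (j+1) / (j+1)! ∑ i ∫ 1_A (X i) Φ (ms X)²`
(this is `wt2_creF` for the indicator function, or `integral_succAbove`), where
`∑ i, 1_A (X i) = cnt A (ms X) ≤ n` on the support of `Φ`. -/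
theorem nq_ann_Mop (hh : ∀ x, x ∉ A → h.1 x = 0)
    (h1 : z * ∫ x, h.1 x * h.1 x ∂(ν : Measure α) ≤ 1) (n : ℕ) (Ψ : FK ν z hz) :
    nq (fip ν z hz) (ann h (Mop A hA (Set.Iic n) Ψ)) ≤
      n * nq (fip ν z hz) (Mop A hA (Set.Iic n) Ψ) := by
  set Φ := Mop A hA (Set.Iic n) Ψ with hΦ
  have hs : ∀ t, n < cnt A t → Φ.1 t = 0 := fun t ht => by
    rw [hΦ, Mop_apply, Set.indicator_of_notMem]
    exact not_le.2 ht
  have h2 := ((hasSum_nat_add_iff' 1).2 (hasSum_fip Φ Φ)).mul_left (n : ℝ)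
  have h3 := hasSum_le (fun j => sect_mops hz hA hh h1 (goodOf Φ).1 hs j)
    (hasSum_fip (ann h Φ) (ann h Φ)) h2
  rw [Finset.sum_range_one] at h3
  have h4 := wt2_nonneg (ν := ν) (Ψ := Φ.1) hz 0
  have h5 : (0 : ℝ) ≤ n := Nat.cast_nonneg n
  unfold nq
  nlinarith [mul_nonneg h5 h4]

end Pool.Agent.BoseLHY
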