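import Pool.Agent.Lib.MP_dec75e_mp.S.LowBox2
import Pool.Agent.Lib.MP_dec75e_mp.S.Ims2
import Pool.Agent.Lib.MP_dec75e_mp.S.Far2
import Pool.Agent.Lib.MP_dec75e_mp.L.Sharp

/-! The gap estimate in one box. -/

open MeasureTheory Finset Function
open scoped Real

noncomputable section

namespace Pool.Agent.BoseLHY

open Pool.Agent.BoseTail

variable {ι : Type} [Fintype ι] [DecidableEq ι] {μ : ι → ProbabilityMeasure R3} {B : Box}
  {S : Finset ι} {R M : ℕ} {i j o : ι} {m m' : M3} {f g u ψ : Vs ι}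

/-- `abs_pair_le'` and `2 |g s| ≤ g² + s²`. -/
theorem Gp_le (hA : Act μ B S) {ν g s : ℝ} (hν : 0 ≤ ν) (hn : ν * S.card ≤ 2) (m : M3) (ψ : Vs ι) :
    Gp μ B S ν g s m ψ ≤ (g ^ 2 + s ^ 2) * (3 * occ μ B S m ψ + 2 * nq (ipB μ) ψ) := by
  have h1 := abs_pair_le' hA m ψ
  have hN : 0 ≤ nq (ipB μ) ψ := (psd_ipB μ).nq_nonneg ψ
  have ho : 0 ≤ occ μ B S m ψ := occ_nonneg
  unfold Gp
  generalize pair μ B S m ψ = p at h1 ⊢
  generalize occ μ B S m ψ = x at h1 ho ⊢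
  generalize nq (ipB μ) ψ = N at h1 hN ⊢
  generalize (S.card : ℝ) = n at h1 hn
  have h2 : ν * |p| ≤ 2 * x + N := by
    calc ν * |p| ≤ ν * (n * (x + N / 2)) := mul_le_mul_of_nonneg_left h1 hν
      _ = ν * n * (x + N / 2) := by ring
      _ ≤ 2 * (x + N / 2) := mul_le_mul_of_nonneg_right hn (by linarith)
      _ = 2 * x + N := by ring
  have h3 : |2 * g * s| ≤ g ^ 2 + s ^ 2 :=
    abs_le.2 ⟨by nlinarith [sq_nonneg (g + s)], by nlinarith [sq_nonneg (g - s)]⟩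
  have h4 : 2 * g * s * ν * p ≤ (g ^ 2 + s ^ 2) * (2 * x + N) := by
    calc 2 * g * s * ν * p = 2 * g * s * (ν * p) := by ring
      _ ≤ |2 * g * s * (ν * p)| := le_abs_self _
      _ = |2 * g * s| * (ν * |p|) := by rw [abs_mul (2 * g * s), abs_mul ν, abs_of_nonneg hν]
      _ ≤ (g ^ 2 + s ^ 2) * (2 * x + N) :=
        mul_le_mul h3 h2 (mul_nonneg hν (abs_nonneg _)) (by positivity)
  have h5 : 0 ≤ g ^ 2 * N := by positivity
  nlinarith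

/-- The weighted number of quasi-particles is bounded by the weighted number of excitations. -/
theorem sumG_near2s (hA : Act μ B S) {ν ε : ℝ} (hν : 0 ≤ ν) (hn : ν * S.card ≤ 2) (hε : 0 ≤ ε)
    (L : Finset M3) {e gg ss ϖ : M3 → ℝ} (he : ∀ m, 0 ≤ e m) (h0 : ∀ m, 0 ≤ ϖ m)
    (h1 : ∀ m, ϖ m ≤ 1) (hw : ∀ m ∈ L, e m * (gg m ^ 2 + ss m ^ 2) ≤ ε * ϖ m) (ψ : Vs ι) :
    ∑ m ∈ L, e m * Gp μ B S ν (gg m) (ss m) m ψ ≤
      3 * ε * mo μ B S ϖ ψ + 2 * ε * L.card * nq (ipB μ) ψ := by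
  have hN : 0 ≤ nq (ipB μ) ψ := (psd_ipB μ).nq_nonneg ψ
  have h2 : ∀ m ∈ L, e m * Gp μ B S ν (gg m) (ss m) m ψ ≤
      3 * ε * (ϖ m * occ μ B S m ψ) + 2 * ε * nq (ipB μ) ψ := fun m hm => by
    have ho : 0 ≤ occ μ B S m ψ := occ_nonneg
    have h3 := mul_le_mul_of_nonneg_left (Gp_le (g := gg m) (s := ss m) hA hν hn m ψ) (he m)
    have h4 := mul_le_mul_of_nonneg_right (hw m hm)
      (show 0 ≤ 3 * occ μ B S m ψ + 2 * nq (ipB μ) ψ by positivity)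
    have h5 := mul_le_mul_of_nonneg_left (h1 m) (mul_nonneg hε hN)
    nlinarith
  have h3 := sum_le_sum h2
  rw [sum_add_distrib, ← mul_sum, sum_const, nsmul_eq_mul] at h3
  have h4 := mul_le_mul_of_nonneg_left (sum_le_mo hA h0 h1 L ψ) (show 0 ≤ 3 * ε by positivity)
  linarith

theorem mo_le_near2s (hA : Act μ B S) {ϖ : M3 → ℝ} (h0 : ∀ m, 0 ≤ ϖ m) (h1 : ∀ m, ϖ m ≤ 1)
    (ψ : Vs ι) : mo μ B S ϖ ψ ≤ S.card * nq (ipB μ) ψ :=
  hasSum_le (fun m => mul_le_of_le_one_left occ_nonneg (h1 m)) (hasSum_mo hA h0 h1 ψ)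
    (hasSum_occ hA ψ)

/-- The localisation error of the number of quasi-particles. -/
theorem locG_near2s {ν E : ℝ} (hν : 0 ≤ ν) (L : Finset M3) {e gg ss : M3 → ℝ} (he : ∀ m, 0 ≤ e m)
    (hw : ∀ m ∈ L, e m * (gg m ^ 2 + ss m ^ 2) ≤ 1) {ψ₀ ψ₁ : Vs ι}
    (hocc : ∀ m, occ μ B S m ψ₀ + occ μ B S m ψ₁ = occ μ B S m ψ)
    (hnq : nq (ipB μ) ψ₀ + nq (ipB μ) ψ₁ = nq (ipB μ) ψ)
    (hp : ∀ m ∈ L, |pair μ B S m ψ₀ + pair μ B S m ψ₁ - pair μ B S m ψ| ≤ E) :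
    ∑ m ∈ L, e m * Gp μ B S ν (gg m) (ss m) m ψ ≤
      ∑ m ∈ L, e m * Gp μ B S ν (gg m) (ss m) m ψ₀ +
        ∑ m ∈ L, e m * Gp μ B S ν (gg m) (ss m) m ψ₁ + L.card * (ν * E) := by
  rw [← nsmul_eq_mul, ← sum_const, ← sum_add_distrib, ← sum_add_distrib]
  refine sum_le_sum fun m hm => ?_
  have h1 := hp m hm
  have h2 := hw m hm
  have h3 := he m
  unfold Gp
  rw [← hocc, ← hnq]
  generalize pair μ B S m ψ = p at h1 ⊢
  generalize pair μ B S m ψ₀ = p0 at h1 ⊢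
  generalize pair μ B S m ψ₁ = p1 at h1 ⊢
  generalize gg m = g at h2 ⊢
  generalize ss m = s at h2 ⊢
  generalize e m = x at h2 h3 ⊢
  have h4 : |2 * g * s| ≤ g ^ 2 + s ^ 2 :=
    abs_le.2 ⟨by nlinarith [sq_nonneg (g + s)], by nlinarith [sq_nonneg (g - s)]⟩
  have h5 : x * |2 * g * s| ≤ 1 := (mul_le_mul_of_nonneg_left h4 h3).trans h2
  have h6 : -(x * (2 * g * s) * (ν * (p0 + p1 - p))) ≤ ν * E := by
    calc -(x * (2 * g * s) * (ν * (p0 + p1 - p)))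
        ≤ |x * (2 * g * s) * (ν * (p0 + p1 - p))| := neg_le_abs _
      _ = x * |2 * g * s| * (ν * |p0 + p1 - p|) := by
        rw [abs_mul (x * _), abs_mul x, abs_mul ν, abs_of_nonneg hν, abs_of_nonneg h3]
      _ ≤ 1 * (ν * E) := mul_le_mul h5 (mul_le_mul_of_nonneg_left h1 hν)
        (mul_nonneg hν (abs_nonneg _)) zero_le_one
      _ = ν * E := one_mul _
  linarith

theorem num_nu_near2s {y V n : ℝ} (hy : 0 < y) (hy1 : y ≤ 1) (hV : 0 < V)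
    (hn : |n - V| ≤ y ^ 80 * V) : V⁻¹ * n ≤ 2 := by
  have h80 : y ^ 80 ≤ 1 := pow_le_one₀ hy.le hy1
  have h1 : y ^ 80 * V ≤ 1 * V := mul_le_mul_of_nonneg_right h80 hV.le
  have h2 := (abs_le.1 hn).2
  rw [inv_mul_le_iff₀ hV]
  linarith

theorem num_card_near2s {y k a : ℝ} (hy : 0 < y) (hy1 : y ≤ 1) (hk : k * y ^ 36 ≤ 27)
    (ha : 0 < a) (hya : y * (108 * π * a) ≤ 1) : 4 * π * a * y ^ 800 * k ≤ y ^ 760 := by
  have hpa : 0 < π * a := mul_pos Real.pi_pos ha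
  have h1 : y ^ 764 ≤ y ^ 760 * y := pow_le_sharpa hy hy1 760 4 (by norm_num)
  calc 4 * π * a * y ^ 800 * k = 4 * (π * a) * y ^ 764 * (k * y ^ 36) := by ring
    _ ≤ 4 * (π * a) * y ^ 764 * 27 := mul_le_mul_of_nonneg_left hk (by positivity)
    _ ≤ 4 * (π * a) * (y ^ 760 * y) * 27 := by gcongr
    _ = y ^ 760 * (y * (108 * π * a)) := by ring
    _ ≤ y ^ 760 * 1 := mul_le_mul_of_nonneg_left hya (by positivity)
    _ = y ^ 760 := mul_one _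

theorem num_loc_near2s {y n k a ν M N : ℝ} (hy : 0 < y) (hy1 : y ≤ 1) (hn0 : 0 ≤ n)
    (hn : n * y ^ 412 ≤ 12) (_hk0 : 0 ≤ k) (hk : k * y ^ 36 ≤ 27) (ha : 0 < a) (hν : 0 ≤ ν)
    (hνn : ν * n ≤ 2) (hM : 700 / M ^ 2 ≤ 11200 * y ^ 584) (hN : 0 ≤ N) :
    4 * π * a * y ^ 800 * (k * (ν * (20 * n ^ 2 / M ^ 2 * N))) ≤
      829440 * (π * a) * y ^ 789 * N := by
  have hpa : 0 < π * a := mul_pos Real.pi_pos ha
  have h0 : 0 ≤ 700 / M ^ 2 := by positivity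
  have h1 : y ^ 936 ≤ y ^ 789 := pow_le_pow_of_le_one hy.le hy1 (by norm_num)
  have e : 4 * π * a * y ^ 800 * (k * (ν * (20 * n ^ 2 / M ^ 2 * N))) =
      4 / 35 * (π * a) * y ^ 352 * N * ((k * y ^ 36) * (ν * n) * (n * y ^ 412) * (700 / M ^ 2)) := by
    ring
  rw [e]
  generalize 700 / M ^ 2 = E at h0 hM
  have h2 : (k * y ^ 36) * (ν * n) * (n * y ^ 412) * E ≤ 27 * 2 * 12 * (11200 * y ^ 584) := by
    refine mul_le_mul ?_ hM h0 (by norm_num)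
    refine mul_le_mul ?_ hn (by positivity) (by norm_num)
    exact mul_le_mul hk hνn (by positivity) (by norm_num)
  calc 4 / 35 * (π * a) * y ^ 352 * N * ((k * y ^ 36) * (ν * n) * (n * y ^ 412) * E)
      ≤ 4 / 35 * (π * a) * y ^ 352 * N * (27 * 2 * 12 * (11200 * y ^ 584)) :=
        mul_le_mul_of_nonneg_left h2 (by positivity)
    _ = 829440 * (π * a) * y ^ 936 * N := by ring
    _ ≤ 829440 * (π * a) * y ^ 789 * N := by gcongr

/-- Follow the proof of `sharp` (second case): `M = ⌊n y ^ 120⌋`, `ims_box2`, `low_box2` for `ψ₀`,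
the third part of `crude2` for `ψ₁` with `ε₀ = min (1 / 4) (c / 3)`:
`μ₀ ∑ e Gp ψ₁ ≤ 3 ε₀ μ₀ mo ψ₁ + 2 ε₀ μ₀ card ‖ψ₁‖²` (`Gp_le`, `sum_le_mo`) and
`μ₀ card ≤ 108 π a y ^ 764 ≤ y ^ 760`. If the conclusion fails then
`pot ψ ≤ (2 μ₀ n + (Ct + 1) y ^ 756) ‖ψ‖²` (`Gp_le`, `∑ occ ≤ n ‖ψ‖²`), as needed in
`num_err_sharp`. The localisation error of the pairing terms is `O (y ^ 936)`. -/
theorem near2 (D : Dat) : ∃ C ε₀ y₀ : ℝ, 1 ≤ C ∧ 0 < ε₀ ∧ ε₀ ≤ 1 / 4 ∧ 0 < y₀ ∧ y₀ ≤ 1 ∧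
    ∀ (y l : ℝ) (R : ℕ) (e : M3 → ℝ), Scale y l R → y ≤ y₀ → D.Sml y l R ε₀ e →
    ∀ {ι : Type} [Fintype ι] [DecidableEq ι] (μ : ι → ProbabilityMeasure R3) (B : Box)
      (S : Finset ι) (ψ : Vs ι) (χ : BF R3), D.Gd χ B y l →
      B.Cube l → Act μ B S → Sym S ψ → C1 ψ → S.card ∈ Near y l →
      (D.mu0 y * S.card + D.tg0 y l R - C * y ^ 789) * nq (ipB μ) ψ +
        D.mu0 y * ∑ m ∈ Lset R,
          e m * Gp μ B S (y ^ 800 * l ^ 3)⁻¹ (D.gf y l m) (D.sf y l m) m ψ ≤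
        En μ S (D.W χ) ψ := by
  obtain ⟨C2, c, y2, -, hc, -, hy2, -, hcr⟩ := crude2 D
  obtain ⟨C3, y3, hC3, hy3, -, hlow⟩ := low_box2 D
  obtain ⟨Cb, y4, hCb, hy4, -, hbox⟩ := box_consts D
  obtain ⟨Ct, hCt, htgt⟩ := D.tgt_le
  have ha := D.ha
  have hpa : 0 < π * D.a := mul_pos Real.pi_pos D.ha
  have hpa' : 0 < 108 * π * D.a := by linarith
  have hC' : 0 ≤ 11200 * (96 * π * D.a + (Ct + 1) + 46656 * Cb) := by nlinarith
  refine ⟨C3 + 11200 * (96 * π * D.a + (Ct + 1) + 46656 * Cb) + 829440 * (π * D.a),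
    min (1 / 4) (c / 3), min (min (min y2 (1 / (108 * π * D.a))) (min y3 y4)) (1 / 2),
    by linarith, by positivity, min_le_left _ _, by positivity,
    (min_le_right _ _).trans (by norm_num), ?_⟩
  intro y l R e hs hy hsm ι _ _ μ B S ψ χ hχ hB hA hS hψ hnear
  have hy0 := hs.y0
  have hyh : y ≤ 1 / 2 := hy.trans (min_le_right _ _)
  have hy1 : y ≤ 1 := by linarith
  have hy' := hy.trans (min_le_left _ _)
  have hyy2 : y ≤ y2 := hy'.trans ((min_le_left _ _).trans (min_le_left _ _))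
  have hyya : y * (108 * π * D.a) ≤ 1 :=
    small_sharpa hpa' (hy'.trans ((min_le_left _ _).trans (min_le_right _ _)))
  have hyy3 : y ≤ y3 := hy'.trans ((min_le_right _ _).trans (min_le_left _ _))
  have hyy4 : y ≤ y4 := hy'.trans ((min_le_right _ _).trans (min_le_right _ _))
  have hε0 : (0 : ℝ) ≤ min (1 / 4) (c / 3) := by positivity
  have hε1 : min (1 / 4) (c / 3) ≤ (1 / 4 : ℝ) := min_le_left _ _
  have hε2 : min (1 / 4) (c / 3) ≤ c / 3 := min_le_right _ _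
  generalize min (1 / 4) (c / 3) = ε at hsm hε0 hε1 hε2
  have hv0 : ∀ m, 0 ≤ D.vp y l m := D.vp_nonneg hy0 l
  have hv1 : ∀ m, D.vp y l m ≤ 1 := D.vp_le_one y l
  have hsm' : D.Sml y l R (1 / 4) e :=
    ⟨hsm.1, fun m hm => (hsm.2 m hm).trans (mul_le_mul_of_nonneg_right hε1 (hv0 m))⟩
  have hw1' : ∀ m ∈ Lset R, e m * (D.gf y l m ^ 2 + D.sf y l m ^ 2) ≤ 1 := fun m hm => by
    have h1 := hsm'.2 m hm
    have h2 := hv1 m
    linarith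
  have hN : 0 ≤ nq (ipB μ) ψ := (psd_ipB μ).nq_nonneg ψ
  have hy789 : 0 ≤ y ^ 789 := by positivity
  have hn : |(S.card : ℝ) - y ^ 800 * l ^ 3| ≤ y ^ 80 * (y ^ 800 * l ^ 3) := hnear
  have hV : 0 < y ^ 800 * l ^ 3 := by
    have := hs.l_pos
    positivity
  have hν : 0 ≤ (y ^ 800 * l ^ 3)⁻¹ := (inv_pos.2 hV).le
  have hνn : (y ^ 800 * l ^ 3)⁻¹ * S.card ≤ 2 := num_nu_near2s hy0 hy1 hV hn
  by_contra hcon
  have hcon' := not_le.1 hcon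
  obtain ⟨hn1, hn2⟩ := num_n_sharp hy0 hyh hs.l1 hs.l2 hn
  obtain ⟨hM1, hM2, hM3, hM4⟩ := num_M_sharp hy0 hyh hn1
  obtain ⟨-, -, -, -, -, -, hw1, hw2, -⟩ := hbox y l R B hs hyy4 hB
  have hW : ∀ z, 0 ≤ (D.W χ).1 z := D.W0 hχ.wgt
  obtain ⟨ψ₀, ψ₁, c0, c1, s0, s1, hl0, hh1, hocc, hnq, hpot, hpair⟩ :=
    ims_box2 (R := R) hA hS hψ hM1 hW (hw1 χ hχ.wgt) (hw2 χ hχ.wgt)
  have hN0 : 0 ≤ nq (ipB μ) ψ₀ := (psd_ipB μ).nq_nonneg ψ₀
  have hN1 : 0 ≤ nq (ipB μ) ψ₁ := (psd_ipB μ).nq_nonneg ψ₁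
  have hke : kin μ S ψ₀ + kin μ S ψ₁ = kin μ S ψ := by
    refine ((kin_hasSum hA c0).add (kin_hasSum hA c1)).unique ?_
    simpa only [← mul_add, hocc] using kin_hasSum hA hψ
  have hp : ∀ m, B.p m = pk l m := fun m => funext fun c => by
    simp only [Box.p, pk, hB c]
  have hT : HasSum (fun m => sq3 (pk l m) / 2 * occ μ B S m ψ₀) (kin μ S ψ₀) := by
    simpa only [hp] using kin_hasSum hA c0
  have h0 := hlow y l R e hs hyy3 hsm' μ B S ψ₀ _ _ χ hχ.wgt hχ.cov hB hA s0 hnear hM2 hl0 hT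
  have h1 := (hcr y l R hs hyy2 μ B S ψ₁ χ hχ hB hA s1 c1).2.2 hnear
    ((mul_le_mul_of_nonneg_right hM3 hN1).trans hh1)
  have hmu := D.mu0_pos hy0
  have h8 : 4 * π * D.a * y ^ 800 = D.mu0 y := rfl
  have hcard := num_card_near2s hy0 hy1 (hs.card_le hy1) ha hyya
  have hG := sumG_near2s hA hν hνn hε0 (Lset R) hsm.1 hv0 hv1 hsm.2 ψ
  have hG1 := sumG_near2s hA hν hνn hε0 (Lset R) hsm.1 hv0 hv1 hsm.2 ψ₁
  have hloc := locG_near2s hν (Lset R) hsm.1 hw1' hocc hnq hpair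
  have hloc' := num_loc_near2s hy0 hy1 (Nat.cast_nonneg _) hn2 (Nat.cast_nonneg _)
    (hs.card_le hy1) ha hν hνn hM4 hN
  rw [h8] at hcard hloc'
  have hk0 : (0 : ℝ) ≤ (Lset R).card := Nat.cast_nonneg _
  have hcard' : D.mu0 y * (2 * ε * (Lset R).card) ≤ y ^ 760 := by
    refine le_trans (mul_le_mul_of_nonneg_left ?_ hmu.le) hcard
    exact mul_le_of_le_one_left hk0 (by linarith)
  have hm1 : 0 ≤ mo μ B S (D.vp y l) ψ₁ := mo_nonneg hv0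
  have hm0 : 0 ≤ mo μ B S (D.vp y l) ψ := mo_nonneg hv0
  have hm2 := mo_le_near2s hA hv0 hv1 ψ
  have hH1 : D.mu0 y * ∑ m ∈ Lset R,
      e m * Gp μ B S (y ^ 800 * l ^ 3)⁻¹ (D.gf y l m) (D.sf y l m) m ψ₁ ≤
      c * D.mu0 y * mo μ B S (D.vp y l) ψ₁ + y ^ 760 * nq (ipB μ) ψ₁ := by
    have g1 := mul_le_mul_of_nonneg_left hG1 hmu.le
    have g2 := mul_le_mul_of_nonneg_right hcard' hN1
    have g3 := mul_le_mul_of_nonneg_right (show 3 * ε ≤ c by linarith) (mul_nonneg hmu.le hm1)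
    linarith
  have hH : D.mu0 y * ∑ m ∈ Lset R,
      e m * Gp μ B S (y ^ 800 * l ^ 3)⁻¹ (D.gf y l m) (D.sf y l m) m ψ ≤
      D.mu0 y * S.card * nq (ipB μ) ψ + y ^ 756 * nq (ipB μ) ψ := by
    have g1 := mul_le_mul_of_nonneg_left hG hmu.le
    have g2 := mul_le_mul_of_nonneg_right
      (hcard'.trans (pow_le_pow_of_le_one hy0.le hy1 (show 756 ≤ 760 by norm_num))) hN
    have g3 := mul_le_mul_of_nonneg_right (show 3 * ε ≤ 1 by linarith) (mul_nonneg hmu.le hm0)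
    have g4 := mul_le_mul_of_nonneg_left hm2 hmu.le
    linarith
  have hL := mul_le_mul_of_nonneg_left hloc hmu.le
  rw [mul_add, mul_add] at hL
  have h7 : 0 ≤ (C3 + 11200 * (96 * π * D.a + (Ct + 1) + 46656 * Cb) + 829440 * (π * D.a)) *
      y ^ 789 * nq (ipB μ) ψ := mul_nonneg (mul_nonneg (by linarith) hy789) hN
  have hP : pot μ S (D.W χ) ψ ≤
      (2 * (4 * π * D.a * y ^ 800 * S.card) + (Ct + 1) * y ^ 756) * nq (ipB μ) ψ := by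
    have h2 : D.tg0 y l R ≤ -(2 * π * D.a * y ^ 1600 * l ^ 3) + Ct * y ^ 756 :=
      htgt y l R (fun _ => 0) hs hy1 fun m => by
        have := hv0 m
        unfold Dat.vp at this
        rw [abs_zero]
        linarith
    have h3 : 0 ≤ 2 * π * D.a * y ^ 1600 * l ^ 3 := by
      have := hs.l_pos
      positivity
    have h4 : D.tg0 y l R * nq (ipB μ) ψ ≤ Ct * y ^ 756 * nq (ipB μ) ψ :=
      mul_le_mul_of_nonneg_right (by linarith) hN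
    have h6 : 0 ≤ kin μ S ψ := kin_nonneg
    rw [h8]
    unfold En at hcon'
    linarith
  have herr := num_err_sharp hy0 hy1 (Nat.cast_nonneg _) hn2 (Nat.cast_nonneg _)
    (hs.card_le hy1) D.ha (show 1 ≤ Ct + 1 by linarith) hCb (by positivity) hM4 hN hP
  have h9 : C3 * y ^ 789 * nq (ipB μ) ψ₀ ≤ C3 * y ^ 789 * nq (ipB μ) ψ :=
    mul_le_mul_of_nonneg_left (by linarith) (mul_nonneg (by linarith) hy789)
  have h10 : (D.mu0 y * S.card + D.tg0 y l R) * nq (ipB μ) ψ =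
      (D.mu0 y * S.card + D.tg0 y l R) * nq (ipB μ) ψ₀ +
        (D.mu0 y * S.card + D.tg0 y l R) * nq (ipB μ) ψ₁ := by rw [← hnq]; ring
  unfold En at hcon' h1
  linarith

end Pool.Agent.BoseLHY
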