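import Pool.Agent.Lib.MP_dec75e_mp.S.Far2
import Pool.Agent.Lib.MP_dec75e_mp.L.Cmp
import Pool.Agent.Lib.MP_dec75e_mp.L.Eigen

/-! The difference operator in one cell. -/

open MeasureTheory Finset Function
open scoped Real

noncomputable section

namespace Pool.Agent.BoseLHY

open Pool.Agent.BoseTail

variable {ι : Type} [Fintype ι] [DecidableEq ι] {μ : ι → ProbabilityMeasure R3} {B : Box}
  {S : Finset ι} {i : ι} {u : Vs ι} {h : BF R3} {l r : ℝ}

/-- `avg_mul_kop` with `Box.eig_symk`. -/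
theorem co_Tb (hB : B.Cube l) (he : Ev h.1) (hs : Supp h.1 r) (hr : r ≤ l) (m : M3) :
    co B i m (Tb B h i u) = sy h (pk l m) • co B i m u := by
  have hE := B.eig_symk he hs fun c => hr.trans_eq (hB c).symm
  have hk : co B i m (kop B.μ i (B.symk h) u) = (ct h.1 (B.p m) / B.vol) • co B i m u :=
    avg_mul_kop hE.symm (hE.eig m)
  unfold Tb sy
  rw [map_sub, map_smul, map_smul, hk, smul_smul, mul_div_cancel₀ _ B.vol_pos.ne', hB.p_eq,
    sub_smul]

/-- The row integrals of `symk h` are `ct h 0 / vol` (`Box.eig_symk` with `m = 0`). -/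
theorem Tb_apply (hB : B.Cube l) (he : Ev h.1) (hs : Supp h.1 r) (hr : r ≤ l) (X : ι → R3) :
    (Tb B h i u).1 X = B.vol * ∫ y, (B.symk h).1 (X i, y) * (u.1 (update X i y) - u.1 X)
      ∂(B.μ : Measure R3) := by
  have hE := B.eig_symk he hs fun c => hr.trans_eq (hB c).symm
  have h0 : ∫ y, (B.symk h).1 (X i, y) ∂(B.μ : Measure R3) = ct h.1 0 / B.vol := by
    have h1 := hE.eig 0 (X i)
    have hp : B.p 0 = 0 := by
      funext c
      simp [Box.p]
    have h3 : ∀ y, (B.e 0).1 y = 1 := fun y => by rw [B.e_zero]; rfl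
    simpa only [h3, hp, mul_one] using h1
  have b1 : BM fun y => (B.symk h).1 (X i, y) :=
    BM.comp (bmOf (B.symk h)) (measurable_const.prodMk measurable_id)
  have hV := B.vol_pos.ne'
  simp only [mul_sub]
  rw [integral_sub (b1.mul (bm_slice u i X)).integrable (b1.mul (BM.const _)).integrable,
    integral_mul_const, h0]
  change B.vol * (∫ y, (B.symk h).1 (X i, y) * u.1 (update X i y) ∂(B.μ : Measure R3)) -
    ct h.1 0 * u.1 X = _
  field_simp

/-- `pars_co`, `co_Em_ind`, `co_Tb`, `hasSum_mo`. -/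
theorem nq_low_Tb (hA : Act μ B S) (hB : B.Cube l) (he : Ev h.1) (hs : Supp h.1 r) (hr : r ≤ l)
    (T : Finset M3) {φ ϖ : M3 → ℝ} {d : ℝ} (h0 : ∀ m, 0 ≤ ϖ m) (h1 : ∀ m, ϖ m ≤ 1)
    (hd : ∀ m, ((if m ∈ T then φ m else 0) - sy h (pk l m)) ^ 2 ≤ d * ϖ m) (u : Vs ι) :
    ∑ i ∈ S, nq (ipB μ) (∑ m ∈ T, φ m • Em B i m (co B i m u) - Tb B h i u) ≤
      d * mo μ B S ϖ u := by
  have hc : ∀ (i : ι) (m : M3), co B i m (∑ m ∈ T, φ m • Em B i m (co B i m u) - Tb B h i u) =
      ((if m ∈ T then φ m else 0) - sy h (pk l m)) • co B i m u := by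
    intro i m
    rw [map_sub, co_Tb hB he hs hr, map_sum, sub_smul]
    congr 1
    simp only [map_smul, co_Em_ind (ind_co u), smul_ite, smul_zero, sum_ite_eq, ite_smul,
      zero_smul]
  have h2 := hasSum_sum (s := S) fun i hi =>
    pars_co (hA i hi) (∑ m ∈ T, φ m • Em B i m (co B i m u) - Tb B h i u)
  simp only [hc, nq_smul, ← mul_sum] at h2
  refine hasSum_le (fun m => ?_) h2 ((hasSum_mo hA h0 h1 u).mul_left d)
  rw [← mul_assoc]
  exact mul_le_mul_of_nonneg_right (hd m) occ_nonneg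

theorem int_mul_oneas {H g : R3 → ℝ} (hH : Integrable H) (hg : BM g) :
    Integrable fun z => H z * g z := by
  obtain ⟨hm, C, hC⟩ := hg
  exact hH.mul_bdd hm.aestronglyMeasurable (Filter.Eventually.of_forall hC)

theorem cs_oneas {H g : R3 → ℝ} (hH : Integrable H) (h0 : ∀ z, 0 ≤ H z) (hg : BM g) :
    (∫ z, H z * g z) ^ 2 ≤ (∫ z, H z) * ∫ z, H z * g z ^ 2 := by
  have i1 := int_mul_oneas hH hg
  have i2 := int_mul_oneas hH (hg.pow 2)
  have h := discrim_le_zero (a := ∫ z, H z) (b := 2 * ∫ z, H z * g z) (c := ∫ z, H z * g z ^ 2)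
    fun t => by
      have e : ∫ z, H z * (t + g z) ^ 2 =
          ∫ z, (H z * (t * t) + 2 * t * (H z * g z)) + H z * g z ^ 2 :=
        integral_congr_ae (Filter.Eventually.of_forall fun z => by ring)
      have e0 : 0 ≤ ∫ z, H z * (t + g z) ^ 2 :=
        integral_nonneg fun z => mul_nonneg (h0 z) (sq_nonneg _)
      have i3 : Integrable fun z => H z * (t * t) + 2 * t * (H z * g z) :=
        (hH.mul_const _).add (i1.const_mul _)
      rw [e, integral_add i3 i2, integral_add (hH.mul_const _) (i1.const_mul _),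
        integral_mul_const, integral_const_mul] at e0
      linarith
  unfold discrim at h
  linarith

/-- `cmp_one` inside the cell which contains `x`. -/
theorem cmp_cell_oneas {L : ℝ} [Fact (0 < L)] {K : ℕ} (hl : 0 < l) (hL : L = K * l) (he : Ev h.1)
    (hs : Supp h.1 r) {H : R3 → ℝ} (hH : Mono H) (hHi : Integrable H) (hh : ∀ z, |h.1 z| ≤ H z)
    {k : Fin 3 → Fin K} {x : R3} (hx : x ∈ (cell 0 K l hl 0 k).set) {q : R3 → ℝ} (hq : BM q)
    (hq0 : ∀ z, 0 ≤ q z) :
    |(cell 0 K l hl 0 k).vol * ∫ y, ((cell 0 K l hl 0 k).symk h).1 (x, y) * q y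
        ∂((cell 0 K l hl 0 k).μ : Measure R3) - ∫ z, h.1 z * q (x + z)| ≤
      28 * ((layT K r).indicator (fun _ => (1 : ℝ)) (proj L x) * ∫ z, H z * q (x + z)) := by
  have hP : Part (big L) (cell 0 K l hl 0) := part_cell (B := big L) hl (hL ▸ big_cube) 0
  have h1 := cmp_one hl hL he hs hH hHi hh hq hq0 (hP.sub k hx)
  have hL0 : (0 : ℝ) < L := Fact.out
  simp only [glue_of_mem hP _ hx, ← Set.indicator_mul_left] at h1
  rwa [hP.integral_ind k, big_cube.vol, ← mul_assoc, mul_div_cancel₀ _ (pow_pos hL0 3).ne'] at h1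

/-- The signed version of `cmp_cell_oneas`. -/
theorem cmp_abs_oneas {L : ℝ} [Fact (0 < L)] {K : ℕ} (hl : 0 < l) (hL : L = K * l) (he : Ev h.1)
    (hs : Supp h.1 r) {H : R3 → ℝ} (hH : Mono H) (hHi : Integrable H) (hh : ∀ z, |h.1 z| ≤ H z)
    {k : Fin 3 → Fin K} {x : R3} (hx : x ∈ (cell 0 K l hl 0 k).set) {q : R3 → ℝ} (hq : BM q) :
    |(cell 0 K l hl 0 k).vol * ∫ y, ((cell 0 K l hl 0 k).symk h).1 (x, y) * q y
        ∂((cell 0 K l hl 0 k).μ : Measure R3) - ∫ z, h.1 z * q (x + z)| ≤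
      28 * ((layT K r).indicator (fun _ => (1 : ℝ)) (proj L x) * ∫ z, H z * |q (x + z)|) := by
  have c1 := cmp_cell_oneas hl hL he hs hH hHi hh hx (hq.abs.add hq) fun z =>
    neg_le_iff_add_nonneg.1 (neg_le_abs _)
  have c2 := cmp_cell_oneas hl hL he hs hH hHi hh hx (hq.abs.sub hq) fun z =>
    sub_nonneg.2 (le_abs_self _)
  set Q := cell 0 K l hl 0 k
  have b1 : BM fun y => (Q.symk h).1 (x, y) :=
    BM.comp (bmOf (Q.symk h)) (measurable_const.prodMk measurable_id)
  have b2 : BM fun z => q (x + z) := hq.comp (measurable_const.add measurable_id)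
  have hi : Integrable h.1 := hs.integrable (bmOf h)
  simp only [mul_add, mul_sub] at c1 c2
  rw [integral_add (b1.mul hq.abs).integrable (b1.mul hq).integrable,
    integral_add (int_mul_oneas hi b2.abs) (int_mul_oneas hi b2),
    integral_add (int_mul_oneas hHi b2.abs) (int_mul_oneas hHi b2)] at c1
  rw [integral_sub (b1.mul hq.abs).integrable (b1.mul hq).integrable,
    integral_sub (int_mul_oneas hi b2.abs) (int_mul_oneas hi b2),
    integral_sub (int_mul_oneas hHi b2.abs) (int_mul_oneas hHi b2)] at c2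
  rw [abs_le] at c1 c2 ⊢
  constructor <;> linarith [c1.1, c1.2, c2.1, c2.2]

/-- `cmp_one` for the positive and the negative part of `q y = u (update X i y) - u X`
(`glue_of_mem`, `Part.integral_ind`, `Tb_apply`), then Cauchy-Schwarz
`(∫ H |q|)² ≤ (∫ H) ∫ H q²`. -/
theorem Tb_sub_T {L : ℝ} [Fact (0 < L)] {K : ℕ} (hl : 0 < l) (hL : L = K * l) (he : Ev h.1)
    (hs : Supp h.1 r) (hr : r ≤ l) {H : R3 → ℝ} (hH : Mono H) (hHi : Integrable H)
    (hh : ∀ z, |h.1 z| ≤ H z) {k : Fin 3 → Fin K} {T : Vs ι} (hT : IsT h i u T) {X : ι → R3}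
    (hX : X i ∈ (cell 0 K l hl 0 k).set) :
    ((Tb (cell 0 K l hl 0 k) h i u).1 X - T.1 X) ^ 2 ≤
      784 * (∫ z, H z) * ((layT K r).indicator (fun _ => (1 : ℝ)) (proj L (X i)) *
        ∫ z, H z * (u.1 (update X i (X i + z)) - u.1 X) ^ 2) := by
  have hq : BM fun y => u.1 (update X i y) - u.1 X := (bm_slice u i X).sub (BM.const _)
  have c := cmp_abs_oneas hl hL he hs hH hHi hh hX hq
  have b2 : BM fun z => u.1 (update X i (X i + z)) - u.1 X :=
    hq.comp (T := fun z => X i + z) (measurable_const.add measurable_id)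
  have c2 := cs_oneas hHi (fun z => (abs_nonneg _).trans (hh z)) b2.abs
  simp only [sq_abs] at c2
  rw [Tb_apply (cell_cube 0 hl k) he hs hr, hT X, ← sq_abs]
  refine (pow_le_pow_left₀ (abs_nonneg _) c 2).trans ?_
  by_cases hx : proj L (X i) ∈ layT (L := L) K r
  · rw [Set.indicator_of_mem hx, one_mul, one_mul]
    linarith
  · rw [Set.indicator_of_notMem hx]
    simp

end Pool.Agent.BoseLHY
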