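import Pool.Agent.Lib.MP_dec75e_mp.S.OneA
import Pool.Agent.Lib.MP_dec75e_mp.S.Asg2
import Pool.Agent.Lib.MP_dec75e_mp.S.LocF
import Pool.Agent.Lib.MP_dec75e_mp.S.Emb
import Pool.Agent.Lib.MP_dec75e_mp.L.Cmp2

/-! Comparison of the localised operator with the translation invariant one. -/

open MeasureTheory Finset Function
open scoped Real

noncomputable section

namespace Pool.Agent.BoseLHY

open Pool.Agent.BoseTail

section
variable {ι : Type} [Fintype ι] [DecidableEq ι] {C : Type} [Fintype C] [DecidableEq C] {B : Box}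
  {Q : C → Box} {i : ι} {u : Vs ι}

/-- `hb_of_mem`, `hb_of_notMem`, `integral_hb`, `co_val_op3`. -/
theorem Tl_apply (hP : Part B Q) (T : Finset M3) (φ : M3 → ℝ) {k : C} {X : ι → R3}
    (hX : X i ∈ (Q k).set) :
    (Tl B Q T φ i u).1 X = (∑ m ∈ T, φ m • Em (Q k) i m (co (Q k) i m u)).1 X := by
  have e1 : (Tl B Q T φ i u).1 X = ∑ k', ∑ m ∈ T, φ m * B.vol *
      ((hb Q (k', m)).1 (X i) * (cfo B.μ (hb Q (k', m)) i u).1 X) := by
    unfold Tl
    rw [LinearMap.sum_apply, AddSubmonoidClass.coe_finsetSum, Finset.sum_apply,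
      Finset.sum_product]
    rfl
  have e2 : (∑ m ∈ T, φ m • Em (Q k) i m (co (Q k) i m u)).1 X =
      ∑ m ∈ T, φ m * (((Q k).e m).1 (X i) * (co (Q k) i m u).1 X) := by
    rw [AddSubmonoidClass.coe_finsetSum, Finset.sum_apply]
    rfl
  rw [e1, e2, Finset.sum_eq_single k]
  · refine Finset.sum_congr rfl fun m _ => ?_
    have h1 := integral_hb hP k m fun y => u.1 (update X i y)
    have h2 : √(Q k).vol ≠ 0 := (Real.sqrt_pos.2 (Q k).vol_pos).ne'
    rw [hb_of_mem hX, cfo_apply, co_val_op3]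
    calc φ m * B.vol * ((√(Q k).vol)⁻¹ * ((Q k).e m).1 (X i) *
          ∫ y, (hb Q (k, m)).1 y * u.1 (update X i y) ∂(B.μ : Measure R3))
        = φ m * ((√(Q k).vol)⁻¹ * ((Q k).e m).1 (X i)) *
          (B.vol * ∫ y, (hb Q (k, m)).1 y * u.1 (update X i y) ∂(B.μ : Measure R3)) := by ring
      _ = _ := by
        rw [h1]
        field_simp
  · intro k' _ hk
    refine Finset.sum_eq_zero fun m _ => ?_
    rw [hb_of_notMem fun hx => hk (hP.disj k' k _ hx hX)]
    ring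
  · intro hk
    exact absurd (Finset.mem_univ k) hk

/-- Both sides are `∑ φ * ip (hb x) c • cfo (hb x) i u`. -/
theorem cfo_lowf (T : Finset M3) (φ : M3 → ℝ) (c : BF R3) (i : ι) (u : Vs ι) :
    cfo B.μ (lowf B Q T φ c) i u = cfo B.μ c i (Tl B Q T φ i u) := by
  have e1 : cfo B.μ (lowf B Q T φ c) i u =
      ∑ x ∈ (univ : Finset C) ×ˢ T, (φ x.2 * B.ip (hb Q x) c) • cfo B.μ (hb Q x) i u := by
    change avg B.μ i (at1 i (lowf B Q T φ c) * u) = _
    unfold lowf
    rw [map_sum, Finset.sum_mul, map_sum]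
    refine Finset.sum_congr rfl fun x _ => ?_
    rw [map_smul, smul_mul_assoc, map_smul]
    rfl
  rw [e1]
  unfold Tl
  rw [LinearMap.sum_apply, map_sum]
  refine Finset.sum_congr rfl fun x _ => ?_
  rw [LinearMap.smul_apply, map_smul]
  refine Subtype.ext (funext fun X => ?_)
  change φ x.2 * B.ip (hb Q x) c * (cfo B.μ (hb Q x) i u).1 X =
    φ x.2 * B.vol * (cfo B.μ c i (at1 i (hb Q x) * cfo B.μ (hb Q x) i u)).1 X
  rw [cfo_apply c]
  have e2 : ∀ y, c.1 y * (at1 i (hb Q x) * cfo B.μ (hb Q x) i u : Vs ι).1 (update X i y) =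
      (hb Q x).1 y * c.1 y * (cfo B.μ (hb Q x) i u).1 X := fun y => by
    change c.1 y * ((hb Q x).1 (update X i y i) * (cfo B.μ (hb Q x) i u).1 (update X i y)) = _
    rw [ind_cfo (hb Q x) i u X y, update_self]
    ring
  simp only [e2]
  rw [integral_mul_const]
  unfold Box.ip
  ring

end

variable {N : ℕ} {L : ℝ} [Fact (0 < L)]

theorem int_sq_onebs {H : R3 → ℝ} (hHi : Integrable H) (u : Vs (Fin N)) (X : Fin N → R3)
    (i : Fin N) : Integrable fun z => H z * (u.1 (update X i (X i + z)) - u.1 X) ^ 2 := by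
  have h1 : BM fun z : R3 => (u.1 (update X i (X i + z)) - u.1 X) ^ 2 :=
    ((BM.comp (bm_slice u i X) (T := fun z : R3 => X i + z)
      (measurable_const.add measurable_id)).sub (BM.const _)).pow 2
  obtain ⟨hm, C, hC⟩ := h1
  exact hHi.mul_bdd hm.aestronglyMeasurable (Filter.Eventually.of_forall hC)

theorem gz_onebs {ψ : Cf N L → ℂ} (hψ : Continuous ψ) {H : R3 → ℝ} (hHi : Integrable H)
    (X : Fin N → R3) (i : Fin N) :
    (∫ z, H z * ((liftRe ψ hψ).1 (update X i (X i + z)) - (liftRe ψ hψ).1 X) ^ 2) +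
      ∫ z, H z * ((liftIm ψ hψ).1 (update X i (X i + z)) - (liftIm ψ hψ).1 X) ^ 2 =
      ∫ z, H z * Gz ψ i (fun j => proj L (X j)) z := by
  rw [← integral_add (int_sq_onebs hHi _ X i) (int_sq_onebs hHi _ X i)]
  refine integral_congr_ae (Filter.Eventually.of_forall fun z => ?_)
  have h3 := proj_update (L := L) X i z
  change H z * ((ψ fun j => proj L (update X i (X i + z) j)).re -
      (ψ fun j => proj L (X j)).re) ^ 2 +
    H z * ((ψ fun j => proj L (update X i (X i + z) j)).im -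
      (ψ fun j => proj L (X j)).im) ^ 2 = _
  rw [h3]
  beta_reduce
  unfold Gz
  rw [Complex.sq_norm, Complex.normSq_apply, Complex.sub_re, Complex.sub_im]
  ring

theorem sq_onebs {a b t a' b' t' c e p p' g : ℝ} (h : (b - t) ^ 2 ≤ 784 * c * (e * p))
    (h' : (b' - t') ^ 2 ≤ 784 * c * (e * p')) (hg : p + p' = g) :
    (a - t) * (a - t) + (a' - t') * (a' - t') - 1568 * c * (e * g) ≤
      2 * ((a - b) * (a - b)) + 2 * ((a' - b') * (a' - b')) := by
  subst hg
  nlinarith [sq_nonneg (a - b - (b - t)), sq_nonneg (a' - b' - (b' - t'))]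

/-- `integral_le_asum` for `Φ = ∑ i ((Tl u - T i)² + (Tl u' - T' i)² - 1568 (∫ H) Lay i)` where
`Lay i X = 1_layT (proj (X i)) * ∫ H z * Gz ψ i (proj X) z` (`bm_E_cmp2`, `measurable_projN`,
`integral_lift`). On an assignment `a`, for `k = a i` and a.e. `X` (`X i ∈ Q k`):
`(Tl u - T)² ≤ 2 (∑ φ Em co u - Tb u)² + 2 (Tb u - T)²` (`Tl_apply`, `Tb_sub_T`, `proj_update`);
sum over the fibres (`Finset.sum_fiberwise`) and use `nq_low_Tb` with `act_fib`. -/
theorem sum_Tl_T {ψ : Cf N L → ℂ} (hψ : Continuous ψ) {K : ℕ} {l r : ℝ} (hl : 0 < l)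
    (hL : L = K * l) {h : BF R3} (he : Ev h.1) (hs : Supp h.1 r) (hr : r ≤ l) {H : R3 → ℝ}
    (hH : Mono H) (hHi : Integrable H) (hh : ∀ z, |h.1 z| ≤ H z) (F : Finset M3)
    {φ ϖ : M3 → ℝ} {d : ℝ} (h0 : ∀ m, 0 ≤ ϖ m) (h1 : ∀ m, ϖ m ≤ 1)
    (hd : ∀ m, ((if m ∈ F then φ m else 0) - sy h (pk l m)) ^ 2 ≤ d * ϖ m)
    {T T' : Fin N → Vs (Fin N)} (hT : ∀ i, IsT h i (liftRe ψ hψ) (T i))
    (hT' : ∀ i, IsT h i (liftIm ψ hψ) (T' i)) :
    (L ^ 3) ^ N * ∑ i,
        (nq (ipB fun _ => (big L).μ) (Tl (big L) (cell 0 K l hl 0) F φ i (liftRe ψ hψ) - T i) +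
          nq (ipB fun _ => (big L).μ) (Tl (big L) (cell 0 K l hl 0) F φ i (liftIm ψ hψ) - T' i)) ≤
      2 * d * ((L ^ 3) ^ N * (aM (big L) (cell 0 K l hl 0) Set.univ ϖ (liftRe ψ hψ) +
        aM (big L) (cell 0 K l hl 0) Set.univ ϖ (liftIm ψ hψ))) +
        1568 * (∫ z, H z) * LayE H K r ψ := by
  have hL0 : 0 < L := Fact.out
  have hP : Part (big L) (cell 0 K l hl 0) :=
    part_cell (B := big L) hl (fun _ => hL) 0
  obtain ⟨Q, hQ⟩ : ∃ Q, Q = cell 0 K l hl 0 := ⟨_, rfl⟩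
  obtain ⟨c, hc⟩ : ∃ c, c = ∫ z, H z := ⟨_, rfl⟩
  have hcube : ∀ k, (Q k).Cube l := fun k => hQ ▸ cell_cube 0 hl k
  have hTb : ∀ (k : Fin 3 → Fin K) (i : Fin N) (u T : Vs (Fin N)), IsT h i u T →
      ∀ X : Fin N → R3, X i ∈ (Q k).set → ((Tb (Q k) h i u).1 X - T.1 X) ^ 2 ≤
        784 * c * ((layT K r).indicator (fun _ => (1 : ℝ)) (proj L (X i)) *
          ∫ z, H z * (u.1 (update X i (X i + z)) - u.1 X) ^ 2) := by
    intro k i u T hT X hX
    subst hQ hc
    exact Tb_sub_T hl hL he hs hr hH hHi hh hT hX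
  rw [← hQ] at hP ⊢
  rw [← hc]
  obtain ⟨E, hE⟩ : ∃ E : Fin N → Cf N L → ℝ, E = fun i X =>
      (layT K r).indicator (fun _ => (1 : ℝ)) (X i) * ∫ z, H z * Gz ψ i X z := ⟨_, rfl⟩
  have bE : ∀ i, BM (E i) := fun i => hE ▸ bm_E_cmp2 hψ hHi i K r
  have bE' : ∀ i, BM fun X : Fin N → R3 => E i fun j => proj L (X j) :=
    fun i => BM.comp (bE i) measurable_projN
  have hLay : LayE H K r ψ = ∑ i, (L ^ 3) ^ N *
      ∫ X, E i (fun j => proj L (X j)) ∂pm (fun _ : Fin N => (big L).μ) := by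
    unfold LayE
    refine Finset.sum_congr rfl fun i _ => ?_
    rw [show (fun _ : Fin N => (big L).μ) = bigM N L from rfl, integral_lift (bE i), hE]
  obtain ⟨D, hD⟩ : ∃ D : Fin N → Vs (Fin N),
      D = fun i => Tl (big L) Q F φ i (liftRe ψ hψ) - T i := ⟨_, rfl⟩
  obtain ⟨D', hD'⟩ : ∃ D' : Fin N → Vs (Fin N),
      D' = fun i => Tl (big L) Q F φ i (liftIm ψ hψ) - T' i := ⟨_, rfl⟩
  have b1 : ∀ i, BM fun X => (D i).1 X * (D i).1 X := fun i => (bmOf _).mul (bmOf _)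
  have b2 : ∀ i, BM fun X => (D' i).1 X * (D' i).1 X := fun i => (bmOf _).mul (bmOf _)
  have b3 : ∀ i, BM fun X : Fin N → R3 => 1568 * c * E i fun j => proj L (X j) :=
    fun i => (BM.const _).mul (bE' i)
  have b4 : ∀ i, BM fun X : Fin N → R3 => (D i).1 X * (D i).1 X + (D' i).1 X * (D' i).1 X -
      1568 * c * E i fun j => proj L (X j) := fun i => ((b1 i).add (b2 i)).sub (b3 i)
  have hΦ : BM fun X : Fin N → R3 => ∑ i, ((D i).1 X * (D i).1 X + (D' i).1 X * (D' i).1 X -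
      1568 * c * E i fun j => proj L (X j)) := BM.sum fun i _ => b4 i
  have key := integral_le_asum hP hΦ (G := fun k μ S =>
    2 * d * (mo μ (Q k) S ϖ (liftRe ψ hψ) + mo μ (Q k) S ϖ (liftIm ψ hψ))) (fun a => by
      obtain ⟨μ, hμ⟩ : ∃ μ, μ = asg (fun _ : Fin N => (big L).μ) univ Q a := ⟨_, rfl⟩
      have hA : ∀ k, Act μ (Q k) (fib a k) := fun k => hμ ▸ act_fib a k
      rw [← hμ]
      obtain ⟨W, hW⟩ : ∃ W : (Fin 3 → Fin K) → Fin N → Vs (Fin N) → Vs (Fin N), W = fun k i u =>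
          ∑ m ∈ F, φ m • Em (Q k) i m (co (Q k) i m u) - Tb (Q k) h i u := ⟨_, rfl⟩
      have c1 : ∀ k i u, BM fun X => 2 * ((W k i u).1 X * (W k i u).1 X) :=
        fun k i u => (BM.const _).mul ((bmOf _).mul (bmOf _))
      have hae : ∀ᵐ X ∂pm μ, ∀ i, X i ∈ (Q (a i)).set := by
        refine ae_all_iff.2 fun i => ae_coord (μ := μ) i ?_
        rw [hA (a i) i (by simp [fib])]
        exact (Q (a i)).ae_mem
      have s1 : ∫ X, ∑ i, ((D i).1 X * (D i).1 X + (D' i).1 X * (D' i).1 X -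
            1568 * c * E i fun j => proj L (X j)) ∂pm μ ≤
          ∫ X, ∑ i, (2 * ((W (a i) i (liftRe ψ hψ)).1 X * (W (a i) i (liftRe ψ hψ)).1 X) +
            2 * ((W (a i) i (liftIm ψ hψ)).1 X * (W (a i) i (liftIm ψ hψ)).1 X)) ∂pm μ := by
        refine integral_mono_ae hΦ.integrable
          (BM.sum fun i _ => (c1 _ _ _).add (c1 _ _ _)).integrable ?_
        filter_upwards [hae] with X hX
        refine Finset.sum_le_sum fun i _ => ?_
        have t1 := Tl_apply (i := i) (u := liftRe ψ hψ) hP F φ (hX i)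
        have t2 := Tl_apply (i := i) (u := liftIm ψ hψ) hP F φ (hX i)
        have t3 := sq_onebs (a := (Tl (big L) Q F φ i (liftRe ψ hψ)).1 X)
          (a' := (Tl (big L) Q F φ i (liftIm ψ hψ)).1 X) (hTb _ i _ _ (hT i) X (hX i))
          (hTb _ i _ _ (hT' i) X (hX i)) (gz_onebs hψ hHi X i)
        have w1 : ∀ u, (W (a i) i u).1 X =
            (∑ m ∈ F, φ m • Em (Q (a i)) i m (co (Q (a i)) i m u)).1 X -
              (Tb (Q (a i)) h i u).1 X := fun u => by rw [hW]; rfl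
        have d1 : (D i).1 X = (Tl (big L) Q F φ i (liftRe ψ hψ)).1 X - (T i).1 X := by
          rw [hD]; rfl
        have d2 : (D' i).1 X = (Tl (big L) Q F φ i (liftIm ψ hψ)).1 X - (T' i).1 X := by
          rw [hD']; rfl
        rw [w1, w1, d1, d2, ← t1, ← t2, hE]
        exact t3
      refine s1.trans ?_
      rw [integral_finsetSum _ fun i _ => ((c1 _ _ _).add (c1 _ _ _)).integrable,
        ← Finset.sum_fiberwise (univ : Finset (Fin N)) a]
      refine Finset.sum_le_sum fun k _ => ?_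
      have n1 := nq_low_Tb (hA k) (hcube k) he hs hr F h0 h1 hd (liftRe ψ hψ)
      have n2 := nq_low_Tb (hA k) (hcube k) he hs hr F h0 h1 hd (liftIm ψ hψ)
      have s2 : ∑ i ∈ fib a k, ∫ X,
          (2 * ((W (a i) i (liftRe ψ hψ)).1 X * (W (a i) i (liftRe ψ hψ)).1 X) +
            2 * ((W (a i) i (liftIm ψ hψ)).1 X * (W (a i) i (liftIm ψ hψ)).1 X)) ∂pm μ =
          2 * ∑ i ∈ fib a k, nq (ipB μ) (W k i (liftRe ψ hψ)) +
            2 * ∑ i ∈ fib a k, nq (ipB μ) (W k i (liftIm ψ hψ)) := by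
        rw [Finset.mul_sum, Finset.mul_sum, ← Finset.sum_add_distrib]
        refine Finset.sum_congr rfl fun i hi => ?_
        have hk : a i = k := (Finset.mem_filter.1 hi).2
        rw [hk, integral_add (c1 _ _ _).integrable (c1 _ _ _).integrable, integral_const_mul,
          integral_const_mul]
        rfl
      refine (le_of_eq s2).trans ?_
      rw [hW]
      linarith)
  have e1 : ∑ k, asum (big L) Q k Set.univ (fun μ S =>
      2 * d * (mo μ (Q k) S ϖ (liftRe ψ hψ) + mo μ (Q k) S ϖ (liftIm ψ hψ))) =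
      2 * d * (aM (big L) Q Set.univ ϖ (liftRe ψ hψ) + aM (big L) Q Set.univ ϖ (liftIm ψ hψ)) := by
    unfold aM
    rw [← Finset.sum_add_distrib, Finset.mul_sum]
    refine Finset.sum_congr rfl fun k _ => ?_
    rw [asum_mul, asum_add]
  have e2 : ∫ X, ∑ i, ((D i).1 X * (D i).1 X + (D' i).1 X * (D' i).1 X -
      1568 * c * E i fun j => proj L (X j)) ∂pm (fun _ : Fin N => (big L).μ) =
      ∑ i, (nq (ipB fun _ => (big L).μ) (D i) + nq (ipB fun _ => (big L).μ) (D' i)) -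
        1568 * c * ∑ i, ∫ X, E i (fun j => proj L (X j)) ∂pm (fun _ : Fin N => (big L).μ) := by
    rw [integral_finsetSum _ fun i _ => (b4 i).integrable, Finset.mul_sum,
      ← Finset.sum_sub_distrib]
    refine Finset.sum_congr rfl fun i _ => ?_
    rw [integral_sub ((b1 i).add (b2 i)).integrable (b3 i).integrable,
      integral_add (b1 i).integrable (b2 i).integrable, integral_const_mul]
    rfl
  rw [e1, e2, hD, hD'] at key
  rw [hLay, ← Finset.mul_sum]
  have k2 := mul_le_mul_of_nonneg_left key (show (0 : ℝ) ≤ (L ^ 3) ^ N by positivity)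
  linarith

end Pool.Agent.BoseLHY
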