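import Pool.Agent.Lib.MP_dec75e_mp.S.Pw
import Pool.Agent.Lib.MP_dec75e_mp.S.Emb

/-! The momentum distribution in terms of real wave functions. -/

open MeasureTheory Finset Function
open scoped Real

noncomputable section

namespace Pool.Agent.BoseLHY

open Pool.Agent.BoseTail

variable {N : ℕ} {L : ℝ} [Fact (0 < L)]

theorem norm_hat_shift_pw2s (φ : T3 L → ℂ) (u : T3 L) (n : Fin 3 → ℤ) :
    ‖hat (fun y => φ (y + u)) n‖ = ‖hat φ n‖ := by
  have h1 : hat φ n = (starRingEnd ℂ) (wave n u) * hat (fun y => φ (y + u)) n := by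
    unfold hat
    rw [← integral_const_mul,
      ← integral_add_right_eq_self (fun y => (starRingEnd ℂ) (wave n y) * φ y) u]
    congr 1
    funext y
    rw [wave_add, map_mul]
    ring
  rw [h1, norm_mul, RCLike.norm_conj, norm_wave, one_mul]

/-- `Kop_expect`; the Fourier coefficient of the translated slice is multiplied by a phase. -/
theorem Mom_tr {ψ : Cf N L → ℂ} (hψ : Continuous ψ) (u : T3 L) (n : Fin 3 → ℤ) :
    Mom (tr u ψ) n = Mom ψ n := by
  have ht : Continuous (tr u ψ) := hψ.comp (continuous_add_const _)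
  unfold Mom
  congr 1
  refine sum_congr rfl fun i _ => ?_
  rw [Kop_expect ht, Kop_expect hψ,
    ← integral_add_right_eq_self (fun x : Cf N L => ‖hat (fun y => ψ (update x i y)) n‖ ^ 2)
      fun _ => u]
  congr 2
  funext x
  rw [← norm_hat_shift_pw2s (fun y => ψ (update (x + fun _ => u) i y)) u n]
  congr 3
  funext y
  unfold tr
  congr 1
  funext j
  by_cases hj : j = i
  · subst hj
    simp
  · simp [update_of_ne hj]

/-- The slice of a many-body function. -/
def slc_pw2s {ι : Type} [DecidableEq ι] (F : Vs ι) (i : ι) (X : ι → R3) : BF R3 :=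
  ⟨fun y => F.1 (update X i y), BM.comp (bmOf F) (measurable_update X)⟩

theorem ip_slc_pw2s {ι : Type} [Fintype ι] [DecidableEq ι] (B : Box) (p : BF R3) (F : Vs ι) (i : ι)
    (X : ι → R3) : B.ip p (slc_pw2s F i X) = B.vol * (cfo B.μ p i F).1 X := by
  rw [cfo_apply]
  rfl

theorem nq_add_pw2s {ι : Type} [Fintype ι] [DecidableEq ι] (μ : ι → ProbabilityMeasure R3)
    (A A' : Vs ι) : nq (ipB μ) A + nq (ipB μ) A' = ∫ X, (A.1 X ^ 2 + A'.1 X ^ 2) ∂pm μ := by
  rw [nq_ipB, nq_ipB, ← map_add, ex_apply]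
  congr 1
  funext X
  rw [sq, sq]
  rfl

theorem hat_slice_pw2s {ψ : Cf N L → ℂ} (hψ : Continuous ψ) (n : Fin 3 → ℤ) (i : Fin N)
    (X : Fin N → R3) :
    ‖hat (fun y => ψ (update (fun j => proj L (X j)) i y)) n‖ ^ 2 = (L ^ 3) ^ 3 *
      ((cfo (big L).μ (cw L n) i (liftRe ψ hψ) + cfo (big L).μ (sw L n) i (liftIm ψ hψ)).1 X ^ 2 +
       (cfo (big L).μ (cw L n) i (liftIm ψ hψ) - cfo (big L).μ (sw L n) i (liftRe ψ hψ)).1 X ^ 2) := by
  have hL3 : (0 : ℝ) < L ^ 3 := pow_pos Lpos 3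
  have h0 : ∀ y : R3, (fun j => proj L (update X i y j)) =
      update (fun j => proj L (X j)) i (proj L y) := fun y => comp_update (proj L) X i y
  rw [hat_ip_pws (u := fun y => ψ (update (fun j => proj L (X j)) i y))
    (hψ.comp ((continuous_update2 i).comp (continuous_const.prodMk continuous_id)))
    (f := slc_pw2s (liftRe ψ hψ) i X) (g := slc_pw2s (liftIm ψ hψ) i X)
    (fun y => congrArg (fun Y => (ψ Y).re) (h0 y)) (fun y => congrArg (fun Y => (ψ Y).im) (h0 y)) n,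
    Complex.sq_norm, Complex.normSq_add_mul_I]
  simp only [ip_slc_pw2s, big_vol_orthgu, mul_pow _ _ 2, Real.sq_sqrt hL3.le]
  change _ = (L ^ 3) ^ 3 * (((cfo (big L).μ (cw L n) i (liftRe ψ hψ)).1 X +
    (cfo (big L).μ (sw L n) i (liftIm ψ hψ)).1 X) ^ 2 +
    ((cfo (big L).μ (cw L n) i (liftIm ψ hψ)).1 X -
      (cfo (big L).μ (sw L n) i (liftRe ψ hψ)).1 X) ^ 2)
  ring

/-- `Kop_expect`, `integral_lift`, `mp3_lift`, `wave_proj_foud`. -/
theorem Mom_occZ {ψ : Cf N L → ℂ} (hψ : Continuous ψ) (n : Fin 3 → ℤ) :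
    N * Mom ψ n / L ^ 3 =
      (L ^ 3) ^ N * occZ (big L) (cw L n) (sw L n) (liftRe ψ hψ) (liftIm ψ hψ) := by
  have hL3 : (0 : ℝ) < L ^ 3 := pow_pos Lpos 3
  have h1 : N * Mom ψ n = ∑ i, ((∫ x, (starRingEnd ℂ) (ψ x) * Kop i n ψ x).re) := by
    unfold Mom
    rcases Nat.eq_zero_or_pos N with h | h
    · subst h
      simp
    · rw [← mul_assoc, mul_one_div_cancel (Nat.cast_ne_zero.2 h.ne'), one_mul]
  unfold occZ
  rw [h1, big_vol_orthgu, mul_sum, mul_sum, sum_div]
  refine sum_congr rfl fun i _ => ?_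
  rw [Kop_expect hψ, ← integral_lift (F := fun x => ‖hat (fun y => ψ (update x i y)) n‖ ^ 2)
    (BM.of_cont ((continuous_hat_slice hψ i n).norm.pow 2)), nq_add_pw2s]
  simp only [hat_slice_pw2s hψ n i, integral_const_mul]
  unfold bigM
  field_simp

/-- `pw_bessel` on the slices `y ↦ F (update X i y)`, integrated over `X` (`ex_avg`). -/
theorem bessel_cfo {ι : Type} [Fintype ι] [DecidableEq ι] (S : Finset (Fin 3 → ℤ)) (i : ι)
    (F G : Vs ι) :
    ∑ n ∈ S, (big L).vol *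
      (nq (ipB fun _ => (big L).μ) (cfo (big L).μ (cw L n) i F + cfo (big L).μ (sw L n) i G) +
        nq (ipB fun _ => (big L).μ) (cfo (big L).μ (cw L n) i G - cfo (big L).μ (sw L n) i F)) ≤
      nq (ipB fun _ => (big L).μ) F + nq (ipB fun _ => (big L).μ) G := by
  have hv := (big L).vol_pos
  rw [nq_ipB F, nq_ipB G, ← ex_avg i (F * F), ← ex_avg i (G * G), ← map_add]
  simp only [nq_ipB, ← map_add, ← smul_eq_mul (big L).vol, ← map_smul]
  rw [← map_sum]
  refine ex_mono_ae (Filter.Eventually.of_forall fun X => ?_)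
  have h := pw_bessel (L := L) S (slc_pw2s F i X) (slc_pw2s G i X)
  simp only [ip_slc_pw2s (big L) (cw L _), ip_slc_pw2s (big L) (sw L _)] at h
  refine le_of_mul_le_mul_left (le_of_eq_of_le ?_ (h.trans_eq ?_)) hv
  · rw [AddSubmonoidClass.coe_finsetSum, Finset.sum_apply, mul_sum]
    refine sum_congr rfl fun n _ => ?_
    change (big L).vol * ((big L).vol *
      (((cfo (big L).μ (cw L n) i F).1 X + (cfo (big L).μ (sw L n) i G).1 X) *
        ((cfo (big L).μ (cw L n) i F).1 X + (cfo (big L).μ (sw L n) i G).1 X) +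
      ((cfo (big L).μ (cw L n) i G).1 X - (cfo (big L).μ (sw L n) i F).1 X) *
        ((cfo (big L).μ (cw L n) i G).1 X - (cfo (big L).μ (sw L n) i F).1 X))) = _
    ring
  · unfold Box.ip
    rw [← mul_add, map_add]
    rfl

theorem prm_liftRe {ψ : Cf N L → ℂ} (h : Adm ψ) : Prm (liftRe ψ h.1.1) :=
  fun σ X => congrArg Complex.re (h.2.1 σ fun k => proj L (X k))

theorem prm_liftIm {ψ : Cf N L → ℂ} (h : Adm ψ) : Prm (liftIm ψ h.1.1) :=
  fun σ X => congrArg Complex.im (h.2.1 σ fun k => proj L (X k))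

end Pool.Agent.BoseLHY
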