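import Pool.Agent.Lib.MP_dec75e_mp.S.Pw
import Pool.Agent.Lib.MP_dec75e_mp.S.Emb

/-! The translation invariant difference operator. -/

open MeasureTheory Finset Function
open scoped Real

noncomputable section

namespace Pool.Agent.BoseLHY

open Pool.Agent.BoseTail

variable {N : ℕ} {L : ℝ} [Fact (0 < L)]

/-- Measurability by `StronglyMeasurable.integral_prod_right`; `h` is integrable
(`Supp.integrable`). -/
theorem exists_T {ι : Type} [Fintype ι] [DecidableEq ι] {h : BF R3} {r : ℝ} (hs : Supp h.1 r)
    (i : ι) (u : Vs ι) : ∃ T, IsT h i u T := by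
  have hh : Integrable h.1 := hs.integrable (bmOf h)
  obtain ⟨hm, C, hC⟩ := bmOf u
  have hm2 : Measurable fun p : (ι → R3) × R3 => u.1 (update p.1 i (p.1 i + p.2)) - u.1 p.1 := by
    refine Measurable.sub (hm.comp ?_) (hm.comp measurable_fst)
    exact measurable_update'.comp (measurable_fst.prodMk
      (((measurable_pi_apply i).comp measurable_fst).add measurable_snd))
  have hm3 : Measurable (uncurry fun (X : ι → R3) (z : R3) =>
      h.1 z * (u.1 (update X i (X i + z)) - u.1 X)) :=
    ((bmOf h).1.comp measurable_snd).mul hm2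
  refine ⟨⟨fun X => ∫ z, h.1 z * (u.1 (update X i (X i + z)) - u.1 X),
    (hm3.stronglyMeasurable.integral_prod_right (ν := volume)).measurable,
    ∫ z, ‖h.1 z‖ * (C + C), fun X => ?_⟩, fun X => rfl⟩
  refine norm_integral_le_of_norm_le (hh.norm.mul_const _) (Filter.Eventually.of_forall fun z => ?_)
  rw [norm_mul]
  exact mul_le_mul_of_nonneg_left ((norm_sub_le _ _).trans (add_le_add (hC _) (hC _)))
    (norm_nonneg _)

/-- The action on trigonometric functions (`ct_dot`, `ct_zero`; the sine integral vanishes since
`h (-z) = h z`). -/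
theorem sy_trig {h : BF R3} (he : Ev h.1) {r : ℝ} (hs : Supp h.1 r) (k : R3) (a : ℝ) :
    (∫ z, h.1 z * (Real.cos (a + ∑ c, k c * z c) - Real.cos a) = sy h k * Real.cos a) ∧
      ∫ z, h.1 z * (Real.sin (a + ∑ c, k c * z c) - Real.sin a) = sy h k * Real.sin a := by
  have hh : Integrable h.1 := hs.integrable (bmOf h)
  have hc : Integrable fun z : R3 => h.1 z * Real.cos (∑ c, k c * z c) :=
    hh.mul_bdd (c := 1) (by fun_prop : Continuous fun z : R3 =>
      Real.cos (∑ c, k c * z c)).aestronglyMeasurable
      (Filter.Eventually.of_forall fun z => Real.abs_cos_le_one _)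
  have hsn : Integrable fun z : R3 => h.1 z * Real.sin (∑ c, k c * z c) :=
    hh.mul_bdd (c := 1) (by fun_prop : Continuous fun z : R3 =>
      Real.sin (∑ c, k c * z c)).aestronglyMeasurable
      (Filter.Eventually.of_forall fun z => Real.abs_sin_le_one _)
  have h0 : ∫ z : R3, h.1 z * Real.sin (∑ c, k c * z c) = 0 := by
    have h1 := integral_neg_eq_self (fun z : R3 => h.1 z * Real.sin (∑ c, k c * z c)) volume
    have h2 : ∀ z : R3, h.1 (-z) * Real.sin (∑ c, k c * (-z) c) =
        -(h.1 z * Real.sin (∑ c, k c * z c)) := by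
      intro z
      simp only [he.neg, Pi.neg_apply, mul_neg, sum_neg_distrib, Real.sin_neg]
    simp only [h2, integral_neg] at h1
    linarith
  have h1 := ct_dot hh he k
  constructor
  · have e : ∀ z : R3, h.1 z * (Real.cos (a + ∑ c, k c * z c) - Real.cos a) =
        (h.1 z * Real.cos (∑ c, k c * z c)) * Real.cos a -
          (h.1 z * Real.sin (∑ c, k c * z c)) * Real.sin a - h.1 z * Real.cos a := by
      intro z
      rw [Real.cos_add]
      ring
    simp only [e]
    have i1 : Integrable fun z : R3 => (h.1 z * Real.cos (∑ c, k c * z c)) * Real.cos a -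
        (h.1 z * Real.sin (∑ c, k c * z c)) * Real.sin a := (hc.mul_const _).sub (hsn.mul_const _)
    rw [integral_sub i1 (hh.mul_const _),
      integral_sub (hc.mul_const _) (hsn.mul_const _), integral_mul_const, integral_mul_const,
      integral_mul_const, h0, h1, sy, ct_zero]
    ring
  · have e : ∀ z : R3, h.1 z * (Real.sin (a + ∑ c, k c * z c) - Real.sin a) =
        (h.1 z * Real.cos (∑ c, k c * z c)) * Real.sin a +
          (h.1 z * Real.sin (∑ c, k c * z c)) * Real.cos a - h.1 z * Real.sin a := by
      intro z
      rw [Real.sin_add]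
      ring
    simp only [e]
    have i1 : Integrable fun z : R3 => (h.1 z * Real.cos (∑ c, k c * z c)) * Real.sin a +
        (h.1 z * Real.sin (∑ c, k c * z c)) * Real.cos a := (hc.mul_const _).add (hsn.mul_const _)
    rw [integral_sub i1 (hh.mul_const _),
      integral_add (hc.mul_const _) (hsn.mul_const _), integral_mul_const, integral_mul_const,
      integral_mul_const, h0, h1, sy, ct_zero]
    ring

/-- Translation invariance of the integral of a periodic function over the fundamental domain
(`mp3_lift`, `proj_add_shift`). -/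
theorem integral_shift_big {F : T3 L → ℝ} (hF : Continuous F) (z : R3) :
    ∫ y, F (proj L (y + z)) ∂((big L).μ : Measure R3) =
      ∫ y, F (proj L y) ∂((big L).μ : Measure R3) := by
  have key : ∀ G : T3 L → ℝ, Continuous G → ∫ y, G (proj L y) ∂((big L).μ : Measure R3) =
      ((ENNReal.ofReal L)⁻¹ ^ 3).toReal • ∫ w, G w := by
    intro G hG
    rw [← integral_smul_measure, ← (mp3_lift (L := L)).map_eq,
      integral_map (continuous_proj L).measurable.aemeasurable hG.aestronglyMeasurable]
  simp only [proj_add_shift]
  rw [key (fun w => F (w + proj L z)) (hF.comp (continuous_add_const _)), key F hF,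
    integral_add_right_eq_self]

theorem dual_tshs {W G : T3 L → ℝ} (hW : Continuous W) (hG : Continuous G) {h : R3 → ℝ}
    (hh : Integrable h) {s : ℝ}
    (hs : ∀ y, ∫ z, h z * (W (proj L (y - z)) - W (proj L y)) = s * W (proj L y)) :
    ∫ y, W (proj L y) * (∫ z, h z * (G (proj L (y + z)) - G (proj L y)))
        ∂((big L).μ : Measure R3) =
      s * ∫ y, W (proj L y) * G (proj L y) ∂((big L).μ : Measure R3) := by
  have hp := continuous_proj L
  have bW : BM fun y : R3 => W (proj L y) := (BM.of_cont hW).comp hp.measurable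
  have bG : BM fun y : R3 => G (proj L y) := (BM.of_cont hG).comp hp.measurable
  have b1 : BM fun p : R3 × R3 =>
      W (proj L p.1) * (G (proj L (p.1 + p.2)) - G (proj L p.1)) :=
    (bW.comp measurable_fst).mul ((bG.comp (T := fun p : R3 × R3 => p.1 + p.2)
      (measurable_fst.add measurable_snd)).sub (bG.comp measurable_fst))
  have b2 : BM fun p : R3 × R3 =>
      (W (proj L (p.1 - p.2)) - W (proj L p.1)) * G (proj L p.1) :=
    ((bW.comp (T := fun p : R3 × R3 => p.1 - p.2)
      (measurable_fst.sub measurable_snd)).sub (bW.comp measurable_fst)).mul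
      (bG.comp measurable_fst)
  have hI : ∀ {Φ : R3 × R3 → ℝ}, BM Φ → Integrable (uncurry fun y z : R3 => h z * Φ (y, z))
      (((big L).μ : Measure R3).prod volume) := by
    rintro Φ ⟨hm, C, hC⟩
    exact (hh.comp_snd _).mul_bdd hm.aestronglyMeasurable (Filter.Eventually.of_forall hC)
  have e1 : ∀ y, W (proj L y) * (∫ z, h z * (G (proj L (y + z)) - G (proj L y))) =
      ∫ z, h z * (W (proj L y) * (G (proj L (y + z)) - G (proj L y))) := by
    intro y
    rw [← integral_const_mul]
    simp only [mul_left_comm]
  have e2 : ∀ y, s * (W (proj L y) * G (proj L y)) =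
      ∫ z, h z * ((W (proj L (y - z)) - W (proj L y)) * G (proj L y)) := by
    intro y
    rw [← mul_assoc, ← hs, ← integral_mul_const]
    simp only [mul_assoc]
  rw [← integral_const_mul]
  simp only [e1, e2]
  rw [integral_integral_swap (hI b1), integral_integral_swap (hI b2)]
  refine integral_congr_ae (Filter.Eventually.of_forall fun z => ?_)
  simp only [integral_const_mul]
  congr 1
  have bG' : BM fun y : R3 => G (proj L (y + z)) :=
    bG.comp (T := fun y : R3 => y + z) (measurable_id.add measurable_const)
  have bW' : BM fun y : R3 => W (proj L (y - z)) :=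
    bW.comp (T := fun y : R3 => y - z) (measurable_id.sub measurable_const)
  simp only [mul_sub, sub_mul]
  rw [integral_sub (bW.mul bG').integrable (bW.mul bG).integrable,
    integral_sub (bW'.mul bG).integrable (bW.mul bG).integrable]
  congr 1
  have h1 := integral_shift_big (L := L) (F := fun w => W (w - proj L z) * G w)
    ((hW.comp (continuous_sub_right _)).mul hG) z
  have h2 : ∀ y : R3, proj L (y + z) - proj L z = proj L y := fun y => by
    rw [proj_add_shift, add_sub_cancel_right]
  have h3 : ∀ y : R3, proj L y - proj L z = proj L (y - z) := fun y => by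
    rw [sub_eq_add_neg y, proj_add_shift, proj_neg_shift, sub_eq_add_neg]
  simpa only [h2, h3] using h1

theorem cfo_tshs {U : Cf N L → ℝ} (hU : Continuous U) {h : BF R3} {r : ℝ}
    (hs : Supp h.1 r) {i : Fin N} {T : Vs (Fin N)} (hT : IsT h i (lift U hU) T) (w : BF R3)
    {W : T3 L → ℝ} (hW : Continuous W) (hw : ∀ y, w.1 y = W (proj L y)) {s : ℝ}
    (hsw : ∀ y, ∫ z, h.1 z * (w.1 (y - z) - w.1 y) = s * w.1 y) :
    cfo (big L).μ w i T = s • cfo (big L).μ w i (lift U hU) := by
  refine Subtype.ext (funext fun X => ?_)
  have hG : Continuous fun v : T3 L => U (update (fun j => proj L (X j)) i v) :=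
    hU.comp (continuous_const.update i continuous_id)
  have hl : ∀ y, (lift U hU).1 (update X i y) =
      U (update (fun j => proj L (X j)) i (proj L y)) := by
    intro y
    change U (fun j => proj L (update X i y j)) = _
    congr 1
    funext j
    by_cases hj : j = i
    · subst hj
      simp
    · simp [update_of_ne hj]
  simp only [hw] at hsw
  have h1 := dual_tshs hW hG (hs.integrable (bmOf h)) hsw
  change ∫ y, w.1 (update X i y i) * T.1 (update X i y) ∂((big L).μ : Measure R3) =
    s * ∫ y, w.1 (update X i y i) * (lift U hU).1 (update X i y) ∂((big L).μ : Measure R3)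
  simp only [update_self, hT _, update_idem, hl, hw]
  exact h1

theorem sy_neg_tshs (h : BF R3) (k : R3) : sy h (-k) = sy h k := by
  simp [sy, ct]

/-- Plane waves diagonalise the translation invariant operator: Fubini, `integral_shift_big`
(the plane waves are `Re` and `Im` of `wave n (proj L y)`), and `sy_trig` with `-k`. -/
theorem IsT.cfo {U : Cf N L → ℝ} (hU : Continuous U) {h : BF R3} (he : Ev h.1) {r : ℝ}
    (hs : Supp h.1 r) {i : Fin N} {T : Vs (Fin N)} (hT : IsT h i (lift U hU) T) (n : Fin 3 → ℤ) :
    cfo (big L).μ (cw L n) i T =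
        sy h (fun c => kvec L n c) • cfo (big L).μ (cw L n) i (lift U hU) ∧
      cfo (big L).μ (sw L n) i T =
        sy h (fun c => kvec L n c) • cfo (big L).μ (sw L n) i (lift U hU) := by
  have e : ∀ y z : R3, ∑ c, kvec L n c * (y - z) c =
      ∑ c, kvec L n c * y c + ∑ c, (-fun c => kvec L n c : R3) c * z c := by
    intro y z
    rw [← sum_add_distrib]
    refine sum_congr rfl fun c _ => ?_
    simp only [Pi.sub_apply, Pi.neg_apply]
    ring
  constructor
  · refine cfo_tshs hU hs hT (cw L n) (W := fun v => (√(L ^ 3))⁻¹ * (wave n v).re)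
      (continuous_const.mul (Complex.continuous_re.comp (continuous_wave n))) (fun y => ?_)
      fun y => ?_
    · rw [cw_apply, wave_proj_foud, mul_comm Complex.I, Complex.exp_ofReal_mul_I_re]
    · have h1 := (sy_trig he hs (-fun c => kvec L n c) (∑ c, kvec L n c * y c)).1
      rw [sy_neg_tshs] at h1
      simp only [cw_apply, e, ← mul_sub, mul_left_comm (h.1 _), integral_const_mul, h1]
      ring
  · refine cfo_tshs hU hs hT (sw L n) (W := fun v => (√(L ^ 3))⁻¹ * (wave n v).im)
      (continuous_const.mul (Complex.continuous_im.comp (continuous_wave n))) (fun y => ?_)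
      fun y => ?_
    · rw [sw_apply, wave_proj_foud, mul_comm Complex.I, Complex.exp_ofReal_mul_I_im]
    · have h1 := (sy_trig he hs (-fun c => kvec L n c) (∑ c, kvec L n c * y c)).2
      rw [sy_neg_tshs] at h1
      simp only [sw_apply, e, ← mul_sub, mul_left_comm (h.1 _), integral_const_mul, h1]
      ring

end Pool.Agent.BoseLHY
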