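import Pool.Agent.Lib.MP_dec75e_mp.S.OneB
import Pool.Agent.Lib.MP_dec75e_mp.S.Tsh
import Pool.Agent.Lib.MP_dec75e_mp.S.Pw2

/-! The occupation of the localised modes is bounded by the momentum distribution. -/

open MeasureTheory Finset Function
open scoped Real

noncomputable section

namespace Pool.Agent.BoseLHY

open Pool.Agent.BoseTail

variable {N : ℕ} {L : ℝ} [Fact (0 < L)]

/-- `cfo_lowf`; write `Tl u = T + (Tl u - T)` (`exists_T`), `PSD.nq_add_le`, `IsT.cfo`,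
`Mom_occZ` for the first part, `bessel_cfo` and `sum_Tl_T` for the second. -/
theorem one_body {ψ : Cf N L → ℂ} (hψ : Continuous ψ) {K : ℕ} {l r : ℝ} (hl : 0 < l)
    (hL : L = K * l) {h : BF R3} (he : Ev h.1) (hs : Supp h.1 r) (hr : r ≤ l) {H : R3 → ℝ}
    (hH : Mono H) (hHi : Integrable H) (hh : ∀ z, |h.1 z| ≤ H z) (F : Finset M3)
    {φ ϖ : M3 → ℝ} {d θ : ℝ} (h0 : ∀ m, 0 ≤ ϖ m) (h1 : ∀ m, ϖ m ≤ 1)
    (hd : ∀ m, ((if m ∈ F then φ m else 0) - sy h (pk l m)) ^ 2 ≤ d * ϖ m) (hθ : 0 < θ)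
    (S : Finset (Fin 3 → ℤ)) :
    (L ^ 3) ^ N * ∑ n ∈ S, occZ (big L) (lowf (big L) (cell 0 K l hl 0) F φ (cw L n))
        (lowf (big L) (cell 0 K l hl 0) F φ (sw L n)) (liftRe ψ hψ) (liftIm ψ hψ) ≤
      (1 + θ) * ∑ n ∈ S, sy h (fun c => kvec L n c) ^ 2 * (N * Mom ψ n / L ^ 3) +
        (1 + 1 / θ) * (2 * d * ((L ^ 3) ^ N *
          (aM (big L) (cell 0 K l hl 0) Set.univ ϖ (liftRe ψ hψ) +
            aM (big L) (cell 0 K l hl 0) Set.univ ϖ (liftIm ψ hψ))) +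
          1568 * (∫ z, H z) * LayE H K r ψ) := by
  have hL0 : 0 < L := Fact.out
  choose T hT using fun i : Fin N => exists_T hs i (liftRe ψ hψ)
  choose T' hT' using fun i : Fin N => exists_T hs i (liftIm ψ hψ)
  have main := sum_Tl_T hψ hl hL he hs hr hH hHi hh F h0 h1 hd hT hT'
  obtain ⟨Q, hQ⟩ : ∃ Q, Q = cell 0 K l hl 0 := ⟨_, rfl⟩
  rw [← hQ] at main ⊢
  obtain ⟨D, hD⟩ : ∃ D : Fin N → Vs (Fin N),
      ∀ i, D i = Tl (big L) Q F φ i (liftRe ψ hψ) - T i := ⟨_, fun _ => rfl⟩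
  obtain ⟨D', hD'⟩ : ∃ D' : Fin N → Vs (Fin N),
      ∀ i, D' i = Tl (big L) Q F φ i (liftIm ψ hψ) - T' i := ⟨_, fun _ => rfl⟩
  simp only [← hD, ← hD'] at main
  have hv := (big L).vol_pos
  have hp := psd_ipB (fun _ : Fin N => (big L).μ)
  obtain ⟨R, hR⟩ : ∃ R : (Fin 3 → ℤ) → Fin N → ℝ, ∀ n i, R n i =
      nq (ipB fun _ => (big L).μ)
          (cfo (big L).μ (cw L n) i (D i) + cfo (big L).μ (sw L n) i (D' i)) +
        nq (ipB fun _ => (big L).μ)
          (cfo (big L).μ (cw L n) i (D' i) - cfo (big L).μ (sw L n) i (D i)) :=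
    ⟨_, fun _ _ => rfl⟩
  have s1 : ∀ n, occZ (big L) (lowf (big L) Q F φ (cw L n)) (lowf (big L) Q F φ (sw L n))
      (liftRe ψ hψ) (liftIm ψ hψ) ≤
      (1 + θ) * (sy h (fun c => kvec L n c) ^ 2 *
        occZ (big L) (cw L n) (sw L n) (liftRe ψ hψ) (liftIm ψ hψ)) +
        (1 + 1 / θ) * ∑ i, (big L).vol * R n i := by
    intro n
    unfold occZ
    simp only [Finset.mul_sum]
    rw [← Finset.sum_add_distrib]
    refine Finset.sum_le_sum fun i _ => ?_
    obtain ⟨a1, a2⟩ := IsT.cfo (Complex.continuous_re.comp hψ) he hs (hT i) n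
    obtain ⟨a3, a4⟩ := IsT.cfo (Complex.continuous_im.comp hψ) he hs (hT' i) n
    change cfo (big L).μ (cw L n) i (T i) =
      sy h (fun c => kvec L n c) • cfo (big L).μ (cw L n) i (liftRe ψ hψ) at a1
    change cfo (big L).μ (sw L n) i (T i) =
      sy h (fun c => kvec L n c) • cfo (big L).μ (sw L n) i (liftRe ψ hψ) at a2
    change cfo (big L).μ (cw L n) i (T' i) =
      sy h (fun c => kvec L n c) • cfo (big L).μ (cw L n) i (liftIm ψ hψ) at a3
    change cfo (big L).μ (sw L n) i (T' i) =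
      sy h (fun c => kvec L n c) • cfo (big L).μ (sw L n) i (liftIm ψ hψ) at a4
    have t1 : Tl (big L) Q F φ i (liftRe ψ hψ) = T i + D i := by rw [hD, add_sub_cancel]
    have t2 : Tl (big L) Q F φ i (liftIm ψ hψ) = T' i + D' i := by rw [hD', add_sub_cancel]
    have e1 : cfo (big L).μ (lowf (big L) Q F φ (cw L n)) i (liftRe ψ hψ) +
        cfo (big L).μ (lowf (big L) Q F φ (sw L n)) i (liftIm ψ hψ) =
        sy h (fun c => kvec L n c) • (cfo (big L).μ (cw L n) i (liftRe ψ hψ) +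
          cfo (big L).μ (sw L n) i (liftIm ψ hψ)) +
        (cfo (big L).μ (cw L n) i (D i) + cfo (big L).μ (sw L n) i (D' i)) := by
      rw [cfo_lowf, cfo_lowf, t1, t2, map_add, map_add, a1, a4, smul_add]
      abel
    have e2 : cfo (big L).μ (lowf (big L) Q F φ (cw L n)) i (liftIm ψ hψ) -
        cfo (big L).μ (lowf (big L) Q F φ (sw L n)) i (liftRe ψ hψ) =
        sy h (fun c => kvec L n c) • (cfo (big L).μ (cw L n) i (liftIm ψ hψ) -
          cfo (big L).μ (sw L n) i (liftRe ψ hψ)) +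
        (cfo (big L).μ (cw L n) i (D' i) - cfo (big L).μ (sw L n) i (D i)) := by
      rw [cfo_lowf, cfo_lowf, t1, t2, map_add, map_add, a3, a2, smul_sub]
      abel
    rw [e1, e2, hR]
    have b1 := hp.nq_add_le (sy h (fun c => kvec L n c) • (cfo (big L).μ (cw L n) i (liftRe ψ hψ) +
      cfo (big L).μ (sw L n) i (liftIm ψ hψ)))
      (cfo (big L).μ (cw L n) i (D i) + cfo (big L).μ (sw L n) i (D' i)) hθ
    have b2 := hp.nq_add_le (sy h (fun c => kvec L n c) • (cfo (big L).μ (cw L n) i (liftIm ψ hψ) -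
      cfo (big L).μ (sw L n) i (liftRe ψ hψ)))
      (cfo (big L).μ (cw L n) i (D' i) - cfo (big L).μ (sw L n) i (D i)) hθ
    rw [nq_smul] at b1 b2
    have b3 := mul_le_mul_of_nonneg_left (add_le_add b1 b2) hv.le
    refine b3.trans (le_of_eq ?_)
    ring
  have s2 : ∑ n ∈ S, ∑ i, (big L).vol * R n i ≤
      ∑ i, (nq (ipB fun _ => (big L).μ) (D i) + nq (ipB fun _ => (big L).μ) (D' i)) := by
    rw [Finset.sum_comm]
    refine Finset.sum_le_sum fun i _ => ?_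
    simp only [hR]
    exact bessel_cfo S i (D i) (D' i)
  have s3 := Finset.sum_le_sum fun n (_ : n ∈ S) => s1 n
  rw [Finset.sum_add_distrib, ← Finset.mul_sum, ← Finset.mul_sum] at s3
  have s4 : ∑ n ∈ S, sy h (fun c => kvec L n c) ^ 2 * (N * Mom ψ n / L ^ 3) =
      (L ^ 3) ^ N * ∑ n ∈ S, sy h (fun c => kvec L n c) ^ 2 *
        occZ (big L) (cw L n) (sw L n) (liftRe ψ hψ) (liftIm ψ hψ) := by
    rw [Finset.mul_sum]
    refine Finset.sum_congr rfl fun n _ => ?_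
    rw [Mom_occZ hψ]
    ring
  have hc : (0 : ℝ) ≤ (L ^ 3) ^ N := by positivity
  have hθ' : (0 : ℝ) ≤ 1 + 1 / θ := by positivity
  have s5 := mul_le_mul_of_nonneg_left ((mul_le_mul_of_nonneg_left s2 hc).trans main) hθ'
  have s6 := mul_le_mul_of_nonneg_left s3 hc
  rw [s4]
  linarith

end Pool.Agent.BoseLHY
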