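import Pool.Agent.Lib.MP_dec75e_mp.S.LocF
import Pool.Agent.Lib.MP_dec75e_mp.L.FouD
import Pool.Agent.Lib.MP_dec75e_mp.U.Bes

/-! Plane waves and the modes of the cells. -/

open MeasureTheory Finset Function
open scoped Real

noncomputable section

namespace Pool.Agent.BoseLHY

open Pool.Agent.BoseTail

variable {N : ℕ} {L : ℝ} [Fact (0 < L)]

theorem cw_apply (n : Fin 3 → ℤ) (x : R3) :
    (cw L n).1 x = (√(L ^ 3))⁻¹ * Real.cos (∑ c, kvec L n c * x c) := rfl

theorem sw_apply (n : Fin 3 → ℤ) (x : R3) :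
    (sw L n).1 x = (√(L ^ 3))⁻¹ * Real.sin (∑ c, kvec L n c * x c) := rfl

/-- The scalar product as a bilinear form. -/
def ipl_pws (B : Box) : BF R3 →ₗ[ℝ] BF R3 →ₗ[ℝ] ℝ :=
  LinearMap.mk₂ ℝ B.ip
    (fun f f' g => by
      unfold Box.ip
      rw [← mul_add, ← integral_add ((bmOf f).mul (bmOf g)).integrable
        ((bmOf f').mul (bmOf g)).integrable]
      congr 2
      funext x
      exact add_mul _ _ _)
    (fun c f g => by
      unfold Box.ip
      rw [smul_eq_mul, mul_left_comm, ← integral_const_mul c]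
      congr 2
      funext x
      exact mul_assoc _ _ _)
    (fun f g g' => by
      unfold Box.ip
      rw [← mul_add, ← integral_add ((bmOf f).mul (bmOf g)).integrable
        ((bmOf f).mul (bmOf g')).integrable]
      congr 2
      funext x
      exact mul_add _ _ _)
    (fun c f g => by
      unfold Box.ip
      rw [smul_eq_mul, mul_left_comm, ← integral_const_mul c]
      congr 2
      funext x
      exact mul_left_comm _ _ _)

theorem ipl_apply_pws (B : Box) (f g : BF R3) : ipl_pws B f g = B.ip f g := rfl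

theorem ip_comm_pws (B : Box) (f g : BF R3) : B.ip f g = B.ip g f := by
  unfold Box.ip
  simp only [mul_comm (f.1 _)]

theorem psd_pws (B : Box) : PSD (ipl_pws B) :=
  ⟨ip_comm_pws B, fun f => mul_nonneg B.vol_pos.le (integral_nonneg fun x => mul_self_nonneg (f.1 x))⟩

theorem bessel_abs_pws {V τ : Type} [AddCommGroup V] [Module ℝ V] [DecidableEq τ]
    {β : V →ₗ[ℝ] V →ₗ[ℝ] ℝ} (hβ : PSD β) {c s : τ → V}
    (h1 : ∀ n n', β (c n) (c n') + β (s n) (s n') = if n = n' then 1 else 0)
    (h2 : ∀ n n', β (c n) (s n') = β (s n) (c n')) (S : Finset τ) (f g : V) :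
    ∑ n ∈ S, ((β (c n) f + β (s n) g) ^ 2 + (β (c n) g - β (s n) f) ^ 2) ≤ β f f + β g g := by
  induction S using Finset.induction_on generalizing f g with
  | empty => simpa using add_nonneg (hβ.nonneg f) (hβ.nonneg g)
  | insert n S hn ih =>
    obtain ⟨a, ha⟩ : ∃ a, a = β (c n) f + β (s n) g := ⟨_, rfl⟩
    obtain ⟨b, hb⟩ : ∃ b, b = β (c n) g - β (s n) f := ⟨_, rfl⟩
    have h3 := ih (f - (a • c n - b • s n)) (g - (a • s n + b • c n))
    have h4 : ∑ k ∈ S, ((β (c k) (f - (a • c n - b • s n)) + β (s k) (g - (a • s n + b • c n))) ^ 2 +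
        (β (c k) (g - (a • s n + b • c n)) - β (s k) (f - (a • c n - b • s n))) ^ 2) =
        ∑ k ∈ S, ((β (c k) f + β (s k) g) ^ 2 + (β (c k) g - β (s k) f) ^ 2) := by
      refine sum_congr rfl fun k hk => ?_
      have e1 := h1 k n
      rw [if_neg fun h : k = n => hn (h ▸ hk)] at e1
      have e2 := h2 k n
      simp only [map_sub, map_add, map_smul, smul_eq_mul]
      congr 2
      · linear_combination (-a) * e1 + b * e2
      · linear_combination (-b) * e1 - a * e2
    have h5 : β (f - (a • c n - b • s n)) (f - (a • c n - b • s n)) +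
        β (g - (a • s n + b • c n)) (g - (a • s n + b • c n)) = β f f + β g g - (a ^ 2 + b ^ 2) := by
      have e1 := h1 n n
      rw [if_pos rfl] at e1
      have e2 := h2 n n
      simp only [map_sub, map_add, map_smul, smul_eq_mul, LinearMap.sub_apply, LinearMap.add_apply,
        LinearMap.smul_apply, hβ.symm f (c n), hβ.symm f (s n), hβ.symm g (c n), hβ.symm g (s n)]
      linear_combination (a ^ 2 + b ^ 2) * e1 + 2 * a * ha + 2 * b * hb
    rw [h4, h5] at h3
    rw [sum_insert hn, ← ha, ← hb]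
    linarith

theorem int_proj_pws {F : T3 L → ℂ} (hF : Continuous F) :
    ∫ y, F y = ((L ^ 3 : ℝ) : ℂ) * ∫ x, F (proj L x) ∂((big L).μ : Measure R3) := by
  have hL : 0 < L := Fact.out
  have h1 : ∫ x, F (proj L x) ∂((big L).μ : Measure R3) =
      ∫ y, F y ∂((ENNReal.ofReal L)⁻¹ ^ 3 • volume) := by
    rw [← (mp3_lift (L := L)).map_eq,
      integral_map (continuous_proj L).measurable.aemeasurable hF.aestronglyMeasurable]
  rw [h1, integral_smul_measure, Complex.real_smul, ← mul_assoc, ← Complex.ofReal_mul,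
    ENNReal.toReal_pow, ENNReal.toReal_inv, ENNReal.toReal_ofReal hL.le, ← mul_pow,
    mul_inv_cancel₀ hL.ne', one_pow, Complex.ofReal_one, one_mul]

theorem wave_cs_pws (n : Fin 3 → ℤ) (x : R3) :
    wave n (proj L x) =
      ((√(L ^ 3) * (cw L n).1 x : ℝ) : ℂ) + ((√(L ^ 3) * (sw L n).1 x : ℝ) : ℂ) * Complex.I := by
  have hL : 0 < √(L ^ 3) := Real.sqrt_pos.2 (pow_pos Lpos 3)
  rw [wave_proj_foud, cw_apply, sw_apply, mul_inv_cancel_left₀ hL.ne', mul_inv_cancel_left₀ hL.ne',
    mul_comm Complex.I, Complex.exp_mul_I, Complex.ofReal_cos, Complex.ofReal_sin]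

/-- The Fourier coefficients on the torus in terms of real scalar products. -/
theorem hat_ip_pws {u : T3 L → ℂ} (hu : Continuous u) {f g : BF R3}
    (hf : ∀ x, f.1 x = (u (proj L x)).re) (hg : ∀ x, g.1 x = (u (proj L x)).im) (n : Fin 3 → ℤ) :
    hat u n = ((√(L ^ 3) * ((big L).ip (cw L n) f + (big L).ip (sw L n) g) : ℝ) : ℂ) +
      ((√(L ^ 3) * ((big L).ip (cw L n) g - (big L).ip (sw L n) f) : ℝ) : ℂ) * Complex.I := by
  have h1 : ∀ x : R3, (starRingEnd ℂ) (wave n (proj L x)) * u (proj L x) =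
      ((√(L ^ 3) * ((cw L n).1 x * f.1 x + (sw L n).1 x * g.1 x) : ℝ) : ℂ) +
      ((√(L ^ 3) * ((cw L n).1 x * g.1 x - (sw L n).1 x * f.1 x) : ℝ) : ℂ) * Complex.I := by
    intro x
    rw [wave_cs_pws, hf, hg]
    apply Complex.ext
    · simp
      ring
    · simp
      ring
  have b1 := (bmOf (cw L n)).mul (bmOf f)
  have b2 := (bmOf (sw L n)).mul (bmOf g)
  have b3 := (bmOf (cw L n)).mul (bmOf g)
  have b4 := (bmOf (sw L n)).mul (bmOf f)
  unfold hat
  rw [int_proj_pws (F := fun y => (starRingEnd ℂ) (wave n y) * u y)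
    ((Complex.continuous_conj.comp (continuous_wave n)).mul hu)]
  simp only [h1]
  rw [integral_add ((BM.const _).mul (b1.add b2)).ofReal.integrable
      (((BM.const _).mul (b3.sub b4)).ofReal.mul (BM.const _)).integrable,
    integral_mul_const, integral_complex_ofReal, integral_complex_ofReal, integral_const_mul,
    integral_const_mul, integral_add b1.integrable b2.integrable,
    integral_sub b3.integrable b4.integrable]
  unfold Box.ip
  rw [big_vol_orthgu]
  push_cast
  ring

theorem hat_wave_pws (n n' : Fin 3 → ℤ) :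
    hat (wave (L := L) n') n = if n = n' then ((L ^ 3 : ℝ) : ℂ) else 0 := by
  unfold hat
  split_ifs with h
  · subst h
    simp only [Complex.conj_mul', norm_wave]
    rw [integral_const, vol_T3]
    simp
  · obtain ⟨c, hc⟩ := Function.ne_iff.1 h
    have hk : n' c - n c ≠ 0 := sub_ne_zero.2 hc.symm
    refine integral_eq_zero_of_add_right_eq_neg (g := d1 c (L / 2 / ((n' c - n c : ℤ) : ℝ)))
      fun y => ?_
    have h1 := fourier_add_half_inv_index hk (Lpos (L := L)) 0
    rw [zero_add, fourier_eval_zero, sub_eq_add_neg, fourier_add, fourier_neg, ← sub_eq_add_neg] at h1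
    rw [wave_add, wave_add, wave_d1_fou0, wave_d1_fou0, map_mul]
    linear_combination ((starRingEnd ℂ) (wave n y) * wave n' y) * h1

/-- Orthogonality of the plane waves: `∫ cos ((k - k') x)` and `∫ sin ((k - k') x)` over the
fundamental domain (`mp3_lift`, `wave_proj_foud`, or `Box.integral_prod` for the complex
exponential). -/
theorem orth_pw (n n' : Fin 3 → ℤ) :
    (big L).ip (cw L n) (cw L n') + (big L).ip (sw L n) (sw L n') = (if n = n' then 1 else 0) ∧
      (big L).ip (cw L n) (sw L n') = (big L).ip (sw L n) (cw L n') := by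
  have hL3 : (0 : ℝ) < L ^ 3 := pow_pos Lpos 3
  have hL : 0 < √(L ^ 3) := Real.sqrt_pos.2 hL3
  have h1 := hat_ip_pws (u := wave (L := L) n') (continuous_wave n')
    (f := √(L ^ 3) • cw L n') (g := √(L ^ 3) • sw L n')
    (fun x => by rw [wave_cs_pws]; simp) (fun x => by rw [wave_cs_pws]; simp) n
  rw [hat_wave_pws] at h1
  simp only [← ipl_apply_pws, map_smul, smul_eq_mul, ← mul_add, ← mul_sub, ← mul_assoc,
    Real.mul_self_sqrt hL3.le] at h1
  simp only [ipl_apply_pws] at h1
  have h2 := congrArg Complex.re h1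
  have h3 := congrArg Complex.im h1
  simp only [Complex.add_re, Complex.ofReal_re, Complex.mul_re, Complex.I_re, Complex.ofReal_im,
    Complex.I_im, Complex.add_im, Complex.mul_im, mul_zero, mul_one, sub_zero, add_zero,
    zero_add, apply_ite Complex.re, apply_ite Complex.im, Complex.zero_re, Complex.zero_im,
    ite_self] at h2 h3
  constructor
  · refine mul_left_cancel₀ hL3.ne' ?_
    rw [← h2]
    split_ifs <;> simp
  · exact sub_eq_zero.1 ((mul_eq_zero.1 h3.symm).resolve_left hL3.ne')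

/-- Bessel's inequality for the plane waves: with `a n`, `b n` the two brackets, expand the square
of `(f, g) - ∑ (a n (cw n, sw n) + b n (-sw n, cw n))`. -/
theorem pw_bessel (S : Finset (Fin 3 → ℤ)) (f g : BF R3) :
    ∑ n ∈ S, (((big L).ip (cw L n) f + (big L).ip (sw L n) g) ^ 2 +
      ((big L).ip (cw L n) g - (big L).ip (sw L n) f) ^ 2) ≤
      (big L).ip f f + (big L).ip g g :=
  bessel_abs_pws (psd_pws (big L)) (fun n n' => (orth_pw n n').1) (fun n n' => (orth_pw n n').2)
    S f g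

variable {C : Type} [Fintype C] [DecidableEq C] {Q : C → Box}

theorem ip_sum_pws (B : Box) {κ : Type} (I : Finset κ) (e : κ → BF R3) (x : κ → ℝ) (f : BF R3) :
    B.ip f (∑ i ∈ I, x i • e i) = ∑ i ∈ I, B.ip (e i) f * x i := by
  rw [← ipl_apply_pws, map_sum]
  refine sum_congr rfl fun i _ => ?_
  rw [map_smul, smul_eq_mul, ipl_apply_pws, ip_comm_pws, mul_comm]

theorem ip_sum_sum_pws (B : Box) {κ : Type} [DecidableEq κ] {I : Finset κ} {e : κ → BF R3}
    (h : Orth B.μ B.vol I e) (x : κ → ℝ) :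
    B.ip (∑ i ∈ I, x i • e i) (∑ i ∈ I, x i • e i) = ∑ i ∈ I, x i ^ 2 := by
  rw [ip_sum_pws]
  refine sum_congr rfl fun i hi => ?_
  rw [ip_sum_pws, sum_congr rfl fun j hj => by
    rw [show B.ip (e j) (e i) = if j = i then 1 else 0 from h j hj i hi]]
  simp [hi, sq]

/-- `pw_bessel` for `f = ∑ x i • hb i`, `g = ∑ y i • hb i` and `orth_hb`. -/
theorem besH_pw (hP : Part (big L) Q) (S : Finset (Fin 3 → ℤ)) (I : Finset (C × M3)) :
    BesH S I (fun n x => (big L).ip (hb Q x) (cw L n)) fun n x => (big L).ip (hb Q x) (sw L n) := by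
  intro x y
  have h := pw_bessel (L := L) S (∑ i ∈ I, x i • hb Q i) (∑ i ∈ I, y i • hb Q i)
  rw [ip_sum_sum_pws _ (orth_hb hP I), ip_sum_sum_pws _ (orth_hb hP I)] at h
  simp only [ip_sum_pws, ← sum_add_distrib, ← sum_sub_distrib] at h
  exact h

/-- `integral_hb`. -/
theorem ip_hb_pw (hP : Part (big L) Q) (k : C) (m : M3) (n : Fin 3 → ℤ) :
    (big L).ip (hb Q (k, m)) (cw L n) ^ 2 + (big L).ip (hb Q (k, m)) (sw L n) ^ 2 =
      (Q k).vol / L ^ 3 *
        ((∫ x, ((Q k).e m).1 x * Real.cos (∑ c, kvec L n c * x c) ∂((Q k).μ : Measure R3)) ^ 2 +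
          (∫ x, ((Q k).e m).1 x * Real.sin (∑ c, kvec L n c * x c) ∂((Q k).μ : Measure R3)) ^ 2) := by
  have hL3 : (0 : ℝ) < L ^ 3 := pow_pos Lpos 3
  unfold Box.ip
  rw [integral_hb hP k m (cw L n).1, integral_hb hP k m (sw L n).1]
  simp only [cw_apply, sw_apply, mul_left_comm _ (√(L ^ 3))⁻¹, integral_const_mul, mul_pow, inv_pow,
    Real.sq_sqrt hL3.le, Real.sq_sqrt (Q k).vol_pos.le]
  ring

/-- `ip_hb_pw`, Parseval in the cell (`Box.pars`) and `cos² + sin² = 1`. -/
theorem row_pw (hP : Part (big L) Q) (k : C) (T : Finset M3) (n : Fin 3 → ℤ) :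
    ∑ m ∈ T, ((big L).ip (hb Q (k, m)) (cw L n) ^ 2 + (big L).ip (hb Q (k, m)) (sw L n) ^ 2) ≤
      (Q k).vol / L ^ 3 := by
  have hL3 : (0 : ℝ) < L ^ 3 := pow_pos Lpos 3
  have bc : BM fun x : R3 => Real.cos (∑ c, kvec L n c * x c) :=
    ⟨by fun_prop, 1, fun _ => Real.abs_cos_le_one _⟩
  have bs : BM fun x : R3 => Real.sin (∑ c, kvec L n c * x c) :=
    ⟨by fun_prop, 1, fun _ => Real.abs_sin_le_one _⟩
  have h1 := sum_le_hasSum T (fun _ _ => sq_nonneg _) ((Q k).pars.2 _ bc)
  have h2 := sum_le_hasSum T (fun _ _ => sq_nonneg _) ((Q k).pars.2 _ bs)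
  have h3 := integral_add (μ := ((Q k).μ : Measure R3)) (bc.pow 2).integrable (bs.pow 2).integrable
  simp only [Real.cos_sq_add_sin_sq, integral_const, probReal_univ, one_smul] at h3
  simp only [ip_hb_pw hP]
  rw [← mul_sum, sum_add_distrib]
  exact mul_le_of_le_one_right (div_nonneg (Q k).vol_pos.le hL3.le) (by linarith)

end Pool.Agent.BoseLHY
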