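import Pool.Agent.Lib.MP_dec75e_mp.S.Df
import Pool.Agent.Lib.MP_dec75e_mp.L.Riem

/-! Sums over the dual lattice. -/

open MeasureTheory Finset Function
open scoped Real

noncomputable section

namespace Pool.Agent.BoseLHY

open Pool.Agent.BoseTail

/-- The cell of the lattice with lower corner `δ n`. -/
def cell_riemzs (δ : ℝ) (n : Fin 3 → ℤ) : Set R3 :=
  Set.pi Set.univ fun c => Set.Ico (δ * n c) (δ * (n c + 1))

theorem meas_riemzs (δ : ℝ) (n : Fin 3 → ℤ) : MeasurableSet (cell_riemzs δ n) :=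
  MeasurableSet.univ_pi fun _ => measurableSet_Ico

theorem vol_riemzs {δ : ℝ} (hδ : 0 < δ) (n : Fin 3 → ℤ) : volume.real (cell_riemzs δ n) = δ ^ 3 := by
  have h := Real.volume_pi_Ico_toReal (a := fun c => δ * n c) (b := fun c => δ * (n c + 1))
    (fun c => by nlinarith)
  rw [Measure.real, cell_riemzs, h]
  simp only [mul_add, mul_one, add_sub_cancel_left, Finset.prod_const, Finset.card_univ,
    Fintype.card_fin]

theorem fin_riemzs (δ : ℝ) (n : Fin 3 → ℤ) : volume (cell_riemzs δ n) ≠ ⊤ := by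
  rw [cell_riemzs, Real.volume_pi_Ico]
  exact ENNReal.prod_ne_top fun _ _ => ENNReal.ofReal_ne_top

theorem mem_riemzs {δ : ℝ} (hδ : 0 < δ) {n : Fin 3 → ℤ} {z : R3} :
    z ∈ cell_riemzs δ n ↔ n = fun c => ⌊z c / δ⌋ := by
  simp only [cell_riemzs, Set.mem_pi, Set.mem_univ, true_imp_iff, Set.mem_Ico]
  constructor
  · intro h
    refine funext fun c => ?_
    symm
    rw [Int.floor_eq_iff, le_div_iff₀ hδ, div_lt_iff₀ hδ]
    constructor <;> linarith [(h c).1, (h c).2]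
  · rintro rfl c
    have h1 := Int.floor_le (z c / δ)
    have h2 := Int.lt_floor_add_one (z c / δ)
    rw [le_div_iff₀ hδ] at h1
    rw [div_lt_iff₀ hδ] at h2
    constructor <;> linarith

theorem sum_riemzs {δ : ℝ} (hδ : 0 < δ) (F : Finset (Fin 3 → ℤ)) (a : (Fin 3 → ℤ) → ℝ) :
    ∫ z, ∑ n ∈ F, (cell_riemzs δ n).indicator (fun _ => a n) z = δ ^ 3 * ∑ n ∈ F, a n := by
  rw [integral_finsetSum _ fun n _ =>
    (integrableOn_const (fin_riemzs δ n)).integrable_indicator (meas_riemzs δ n),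
    Finset.mul_sum]
  refine Finset.sum_congr rfl fun n _ => ?_
  rw [integral_indicator_const _ (meas_riemzs δ n), vol_riemzs hδ, smul_eq_mul]

theorem point_riemzs {Φ : R3 → ℝ} {r ε δ : ℝ} (hr : ∀ z, r ≤ ‖z‖ → Φ z = 0)
    (hδ : 0 < δ) (hδ1 : δ ≤ 1) (hu : ∀ z z' : R3, ‖z - z'‖ ≤ δ → |Φ z - Φ z'| ≤ ε)
    {T : Finset (Fin 3 → ℤ)} (hT : ∀ n, n ∉ T → Φ (fun c => δ * n c) = 0) (z : R3) :
    ‖∑ n ∈ T, (cell_riemzs δ n).indicator (fun _ => Φ fun c => δ * n c) z - Φ z‖ ≤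
      (Metric.closedBall (0 : R3) (r + 1)).indicator (fun _ => ε) z := by
  obtain ⟨m0, hm0⟩ : ∃ m0 : Fin 3 → ℤ, m0 = fun c => ⌊z c / δ⌋ := ⟨_, rfl⟩
  have hz : z ∈ cell_riemzs δ m0 := (mem_riemzs hδ).2 hm0
  have hs : ∑ n ∈ T, (cell_riemzs δ n).indicator (fun _ => Φ fun c => δ * n c) z =
      Φ fun c => δ * m0 c := by
    rw [Finset.sum_eq_single m0]
    · rw [Set.indicator_of_mem hz]
    · intro m _ hm
      refine Set.indicator_of_notMem (fun h => hm ?_) _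
      rw [hm0]
      exact (mem_riemzs hδ).1 h
    · intro hm
      rw [Set.indicator_of_mem hz]
      exact hT m0 hm
  have hd : ‖(fun c => δ * m0 c : R3) - z‖ ≤ δ := by
    refine (pi_norm_le_iff_of_nonneg hδ.le).2 fun c => ?_
    have h := hz c (Set.mem_univ c)
    rw [Pi.sub_apply, Real.norm_eq_abs, abs_le]
    constructor <;> linarith [h.1, h.2]
  rw [hs]
  by_cases hb : z ∈ Metric.closedBall (0 : R3) (r + 1)
  · rw [Set.indicator_of_mem hb]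
    exact hu _ _ hd
  · rw [Set.indicator_of_notMem hb]
    rw [Metric.mem_closedBall, dist_zero_right, not_le] at hb
    have h1 : ‖z‖ ≤ ‖(fun c => δ * m0 c : R3)‖ + ‖(fun c => δ * m0 c : R3) - z‖ := by
      have := norm_sub_le (fun c => δ * m0 c : R3) ((fun c => δ * m0 c : R3) - z)
      rwa [sub_sub_cancel] at this
    rw [hr z (by linarith), hr _ (by linarith), sub_zero, norm_zero]

theorem coord_riemzs {L κ β : ℝ} (hL : 0 < L) (hκ : 0 < κ) {n : Fin 3 → ℤ}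
    (h : ‖κ⁻¹ • kvec L n‖ ≤ β) (c : Fin 3) : 6 * |(n c : ℝ)| ≤ β * (L * κ) := by
  have h1 : ‖(κ⁻¹ • kvec L n) c‖ ≤ β := (PiLp.norm_apply_le _ c).trans h
  have h2 : (κ⁻¹ • kvec L n) c = 2 * π / (L * κ) * n c := by
    change κ⁻¹ * (2 * π * (n c : ℝ) / L) = _
    field_simp
  have hp := Real.pi_gt_three
  rw [h2, Real.norm_eq_abs, abs_mul, abs_of_pos (by positivity), div_mul_eq_mul_div,
    div_le_iff₀ (by positivity)] at h1
  nlinarith [abs_nonneg (n c : ℝ)]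

theorem mem_box_riemzs {L κ β : ℝ} (hL : 0 < L) (hκ : 0 < κ) {n : Fin 3 → ℤ}
    (h : ‖κ⁻¹ • kvec L n‖ ≤ β) : n ∈ Fintype.piFinset fun _ : Fin 3 =>
      Finset.Icc (-(⌊β * (L * κ) / 6⌋₊ : ℤ)) (⌊β * (L * κ) / 6⌋₊ : ℤ) := by
  rw [Fintype.mem_piFinset]
  intro c
  have h1 := coord_riemzs hL hκ h c
  have h2 : ((n c).natAbs : ℝ) ≤ β * (L * κ) / 6 := by
    rw [Nat.cast_natAbs, Int.cast_abs]
    linarith
  have h3 := Nat.le_floor h2
  rw [Finset.mem_Icc]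
  omega

/-- As `riem_cont`, with the cells `∏ [δ n c, δ (n c + 1))`, `n ∈ ℤ³`. -/
theorem riem_int {Φ : R3 → ℝ} (hΦ : Continuous Φ) (hc : HasCompactSupport Φ) {η : ℝ}
    (hη : 0 < η) : ∃ δ₀ : ℝ, 0 < δ₀ ∧ ∀ δ : ℝ, 0 < δ → δ ≤ δ₀ → ∀ T : Finset (Fin 3 → ℤ),
      (∀ n, n ∉ T → Φ (fun c => δ * n c) = 0) →
      |δ ^ 3 * ∑ n ∈ T, Φ (fun c => δ * n c) - ∫ z, Φ z| ≤ η := by
  obtain ⟨r, hr0, hr⟩ := hc.exists_pos_le_norm
  have hi : Integrable Φ := hΦ.integrable_of_hasCompactSupport hc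
  have hK : 0 < (2 * (r + 1)) ^ 3 := by positivity
  have hε : 0 < η / (2 * (r + 1)) ^ 3 := by positivity
  obtain ⟨δ₁, hδ₁, hu⟩ := Metric.uniformContinuous_iff_le.1
    (hc.uniformContinuous_of_continuous hΦ) _ hε
  refine ⟨min δ₁ 1, by positivity, fun δ hδ hle T hT => ?_⟩
  have h1 : δ ≤ δ₁ := hle.trans (min_le_left _ _)
  have h2 : δ ≤ 1 := hle.trans (min_le_right _ _)
  have hv : volume (Metric.closedBall (0 : R3) (r + 1)) = ENNReal.ofReal ((2 * (r + 1)) ^ 3) := by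
    rw [Real.volume_pi_closedBall _ (by linarith), Fintype.card_fin]
  have hv' : volume (Metric.closedBall (0 : R3) (r + 1)) ≠ ⊤ := by
    rw [hv]
    exact ENNReal.ofReal_ne_top
  rw [← sum_riemzs hδ, ← integral_sub (integrable_finsetSum _ fun n _ =>
    (integrableOn_const (fin_riemzs δ n)).integrable_indicator (meas_riemzs δ n)) hi,
    ← Real.norm_eq_abs]
  refine (norm_integral_le_of_norm_le
    ((integrableOn_const hv').integrable_indicator measurableSet_closedBall)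
    (Filter.Eventually.of_forall (point_riemzs (ε := η / (2 * (r + 1)) ^ 3) hr hδ h2 (fun z z' h => by
      have := hu (a := z) (b := z') (by rw [dist_eq_norm]; exact h.trans h1)
      rwa [Real.dist_eq] at this) hT))).trans (le_of_eq ?_)
  rw [integral_indicator_const _ measurableSet_closedBall, Measure.real, hv,
    ENNReal.toReal_ofReal (by positivity), smul_eq_mul, mul_div_cancel₀ _ hK.ne']

/-- Each coordinate satisfies `|n c| ≤ β κ L / (2 π)`. -/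
theorem card_shell {L κ β : ℝ} (hL : 0 < L) (hκ : 0 < κ) (hβ : 0 ≤ β) (h1 : 1 ≤ L * κ)
    (S : Finset (Fin 3 → ℤ)) (hS : ∀ n ∈ S, ‖κ⁻¹ • kvec L n‖ ≤ β) :
    (S.card : ℝ) ≤ (β + 1) ^ 3 * (L * κ) ^ 3 := by
  have h2 := Finset.card_le_card fun n hn => mem_box_riemzs hL hκ (hS n hn)
  rw [Fintype.card_piFinset, Finset.prod_const, Finset.card_univ, Fintype.card_fin,
    Int.card_Icc] at h2
  have h3 : (⌊β * (L * κ) / 6⌋₊ : ℝ) ≤ β * (L * κ) / 6 := Nat.floor_le (by positivity)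
  generalize ⌊β * (L * κ) / 6⌋₊ = M at h2 h3
  have h4 : ((M : ℤ) + 1 - -(M : ℤ)).toNat = 2 * M + 1 := by omega
  rw [h4] at h2
  have h5 : (S.card : ℝ) ≤ (2 * M + 1) ^ 3 := by exact_mod_cast h2
  rw [← mul_pow]
  refine h5.trans (pow_le_pow_left₀ (by positivity) ?_ 3)
  nlinarith [mul_nonneg hβ (mul_pos hL hκ).le]

theorem exists_shell {L κ : ℝ} (hL : 0 < L) (hκ : 0 < κ) (α β : ℝ) :
    ∃ T : Finset (Fin 3 → ℤ), ∀ n, n ∈ T ↔ α ≤ ‖κ⁻¹ • kvec L n‖ ∧ ‖κ⁻¹ • kvec L n‖ ≤ β := by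
  classical
  refine ⟨(Fintype.piFinset fun _ : Fin 3 =>
    Finset.Icc (-(⌊β * (L * κ) / 6⌋₊ : ℤ)) (⌊β * (L * κ) / 6⌋₊ : ℤ)).filter
    fun n => α ≤ ‖κ⁻¹ • kvec L n‖ ∧ ‖κ⁻¹ • kvec L n‖ ≤ β, fun n => ?_⟩
  rw [Finset.mem_filter]
  exact ⟨fun h => h.2, fun h => ⟨mem_box_riemzs hL hκ h.2, h⟩⟩

end Pool.Agent.BoseLHY
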