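import Pool.Agent.Lib.MP_dec75e_mp.S.Bog2
import Pool.Agent.Lib.MP_dec75e_mp.L.PhiG

/-! Smooth cut-off functions in momentum space. -/

open MeasureTheory Finset Function
open scoped Real

noncomputable section

namespace Pool.Agent.BoseLHY

open Pool.Agent.BoseTail

/-- A smooth radial cut-off: `smoothTransition` of affine functions of `‖κ‖ ^ 2`. -/
theorem exists_bump {α β : ℝ} (hα : 0 < α) (hαβ : α < β) :
    ∃ φ : E3 → ℝ, ContDiff ℝ (⊤ : ℕ∞) φ ∧ HasCompactSupport φ ∧ 0 ∉ tsupport φ ∧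
      (∀ κ κ' : E3, (∀ c, |κ c| = |κ' c|) → φ κ = φ κ') ∧ (∀ κ, 0 ≤ φ κ ∧ φ κ ≤ 1) ∧
      (∀ κ, α ≤ ‖κ‖ → ‖κ‖ ≤ β → φ κ = 1) ∧ ∀ κ, φ κ ≠ 0 → α / 2 ≤ ‖κ‖ ∧ ‖κ‖ ≤ 2 * β := by
  have hβ : 0 < β := hα.trans hαβ
  have ha : 0 < α ^ 2 - (α / 2) ^ 2 := by nlinarith
  have hb : 0 < (2 * β) ^ 2 - β ^ 2 := by nlinarith
  obtain ⟨φ, hφ⟩ : ∃ φ : E3 → ℝ, φ = fun κ =>
      Real.smoothTransition ((‖κ‖ ^ 2 - (α / 2) ^ 2) / (α ^ 2 - (α / 2) ^ 2)) *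
        Real.smoothTransition (((2 * β) ^ 2 - ‖κ‖ ^ 2) / ((2 * β) ^ 2 - β ^ 2)) := ⟨_, rfl⟩
  have hs : ∀ κ, φ κ ≠ 0 → α / 2 ≤ ‖κ‖ ∧ ‖κ‖ ≤ 2 * β := by
    intro κ hκ
    rw [hφ] at hκ
    obtain ⟨h1, h2⟩ := mul_ne_zero_iff.1 hκ
    have h3 : 0 < (‖κ‖ ^ 2 - (α / 2) ^ 2) / (α ^ 2 - (α / 2) ^ 2) :=
      not_le.1 fun h => h1 (Real.smoothTransition.zero_of_nonpos h)
    have h4 : 0 < ((2 * β) ^ 2 - ‖κ‖ ^ 2) / ((2 * β) ^ 2 - β ^ 2) :=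
      not_le.1 fun h => h2 (Real.smoothTransition.zero_of_nonpos h)
    rw [div_pos_iff_of_pos_right ha, sub_pos] at h3
    rw [div_pos_iff_of_pos_right hb, sub_pos] at h4
    exact ⟨(pow_lt_pow_iff_left₀ (by positivity) (norm_nonneg _) two_ne_zero).1 h3 |>.le,
      (pow_lt_pow_iff_left₀ (norm_nonneg _) (by positivity) two_ne_zero).1 h4 |>.le⟩
  refine ⟨φ, ?_, ?_, ?_, ?_, ?_, ?_, hs⟩
  · rw [hφ]
    have hn : ContDiff ℝ (⊤ : ℕ∞) fun κ : E3 => ‖κ‖ ^ 2 := contDiff_norm_sq ℝ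
    exact (Real.smoothTransition.contDiff.comp ((hn.sub contDiff_const).div_const _)).mul
      (Real.smoothTransition.contDiff.comp ((contDiff_const.sub hn).div_const _))
  · refine HasCompactSupport.intro (isCompact_closedBall (0 : E3) (2 * β)) fun κ hκ => ?_
    by_contra h
    exact hκ (mem_closedBall_zero_iff.2 (hs κ h).2)
  · intro h
    have h1 : tsupport φ ⊆ {κ : E3 | α / 2 ≤ ‖κ‖} :=
      closure_minimal (fun κ hκ => (hs κ hκ).1) (isClosed_le continuous_const continuous_norm)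
    have h2 : α / 2 ≤ ‖(0 : E3)‖ := h1 h
    rw [norm_zero] at h2
    linarith
  · intro κ κ' h
    have h1 : ‖κ‖ = ‖κ'‖ := by
      rw [EuclideanSpace.norm_eq, EuclideanSpace.norm_eq]
      simp only [Real.norm_eq_abs, h]
    rw [hφ]
    simp only [h1]
  · intro κ
    rw [hφ]
    exact ⟨mul_nonneg (Real.smoothTransition.nonneg _) (Real.smoothTransition.nonneg _),
      mul_le_one₀ (Real.smoothTransition.le_one _) (Real.smoothTransition.nonneg _)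
        (Real.smoothTransition.le_one _)⟩
  · intro κ h1 h2
    have h3 : α ^ 2 ≤ ‖κ‖ ^ 2 := pow_le_pow_left₀ hα.le h1 2
    have h4 : ‖κ‖ ^ 2 ≤ β ^ 2 := pow_le_pow_left₀ (norm_nonneg _) h2 2
    rw [hφ]
    dsimp only
    rw [Real.smoothTransition.one_of_one_le ((one_le_div ha).2 (by linarith)),
      Real.smoothTransition.one_of_one_le ((one_le_div hb).2 (by linarith)), one_mul]

theorem gB_pos {t : ℝ} (ht : 0 < t) : 0 < gB t := by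
  unfold gB
  have h1 : 0 < t * √(t ^ 2 + 2) := mul_pos ht (Real.sqrt_pos.2 (by positivity))
  rw [sub_pos, one_lt_div h1]
  have h2 : (t * √(t ^ 2 + 2)) ^ 2 < (1 + t ^ 2) ^ 2 := by
    rw [mul_pow, Real.sq_sqrt (by positivity)]
    nlinarith
  exact (pow_lt_pow_iff_left₀ h1.le (by positivity) two_ne_zero).1 h2

theorem gB_smooth_smo {t : ℝ} (ht : 0 < t) : ContDiffAt ℝ (⊤ : ℕ∞) gB t := by
  have h : t * √(t ^ 2 + 2) ≠ 0 := (mul_pos ht (Real.sqrt_pos.2 (by positivity))).ne'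
  have h1 : ContDiffAt ℝ (⊤ : ℕ∞) (fun s : ℝ => √(s ^ 2 + 2)) t :=
    ContDiffAt.sqrt (by fun_prop) (by positivity)
  have h2 : ContDiffAt ℝ (⊤ : ℕ∞) (fun s : ℝ => 1 + s ^ 2) t := by fun_prop
  exact (h2.div (contDiffAt_id.mul h1) h).sub contDiffAt_const

theorem sg_smooth_smo {t : ℝ} (ht : 0 < t) : ContDiffAt ℝ (⊤ : ℕ∞) sg t := by
  have hs : 0 < √t := Real.sqrt_pos.2 ht
  have h1 : ContDiffAt ℝ (⊤ : ℕ∞) (fun s : ℝ => gB √s) t :=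
    (gB_smooth_smo hs).comp t (Real.contDiffAt_sqrt ht.ne')
  have h2 := gB_pos hs
  exact (h1.div_const 2).sqrt (by positivity)

/-- `sg` is smooth on `(0, ∞)` (`gB_eq_bog`, `gB_pos`, `ContDiffAt.sqrt`); near a point outside
`tsupport φ` the product vanishes. -/
theorem contDiff_sg {φ : E3 → ℝ} (hφ : ContDiff ℝ (⊤ : ℕ∞) φ) (h0 : 0 ∉ tsupport φ) :
    ContDiff ℝ (⊤ : ℕ∞) fun κ : E3 => φ κ * sg (‖κ‖ ^ 2) := by
  refine contDiff_iff_contDiffAt.2 fun x => ?_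
  by_cases hx : x ∈ tsupport φ
  · have hx0 : x ≠ 0 := fun h => h0 (h ▸ hx)
    have ht : 0 < ‖x‖ ^ 2 := pow_pos (norm_pos_iff.2 hx0) 2
    have hn : ContDiff ℝ (⊤ : ℕ∞) fun κ : E3 => ‖κ‖ ^ 2 := contDiff_norm_sq ℝ
    have h1 : ContDiffAt ℝ (⊤ : ℕ∞) (sg ∘ fun κ : E3 => ‖κ‖ ^ 2) x :=
      ContDiffAt.comp (g := sg) (f := fun κ : E3 => ‖κ‖ ^ 2) x (sg_smooth_smo ht) hn.contDiffAt
    exact hφ.contDiffAt.mul h1
  · have h1 := notMem_tsupport_iff_eventuallyEq.1 hx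
    refine (contDiffAt_const (c := (0 : ℝ))).congr_of_eventuallyEq ?_
    filter_upwards [h1] with κ hκ
    rw [hκ]
    simp

/-- `gB_bounds`. -/
theorem gB_le {α t : ℝ} (hα : 0 < α) (ht : α ≤ t) : gB t ≤ 2 / α ^ 2 := by
  have ht0 : 0 < t := hα.trans_le ht
  have h1 := (gB_bounds (t := t ^ 2) (by positivity)).2
  rw [Real.sqrt_sq ht0.le] at h1
  have h2 : 1 / t ^ 2 ≤ 1 / α ^ 2 :=
    one_div_le_one_div_of_le (by positivity) (pow_le_pow_left₀ hα.le ht 2)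
  have h3 := min_le_left (1 / t ^ 2) (1 / (t ^ 2) ^ 2)
  have h4 : 2 / α ^ 2 = 2 * (1 / α ^ 2) := by ring
  linarith

/-- Weights supported away from the origin. -/
theorem exists_Gam {α : ℝ} (hα : 0 < α) : ∃ Γ : ℝ, 1 ≤ Γ ∧ ∀ x t : ℝ, 0 ≤ t → |x| ≤ 1 →
    (x ≠ 0 → α ^ 2 ≤ t) → x ^ 2 * gm t ^ 4 ≤ Γ * min t 1 ∧ |x| ≤ Γ * min t 1 := by
  have hm : 0 < min (α ^ 2) 1 := lt_min (by positivity) one_pos
  have hM : 1 ≤ (1 + 1 / α ^ 2) ^ 2 := one_le_pow₀ (le_add_of_nonneg_right (by positivity))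
  have hΓ : 1 ≤ (1 + 1 / α ^ 2) ^ 2 / min (α ^ 2) 1 :=
    (one_le_div hm).2 ((min_le_right _ _).trans hM)
  refine ⟨_, hΓ, fun x t ht hx h => ?_⟩
  by_cases h0 : x = 0
  · have h1 : 0 ≤ (1 + 1 / α ^ 2) ^ 2 / min (α ^ 2) 1 * min t 1 :=
      mul_nonneg (by linarith) (le_min ht zero_le_one)
    subst h0
    exact ⟨by simpa using h1, by simpa using h1⟩
  · have h1 := h h0
    have ht0 : 0 < t := lt_of_lt_of_le (by positivity) h1
    have h2 : (1 + 1 / α ^ 2) ^ 2 ≤ (1 + 1 / α ^ 2) ^ 2 / min (α ^ 2) 1 * min t 1 := by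
      rw [div_mul_eq_mul_div, le_div_iff₀ hm]
      exact mul_le_mul_of_nonneg_left (min_le_min_right _ h1) (by positivity)
    have h3 : gB √t ≤ 2 / α ^ 2 := gB_le hα (Real.le_sqrt_of_sq_le h1)
    have h4 : gm t ^ 2 ≤ 1 + 1 / α ^ 2 := by
      rw [gm_sq ht0, sg_sq ht0]
      have : 2 / α ^ 2 = 2 * (1 / α ^ 2) := by ring
      linarith
    have h5 : gm t ^ 4 ≤ (1 + 1 / α ^ 2) ^ 2 := by
      rw [show gm t ^ 4 = (gm t ^ 2) ^ 2 by ring]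
      exact pow_le_pow_left₀ (sq_nonneg _) h4 2
    have h6 : x ^ 2 ≤ 1 := by
      rw [← sq_abs]
      exact pow_le_one₀ (abs_nonneg _) hx
    refine ⟨le_trans ?_ h2, (hx.trans hM).trans h2⟩
    exact (mul_le_of_le_one_left (by positivity) h6).trans h5

end Pool.Agent.BoseLHY
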