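import Pool.Agent.Lib.MP_dec75e_mp.S.FkM
import Pool.Agent.Lib.MP_dec75e_mp.S.OneC
import Pool.Agent.Lib.MP_dec75e_mp.S.MainT
import Pool.Agent.Lib.MP_dec75e_mp.S.Grid2

/-! The lower bound on the torus in terms of the error functionals. -/

open MeasureTheory Finset Function
open scoped Real

noncomputable section

namespace Pool.Agent.BoseLHY

open Pool.Agent.BoseTail

variable {N : ℕ} {L : ℝ} [Fact (0 < L)]

theorem fin_toras {θ t G T O A a1 a2 a3 a4 a5 b1 b2 b3 a7 a8 : ℝ} (hθ : 0 < θ) (hθ1 : θ ≤ 1)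
    (ht : 1 ≤ t) (h1 : 0 ≤ a1) (h2 : 0 ≤ a2) (h3 : 0 ≤ a3) (h4 : 0 ≤ a4) (h5 : 0 ≤ a5)
    (k1 : 0 ≤ b1) (k2 : 0 ≤ b2) (k3 : 0 ≤ b3) (h7 : 0 ≤ a7) (h8 : 0 ≤ a8)
    (hG : G ≤ (1 + θ) * T + (1 + t) * a8)
    (hT : T ≤ (1 + θ) * O + 2 * (1 + t) * (a4 + a3 + 3 * a5) + (b1 + 3 * b2 + 12 * b3) +
      6 * (a4 + a7))
    (hO : O ≤ (1 + θ) * A + (1 + t) * (2 * a1 + 1568 * a2)) :
    G ≤ (1 + θ) ^ 3 * A + 20000 * t * (a1 + a2 + a3 + a4 + a5 + (b1 + b2 + b3) + a7 + a8) := by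
  have hp : 0 ≤ 1 + θ := by linarith
  have hp2 : 1 + θ ≤ 2 := by linarith
  have ht2 : 1 + t ≤ 2 * t := by linarith
  have key : ∀ x : ℝ, 0 ≤ x → (1 + t) * x ≤ 2 * (t * x) := fun x hx => by
    have := mul_le_mul_of_nonneg_right ht2 hx
    linarith
  have key2 : ∀ x : ℝ, 0 ≤ x → x ≤ t * x := fun x hx => le_mul_of_one_le_left hx ht
  obtain ⟨E1, hE1⟩ : ∃ E : ℝ, E = (1 + t) * (2 * a1 + 1568 * a2) := ⟨_, rfl⟩
  obtain ⟨E2, hE2⟩ : ∃ E : ℝ, E = 2 * (1 + t) * (a4 + a3 + 3 * a5) + (b1 + 3 * b2 + 12 * b3) +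
      6 * (a4 + a7) := ⟨_, rfl⟩
  have p1 : 0 ≤ E1 := by rw [hE1]; positivity
  have p2 : 0 ≤ E2 := by rw [hE2]; positivity
  have q1 : E1 ≤ 2 * (t * (2 * a1 + 1568 * a2)) := by rw [hE1]; exact key _ (by positivity)
  have q2 : E2 ≤ 4 * (t * (a4 + a3 + 3 * a5)) + t * (b1 + 3 * b2 + 12 * b3) +
      6 * (t * (a4 + a7)) := by
    have e1 := key (a4 + a3 + 3 * a5) (by positivity)
    have e2 := key2 (b1 + 3 * b2 + 12 * b3) (by positivity)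
    have e3 := key2 (a4 + a7) (by positivity)
    rw [hE2]
    linarith
  have q3 := key a8 h8
  have s1 : T ≤ (1 + θ) * ((1 + θ) * A + E1) + E2 := by
    have := mul_le_mul_of_nonneg_left (hE1 ▸ hO : O ≤ (1 + θ) * A + E1) hp
    rw [hE2]
    linarith
  have s2 := mul_le_mul_of_nonneg_left s1 hp
  have s3 : (1 + θ) * ((1 + θ) * E1) ≤ 2 * (2 * E1) :=
    mul_le_mul hp2 (mul_le_mul_of_nonneg_right hp2 p1) (by positivity) (by norm_num)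
  have s4 : (1 + θ) * E2 ≤ 2 * E2 := mul_le_mul_of_nonneg_right hp2 p2
  have s5 : (1 + θ) * ((1 + θ) * ((1 + θ) * A + E1) + E2) =
      (1 + θ) ^ 3 * A + (1 + θ) * ((1 + θ) * E1) + (1 + θ) * E2 := by ring
  have t0 : 0 ≤ t := by linarith
  have r1 := mul_nonneg t0 h1
  have r2 := mul_nonneg t0 h2
  have r3 := mul_nonneg t0 h3
  have r4 := mul_nonneg t0 h4
  have r5 := mul_nonneg t0 h5
  have r6 := mul_nonneg t0 k1
  have r7 := mul_nonneg t0 k2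
  have r8 := mul_nonneg t0 k3
  have r9 := mul_nonneg t0 h7
  have r10 := mul_nonneg t0 h8
  simp only [mul_add, mul_left_comm t, mul_assoc] at q1 q2 ⊢
  linarith

theorem LayE_nonneg_toras {H : R3 → ℝ} (hH : ∀ z, 0 ≤ H z) (m : ℕ) (r : ℝ) (ψ : Cf N L → ℂ) :
    0 ≤ LayE H m r ψ := by
  refine sum_nonneg fun i _ => integral_nonneg fun X => mul_nonneg ?_ ?_
  · exact Set.indicator_nonneg (fun _ _ => zero_le_one) _
  · exact integral_nonneg fun z => mul_nonneg (hH z) (sq_nonneg _)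

theorem div_toras {P x e : ℝ} (hP : 0 < P) (h : P * x ≤ e) : x ≤ e / P := by
  rw [le_div_iff₀ hP, mul_comm]; exact h

/-- `fock_main` multiplied by `(L ^ 3) ^ N` (apply it with `e / (L ^ 3) ^ N`,
`N₀ = 1 / (L ^ 3) ^ N` from `lift_props`, `ω = 1 / K ^ 3` from `row_pw`, `besH_pw`), `one_body`
and `main_term` with `ζ = φ * s`; finally `1 + θ ≤ 2`, `1 + 1 / θ ≤ 2 / θ`. -/
theorem torus_low {ψ : Cf N L → ℂ} (hψ : Adm ψ) {K R : ℕ} {l r : ℝ} (hl : 0 < l) (hK : 1 ≤ K)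
    (hL : L = K * l) {h h' : BF R3} (he : Ev h.1) (hs : Supp h.1 r) (he' : Ev h'.1)
    (hs' : Supp h'.1 r) (hr0 : 0 ≤ r) (hr : r ≤ l) {H : R3 → ℝ} (hH : Mono H) (hHi : Integrable H)
    (hh : ∀ z, |h.1 z| ≤ H z) {γ s φ ϖ : M3 → ℝ} {G : Set ℕ} {n2 : ℕ}
    {ν δ n1 Γ θ d d' lam cH e₁ e₂ e₃ e₄ e₅ e₆ : ℝ} (S : Finset (Fin 3 → ℤ))
    (g : (Fin 3 → ℤ) → ℝ)
    (hyp : ∀ m ∈ Lset R, γ m ^ 2 = 1 + s m ^ 2) (ν0 : 0 < ν) (νδ : ν ≤ δ) (δ1 : δ ≤ 1 / 10)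
    (hn : ν * n2 ≤ 1 + δ) (hG : G ⊆ Set.Iic n2) (hn1 : 1 - δ ≤ ν * n1) (hG1 : ∀ n ∈ G, n1 ≤ n)
    (hφ : ∀ m ∈ Lset R, φ m ^ 2 * γ m ^ 4 ≤ Γ * ϖ m) (hϖ0 : ∀ m, 0 ≤ ϖ m) (hϖ : ∀ m, ϖ m ≤ 1)
    (hΓ : 0 ≤ Γ) (hθ : 0 < θ) (hθ1 : θ ≤ 1) (hd0 : 0 ≤ d)
    (hd : ∀ m, ((if m ∈ Lset R then φ m else 0) - sy h (pk l m)) ^ 2 ≤ d * ϖ m)
    (hd' : ∀ m, |(if m ∈ Lset R then φ m * s m else 0) - sy h' (pk l m)| ≤ d')
    (hlam : ∀ n ∈ S, sy h (fun c => kvec L n c) ^ 2 ≤ lam)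
    (hg : ∀ n ∈ S, g n ≤ sy h' (fun c => kvec L n c) ^ 2 * (1 - 6 * (r / l)))
    (hcH : (∫ z, H z) ≤ cH) (h10 : 0 ≤ e₁)
    (h1 : (L ^ 3) ^ N *
      (aG (big L) (cell 0 K l hl 0) G (Lset R) ν γ s (fun m => φ m ^ 2 * γ m ^ 2) (liftRe ψ hψ.1.1) +
        aG (big L) (cell 0 K l hl 0) G (Lset R) ν γ s (fun m => φ m ^ 2 * γ m ^ 2)
          (liftIm ψ hψ.1.1)) ≤ e₁)
    (h2 : (L ^ 3) ^ N * (aN (big L) (cell 0 K l hl 0) Gᶜ (liftRe ψ hψ.1.1) +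
      aN (big L) (cell 0 K l hl 0) Gᶜ (liftIm ψ hψ.1.1)) ≤ e₂)
    (h3 : (L ^ 3) ^ N * (aM (big L) (cell 0 K l hl 0) Gᶜ ϖ (liftRe ψ hψ.1.1) +
      aM (big L) (cell 0 K l hl 0) Gᶜ ϖ (liftIm ψ hψ.1.1)) ≤ e₃)
    (h4 : (L ^ 3) ^ N * (aP (big L) (cell 0 K l hl 0) G (liftRe ψ hψ.1.1) +
      aP (big L) (cell 0 K l hl 0) G (liftIm ψ hψ.1.1)) ≤ e₄)
    (h5 : (L ^ 3) ^ N * (aM (big L) (cell 0 K l hl 0) Set.univ ϖ (liftRe ψ hψ.1.1) +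
      aM (big L) (cell 0 K l hl 0) Set.univ ϖ (liftIm ψ hψ.1.1)) ≤ e₅)
    (h6 : LayE H K r ψ ≤ e₆) :
    ∑ n ∈ S, g n ≤ (1 + θ) ^ 3 * lam * ∑ n ∈ S, N * Mom ψ n / L ^ 3 +
      20000 / θ * (d * e₅ + cH * e₆ + e₁ + Γ * e₃ + Γ * δ * ((Lset R).card * (K : ℝ) ^ 3 + e₄) +
        Γ * S.card * (e₂ / (K : ℝ) ^ 3 + δ + ν * e₄ / (K : ℝ) ^ 3) + Γ * (Lset R).card * e₂ +
        S.card * d' ^ 2) := by
  have hL0 : 0 < L := Fact.out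
  have hK0 : (0 : ℝ) < K := by exact_mod_cast hK
  have hcube : (big L).Cube (K * l) := fun c => hL
  have hP : Part (big L) (cell 0 K l hl 0) := part_cell hl hcube 0
  have hQ : ∀ k : Fin 3 → Fin K, (cell 0 K l hl 0 k).Cube l := cell_cube 0 hl
  obtain ⟨-, -, -, -, hn0⟩ := lift_props hψ
  have hP0 : 0 < (L ^ 3) ^ N := by positivity
  have hH0 : ∀ z, 0 ≤ H z := fun z => (abs_nonneg _).trans (hh z)
  have hω : (0 : ℝ) ≤ 1 / (K : ℝ) ^ 3 := by positivity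
  have hrow : ∀ n ∈ S, ∀ j : Fin 3 → Fin K, ∑ m ∈ Lset R,
      ((big L).ip (hb (cell 0 K l hl 0) (j, m)) (cw L n) ^ 2 +
        (big L).ip (hb (cell 0 K l hl 0) (j, m)) (sw L n) ^ 2) ≤ 1 / (K : ℝ) ^ 3 := by
    intro n _ j
    refine (row_pw hP j (Lset R) n).trans (le_of_eq ?_)
    rw [(hQ j).vol, hL]
    field_simp
  have hN : nq (ipB fun _ => (big L).μ) (liftRe ψ hψ.1.1) +
      nq (ipB fun _ => (big L).μ) (liftIm ψ hψ.1.1) = 1 / (L ^ 3) ^ N := by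
    rw [eq_div_iff hP0.ne', mul_comm]; exact hn0
  have hF := fock_main hP (prm_liftRe hψ) (prm_liftIm hψ) R S (cw L) (sw L) hyp ν0 νδ δ1 hn hG hn1
    hG1 (besH_pw hP S _) hω hrow hφ hϖ0 hϖ hΓ hθ (div_toras hP0 h1) (div_toras hP0 h2)
    (div_toras hP0 h3) (div_toras hP0 h4) hN
  have hO := one_body hψ.1.1 hl hL he hs hr hH hHi hh (Lset R) hϖ0 hϖ hd hθ S
  have hM := fun n => main_term hP hQ he' hs' hr0 hr (Lset R) (ζ := fun m => φ m * s m) hθ hd' n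
  have hcard : (Fintype.card (Fin 3 → Fin K) : ℝ) = (K : ℝ) ^ 3 := by simp
  rw [hcard] at hF
  have n2 : 0 ≤ e₂ := le_trans (mul_nonneg hP0.le (add_nonneg aN_nonneg aN_nonneg)) h2
  have n3 : 0 ≤ e₃ := le_trans (mul_nonneg hP0.le (add_nonneg (aM_nonneg hϖ0) (aM_nonneg hϖ0))) h3
  have n4 : 0 ≤ e₄ := le_trans (mul_nonneg hP0.le (add_nonneg aP_nonneg aP_nonneg)) h4
  have n5 : 0 ≤ e₅ := le_trans (mul_nonneg hP0.le (add_nonneg (aM_nonneg hϖ0) (aM_nonneg hϖ0))) h5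
  have n6 := LayE_nonneg_toras hH0 K r ψ
  have n7 : 0 ≤ ∫ z, H z := integral_nonneg hH0
  have n8 : (∫ z, H z) * LayE H K r ψ ≤ cH * e₆ := mul_le_mul hcH h6 n6 (n7.trans hcH)
  have hδ : 0 < δ := ν0.trans_le νδ
  have ht : 1 ≤ 1 / θ := by rw [le_div_iff₀ hθ]; linarith
  have hA : ∑ n ∈ S, sy h (fun c => kvec L n c) ^ 2 * (N * Mom ψ n / L ^ 3) ≤
      lam * ∑ n ∈ S, N * Mom ψ n / L ^ 3 := by
    rw [mul_sum]
    exact sum_le_sum fun n hn => mul_le_mul_of_nonneg_right (hlam n hn)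
      (div_nonneg (mul_nonneg (Nat.cast_nonneg _) (Mom_nonneg hψ.1.1 n)) (by positivity))
  have hS : ∑ n ∈ S, g n ≤ (1 + θ) * (∑ n ∈ S, ∑ x ∈ univ ×ˢ Lset R,
      ((big L).ip (hb (cell 0 K l hl 0) x) (cw L n) ^ 2 +
        (big L).ip (hb (cell 0 K l hl 0) x) (sw L n) ^ 2) * (φ x.2 * s x.2) ^ 2) +
      (1 + 1 / θ) * (S.card * d' ^ 2) := by
    refine (sum_le_sum fun n hn => (hg n hn).trans (hM n)).trans (le_of_eq ?_)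
    rw [sum_add_distrib, ← mul_sum, sum_const, nsmul_eq_mul]
    ring
  have hF2 := mul_le_mul_of_nonneg_left hF hP0.le
  generalize ∑ n ∈ S, ∑ x ∈ univ ×ˢ Lset R,
      ((big L).ip (hb (cell 0 K l hl 0) x) (cw L n) ^ 2 +
        (big L).ip (hb (cell 0 K l hl 0) x) (sw L n) ^ 2) * (φ x.2 * s x.2) ^ 2 = T at hS hF2
  generalize ∑ n ∈ S, occZ (big L) (lowf (big L) (cell 0 K l hl 0) (Lset R) φ (cw L n))
      (lowf (big L) (cell 0 K l hl 0) (Lset R) φ (sw L n)) (liftRe ψ hψ.1.1) (liftIm ψ hψ.1.1) = O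
    at hO hF2
  generalize aM (big L) (cell 0 K l hl 0) Set.univ ϖ (liftRe ψ hψ.1.1) +
      aM (big L) (cell 0 K l hl 0) Set.univ ϖ (liftIm ψ hψ.1.1) = Mu at hO h5
  generalize ∑ n ∈ S, sy h (fun c => kvec L n c) ^ 2 * (N * Mom ψ n / L ^ 3) = A0 at hO hA
  generalize ∑ n ∈ S, N * Mom ψ n / L ^ 3 = A1 at hA ⊢
  generalize (L ^ 3) ^ N = P at hF2 hO h5 hP0
  clear hF hM hrow hN h1 h2 h3 h4 hn0
  have hT : T ≤ (1 + θ) * (P * O) + 2 * (1 + 1 / θ) * (Γ * e₃ + e₁ +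
      3 * (Γ * δ * ((Lset R).card * (K : ℝ) ^ 3 + e₄))) +
      (Γ * S.card * (e₂ / (K : ℝ) ^ 3) + 3 * (Γ * S.card * δ) +
        12 * (Γ * S.card * (ν * e₄ / (K : ℝ) ^ 3))) + 6 * (Γ * e₃ + Γ * (Lset R).card * e₂) := by
    refine le_of_eq_of_le ?_ (hF2.trans (le_of_eq ?_))
    · field_simp
    · field_simp
  have hO2 : P * O ≤ (1 + θ) * (lam * A1) + (1 + 1 / θ) * (2 * (d * e₅) + 1568 * (cH * e₆)) := by
    refine hO.trans (add_le_add (mul_le_mul_of_nonneg_left hA (by linarith))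
      (mul_le_mul_of_nonneg_left ?_ (by linarith)))
    have := mul_le_mul_of_nonneg_left h5 hd0
    linarith
  have hfin := fin_toras hθ hθ1 ht (mul_nonneg hd0 n5) ((mul_nonneg n7 n6).trans n8) h10
    (mul_nonneg hΓ n3) (by positivity) (by positivity) (by positivity) (by positivity)
    (by positivity) (by positivity) hS hT hO2
  refine hfin.trans (le_of_eq ?_)
  ring

end Pool.Agent.BoseLHY
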