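import Pool.Agent.Lib.MP_dec75e_mp.S.Grid2
import Pool.Agent.Lib.MP_dec75e_mp.L.Main3

/-! The error functionals are controlled by the energy. -/

open MeasureTheory Finset Function
open scoped Real

noncomputable section

namespace Pool.Agent.BoseLHY

open Pool.Agent.BoseTail

theorem marg_torbs {y L l K N a k C₀ η σ X S Z E : ℝ} (hy : 0 < y) (hl : 0 < l) (hK : 0 < K)
    (hL : L = K * l) (ha : 0 < a) (h1 : 1 ≤ l * y ^ 404) (hN : N = y ^ 800 * L ^ 3)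
    (hC : 0 ≤ C₀) (hyη : y ≤ η) (hσ : 0 ≤ σ)
    (hS : (l * (k * y ^ 400) / π) ^ 3 * (X - η) ≤ S)
    (hT : 4 * π * a * y ^ 800 * N + K ^ 3 *
        (-(2 * π * a * y ^ 1600 * l ^ 3) + 4 * π * a * y ^ 800 * S - C₀ * y ^ 789) + Z ≤ E)
    (hE : E ≤ 2 * π * a * y ^ 800 * N +
      4 * π * a * y ^ 800 * (L * (k * y ^ 400) / π) ^ 3 * (X + σ)) :
    Z ≤ (4 * π * a * (k / π) ^ 3 + C₀) * (σ + η) * (y ^ 2000 * L ^ 3) := by
  have hL0 : 0 < L := by rw [hL]; positivity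
  have e1 := e1_main3 hy hK hL h1 hC
  have e4 : 4 * π * a * y ^ 800 * (L * (k * y ^ 400) / π) ^ 3 =
      4 * π * a * (k / π) ^ 3 * (y ^ 2000 * L ^ 3) := by ring
  have e5 : 4 * π * a * y ^ 800 * (L * (k * y ^ 400) / π) ^ 3 * (X - η) ≤
      K ^ 3 * (4 * π * a * y ^ 800 * S) := by
    calc 4 * π * a * y ^ 800 * (L * (k * y ^ 400) / π) ^ 3 * (X - η)
        = K ^ 3 * (4 * π * a * y ^ 800 * ((l * (k * y ^ 400) / π) ^ 3 * (X - η))) := by
          rw [hL]; ring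
      _ ≤ K ^ 3 * (4 * π * a * y ^ 800 * S) :=
          mul_le_mul_of_nonneg_left (mul_le_mul_of_nonneg_left hS (by positivity))
            (by positivity)
  have e6 : K ^ 3 * (2 * π * a * y ^ 1600 * l ^ 3) = 2 * π * a * y ^ 800 * N := by
    rw [hN, hL]; ring
  have hW : 0 ≤ y ^ 2000 * L ^ 3 := by positivity
  have e7 : C₀ * y * (y ^ 2000 * L ^ 3) ≤ C₀ * (σ + η) * (y ^ 2000 * L ^ 3) :=
    mul_le_mul_of_nonneg_right (mul_le_mul_of_nonneg_left (by linarith) hC) hW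
  rw [e4] at e5 hE
  generalize y ^ 2000 * L ^ 3 = W at *
  generalize 4 * π * a * (k / π) ^ 3 = U at *
  generalize y ^ 800 = u at *
  generalize y ^ 789 = u' at *
  generalize y ^ 1600 = u'' at *
  nlinarith [e1, e5, e6, e7, hT, hE]

theorem crude_torbs {y L N a k C₀ σ X Z E : ℝ} (hy : 0 < y) (hy1 : y ≤ 1) (hL : 0 < L)
    (ha : 0 < a) (hk : 0 < k) (hN : N = y ^ 800 * L ^ 3) (hX : 0 ≤ X) (hσ : σ ≤ 1)
    (hT : 4 * π * a * y ^ 800 * N - 2 * π * a * y ^ 1600 * L ^ 3 - C₀ * y ^ 1199 * N + Z ≤ E)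
    (hE : E ≤ 2 * π * a * y ^ 800 * N +
      4 * π * a * y ^ 800 * (L * (k * y ^ 400) / π) ^ 3 * (X + σ)) :
    Z ≤ (4 * π * a * (k / π) ^ 3 * (X + 1) + C₀) * (y ^ 1999 * L ^ 3) := by
  have e4 : 4 * π * a * y ^ 800 * (L * (k * y ^ 400) / π) ^ 3 =
      4 * π * a * (k / π) ^ 3 * (y * (y ^ 1999 * L ^ 3)) := by ring
  have e6 : 2 * π * a * y ^ 1600 * L ^ 3 = 2 * π * a * y ^ 800 * N := by
    rw [hN]; ring
  have e7 : C₀ * y ^ 1199 * N = C₀ * (y ^ 1999 * L ^ 3) := by rw [hN]; ring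
  have hW : 0 ≤ y ^ 1999 * L ^ 3 := by positivity
  have hU : 0 ≤ 4 * π * a * (k / π) ^ 3 := by positivity
  have e8 : 4 * π * a * (k / π) ^ 3 * (y * (y ^ 1999 * L ^ 3)) * (X + σ) ≤
      4 * π * a * (k / π) ^ 3 * (y ^ 1999 * L ^ 3) * (X + 1) := by
    by_cases h : 0 ≤ X + σ
    · exact mul_le_mul (mul_le_mul_of_nonneg_left (mul_le_of_le_one_left hW hy1) hU)
        (by linarith) h (mul_nonneg hU hW)
    · exact (mul_nonpos_of_nonneg_of_nonpos (by positivity) (not_le.1 h).le).trans (by positivity)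
  rw [e4] at hE
  rw [e6, e7] at hT
  generalize y ^ 1999 * L ^ 3 = W at *
  generalize 4 * π * a * (k / π) ^ 3 = U at *
  generalize y ^ 800 = u at *
  linarith

theorem div_torbs {b x M C W z : ℝ} (hb : 0 < b) (hz : 0 < z) (hW : 0 ≤ W) (hC : M ≤ C * b)
    (h : b * z * x ≤ M * (z * W)) : x ≤ C * W := by
  refine le_of_mul_le_mul_left (h.trans ?_) (mul_pos hb hz)
  calc M * (z * W) ≤ C * b * (z * W) := mul_le_mul_of_nonneg_right hC (by positivity)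
    _ = b * z * (C * W) := by ring

theorem norm_torbs {P X n n' g g' e e' E : ℝ} (hP : 0 ≤ P) (hn : P * (n + n') = 1)
    (h : X * n + g ≤ e) (h' : X * n' + g' ≤ e') (hE : P * (e + e') ≤ E) :
    X + P * (g + g') ≤ E := by
  have h1 := mul_le_mul_of_nonneg_left (add_le_add h h') hP
  have h2 : P * (X * n + g + (X * n' + g')) = X * (P * (n + n')) + P * (g + g') := by ring
  rw [h2, hn, mul_one] at h1
  exact h1.trans hE

/-- `grid2` for the real and the imaginary part (`lift_props`, `energy_ge`; `(big L).o = 0`,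
`bigM N L = fun _ => (big L).μ`), `sum_FF_ge` with `φ = 0`, `ε = 0`, `b = 0` for the lower bound
`(l κ / π) ^ 3 (c₀ - η) ≤ ∑ FF`, `e1_main3`. The margin is at most
`μ₀ ((c / π) ^ 3 (σ + η) + C y) y ^ 1200 L ^ 3` where `κ = c y ^ 400`. For the first bound drop the
nonnegative terms `aN`, `aM`; for the second and third use `grid2` with `e = 0` (`aG_mul` with
`c = 0`); the last follows from `aP_le_aM` and `Dat.vp_ge`. -/
theorem torus_err (D : Dat) :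
    ∃ C ε₀ : ℝ, 1 ≤ C ∧ 0 < ε₀ ∧ ∀ η : ℝ, 0 < η → η ≤ 1 → ∃ y₀ : ℝ, 0 < y₀ ∧ y₀ ≤ 1 ∧
    ∀ (y l : ℝ) (hl : 0 < l) (R K : ℕ) (e : M3 → ℝ) (σ : ℝ), Scale y l R → y ≤ y₀ → 1 ≤ K →
      D.Sml y l R ε₀ e → 0 ≤ σ → σ ≤ 1 →
    ∀ (N : ℕ) (L : ℝ) [Fact (0 < L)] (ψ : Cf N L → ℂ) (hψ : Adm ψ), L = K * l →
      (N : ℝ) = y ^ 800 * L ^ 3 → ∀ (χ : BF R3) (E : ℝ), Wgt χ →
      (∀ k, D.Gd χ (cell (big L).o K l hl 0 k) y l) →
      (L ^ 3) ^ N * (En (bigM N L) univ (D.W χ) (liftRe ψ hψ.1.1) +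
        En (bigM N L) univ (D.W χ) (liftIm ψ hψ.1.1)) ≤ E →
      E ≤ 2 * π * D.a * y ^ 800 * N +
        D.mu0 y * (L * √(2 * D.mu0 y) / π) ^ 3 * (2 * √2 * π / 15 + σ) →
      (L ^ 3) ^ N *
        (aG (big L) (cell 0 K l hl 0) (Near y l) (Lset R) (y ^ 800 * l ^ 3)⁻¹ (D.gf y l) (D.sf y l) e
            (liftRe ψ hψ.1.1) +
          aG (big L) (cell 0 K l hl 0) (Near y l) (Lset R) (y ^ 800 * l ^ 3)⁻¹ (D.gf y l) (D.sf y l) e
            (liftIm ψ hψ.1.1)) ≤ C * (σ + η) * (y ^ 1200 * L ^ 3) ∧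
      (L ^ 3) ^ N * (aN (big L) (cell 0 K l hl 0) (Near y l)ᶜ (liftRe ψ hψ.1.1) +
        aN (big L) (cell 0 K l hl 0) (Near y l)ᶜ (liftIm ψ hψ.1.1)) ≤ C * (y ^ 1240 * L ^ 3) ∧
      (L ^ 3) ^ N * (aM (big L) (cell 0 K l hl 0) (Near y l)ᶜ (D.vp y l) (liftRe ψ hψ.1.1) +
        aM (big L) (cell 0 K l hl 0) (Near y l)ᶜ (D.vp y l) (liftIm ψ hψ.1.1)) ≤
        C * (σ + η) * (y ^ 1200 * L ^ 3) ∧
      (L ^ 3) ^ N * (aM (big L) (cell 0 K l hl 0) Set.univ (D.vp y l) (liftRe ψ hψ.1.1) +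
        aM (big L) (cell 0 K l hl 0) Set.univ (D.vp y l) (liftIm ψ hψ.1.1)) ≤
        C * (y ^ 1199 * L ^ 3) ∧
      (L ^ 3) ^ N * (aP (big L) (cell 0 K l hl 0) (Near y l) (liftRe ψ hψ.1.1) +
        aP (big L) (cell 0 K l hl 0) (Near y l) (liftIm ψ hψ.1.1)) ≤ C * (y ^ 1190 * L ^ 3) := by
  obtain ⟨C₀, c, ε₀, yg, hC₀, hc0, hc1, hε₀, hyg, hyg1, hg⟩ := grid2 D
  have ha := D.ha
  obtain ⟨k, hkdef⟩ : ∃ k : ℝ, k = √(8 * π * D.a) := ⟨_, rfl⟩
  have hk0 : 0 < k := by rw [hkdef]; positivity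
  obtain ⟨X, hXdef⟩ : ∃ X : ℝ, X = 2 * √2 * π / 15 := ⟨_, rfl⟩
  have hX0 : 0 ≤ X := by rw [hXdef]; positivity
  obtain ⟨U, hUdef⟩ : ∃ U : ℝ, U = 4 * π * D.a * (k / π) ^ 3 := ⟨_, rfl⟩
  have hU0 : 0 ≤ U := by rw [hUdef]; positivity
  obtain ⟨M, hMdef⟩ : ∃ M : ℝ, M = U * (X + 1) + C₀ := ⟨_, rfl⟩
  have hM1 : U + C₀ ≤ M := by
    have := mul_nonneg hU0 hX0
    rw [hMdef]; linarith
  have hM0 : 1 ≤ M := by linarith
  have hb : 0 < 4 * π * D.a := by positivity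
  have hcb : 0 < c * (4 * π * D.a) := by positivity
  obtain ⟨C, hCdef⟩ : ∃ C : ℝ, C = 2 * M + M / (c * (4 * π * D.a)) := ⟨_, rfl⟩
  have hq : 0 ≤ M / (c * (4 * π * D.a)) := by positivity
  have hC2 : 2 * M ≤ C := by rw [hCdef]; linarith
  have hC3 : M ≤ C * (c * (4 * π * D.a)) := by
    rw [← div_le_iff₀ hcb, hCdef]; linarith
  have hC4 : M ≤ C * (4 * π * D.a) :=
    hC3.trans (mul_le_mul_of_nonneg_left (mul_le_of_le_one_left hb.le hc1) (by linarith))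
  refine ⟨C, ε₀, by linarith, hε₀, fun η hη hη1 => ?_⟩
  obtain ⟨ys, hys, hS⟩ := sum_FF_ge D (φ := fun _ => 0) continuous_const
    HasCompactSupport.zero (by simp) (fun _ _ _ => rfl) (le_refl (1 : ℝ)) hη
  refine ⟨min (min yg ys) (min η (1 / (4 * π * D.a))), by positivity,
    (min_le_left _ _).trans ((min_le_left _ _).trans hyg1), ?_⟩
  intro y l hl R K e σ hSc hyy hK he hσ0 hσ1 N L _ ψ hψ hL hN χ E hχ hGd hE hEn
  have hy := hSc.y0
  have hy1 : y ≤ yg := hyy.trans ((min_le_left _ _).trans (min_le_left _ _))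
  have hy2 : y ≤ ys := hyy.trans ((min_le_left _ _).trans (min_le_right _ _))
  have hy3 : y ≤ η := hyy.trans ((min_le_right _ _).trans (min_le_left _ _))
  have hy4 : y ≤ 1 / (4 * π * D.a) := hyy.trans ((min_le_right _ _).trans (min_le_right _ _))
  have hy5 : y ≤ 1 := hy1.trans hyg1
  have hy6 : 4 * π * D.a * y ≤ 1 := by rw [mul_comm]; exact (le_div_iff₀ hb).1 hy4
  have hL0 : 0 < L := Fact.out
  have hK0 : (0 : ℝ) < K := by exact_mod_cast hK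
  have hκ : √(2 * D.mu0 y) = k * y ^ 400 := by rw [kappa_main3 D hy, hkdef]
  obtain ⟨c1, c2, s1, s2, hn⟩ := lift_props hψ
  have hcube : (big L).Cube (K * l) := fun c => hL
  have hP : 0 ≤ (L ^ 3) ^ N := by positivity
  have hvp0 : ∀ m, 0 ≤ D.vp y l m := D.vp_nonneg hy l
  have hS1 := hS y l R 0 (fun _ => 0) hSc hy2 (by simp) (by simp) (fun m => by simp; positivity)
  have hS2 : (l * (k * y ^ 400) / π) ^ 3 * (X - η) ≤
      ∑ m ∈ Lset R, FF (D.tm y l m + 0) (D.tm y l m) := by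
    refine le_of_eq_of_le ?_ hS1
    rw [hκ, hXdef]; ring
  rw [hκ, ← hXdef] at hEn
  have hmu : D.mu0 y = 4 * π * D.a * y ^ 800 := rfl
  have hmu0 := D.mu0_pos hy
  have hW : 0 ≤ (σ + η) * (y ^ 1200 * L ^ 3) := by positivity
  have main : ∀ e' : M3 → ℝ, D.Sml y l R ε₀ e' →
      D.mu0 y * ((L ^ 3) ^ N *
        (aG (big L) (cell 0 K l hl 0) (Near y l) (Lset R) (y ^ 800 * l ^ 3)⁻¹ (D.gf y l) (D.sf y l) e'
            (liftRe ψ hψ.1.1) +
          aG (big L) (cell 0 K l hl 0) (Near y l) (Lset R) (y ^ 800 * l ^ 3)⁻¹ (D.gf y l) (D.sf y l) e'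
            (liftIm ψ hψ.1.1))) +
        y ^ 760 * ((L ^ 3) ^ N * (aN (big L) (cell 0 K l hl 0) (Near y l)ᶜ (liftRe ψ hψ.1.1) +
          aN (big L) (cell 0 K l hl 0) (Near y l)ᶜ (liftIm ψ hψ.1.1))) +
        c * D.mu0 y * ((L ^ 3) ^ N *
          (aM (big L) (cell 0 K l hl 0) (Near y l)ᶜ (D.vp y l) (liftRe ψ hψ.1.1) +
            aM (big L) (cell 0 K l hl 0) (Near y l)ᶜ (D.vp y l) (liftIm ψ hψ.1.1))) ≤
        M * (y ^ 800 * ((σ + η) * (y ^ 1200 * L ^ 3))) := by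
    intro e' he'
    have g1 := (hg y l hl R K e' hSc hy1 he' (big L) _ χ hχ hGd hcube s1 c1).1
    have g2 := (hg y l hl R K e' hSc hy1 he' (big L) _ χ hχ hGd hcube s2 c2).1
    rw [add_assoc, add_assoc, Fintype.card_fin] at g1 g2
    have g3 := norm_torbs hP hn g1 g2 hE
    have g4 := marg_torbs hy hl hK0 hL ha hSc.l1 hN (by linarith : 0 ≤ C₀) hy3 hσ0 hS2 g3 hEn
    rw [← hUdef] at g4
    refine le_of_eq_of_le ?_ (g4.trans ?_)
    · show _ = (L ^ 3) ^ N * _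
      have ho : (big L).o = 0 := rfl
      rw [ho]
      ring
    · calc (U + C₀) * (σ + η) * (y ^ 2000 * L ^ 3)
          = (U + C₀) * (y ^ 800 * ((σ + η) * (y ^ 1200 * L ^ 3))) := by ring
        _ ≤ _ := mul_le_mul_of_nonneg_right hM1 (by positivity)
  have n1 : 0 ≤ y ^ 760 * ((L ^ 3) ^ N *
      (aN (big L) (cell 0 K l hl 0) (Near y l)ᶜ (liftRe ψ hψ.1.1) +
        aN (big L) (cell 0 K l hl 0) (Near y l)ᶜ (liftIm ψ hψ.1.1))) :=
    mul_nonneg (by positivity) (mul_nonneg hP (add_nonneg aN_nonneg aN_nonneg))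
  have n2 : 0 ≤ c * D.mu0 y * ((L ^ 3) ^ N *
      (aM (big L) (cell 0 K l hl 0) (Near y l)ᶜ (D.vp y l) (liftRe ψ hψ.1.1) +
        aM (big L) (cell 0 K l hl 0) (Near y l)ᶜ (D.vp y l) (liftIm ψ hψ.1.1))) :=
    mul_nonneg (by positivity) (mul_nonneg hP (add_nonneg (aM_nonneg hvp0) (aM_nonneg hvp0)))
  have m1 := main e he
  have m0 := main (fun m => 0 * e m) ⟨fun m => by simp, fun m _ => by
    simpa using mul_nonneg hε₀.le (hvp0 m)⟩
  rw [aG_mul, aG_mul, zero_mul, zero_mul, add_zero, mul_zero, mul_zero, zero_add] at m0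
  have hy800 : 0 < y ^ 800 := by positivity
  have r4 : (L ^ 3) ^ N * (aM (big L) (cell 0 K l hl 0) Set.univ (D.vp y l) (liftRe ψ hψ.1.1) +
      aM (big L) (cell 0 K l hl 0) Set.univ (D.vp y l) (liftIm ψ hψ.1.1)) ≤
      C * (y ^ 1199 * L ^ 3) := by
    have g1 := (hg y l hl R K e hSc hy1 he (big L) _ χ hχ hGd hcube s1 c1).2
    have g2 := (hg y l hl R K e hSc hy1 he (big L) _ χ hχ hGd hcube s2 c2).2
    rw [Fintype.card_fin, ← hL] at g1 g2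
    have g3 := norm_torbs hP hn g1 g2 hE
    have g4 := crude_torbs hy hy5 hL0 ha hk0 hN hX0 hσ1 g3 hEn
    rw [← hUdef, ← hMdef] at g4
    refine div_torbs hcb hy800 (by positivity) hC3 (le_of_eq_of_le ?_ (g4.trans (le_of_eq ?_)))
    · have ho : (big L).o = 0 := rfl
      rw [ho, hmu]
      ring
    · ring
  refine ⟨?_, ?_, ?_, r4, ?_⟩
  · rw [mul_assoc C]
    refine div_torbs hb hy800 hW hC4 ?_
    rw [← hmu]
    linarith
  · have h760 : 0 < y ^ 760 := by positivity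
    refine div_torbs (M := 2 * M) one_pos h760 (by positivity) (by rw [mul_one]; exact hC2) ?_
    have e1 : M * (y ^ 800 * ((σ + η) * (y ^ 1200 * L ^ 3))) ≤
        2 * M * (y ^ 760 * (y ^ 1240 * L ^ 3)) := by
      calc M * (y ^ 800 * ((σ + η) * (y ^ 1200 * L ^ 3)))
          = (σ + η) * (M * (y ^ 760 * (y ^ 1240 * L ^ 3))) := by ring
        _ ≤ 2 * (M * (y ^ 760 * (y ^ 1240 * L ^ 3))) :=
          mul_le_mul_of_nonneg_right (by linarith) (by positivity)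
        _ = _ := by ring
    rw [one_mul]
    linarith
  · rw [mul_assoc C]
    refine div_torbs hcb hy800 hW hC3 ?_
    rw [mul_assoc c, ← hmu]
    linarith
  · have h9 : 0 < y ^ 9 := by positivity
    have p1 := aP_le_aM (B := big L) (Q := cell 0 K l hl 0) (A := Near y l) (u := liftRe ψ hψ.1.1)
      hvp0 (D.vp_le_one y l) fun m hm => D.vp_ge hSc hy5 hy6 hm
    have p2 := aP_le_aM (B := big L) (Q := cell 0 K l hl 0) (A := Near y l) (u := liftIm ψ hψ.1.1)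
      hvp0 (D.vp_le_one y l) fun m hm => D.vp_ge hSc hy5 hy6 hm
    have p3 := (mul_le_mul_of_nonneg_left (add_le_add p1 p2) hP).trans r4
    refine div_torbs one_pos h9 (by positivity) (le_of_eq (mul_one C).symm)
      (le_of_eq_of_le ?_ (p3.trans (le_of_eq ?_)))
    · ring
    · ring

end Pool.Agent.BoseLHY
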