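import Pool.Agent.Lib.MP_dec75e_mp.S.TorA
import Pool.Agent.Lib.MP_dec75e_mp.S.TorB
import Pool.Agent.Lib.MP_dec75e_mp.S.Kern2
import Pool.Agent.Lib.MP_dec75e_mp.S.RiemZ

/-! The lower bound on the momentum distribution. -/

open MeasureTheory Finset Function
open scoped Real

noncomputable section

namespace Pool.Agent.BoseLHY

open Pool.Agent.BoseTail

/-- The window of particle numbers. -/
theorem near_facts {y l : ℝ} {R : ℕ} (h : Scale y l R) (hy : y ≤ 1 / 10) :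
    0 < (y ^ 800 * l ^ 3)⁻¹ ∧ (y ^ 800 * l ^ 3)⁻¹ ≤ y ^ 412 ∧ y ^ 412 ≤ y ^ 80 ∧ y ^ 80 ≤ 1 / 10 ∧
      (y ^ 800 * l ^ 3)⁻¹ * (⌊(1 + y ^ 80) * (y ^ 800 * l ^ 3)⌋₊ : ℝ) ≤ 1 + y ^ 80 ∧
      Near y l ⊆ Set.Iic ⌊(1 + y ^ 80) * (y ^ 800 * l ^ 3)⌋₊ ∧
      1 - y ^ 80 ≤ (y ^ 800 * l ^ 3)⁻¹ * ((1 - y ^ 80) * (y ^ 800 * l ^ 3)) ∧
      ∀ n ∈ Near y l, (1 - y ^ 80) * (y ^ 800 * l ^ 3) ≤ n := by
  have hy0 := h.y0
  have hl := h.l_pos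
  have hy1 : y ≤ 1 := by linarith
  have hM : 0 < y ^ 800 * l ^ 3 := by positivity
  have h1 : 1 ≤ y ^ 800 * l ^ 3 * y ^ 412 := by
    calc (1 : ℝ) ≤ (l * y ^ 404) ^ 3 := one_le_pow₀ h.l1
      _ = y ^ 800 * l ^ 3 * y ^ 412 := by ring
  have h2 : y ^ 412 ≤ y ^ 80 := pow_le_pow_of_le_one hy0.le hy1 (by norm_num)
  have h3 : y ^ 80 ≤ y := pow_le_of_le_one hy0.le hy1 (by norm_num)
  have h4 : 0 < y ^ 80 := by positivity
  unfold Near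
  generalize y ^ 800 * l ^ 3 = M at hM h1 ⊢
  generalize y ^ 80 = δ at h2 h3 h4 ⊢
  refine ⟨inv_pos.2 hM, ?_, h2, h3.trans hy, ?_, ?_, ?_, ?_⟩
  · rw [inv_le_iff_one_le_mul₀' hM]
    exact h1
  · rw [inv_mul_le_iff₀ hM, mul_comm M]
    exact Nat.floor_le (by positivity)
  · intro n hn
    have h5 := (abs_le.1 (show |(n : ℝ) - M| ≤ δ * M from hn)).2
    exact Nat.le_floor (by linarith)
  · exact le_of_eq (by field_simp)
  · intro n hn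
    have h5 := (abs_le.1 (show |(n : ℝ) - M| ≤ δ * M from hn)).1
    linarith

/-- All errors are small in the unit `W = y ^ 1200 L ^ 3`; here `V = L ^ 3`, `k` is the number of
low modes, `K3 = K ^ 3` the number of cells and `s` the number of momenta. -/
theorem err_torc {y V C Γ x ε k K3 s ν : ℝ} (hy : 0 < y) (hy1 : y ≤ 1) (hV : 0 < V) (hC : 1 ≤ C)
    (hΓ : 1 ≤ Γ) (hx : 0 ≤ x) (hε : 0 < ε) (hk0 : 0 ≤ k) (hk : k * y ^ 36 ≤ 27)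
    (hK1 : y ^ 1212 * V ≤ 8 * K3) (hK2 : K3 ≤ y ^ 1212 * V) (hs0 : 0 ≤ s)
    (hs : s ≤ C * (y ^ 1200 * V)) (hν0 : 0 ≤ ν) (hν : ν ≤ y ^ 412) :
    C * y ^ 2 * (C * (y ^ 1199 * V)) + C * (C * (y ^ 1201 * V)) + C * x * (y ^ 1200 * V) / ε +
        Γ * (C * x * (y ^ 1200 * V)) + Γ * y ^ 80 * (k * K3 + C * (y ^ 1190 * V)) +
        Γ * s * (C * (y ^ 1240 * V) / K3 + y ^ 80 + ν * (C * (y ^ 1190 * V)) / K3) +
        Γ * k * (C * (y ^ 1240 * V)) + s * (C * y ^ 2) ^ 2 ≤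
      ((C / ε + Γ * C) * x + 100 * Γ * C ^ 3 * y) * (y ^ 1200 * V) := by
  have hC0 : 0 < C := by linarith
  have hΓ0 : 0 < Γ := by linarith
  have hW : 0 < y ^ 1200 * V := by positivity
  have hp : ∀ n : ℕ, y ^ (n + 1) ≤ y := fun n => pow_le_of_le_one hy.le hy1 (Nat.succ_ne_zero n)
  have hK0 : 0 < K3 := by
    have : 0 < y ^ 1212 * V := by positivity
    linarith
  have t1 : C * y ^ 2 * (C * (y ^ 1199 * V)) = C ^ 2 * (y * (y ^ 1200 * V)) := by ring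
  have t2 : C * (C * (y ^ 1201 * V)) = C ^ 2 * (y * (y ^ 1200 * V)) := by ring
  have t5 : y ^ 80 * (k * K3) ≤ 27 * (y * (y ^ 1200 * V)) := by
    calc y ^ 80 * (k * K3) ≤ y ^ 80 * (k * (y ^ 1212 * V)) := by gcongr
      _ = k * y ^ 36 * (y ^ (55 + 1) * (y ^ 1200 * V)) := by ring
      _ ≤ 27 * (y * (y ^ 1200 * V)) := by have := hp 55; gcongr
  have t5' : y ^ 80 * (C * (y ^ 1190 * V)) ≤ C * (y * (y ^ 1200 * V)) := by
    calc y ^ 80 * (C * (y ^ 1190 * V)) = C * (y ^ (69 + 1) * (y ^ 1200 * V)) := by ring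
      _ ≤ C * (y * (y ^ 1200 * V)) := by have := hp 69; gcongr
  have t6 : C * (y ^ 1240 * V) / K3 ≤ 8 * C * y := by
    rw [div_le_iff₀ hK0]
    calc C * (y ^ 1240 * V) = C * y ^ (27 + 1) * (y ^ 1212 * V) := by ring
      _ ≤ C * y * (8 * K3) := by have := hp 27; gcongr
      _ = 8 * C * y * K3 := by ring
  have t6' : ν * (C * (y ^ 1190 * V)) / K3 ≤ 8 * C * y := by
    rw [div_le_iff₀ hK0]
    calc ν * (C * (y ^ 1190 * V)) ≤ y ^ 412 * (C * (y ^ 1190 * V)) := by gcongr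
      _ = C * y ^ (389 + 1) * (y ^ 1212 * V) := by ring
      _ ≤ C * y * (8 * K3) := by have := hp 389; gcongr
      _ = 8 * C * y * K3 := by ring
  have t6'' : s * (C * (y ^ 1240 * V) / K3 + y ^ 80 + ν * (C * (y ^ 1190 * V)) / K3) ≤
      17 * C ^ 2 * (y * (y ^ 1200 * V)) := by
    have a1 : y ^ 80 ≤ C * y := (hp 79).trans (le_mul_of_one_le_left hy.le hC)
    have a2 : C * (y ^ 1240 * V) / K3 + y ^ 80 + ν * (C * (y ^ 1190 * V)) / K3 ≤ 17 * C * y := by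
      linarith
    calc _ ≤ s * (17 * C * y) := mul_le_mul_of_nonneg_left a2 hs0
      _ ≤ C * (y ^ 1200 * V) * (17 * C * y) := by gcongr
      _ = _ := by ring
  have t7 : k * (C * (y ^ 1240 * V)) ≤ 27 * C * (y * (y ^ 1200 * V)) := by
    calc k * (C * (y ^ 1240 * V)) = k * y ^ 36 * C * (y ^ (3 + 1) * (y ^ 1200 * V)) := by ring
      _ ≤ 27 * C * (y * (y ^ 1200 * V)) := by have := hp 3; gcongr
  have t8 : s * (C * y ^ 2) ^ 2 ≤ C ^ 3 * (y * (y ^ 1200 * V)) := by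
    calc s * (C * y ^ 2) ^ 2 = s * (C ^ 2 * y ^ (3 + 1)) := by ring
      _ ≤ C * (y ^ 1200 * V) * (C ^ 2 * y) := by have := hp 3; gcongr
      _ = _ := by ring
  rw [t1, t2]
  generalize y ^ 1200 * V = W at *
  generalize C * (y ^ 1240 * V) / K3 + y ^ 80 + ν * (C * (y ^ 1190 * V)) / K3 = T at *
  generalize C * (y ^ 1240 * V) = T2 at *
  generalize C * (y ^ 1190 * V) = T3 at *
  generalize (C * y ^ 2) ^ 2 = T4 at *
  generalize y ^ 80 = δ at *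
  have hZ : 0 < y * W := by positivity
  have e : ((C / ε + Γ * C) * x + 100 * Γ * C ^ 3 * y) * W =
      C * x * W / ε + Γ * (C * x * W) + 100 * (Γ * (C ^ 3 * (y * W))) := by ring
  rw [e]
  generalize y * W = Z at *
  have c1 : 1 ≤ C ^ 3 := one_le_pow₀ hC
  have c2 : C ≤ C ^ 3 := le_self_pow₀ hC (by norm_num)
  have c3 : C ^ 2 ≤ C ^ 3 := pow_le_pow_right₀ hC (by norm_num)
  have d1 : Z ≤ C ^ 3 * Z := le_mul_of_one_le_left hZ.le c1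
  have d2 : C * Z ≤ C ^ 3 * Z := mul_le_mul_of_nonneg_right c2 hZ.le
  have d3 : C ^ 2 * Z ≤ C ^ 3 * Z := mul_le_mul_of_nonneg_right c3 hZ.le
  have d4 : C ^ 3 * Z ≤ Γ * (C ^ 3 * Z) := le_mul_of_one_le_left (by positivity) hΓ
  have f1 : Γ * (δ * (k * K3) + δ * T3 + s * T + k * T2) ≤ Γ * (72 * (C ^ 3 * Z)) :=
    mul_le_mul_of_nonneg_left (by linarith) hΓ0.le
  have d5 : 0 ≤ Γ * (C ^ 3 * Z) := by positivity
  linarith

theorem fin_torcs {G A s W C a θ T U y : ℝ} (hy : 0 < y) (hy1 : y ≤ 1) (hW : 0 ≤ W)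
    (hC : 1 ≤ C) (ha : 0 ≤ a) (hθ : 0 < θ) (hθ1 : θ ≤ 1) (hA : 0 ≤ A) (hs0 : 0 ≤ s)
    (hs : s ≤ C * W) (hG : G ≤ s * a) (hU : 0 ≤ U) (h1 : C * y ≤ θ)
    (h2 : 15 * θ * (C * a) + C ^ 2 * y + T ≤ U)
    (h : G - s * (C * y ^ 2) ≤ (1 + θ) ^ 3 * (1 + C * y ^ 2) * A + T * W) : G - U * W ≤ A := by
  have hC0 : 0 < C := by linarith
  have hUW : 0 ≤ U * W := mul_nonneg hU hW
  rcases le_total G A with hc | hc
  · linarith
  have hy2 : y ^ 2 ≤ y := pow_le_of_le_one hy.le hy1 (by norm_num)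
  have h3 : C * y ^ 2 ≤ C * y := mul_le_mul_of_nonneg_left hy2 hC0.le
  have h4 : (1 + θ) ^ 3 * (1 + C * y ^ 2) ≤ 1 + 15 * θ := by
    have a1 : θ ^ 2 ≤ θ := pow_le_of_le_one hθ.le hθ1 (by norm_num)
    have a2 : θ ^ 3 ≤ θ := pow_le_of_le_one hθ.le hθ1 (by norm_num)
    have a3 : θ ^ 4 ≤ θ := pow_le_of_le_one hθ.le hθ1 (by norm_num)
    calc (1 + θ) ^ 3 * (1 + C * y ^ 2) ≤ (1 + θ) ^ 3 * (1 + θ) :=
          mul_le_mul_of_nonneg_left (by linarith) (by positivity)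
      _ = 1 + 4 * θ + 6 * θ ^ 2 + 4 * θ ^ 3 + θ ^ 4 := by ring
      _ ≤ 1 + 15 * θ := by linarith
  have h5 : (1 + θ) ^ 3 * (1 + C * y ^ 2) * A ≤ (1 + 15 * θ) * A :=
    mul_le_mul_of_nonneg_right h4 hA
  have h6 : A ≤ C * W * a := hc.trans (hG.trans (mul_le_mul_of_nonneg_right hs ha))
  have h7 : 15 * θ * A ≤ 15 * θ * (C * W * a) := mul_le_mul_of_nonneg_left h6 (by positivity)
  have h8 : s * (C * y ^ 2) ≤ C * W * (C * y) := mul_le_mul hs h3 (by positivity) (by positivity)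
  have h9 := mul_le_mul_of_nonneg_right h2 hW
  nlinarith

theorem ratio_torcs {y l : ℝ} {R : ℕ} (h : Scale y l R) (hy : y ≤ 1) :
    1 / y ^ 402 ≤ l ∧ 1 / y ^ 402 / l ≤ y ^ 2 := by
  have hy0 := h.y0
  have hl := h.l_pos
  constructor
  · rw [div_le_iff₀ (by positivity)]
    calc (1 : ℝ) ≤ l * y ^ 404 := h.l1
      _ ≤ l * y ^ 402 :=
        mul_le_mul_of_nonneg_left (pow_le_pow_of_le_one hy0.le hy (by norm_num)) hl.le
  · rw [div_div, div_le_iff₀ (by positivity)]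
    calc (1 : ℝ) ≤ l * y ^ 404 := h.l1
      _ = y ^ 2 * (y ^ 402 * l) := by ring

theorem cells_torcs {y l L K : ℝ} {R : ℕ} (h : Scale y l R) (hK : 0 < K) (hL : L = K * l) :
    y ^ 1212 * L ^ 3 ≤ 8 * K ^ 3 ∧ K ^ 3 ≤ y ^ 1212 * L ^ 3 := by
  have hy0 := h.y0
  have hl := h.l_pos
  have e : y ^ 1212 * L ^ 3 = (l * y ^ 404) ^ 3 * K ^ 3 := by rw [hL]; ring
  have h1 : 1 ≤ (l * y ^ 404) ^ 3 := one_le_pow₀ h.l1
  have h2 : (l * y ^ 404) ^ 3 ≤ 2 ^ 3 := pow_le_pow_left₀ (by positivity) h.l2 3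
  have h3 : 0 ≤ K ^ 3 := by positivity
  rw [e]
  exact ⟨mul_le_mul_of_nonneg_right (by linarith) h3, le_mul_of_one_le_left h3 h1⟩

theorem one_le_torcs {y L c : ℝ} (hy : 0 < y) (hy1 : y ≤ 1) (hc : y ≤ c)
    (hL : 1 ≤ L * y ^ 404) : 0 < L ∧ 1 ≤ L * (c * y ^ 400) := by
  have hy4 : 0 < y ^ 404 := pow_pos hy _
  have hL0 : 0 < L := by
    by_contra hn
    have : L * y ^ 404 ≤ 0 := mul_nonpos_of_nonpos_of_nonneg (not_lt.1 hn) hy4.le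
    linarith
  have h4 : y ^ 4 ≤ c := (pow_le_of_le_one hy.le hy1 (by norm_num)).trans hc
  refine ⟨hL0, hL.trans ?_⟩
  calc L * y ^ 404 = L * (y ^ 4 * y ^ 400) := by ring
    _ ≤ L * (c * y ^ 400) := by gcongr

theorem sml_torcs (D : Dat) {y l ε₀ Γ : ℝ} {R : ℕ} (h : Scale y l R) (hε : 0 < ε₀) (hΓ : 1 ≤ Γ)
    {φ : M3 → ℝ} (hφ : ∀ m ∈ Lset R, φ m ^ 2 * D.gf y l m ^ 4 ≤ Γ * D.vp y l m) :
    (∀ m ∈ Lset R, D.gf y l m ^ 2 = 1 + D.sf y l m ^ 2) ∧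
      D.Sml y l R ε₀ fun m => ε₀ / (2 * Γ) * (φ m ^ 2 * D.gf y l m ^ 2) := by
  have hΓ0 : 0 < Γ := by linarith
  have h1 : ∀ m ∈ Lset R, D.gf y l m ^ 2 = 1 + D.sf y l m ^ 2 := fun m hm =>
    gm_sq (D.tm_pos h (mem_Lset.1 hm).1).1
  refine ⟨h1, fun m => by positivity, fun m hm => ?_⟩
  have h2 : D.gf y l m ^ 2 + D.sf y l m ^ 2 ≤ 2 * D.gf y l m ^ 2 := by linarith [h1 m hm]
  calc ε₀ / (2 * Γ) * (φ m ^ 2 * D.gf y l m ^ 2) * (D.gf y l m ^ 2 + D.sf y l m ^ 2)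
      ≤ ε₀ / (2 * Γ) * (φ m ^ 2 * D.gf y l m ^ 2) * (2 * D.gf y l m ^ 2) :=
        mul_le_mul_of_nonneg_left h2 (by positivity)
    _ = ε₀ / Γ * (φ m ^ 2 * D.gf y l m ^ 4) := by field_simp
    _ ≤ ε₀ / Γ * (Γ * D.vp y l m) := mul_le_mul_of_nonneg_left (hφ m hm) (by positivity)
    _ = ε₀ * D.vp y l m := by field_simp

/-- `exists_scale`, `kernels`, `good_shift` with `apriori_D` (the layer term is
`O (y ^ 1201 L ^ 3)`), then `torus_err` with `e = ε φ² gf²`, `ε = ε₀ / (2 Γ)` (`aG_mul`) and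
`torus_low` for the translated function (`adm_tr`, `energy_tr`, `Mom_tr`), `card_shell`,
`err_torc`. Order of the choices: `θ` small compared with `η`, then `η'` and the `η` of
`torus_err`, then `y₀`. If `∑ n_k ≥ ∑ gB / 2` there is nothing to prove; otherwise
`∑ n_k ≤ card / α²` (`gB_le`) and `(1 + θ) ^ 3 (1 + C y²) ≤ 1 + 15 θ`. -/
theorem lower_y {v : E3 → ℝ} (hv : Continuous v) (h0 : ∀ x, 0 ≤ v x) (hc : HasCompactSupport v)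
    (D : Dat) (hw : ∀ z, D.w.1 z = v (WithLp.toLp 2 z)) {α β η : ℝ} (hα : 0 < α) (hαβ : α < β)
    (hη : 0 < η) {A : ℝ} (hA0 : 0 ≤ A) : ∃ y₀ η' : ℝ, 0 < y₀ ∧ y₀ ≤ 1 ∧ 0 < η' ∧
    ∀ (y : ℝ) (N : ℕ) (L : ℝ) [Fact (0 < L)] (ψ : Cf N L → ℂ), 0 < y → y ≤ y₀ →
      (N : ℝ) = y ^ 800 * L ^ 3 → 1 ≤ L * y ^ 404 → Adm ψ → PB D.V A ψ →
      energy v ψ ≤ 2 * π * D.a * y ^ 800 * N +
        D.mu0 y * (L * √(2 * D.mu0 y) / π) ^ 3 * (2 * √2 * π / 15 + η') →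
      ∀ S : Finset (Fin 3 → ℤ), (∀ n ∈ S, α ≤ ‖(√(2 * D.mu0 y))⁻¹ • kvec L n‖ ∧
        ‖(√(2 * D.mu0 y))⁻¹ • kvec L n‖ ≤ β) →
      ∑ n ∈ S, gB ‖(√(2 * D.mu0 y))⁻¹ • kvec L n‖ / 2 - η * (L * √(2 * D.mu0 y)) ^ 3 ≤
        ∑ n ∈ S, N * Mom ψ n / L ^ 3 := by
  have ha := D.ha
  have hπ := Real.pi_pos
  have hβ : 0 < β := hα.trans hαβ
  obtain ⟨c, hcdef⟩ : ∃ c : ℝ, c = √(8 * π * D.a) := ⟨_, rfl⟩
  have hc0 : 0 < c := by rw [hcdef]; positivity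
  obtain ⟨E, hEdef⟩ : ∃ E : ℝ, E = 4 * π * D.a * (c / π) ^ 3 * (2 * √2 * π / 15 + 1) := ⟨_, rfl⟩
  have hE : 0 ≤ E := by rw [hEdef]; positivity
  obtain ⟨Ck, Γ, yk, hCk, hΓ, hyk, hyk1, hker⟩ := kernels D hα hαβ
  obtain ⟨Ce, ε₀, hCe, hε₀, herr⟩ := torus_err D
  obtain ⟨Ca, ya, hCa, hya, -, hA⟩ := apriori_D hv h0 hc D hw hE hA0
  obtain ⟨Cq, hCq, hsh⟩ := good_shift2 hv h0 hc D hw hA0
  obtain ⟨C, hCdef⟩ : ∃ C : ℝ, C = Ck + Ce + 6 * Ck * Ca + (β + 1) ^ 3 * c ^ 3 + Cq := ⟨_, rfl⟩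
  have hCk0 : 0 < Ck := by linarith
  have hCe0 : 0 < Ce := by linarith
  have hCa0 : 0 < Ca := by linarith
  have hq1 : 0 < 6 * Ck * Ca := by positivity
  have hq2 : 0 < (β + 1) ^ 3 * c ^ 3 := by positivity
  have hC1 : Ck ≤ C := by linarith
  have hC2 : Ce ≤ C := by linarith
  have hC3 : 6 * Ck * Ca + Cq ≤ C := by linarith
  have hC4 : (β + 1) ^ 3 * c ^ 3 ≤ C := by linarith
  have hC : 1 ≤ C := by linarith
  have hC0 : 0 < C := by linarith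
  have hΓ0 : 0 < Γ := by linarith
  obtain ⟨ε, hεdef⟩ : ∃ ε : ℝ, ε = ε₀ / (2 * Γ) := ⟨_, rfl⟩
  have hε : 0 < ε := by rw [hεdef]; positivity
  obtain ⟨U, hUdef⟩ : ∃ U : ℝ, U = η * c ^ 3 := ⟨_, rfl⟩
  have hU : 0 < U := by rw [hUdef]; positivity
  obtain ⟨a, hadef⟩ : ∃ a : ℝ, a = 1 / α ^ 2 := ⟨_, rfl⟩
  have ha0 : 0 < a := by rw [hadef]; positivity
  obtain ⟨θ, hθ, hθ1, hθ2⟩ : ∃ θ : ℝ, 0 < θ ∧ θ ≤ 1 ∧ 15 * θ * (C * a) ≤ U / 3 := by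
    refine ⟨min 1 (U / 3 / (15 * (C * a))), by positivity, min_le_left _ _, ?_⟩
    have h1 := (le_div_iff₀ (show 0 < 15 * (C * a) by positivity)).1
      (min_le_right 1 (U / 3 / (15 * (C * a))))
    linarith
  obtain ⟨P, hPdef⟩ : ∃ P : ℝ, P = C / ε + Γ * C := ⟨_, rfl⟩
  have hP : 0 < P := by rw [hPdef]; positivity
  obtain ⟨σ, hσ, hσ1, hσ2⟩ : ∃ σ : ℝ, 0 < σ ∧ σ ≤ 1 ∧ 20000 / θ * (P * (σ + σ)) ≤ U / 3 := by
    refine ⟨min 1 (U / 3 / (20000 / θ * (P * 2))), by positivity, min_le_left _ _, ?_⟩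
    have h1 := (le_div_iff₀ (show 0 < 20000 / θ * (P * 2) by positivity)).1
      (min_le_right 1 (U / 3 / (20000 / θ * (P * 2))))
    linarith
  obtain ⟨ye, hye, -, herr⟩ := herr σ hσ hσ1
  obtain ⟨Q, hQdef⟩ : ∃ Q : ℝ, Q = C ^ 2 + 20000 / θ * (100 * Γ * C ^ 3) := ⟨_, rfl⟩
  have hQ : 0 < Q := by rw [hQdef]; positivity
  refine ⟨min (min (min yk ya) (min ye (1 / 10))) (min c (min (θ / C)
      (min (U / 3 / Q) (4 * π * D.a * (c / π) ^ 3 * (σ / 2) / C)))), σ / 2,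
    by positivity, (min_le_left _ _).trans ((min_le_left _ _).trans
      ((min_le_left _ _).trans hyk1)), half_pos hσ, ?_⟩
  intro y N L _ ψ hy hyy hN hL hψ hPB hEn S hS
  simp only [le_min_iff] at hyy
  obtain ⟨⟨⟨y1, y2⟩, y3, y4⟩, y5, y6, y7, y8⟩ := hyy
  have hy1 : y ≤ 1 := y1.trans hyk1
  have hκ : √(2 * D.mu0 y) = c * y ^ 400 := by rw [kappa_main1 D hy, hcdef]
  have hκ0 : 0 < √(2 * D.mu0 y) := by rw [hκ]; positivity
  obtain ⟨hL0, hLκ⟩ := one_le_torcs hy hy1 y5 hL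
  obtain ⟨K, R, l, hK, hl, hLK, hSc⟩ := exists_scale hy hy1 hL
  have hK0 : (0 : ℝ) < K := by exact_mod_cast hK
  have hcont : Continuous ψ := hψ.1.1
  have hr0 : (0 : ℝ) < 1 / y ^ 402 := by positivity
  obtain ⟨hrl, hrl2⟩ := ratio_torcs hSc hy1
  obtain ⟨hK1, hK2⟩ := cells_torcs hSc hK0 hLK
  obtain ⟨h, h', H, φ, he, hs, he', hs', hH, hHi, hh, hcH, k1, k2, k3, k4, k5⟩ := hker y l R hSc y1
  have hH0 : ∀ z, 0 ≤ H z := fun z => (abs_nonneg _).trans (hh z)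
  have hV : 0 < L ^ 3 := by positivity
  have hW : 0 < y ^ 1200 * L ^ 3 := by positivity
  have hEn' : energy v ψ ≤ 2 * π * D.a * y ^ 800 * N + E * y ^ 1200 * N := by
    refine hEn.trans (add_le_add le_rfl ?_)
    have hm := D.mu0_pos hy
    calc D.mu0 y * (L * √(2 * D.mu0 y) / π) ^ 3 * (2 * √2 * π / 15 + σ / 2)
        ≤ D.mu0 y * (L * √(2 * D.mu0 y) / π) ^ 3 * (2 * √2 * π / 15 + 1) :=
          mul_le_mul_of_nonneg_left (by linarith) (by positivity)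
      _ = E * y ^ 1200 * N := by
          rw [hκ, hEdef, hN]
          unfold Dat.mu0
          generalize 2 * √2 * π / 15 + 1 = t
          ring
  have h800 : 0 < y ^ 800 := by positivity
  obtain ⟨u, χ, e, hχ, hG, he0, hge, hu⟩ := hsh N L ψ hψ y l K K H (1 / y ^ 402) (y ^ 800) hPB hy
    hy1 hK hLK hSc.l1 hN hHi hH0 hK hr0.le h800.le
  have hGd : ∀ k, D.Gd χ (cell (big L).o K l hl 0 k) y l := fun k =>
    hG _ (fun c => k c) (fun c => by rw [cell_corner]; simp [big, cube0]) (cell_cube _ hl k)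
  have hψ' : Adm (tr u ψ) := adm_tr u hψ
  have h5 : y ^ 800 * LayE H K (1 / y ^ 402) (tr u ψ) + e ≤
      y ^ 800 * (C * (y ^ 1201 * L ^ 3)) := by
    have b1 := k5 (Dz ψ) _ (bm_Dz hcont) (Dz_nonneg ψ) (hA y N L ψ hy y2 hN hL hψ hPB hEn')
    have b2 : 6 * (K : ℝ) * (1 / y ^ 402) / L = 6 * (1 / y ^ 402 / l) := by
      rw [hLK]; field_simp
    rw [b2, hN] at hu
    rw [hN] at b1
    have b3 : 6 * (1 / y ^ 402 / l) * ∫ z, H z * Dz ψ z ≤ 6 * Ck * Ca * (y ^ 1201 * L ^ 3) :=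
      calc _ ≤ 6 * (1 / y ^ 402 / l) * (Ck * (Ca * (y ^ 800 * L ^ 3) * y ^ 399)) :=
            mul_le_mul_of_nonneg_left b1 (by positivity)
        _ ≤ 6 * y ^ 2 * (Ck * (Ca * (y ^ 800 * L ^ 3) * y ^ 399)) :=
            mul_le_mul_of_nonneg_right (by linarith) (by positivity)
        _ = 6 * Ck * Ca * (y ^ 1201 * L ^ 3) := by ring
    calc _ ≤ _ := hu
      _ ≤ y ^ 800 * (6 * Ck * Ca * (y ^ 1201 * L ^ 3)) + Cq * y ^ 1201 * (y ^ 800 * L ^ 3) :=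
          add_le_add (mul_le_mul_of_nonneg_left b3 h800.le) le_rfl
      _ = y ^ 800 * ((6 * Ck * Ca + Cq) * (y ^ 1201 * L ^ 3)) := by ring
      _ ≤ _ := mul_le_mul_of_nonneg_left (mul_le_mul_of_nonneg_right hC3 (by positivity)) h800.le
  have h6 : LayE H K (1 / y ^ 402) (tr u ψ) ≤ C * (y ^ 1201 * L ^ 3) :=
    le_of_mul_le_mul_left (by linarith) h800
  have h7 : energy v ψ + e ≤ 2 * π * D.a * y ^ 800 * N +
      D.mu0 y * (L * √(2 * D.mu0 y) / π) ^ 3 * (2 * √2 * π / 15 + σ) := by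
    have b1 := mul_nonneg h800.le (LayE_nonneg_toras hH0 K (1 / y ^ 402) (tr u ψ))
    have b2 : y * C ≤ 4 * π * D.a * (c / π) ^ 3 * (σ / 2) := (le_div_iff₀ hC0).1 y8
    have b3 : y ^ 800 * (C * (y ^ 1201 * L ^ 3)) ≤
        D.mu0 y * (L * √(2 * D.mu0 y) / π) ^ 3 * (σ / 2) :=
      calc _ = y * C * (y ^ 2000 * L ^ 3) := by ring
        _ ≤ 4 * π * D.a * (c / π) ^ 3 * (σ / 2) * (y ^ 2000 * L ^ 3) :=
            mul_le_mul_of_nonneg_right b2 (by positivity)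
        _ = _ := by rw [hκ]; unfold Dat.mu0; ring
    generalize D.mu0 y * (L * √(2 * D.mu0 y) / π) ^ 3 = Z at hEn b3 ⊢
    linarith
  obtain ⟨hyp, hsm⟩ := sml_torcs D hSc hε₀ hΓ k1
  rw [← hεdef] at hsm
  obtain ⟨r1, r2, r3, r4, r5⟩ := herr y l hl R K _ σ hSc y3 hK hsm hσ.le hσ1 N L (tr u ψ) hψ' hLK
    hN χ _ hχ hGd hge h7
  rw [aG_mul, aG_mul] at r1
  obtain ⟨n1, n2, n3, n4, n5, n6, n7, n8⟩ := near_facts hSc y4
  have hσσ : 0 ≤ σ + σ := by positivity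
  have hCx : Ce * (σ + σ) * (y ^ 1200 * L ^ 3) ≤ C * (σ + σ) * (y ^ 1200 * L ^ 3) := by gcongr
  have hCy : Ck * y ^ 2 ≤ C * y ^ 2 := by gcongr
  have main := torus_low hψ' hl hK hLK he hs he' hs' hr0.le hrl hH hHi hh
    (γ := D.gf y l) (s := D.sf y l) (φ := φ) (ϖ := D.vp y l) (G := Near y l)
    (θ := θ) (d := C * y ^ 2) (d' := C * y ^ 2) (lam := 1 + C * y ^ 2) (cH := C)
    (e₁ := C * (σ + σ) * (y ^ 1200 * L ^ 3) / ε) (e₂ := C * (y ^ 1240 * L ^ 3))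
    (e₃ := C * (σ + σ) * (y ^ 1200 * L ^ 3)) (e₄ := C * (y ^ 1190 * L ^ 3))
    (e₅ := C * (y ^ 1199 * L ^ 3)) (e₆ := C * (y ^ 1201 * L ^ 3)) S
    (fun n => gB ‖(√(2 * D.mu0 y))⁻¹ • kvec L n‖ / 2 - C * y ^ 2) hyp n1 (n2.trans n3) n4 n5 n6
    n7 n8 k1 (D.vp_nonneg hy l) (D.vp_le_one y l) hΓ0.le hθ hθ1 (by positivity)
    (fun m => (k2 m).trans (mul_le_mul_of_nonneg_right hCy (D.vp_nonneg hy l m)))
    (fun m => (k3 m).trans hCy)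
    (fun n hn => (k4 _ (hS n hn).1 (hS n hn).2).1.trans (by linarith))
    (fun n hn => le_trans (by linarith) (k4 _ (hS n hn).1 (hS n hn).2).2)
    (hcH.trans hC1) (by positivity)
    (by rw [le_div_iff₀ hε]; linarith)
    (r2.trans (mul_le_mul_of_nonneg_right hC2 (by positivity))) (r3.trans hCx)
    (r5.trans (mul_le_mul_of_nonneg_right hC2 (by positivity)))
    (r4.trans (mul_le_mul_of_nonneg_right hC2 (by positivity))) h6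
  simp only [Mom_tr hcont] at main
  have hs0 : (0 : ℝ) ≤ S.card := Nat.cast_nonneg _
  have hLc : (L * √(2 * D.mu0 y)) ^ 3 = c ^ 3 * (y ^ 1200 * L ^ 3) := by rw [hκ]; ring
  have hsc : (S.card : ℝ) ≤ C * (y ^ 1200 * L ^ 3) := by
    have b1 := card_shell hL0 hκ0 hβ.le (by rw [hκ]; exact hLκ) S fun n hn => (hS n hn).2
    rw [hLc, ← mul_assoc] at b1
    exact b1.trans (mul_le_mul_of_nonneg_right hC4 hW.le)
  have herr2 := err_torc hy hy1 hV hC hΓ hσσ hε (Nat.cast_nonneg (Lset R).card)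
    (hSc.card_le hy1) hK1 hK2 hs0 hsc n1.le n2
  have main2 := main.trans (add_le_add le_rfl
    (mul_le_mul_of_nonneg_left herr2 (show 0 ≤ 20000 / θ by positivity)))
  rw [Finset.sum_sub_distrib, Finset.sum_const, nsmul_eq_mul, ← mul_assoc (20000 / θ),
    ← hPdef] at main2
  have hG : ∑ n ∈ S, gB ‖(√(2 * D.mu0 y))⁻¹ • kvec L n‖ / 2 ≤ S.card * a := by
    rw [← nsmul_eq_mul]
    refine Finset.sum_le_card_nsmul _ _ _ fun n hn => ?_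
    have b1 := gB_le hα (hS n hn).1
    have b2 : 2 / α ^ 2 = 2 * a := by rw [hadef]; ring
    linarith
  have hA0 : 0 ≤ ∑ n ∈ S, N * Mom ψ n / L ^ 3 := Finset.sum_nonneg fun n _ =>
    div_nonneg (mul_nonneg (Nat.cast_nonneg _) (Mom_nonneg hcont n)) hV.le
  have hyθ : C * y ≤ θ := by rw [mul_comm]; exact (le_div_iff₀ hC0).1 y6
  have hyQ : y * Q ≤ U / 3 := (le_div_iff₀ hQ).1 y7
  have hfin := fin_torcs hy hy1 hW.le hC ha0.le hθ hθ1 hA0 hs0 hsc hG hU.le hyθ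
    (by rw [hQdef] at hyQ; linarith) main2
  rw [hLc, ← mul_assoc, ← hUdef]
  exact hfin

end Pool.Agent.BoseLHY
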